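import Pool.Agent.P.MP_afd974_lc.Limit

set_option autoImplicit false
set_option linter.unusedSectionVars false

open MeasureTheory Set Function Filter
open scoped ENNReal Pointwise Topology unitInterval

namespace Pool.Agent.P.MP_afd974_lc

section Binary

/-- Binary expansion. -/
noncomputable def bin (ω : ℕ → Bool) : ℝ :=
  Real.ofDigits (fun n => (if ω n then 1 else 0 : Fin 2))

lemma bin_nonneg (ω : ℕ → Bool) : 0 ≤ bin ω := Real.ofDigits_nonneg _
lemma bin_le_one (ω : ℕ → Bool) : bin ω ≤ 1 := Real.ofDigits_le_one _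

lemma measurable_bin : Measurable bin :=
  Real.continuous_ofDigits.measurable.comp (measurable_pi_lambda _ fun n =>
    (measurable_of_finite (fun b : Bool => (if b then 1 else 0 : Fin 2))).comp
      (measurable_pi_apply n))

lemma bin_eq (ω : ℕ → Bool) :
    bin ω = (if ω 0 then 1 else 0) / 2 + bin (fun n => ω (n + 1)) / 2 := by
  unfold bin
  rw [Real.ofDigits_eq_sum_add_ofDigits _ 1]
  simp only [Finset.range_one, Finset.sum_singleton, Real.ofDigitsTerm]
  cases ω 0 <;> simp <;> ring

lemma half_prob (b : Bool) (E : Set (ℕ → Bool)) (hE : MeasurableSet E) :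
    (coin ℕ).real {ω | ω 0 = b ∧ (fun n => ω (n + 1)) ∈ E} = (coin ℕ).real E / 2 := by
  have mt := mp_precomp fair (fun n : ℕ => n + 1) (add_left_injective 1)
  have hm : ∀ c : Bool, MeasurableSet {ω : ℕ → Bool | ω 0 = c ∧ (fun n => ω (n + 1)) ∈ E} := by
    intro c
    have m : Measurable (fun J : ℕ → Bool => J 0) := measurable_pi_apply 0
    exact (m (MeasurableSet.of_discrete (s := ({c} : Set Bool)))).inter (mt.measurable hE)
  have e1 : (coin ℕ).real {ω | ω 0 = !b ∧ (fun n => ω (n + 1)) ∈ E}
      = (coin ℕ).real {ω | ω 0 = b ∧ (fun n => ω (n + 1)) ∈ E} := by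
    rw [← (mp_flp (0 : ℕ)).measureReal_preimage (hm b).nullMeasurableSet]
    congr 1
    ext ω
    simp only [mem_ofPred_eq, mem_preimage, flp, if_true, Nat.succ_ne_zero, if_false]
    cases ω 0 <;> cases b <;> simp
  have e2 : (coin ℕ).real {ω | ω 0 = b ∧ (fun n => ω (n + 1)) ∈ E}
      + (coin ℕ).real {ω | ω 0 = !b ∧ (fun n => ω (n + 1)) ∈ E} = (coin ℕ).real E := by
    rw [← measureReal_union _ (hm _)]
    · have := mt.measureReal_preimage hE.nullMeasurableSet
      rw [← show _ = (coin ℕ).real E from this]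
      congr 1
      ext ω
      simp only [mem_union, mem_ofPred_eq, mem_preimage]
      cases ω 0 <;> cases b <;> simp
    · rw [disjoint_left]
      rintro ω ⟨h1, -⟩ ⟨h2, -⟩
      rw [h1] at h2
      cases b <;> simp at h2
  linarith

lemma cdf_bin (u : ℝ) : (coin ℕ).real {ω | bin ω ≤ u} = max 0 (min u 1) := by
  let F : ℝ → ℝ := fun u => (coin ℕ).real {ω | bin ω ≤ u}
  have hm : ∀ v, MeasurableSet {ω | bin ω ≤ v} := fun v => measurable_bin measurableSet_Iic
  have mt := mp_precomp fair (fun n : ℕ => n + 1) (add_left_injective 1)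
  have rc : ∀ u, F u = F (2 * u) / 2 + F (2 * u - 1) / 2 := by
    intro u
    simp only [F]
    rw [← half_prob false _ (hm _), ← half_prob true _ (hm _), ← measureReal_union]
    · congr 1
      ext ω
      simp only [mem_union, mem_ofPred_eq]
      rw [bin_eq ω]
      cases ω 0
      · simp only [Bool.false_eq_true, if_false, true_and, false_and, or_false]
        constructor <;> intro h <;> linarith
      · simp only [if_true, Bool.true_eq_false, false_and, true_and, false_or]
        constructor <;> intro h <;> linarith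
    · rw [disjoint_left]
      rintro ω ⟨h1, -⟩ ⟨h2, -⟩
      rw [h1] at h2
      simp at h2
    · have m : Measurable (fun J : ℕ → Bool => J 0) := measurable_pi_apply 0
      exact (m (MeasurableSet.of_discrete (s := ({true} : Set Bool)))).inter
        (mt.measurable (hm _))
  have F0 : ∀ u, u < 0 → F u = 0 := by
    intro u hu
    have : {ω | bin ω ≤ u} = ∅ := by
      ext ω; simp only [mem_ofPred_eq, mem_empty_iff_false, iff_false, not_le]
      exact hu.trans_le (bin_nonneg ω)
    simp [F, this]
  have F1 : ∀ u, 1 ≤ u → F u = 1 := by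
    intro u hu
    have : {ω | bin ω ≤ u} = univ := by
      ext ω; simp only [mem_ofPred_eq, mem_univ, iff_true]
      exact (bin_le_one ω).trans hu
    simp [F, this]
  have key : ∀ k : ℕ, ∀ u, |F u - max 0 (min u 1)| ≤ (1 / 2 : ℝ) ^ k := by
    intro k
    induction k with
    | zero =>
      intro u
      have a1 : 0 ≤ F u := measureReal_nonneg
      have a2 : F u ≤ 1 := measureReal_le_one
      have a3 : 0 ≤ max 0 (min u 1) := le_max_left _ _
      have a4 : max 0 (min u 1) ≤ 1 := max_le zero_le_one (min_le_right _ _)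
      rw [pow_zero, abs_le]
      constructor <;> linarith
    | succ k ih =>
      intro u
      rw [rc u, pow_succ]
      rcases lt_or_ge u (1 / 2) with h | h
      · rw [F0 (2 * u - 1) (by linarith)]
        have := ih (2 * u)
        have e : max 0 (min u 1) = max 0 (min (2 * u) 1) / 2 := by
          rw [min_eq_left (by linarith : u ≤ 1), min_eq_left (by linarith : 2 * u ≤ 1)]
          rcases le_total 0 u with h0 | h0
          · rw [max_eq_right h0, max_eq_right (by linarith)]; ring
          · rw [max_eq_left h0, max_eq_left (by linarith)]; ring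
        rw [e, abs_le] at *
        constructor <;> linarith [this.1, this.2]
      · rw [F1 (2 * u) (by linarith)]
        have := ih (2 * u - 1)
        have e : max 0 (min u 1) = 1 / 2 + max 0 (min (2 * u - 1) 1) / 2 := by
          rcases le_total u 1 with h1 | h1
          · rw [min_eq_left h1, min_eq_left (by linarith), max_eq_right (by linarith),
              max_eq_right (by linarith)]
            ring
          · rw [min_eq_right h1, min_eq_right (by linarith), max_eq_right zero_le_one]
            ring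
        rw [e, abs_le] at *
        constructor <;> linarith [this.1, this.2]
  have t : Tendsto (fun k : ℕ => (1 / 2 : ℝ) ^ k) atTop (𝓝 0) :=
    tendsto_pow_atTop_nhds_zero_of_lt_one (by norm_num) (by norm_num)
  have := ge_of_tendsto' t fun k => key k u
  have := abs_nonpos_iff.1 this
  linarith

/-- Binary expansion as a map to the unit interval. -/
noncomputable def binI (ω : ℕ → Bool) : I := ⟨bin ω, bin_nonneg ω, bin_le_one ω⟩

lemma measurable_binI : Measurable binI := measurable_bin.subtype_mk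

lemma map_binI : (coin ℕ).map binI = volume := by
  refine Measure.ext_of_Iic _ _ fun a => ?_
  rw [Measure.map_apply measurable_binI measurableSet_Iic, unitInterval.volume_Iic,
    ← ofReal_measureReal (measure_ne_top _ _)]
  congr 1
  have := cdf_bin a
  rw [min_eq_left a.2.2, max_eq_right a.2.1] at this
  exact this

end Binary

variable {Γ : Type} [Group Γ] [Countable Γ] {n : ℕ} {S : Finset Γ} {A : Set (S → Fin n)}

lemma act_act (g h : Γ) (ω : Γ × ℕ → Bool) : act g (act h ω) = act (g * h) ω := by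
  funext p; simp [act, mul_assoc]

lemma act_one (ω : Γ × ℕ → Bool) : act (1 : Γ) ω = ω := by
  funext p; simp [act]

/-- Solvability over independent fair coins. -/
def CoinSol (S : Finset Γ) (A : Set (S → Fin n)) : Prop :=
  ∃ Φ : (Γ × ℕ → Bool) → Fin n, Measurable Φ ∧
    ∀ᵐ ω ∂(coin (Γ × ℕ)), (fun s : S => Φ (act (s : Γ) ω)) ∈ A

theorem solve_of_coin (h : CoinSol S A)
    (hF : ∀ δ : ℝ, 0 < δ → ∃ T : Finset Γ, T.Nonempty ∧ ∀ s ∈ S, ∀ t ∈ S,
      ({x ∈ (T : Set Γ) | s * t⁻¹ * x ∉ T}.ncard : ℝ) ≤ δ * T.card)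
    (X : Type) [MeasurableSpace X] [StandardBorelSpace X] [MulAction Γ X]
    (hact : ∀ g : Γ, Measurable (fun x : X => g • x))
    (hfree : ∀ (g : Γ) (x : X), g • x = x → g = 1) (μ : Measure X) [IsProbabilityMeasure μ] :
    ∃ f : X → Fin n, Measurable f ∧ ∀ᵐ x ∂μ, (fun s : S => f ((s : Γ) • x)) ∈ A := by
  classical
  obtain ⟨Φ, Φm, hΦ⟩ := h
  have : Nonempty (Fin n) := ⟨Φ fun _ => true⟩
  have hZ : ∀ᵐ ω ∂(coin (Γ × ℕ)), cfg Φ ω ∈ Sig S A := by
    refine ae_all_iff.2 fun g => ?_
    filter_upwards [(mp_act g).quasiMeasurePreserving.ae hΦ] with ω hω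
    simpa only [cfg, act_act] using hω
  have hcm := measurable_cfg Φm
  have : IsProbabilityMeasure ((coin (Γ × ℕ)).map (cfg Φ)) :=
    Measure.isProbabilityMeasure_map hcm.aemeasurable
  have shm : ∀ g : Γ, Measurable (sh g : (Γ → Fin n) → (Γ → Fin n)) :=
    fun g => measurable_pi_lambda _ fun γ => measurable_pi_apply _
  have hinv : ∀ g : Γ, MeasurePreserving (sh g) ((coin (Γ × ℕ)).map (cfg Φ))
      ((coin (Γ × ℕ)).map (cfg Φ)) := by
    intro g
    refine ⟨shm g, ?_⟩
    rw [Measure.map_map (shm g) hcm]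
    have : sh g ∘ cfg Φ = cfg Φ ∘ act g := by
      funext ω γ; simp [sh, cfg, act_act]
    rw [this, ← Measure.map_map hcm (mp_act g).measurable, (mp_act g).map_eq]
  have Zm : MeasurableSet (Sig S A) := by
    have : Sig S A = ⋂ g : Γ, (fun ξ : Γ → Fin n => fun s : S => ξ (s * g)) ⁻¹' A := by
      ext ξ; simp [Sig]
    rw [this]
    exact MeasurableSet.iInter fun g =>
      (measurable_pi_lambda _ fun s => measurable_pi_apply _) MeasurableSet.of_discrete
  refine solve hact hfree μ _ hinv (cp_of_factor Φm _ hZ) ((ae_map_iff hcm.aemeasurable Zm).2 hZ)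
    (insert 1 (S * S⁻¹)) (Finset.mem_insert_self _ _) ?_ ?_ ?_
  · intro k hk
    rcases Finset.mem_insert.1 hk with rfl | hk
    · simp
    · obtain ⟨s, hs, t, ht, rfl⟩ := Finset.mem_mul.1 hk
      refine Finset.mem_insert_of_mem ?_
      rw [mul_inv_rev]
      exact Finset.mul_mem_mul (by simpa using ht) (Finset.inv_mem_inv hs)
  · intro s hs t ht
    exact Finset.mem_insert_of_mem (Finset.mul_mem_mul hs (Finset.inv_mem_inv ht))
  · intro δ hδ
    obtain ⟨T, hT, h⟩ := hF (δ / (S.card ^ 2 + 1)) (by positivity)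
    refine ⟨T, hT, ?_⟩
    have hsub : (insert 1 (S * S⁻¹) * T) \ T ⊆ (S ×ˢ S).biUnion (fun p =>
        (T.filter (fun x => p.1 * p.2⁻¹ * x ∉ T)).image (fun x => p.1 * p.2⁻¹ * x)) := by
      intro z hz
      obtain ⟨hz1, hz2⟩ := Finset.mem_sdiff.1 hz
      obtain ⟨k, hk, x, hx, rfl⟩ := Finset.mem_mul.1 hz1
      rcases Finset.mem_insert.1 hk with rfl | hk
      · simp [hx] at hz2
      · obtain ⟨s, hs, t, ht, rfl⟩ := Finset.mem_mul.1 hk
        refine Finset.mem_biUnion.2 ⟨(s, t⁻¹), Finset.mem_product.2 ⟨hs, by simpa using ht⟩, ?_⟩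
        simp only [inv_inv]
        exact Finset.mem_image.2 ⟨x, Finset.mem_filter.2 ⟨hx, hz2⟩, rfl⟩
    have a1 := (Finset.card_le_card hsub).trans Finset.card_biUnion_le
    have a2 : (((insert 1 (S * S⁻¹) * T) \ T).card : ℝ) ≤ ∑ p ∈ S ×ˢ S,
        (((T.filter (fun x => p.1 * p.2⁻¹ * x ∉ T)).image (fun x => p.1 * p.2⁻¹ * x)).card : ℝ) := by
      exact_mod_cast a1
    refine a2.trans ?_
    calc _ ≤ ∑ _p ∈ S ×ˢ S, δ / (S.card ^ 2 + 1) * T.card := by
          refine Finset.sum_le_sum fun p hp => ?_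
          obtain ⟨p1, p2⟩ := Finset.mem_product.1 hp
          refine le_trans ?_ (h p.1 p1 p.2 p2)
          have : {x ∈ (T : Set Γ) | p.1 * p.2⁻¹ * x ∉ T}
              = ((T.filter (fun x => p.1 * p.2⁻¹ * x ∉ T) : Finset Γ) : Set Γ) := by
            ext x; simp
          rw [this, Set.ncard_coe_finset]
          exact_mod_cast Finset.card_image_le
      _ ≤ δ * T.card := by
          rw [Finset.sum_const, Finset.card_product, nsmul_eq_mul, ← mul_assoc]
          refine mul_le_mul_of_nonneg_right ?_ (by positivity)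
          push_cast
          rw [mul_div_assoc', div_le_iff₀ (by positivity)]
          nlinarith

/-- The free part of the coin shift. -/
def freeSet (Γ : Type) [Group Γ] : Set (Γ × ℕ → Bool) := {ω | ∀ g : Γ, act g ω = ω → g = 1}

lemma measurableSet_fix (g : Γ) : MeasurableSet {ω : Γ × ℕ → Bool | act g ω = ω} :=
  measurableSet_eq_fun (mp_act g).measurable measurable_id

lemma measurableSet_freeSet : MeasurableSet (freeSet Γ) := by
  have : freeSet Γ = ⋂ g : Γ, ⋂ (_ : g ≠ 1), {ω : Γ × ℕ → Bool | act g ω = ω}ᶜ := by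
    ext ω
    simp only [freeSet, mem_ofPred_eq, mem_iInter, mem_compl_iff]
    exact forall_congr' fun g => ⟨fun h h1 h2 => h1 (h h2), fun h h2 => by_contra fun h1 => h h1 h2⟩
  rw [this]
  exact MeasurableSet.iInter fun g => MeasurableSet.iInter fun _ => (measurableSet_fix g).compl

lemma fix_null {g : Γ} (hg : g ≠ 1) : coin (Γ × ℕ) {ω | act g ω = ω} = 0 := by
  classical
  let E : Set (Γ × ℕ → Bool) := {ω | ∀ k : ℕ, ω (g, k) = ω (1, k)}
  have Em : MeasurableSet E := by
    have : E = ⋂ k : ℕ, {ω : Γ × ℕ → Bool | ω (g, k) = ω (1, k)} := by ext ω; simp [E]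
    rw [this]
    exact MeasurableSet.iInter fun k =>
      measurableSet_eq_fun (measurable_pi_apply _) (measurable_pi_apply _)
  have hd : Pairwise (Disjoint on fun k : ℕ => flp ((1 : Γ), k) ⁻¹' E) := by
    intro k l hkl
    simp only [onFun]
    rw [disjoint_left]
    intro ω h1 h2
    have a1 := h1 k
    have a2 := h2 k
    simp only [flp, Prod.mk.injEq, hg, false_and, if_false, if_true, true_and, hkl] at a1 a2
    rw [a2] at a1
    revert a1
    cases ω (1, k) <;> simp
  have hs := measure_iUnion (μ := coin (Γ × ℕ)) hd fun k => (mp_flp _).measurable Em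
  have he : ∀ k : ℕ, coin (Γ × ℕ) (flp ((1 : Γ), k) ⁻¹' E) = coin (Γ × ℕ) E :=
    fun k => (mp_flp _).measure_preimage Em.nullMeasurableSet
  simp only [he] at hs
  have hE : coin (Γ × ℕ) E = 0 := by
    by_contra hne
    rw [ENNReal.tsum_const_eq_top_of_ne_zero hne] at hs
    exact measure_ne_top _ _ hs
  refine measure_mono_null (t := E) (fun ω hω => ?_) hE
  intro k
  have := congrFun hω (1, k)
  simpa [act] using this

lemma ae_freeSet : ∀ᵐ ω ∂(coin (Γ × ℕ)), ω ∈ freeSet Γ := by
  refine ae_all_iff.2 fun g => ?_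
  by_cases hg : g = 1
  · exact Eventually.of_forall fun _ _ => hg
  · have := measure_eq_zero_iff_ae_notMem.1 (fix_null hg)
    filter_upwards [this] with ω hω h using absurd h hω

lemma act_mem_freeSet (g : Γ) {ω : Γ × ℕ → Bool} (h : ω ∈ freeSet Γ) : act g ω ∈ freeSet Γ := by
  intro k hk
  have : act (g⁻¹ * k * g) ω = ω := by
    rw [mul_assoc, ← act_act, ← act_act, hk, act_act, inv_mul_cancel, act_one]
  have := h _ this
  rw [mul_assoc, inv_mul_eq_one] at this
  simpa using this.symm

/-- The shift action on the free part. -/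
@[reducible] def freeAction (Γ : Type) [Group Γ] [Countable Γ] : MulAction Γ (freeSet Γ) where
  smul g ω := ⟨act g ω.1, act_mem_freeSet g ω.2⟩
  one_smul ω := Subtype.ext (act_one ω.1)
  mul_smul g h ω := Subtype.ext (act_act g h ω.1).symm

theorem coin_of_pmp
    (h : ∀ (X : Type) [MeasurableSpace X] [StandardBorelSpace X] [MulAction Γ X],
      (∀ g : Γ, Measurable (fun x : X => g • x)) →
      (∀ (g : Γ) (x : X), g • x = x → g = 1) →
      ∀ μ : Measure X, IsProbabilityMeasure μ →
      (∀ g : Γ, μ.map (fun x : X => g • x) = μ) →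
      ∃ f : X → Fin n, Measurable f ∧ ∀ᵐ x ∂μ, (fun s : S => f ((s : Γ) • x)) ∈ A) :
    CoinSol S A := by
  classical
  let _ := freeAction Γ
  have := (measurableSet_freeSet (Γ := Γ)).standardBorel
  have emb := MeasurableEmbedding.subtype_coe (measurableSet_freeSet (Γ := Γ))
  have hmap : ((coin (Γ × ℕ)).comap (Subtype.val : freeSet Γ → _)).map Subtype.val
      = coin (Γ × ℕ) := by
    rw [emb.map_comap, Subtype.range_coe]
    exact Measure.restrict_eq_self_of_ae_mem ae_freeSet
  have hact : ∀ g : Γ, Measurable (fun x : freeSet Γ => g • x) := fun g =>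
    ((mp_act g).measurable.comp measurable_subtype_coe).subtype_mk
  obtain ⟨f, fm, hf⟩ := h (freeSet Γ) hact (fun g x hx => x.2 g (congrArg Subtype.val hx))
    ((coin (Γ × ℕ)).comap Subtype.val)
    ⟨by
      have := congrArg (fun m : Measure (Γ × ℕ → Bool) => m univ) hmap
      simp only [measure_univ] at this
      rwa [emb.map_apply, preimage_univ] at this⟩
    (fun g => by
      apply emb.map_injective
      rw [Measure.map_map emb.measurable (hact g), hmap]
      have : (Subtype.val : freeSet Γ → _) ∘ (fun x : freeSet Γ => g • x)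
          = act g ∘ Subtype.val := rfl
      rw [this, ← Measure.map_map (mp_act g).measurable emb.measurable, hmap, (mp_act g).map_eq])
  have hne : Nonempty (Fin n) := by
    obtain ⟨ω, hω⟩ := (ae_freeSet (Γ := Γ)).exists
    exact ⟨f ⟨ω, hω⟩⟩
  obtain ⟨Φ, Φm, hΦ⟩ := emb.exists_measurable_extend fm (fun _ => hne)
  refine ⟨Φ, Φm, ?_⟩
  rw [← hmap, emb.ae_map_iff]
  filter_upwards [hf] with x hx
  convert hx using 2 with s
  exact congrFun hΦ ((s : Γ) • x)

/-- Solvability over the Bernoulli shift with base the unit interval. -/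
def UnitSol (S : Finset Γ) (A : Set (S → Fin n)) : Prop :=
  ∃ Φ : (Γ → I) → Fin n, Measurable Φ ∧
    ∀ᵐ ω ∂(Measure.infinitePi (fun _ : Γ => (volume : Measure I))),
      (fun s : S => Φ (fun γ => ω (γ * s))) ∈ A

theorem coin_of_unit (h : UnitSol S A) : CoinSol S A := by
  obtain ⟨Φ, Φm, hΦ⟩ := h
  have m1 := Measure.infinitePi_map_curry (fun (_ : Γ) (_ : ℕ) => fair)
  have m2 := Measure.infinitePi_map_pi (fun _ : Γ => coin ℕ) (fun _ => measurable_binI)
  simp only [map_binI] at m2
  have p1 : MeasurePreserving (MeasurableEquiv.curry Γ ℕ Bool) (coin (Γ × ℕ))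
      (Measure.infinitePi fun _ : Γ => coin ℕ) := ⟨MeasurableEquiv.measurable _, m1⟩
  have p2 : MeasurePreserving (fun (x : Γ → ℕ → Bool) γ => binI (x γ))
      (Measure.infinitePi fun _ : Γ => coin ℕ)
      (Measure.infinitePi (fun _ : Γ => (volume : Measure I))) :=
    ⟨measurable_pi_lambda _ fun γ => measurable_binI.comp (measurable_pi_apply γ), m2⟩
  have p := p2.comp p1
  exact ⟨_, Φm.comp p.measurable, p.quasiMeasurePreserving.ae hΦ⟩

theorem unit_of_coin (h : CoinSol S A) : UnitSol S A := by
  obtain ⟨Φ, Φm, hΦ⟩ := h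
  obtain ⟨b, bm, hb⟩ := (coin ℕ).exists_measurable_map_eq
  have m1 := Measure.infinitePi_map_curry_symm (fun (_ : Γ) (_ : ℕ) => fair)
  have m2 := Measure.infinitePi_map_pi (fun _ : Γ => (volume : Measure I)) (fun _ => bm)
  simp only [hb] at m2
  have p1 : MeasurePreserving (MeasurableEquiv.curry Γ ℕ Bool).symm
      (Measure.infinitePi fun _ : Γ => coin ℕ) (coin (Γ × ℕ)) :=
    ⟨MeasurableEquiv.measurable _, m1⟩
  have p2 : MeasurePreserving (fun (x : Γ → I) γ => b (x γ))
      (Measure.infinitePi (fun _ : Γ => (volume : Measure I)))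
      (Measure.infinitePi fun _ : Γ => coin ℕ) :=
    ⟨measurable_pi_lambda _ fun γ => bm.comp (measurable_pi_apply γ), m2⟩
  have p := p1.comp p2
  exact ⟨_, Φm.comp p.measurable, p.quasiMeasurePreserving.ae hΦ⟩

end Pool.Agent.P.MP_afd974_lc
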