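import Mathlib

set_option autoImplicit false
set_option linter.unusedSectionVars false

open MeasureTheory Set Function
open scoped ENNReal

namespace Pool.Agent.P.MP_afd974_lc

/-! Functions of finitely many coordinates, product measures, and a blowing-up inequality
for fair coins. -/

section Dep

variable {ι L : Type*} [Fintype L] [Nonempty L] [MeasurableSpace L] [DiscreteMeasurableSpace L]

open Classical in
/-- Extend a pattern on a finite set by a fixed value. -/
noncomputable def extP (R : Finset ι) (p : R → L) : ι → L :=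
  fun z => if h : z ∈ R then p ⟨z, h⟩ else Classical.arbitrary L

omit [Fintype L] [MeasurableSpace L] [DiscreteMeasurableSpace L] in
lemma extP_restrict (R : Finset ι) (ξ : ι → L) (z : ι) (hz : z ∈ R) :
    extP R (R.restrict ξ) z = ξ z := by
  simp [extP, hz]

lemma measurable_uncurry_dep {X β : Type*} [MeasurableSpace X] [MeasurableSpace β]
    (F : X → (ι → L) → β) (R : Finset ι) (h1 : ∀ ξ, Measurable (fun x => F x ξ))
    (h2 : ∀ x, DependsOn (F x) (R : Set ι)) :
    Measurable (fun p : X × (ι → L) => F p.1 p.2) := by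
  have e : (fun p : X × (ι → L) => F p.1 p.2)
      = (fun q : X × (R → L) => F q.1 (extP R q.2)) ∘ (fun p => (p.1, R.restrict p.2)) := by
    funext p
    simp only [comp]
    exact h2 p.1 (fun z hz => (extP_restrict R p.2 z hz).symm)
  rw [e]
  have m1 : Measurable (fun q : X × (R → L) => F q.1 (extP R q.2)) :=
    measurable_from_prod_countable_left (fun q => h1 (extP R q))
  have m2 : Measurable (fun p : X × (ι → L) => ((p.1, R.restrict p.2) : X × (R → L))) :=
    measurable_fst.prodMk ((Finset.measurable_restrict R).comp measurable_snd)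
  exact m1.comp m2

lemma measurable_dep {β : Type*} [MeasurableSpace β]
    (F : (ι → L) → β) (R : Finset ι) (h2 : DependsOn F (R : Set ι)) : Measurable F := by
  have := measurable_uncurry_dep (X := Unit) (fun _ => F) R (fun _ => measurable_const) (fun _ => h2)
  exact this.comp (measurable_const.prodMk measurable_id : Measurable (fun ξ : ι → L => ((), ξ)))

lemma integrable_dep (μ : Measure (ι → L)) [IsFiniteMeasure μ]
    (F : (ι → L) → ℝ) (R : Finset ι) (h2 : DependsOn F (R : Set ι)) : Integrable F μ := by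
  have e : F = (fun q : R → L => F (extP R q)) ∘ R.restrict := by
    funext p
    exact h2 (fun z hz => (extP_restrict R p z hz).symm)
  rw [e]
  refine (integrable_map_measure (measurable_of_finite _).aestronglyMeasurable
    (Finset.measurable_restrict R).aemeasurable).1 ?_
  exact Integrable.of_finite

end Dep

section Precomp

lemma map_precomp {ι κ E : Type*} [MeasurableSpace E] (μ : Measure E) [IsProbabilityMeasure μ]
    (j : κ → ι) (hj : Injective j) :
    (Measure.infinitePi (fun _ : ι => μ)).map (fun ω k => ω (j k))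
      = Measure.infinitePi (fun _ : κ => μ) := by
  classical
  refine Measure.eq_infinitePi _ fun s t ht => ?_
  rw [Measure.map_apply (by fun_prop) (.pi s.countable_toSet fun _ _ => ht _)]
  let t' : ι → Set E := fun i => if h : ∃ k, j k = i then t h.choose else univ
  have ht' : ∀ k, t' (j k) = t k := by
    intro k
    have h : ∃ k', j k' = j k := ⟨k, rfl⟩
    simp only [t', dif_pos h]
    rw [hj h.choose_spec]
  have : (fun (ω : ι → E) k => ω (j k)) ⁻¹' ((s : Set κ).pi t)
      = ((s.image j : Finset ι) : Set ι).pi t' := by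
    ext ω
    simp only [mem_preimage, mem_pi, Finset.coe_image, mem_image, Finset.mem_coe,
      forall_exists_index, and_imp, forall_apply_eq_imp_iff₂, ht']
  rw [this, Measure.infinitePi_pi, Finset.prod_image (fun a _ b _ h => hj h)]
  · simp [ht']
  · intro i _
    simp only [t']
    split_ifs
    · exact ht _
    · exact .univ

lemma mp_precomp {ι κ E : Type*} [MeasurableSpace E] (μ : Measure E) [IsProbabilityMeasure μ]
    (j : κ → ι) (hj : Injective j) :
    MeasurePreserving (fun (ω : ι → E) k => ω (j k)) (Measure.infinitePi (fun _ : ι => μ))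
      (Measure.infinitePi (fun _ : κ => μ)) :=
  ⟨by fun_prop, map_precomp μ j hj⟩

end Precomp

section Coin

/-- The fair coin. -/
noncomputable def fair : Measure Bool :=
  (1 / 2 : ℝ≥0∞) • (Measure.dirac true + Measure.dirac false)

instance : IsProbabilityMeasure fair := ⟨by
  simp only [fair, Measure.smul_apply, Measure.add_apply, measure_univ, smul_eq_mul]
  rw [one_add_one_eq_two, one_div, ENNReal.inv_mul_cancel] <;> simp⟩

lemma fair_map_not : fair.map (fun b => !b) = fair := by
  simp only [fair, Measure.map_smul]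
  rw [Measure.map_add _ _ (measurable_of_finite _), Measure.map_dirac' (measurable_of_finite _),
    Measure.map_dirac' (measurable_of_finite _)]
  simp [add_comm]

/-- Independent fair coins. -/
noncomputable def coin (ι : Type*) : Measure (ι → Bool) := Measure.infinitePi (fun _ : ι => fair)

instance (ι : Type*) : IsProbabilityMeasure (coin ι) := by unfold coin; infer_instance

variable {ι : Type*} [DecidableEq ι]

/-- Flip one coin. -/
def flp (i : ι) (ω : ι → Bool) : ι → Bool := fun j => if j = i then !ω j else ω j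

lemma mp_flp (i : ι) : MeasurePreserving (flp i) (coin ι) (coin ι) := by
  have hm : ∀ j : ι, Measurable (fun b : Bool => if j = i then !b else b) :=
    fun j => measurable_of_finite _
  refine ⟨measurable_pi_lambda _ fun j => (hm j).comp (measurable_pi_apply j), ?_⟩
  have := Measure.infinitePi_map_pi (fun _ : ι => fair) hm
  unfold coin
  refine this.trans ?_
  congr 1
  funext j
  by_cases h : j = i
  · simp [h, fair_map_not]
  · simp [h]

lemma flp_comm (i j : ι) (ω : ι → Bool) : flp i (flp j ω) = flp j (flp i ω) := by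
  funext k
  simp only [flp]
  split_ifs <;> simp

lemma flp_flp (i : ι) (ω : ι → Bool) : flp i (flp i ω) = ω := by
  funext k
  simp only [flp]
  split_ifs <;> simp

lemma dep_flp {β : Type*} {φ : (ι → Bool) → β} {Q : Set ι} (h : DependsOn φ Q) (i : ι) :
    DependsOn (fun ω => φ (flp i ω)) Q := by
  intro x y hxy
  apply h
  intro k hk
  simp only [flp, hxy k hk]

lemma integral_flp (φ : (ι → Bool) → ℝ) (hφ : Measurable φ) (i : ι) :
    ∫ ω, φ (flp i ω) ∂(coin ι) = ∫ ω, φ ω ∂(coin ι) := by
  conv_rhs => rw [← (mp_flp i).map_eq]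
  rw [integral_map (mp_flp i).measurable.aemeasurable hφ.aestronglyMeasurable]

lemma two_point (s u v : ℝ) (h : |u - v| ≤ 1) :
    (Real.exp (-s * u) + Real.exp (-s * v)) / 2
      ≤ Real.exp (s ^ 2 / 8) * Real.exp (-s * ((u + v) / 2)) := by
  have h1 : (Real.exp (-s * u) + Real.exp (-s * v)) / 2
      = Real.cosh (s * (u - v) / 2) * Real.exp (-s * ((u + v) / 2)) := by
    rw [Real.cosh_eq]
    have a1 : Real.exp (-s * u) = Real.exp (-(s * (u - v) / 2)) * Real.exp (-s * ((u + v) / 2)) := by
      rw [← Real.exp_add]; congr 1; ring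
    have a2 : Real.exp (-s * v) = Real.exp (s * (u - v) / 2) * Real.exp (-s * ((u + v) / 2)) := by
      rw [← Real.exp_add]; congr 1; ring
    rw [a1, a2]; ring
  rw [h1]
  refine mul_le_mul_of_nonneg_right ?_ (Real.exp_pos _).le
  refine (Real.cosh_le_exp_half_sq _).trans (Real.exp_le_exp.2 ?_)
  have : (u - v) ^ 2 ≤ 1 := by
    rw [← sq_abs]; nlinarith [abs_nonneg (u - v)]
  nlinarith [sq_nonneg s]

/-- Bounded differences, lower tail of the moment generating function. -/
lemma mcd (s : ℝ) (Q : Finset ι) : ∀ (φ : (ι → Bool) → ℝ), DependsOn φ (Q : Set ι) →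
    (∀ i ω, |φ ω - φ (flp i ω)| ≤ 1) →
    ∫ ω, Real.exp (-s * φ ω) ∂(coin ι)
      ≤ Real.exp (s ^ 2 * Q.card / 8 - s * ∫ ω, φ ω ∂(coin ι)) := by
  induction Q using Finset.induction_on with
  | empty =>
    intro φ hd _
    have hc : ∀ ω, φ ω = φ (fun _ => true) := fun ω => DependsOn.empty (by simpa using hd) _ _
    simp_rw [hc]
    simp
  | insert i Q hi ih =>
    intro φ hd hl
    set ψ : (ι → Bool) → ℝ := fun ω => (φ ω + φ (flp i ω)) / 2 with hψ
    have hψd : DependsOn ψ (Q : Set ι) := by
      intro x y hxy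
      by_cases hx : x i = y i
      · have h1 : ∀ k ∈ ((insert i Q : Finset ι) : Set ι), x k = y k := by
          intro k hk
          rcases Finset.mem_insert.1 hk with rfl | hk
          · exact hx
          · exact hxy k hk
        simp only [hψ, hd h1, dep_flp hd i h1]
      · have h1 : ∀ k ∈ ((insert i Q : Finset ι) : Set ι), x k = flp i y k := by
          intro k hk
          rcases Finset.mem_insert.1 hk with rfl | hk
          · simp only [flp, if_true]
            revert hx; cases x k <;> cases y k <;> simp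
          · have : k ≠ i := fun h => hi (h ▸ hk)
            simp only [flp, if_neg this]
            exact hxy k hk
        have h2 := dep_flp hd i h1
        simp only [flp_flp] at h2
        simp only [hψ, hd h1, h2]
        ring
    have hψl : ∀ j ω, |ψ ω - ψ (flp j ω)| ≤ 1 := by
      intro j ω
      have a1 := hl j ω
      have a2 := hl j (flp i ω)
      rw [flp_comm] at a2
      simp only [hψ]
      rw [abs_le] at a1 a2 ⊢
      constructor <;> linarith [a1.1, a1.2, a2.1, a2.2]
    have hφm := measurable_dep φ _ hd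
    have hφi := integrable_dep (coin ι) φ _ hd
    have hφfi := integrable_dep (coin ι) _ _ (dep_flp hd i)
    have hed : DependsOn (fun ω => Real.exp (-s * φ ω)) ((insert i Q : Finset ι) : Set ι) :=
      fun x y h => by simp only [hd h]
    have hei := integrable_dep (coin ι) _ _ hed
    have hefi := integrable_dep (coin ι) _ _ (dep_flp hed i)
    have hψed : DependsOn (fun ω => Real.exp (-s * ψ ω)) (Q : Set ι) :=
      fun x y h => by simp only [hψd h]
    have hψei := integrable_dep (coin ι) _ _ hψed
    have e1 : ∫ ω, ψ ω ∂(coin ι) = ∫ ω, φ ω ∂(coin ι) := by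
      simp only [hψ]
      rw [integral_div, integral_add hφi hφfi, integral_flp φ hφm]
      ring
    have e2 : ∫ ω, Real.exp (-s * φ ω) ∂(coin ι)
        = ∫ ω, (Real.exp (-s * φ ω) + Real.exp (-s * φ (flp i ω))) / 2 ∂(coin ι) := by
      rw [integral_div, integral_add hei hefi,
        integral_flp (fun ω => Real.exp (-s * φ ω)) (measurable_dep _ _ hed)]
      ring
    have e3 : ∫ ω, (Real.exp (-s * φ ω) + Real.exp (-s * φ (flp i ω))) / 2 ∂(coin ι)
        ≤ ∫ ω, Real.exp (s ^ 2 / 8) * Real.exp (-s * ψ ω) ∂(coin ι) := by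
      refine integral_mono ((hei.add hefi).div_const 2) (hψei.const_mul _) fun ω => ?_
      exact two_point s _ _ (hl i ω)
    rw [e2]
    refine e3.trans ?_
    rw [integral_const_mul]
    refine (mul_le_mul_of_nonneg_left (ih ψ hψd hψl) (Real.exp_pos _).le).trans ?_
    rw [← Real.exp_add, e1, Finset.card_insert_of_notMem hi]
    apply le_of_eq
    congr 1
    push_cast
    ring

/-- Number of coordinates in `Q` where two points differ. -/
def hamQ (Q : Finset ι) (ω ω' : ι → Bool) : ℕ := (Q.filter (fun i => ω i ≠ ω' i)).card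

/-- Hamming distance (on `Q`) to a set. -/
noncomputable def dA (Q : Finset ι) (A : Set (ι → Bool)) (ω : ι → Bool) : ℕ :=
  sInf {k | ∃ ω' ∈ A, hamQ Q ω ω' = k}

lemma dA_spec (Q : Finset ι) {A : Set (ι → Bool)} (hA : A.Nonempty) (ω : ι → Bool) :
    ∃ ω' ∈ A, hamQ Q ω ω' = dA Q A ω := by
  obtain ⟨a, ha⟩ := hA
  exact Nat.sInf_mem (s := {k | ∃ ω' ∈ A, hamQ Q ω ω' = k}) ⟨_, a, ha, rfl⟩

lemma dA_le (Q : Finset ι) {A : Set (ι → Bool)} (ω : ι → Bool) {ω' : ι → Bool} (h : ω' ∈ A) :
    dA Q A ω ≤ hamQ Q ω ω' := Nat.sInf_le ⟨ω', h, rfl⟩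

lemma dA_dep (Q : Finset ι) (A : Set (ι → Bool)) :
    DependsOn (fun ω => (dA Q A ω : ℝ)) (Q : Set ι) := by
  intro x y hxy
  have : ∀ ω', hamQ Q x ω' = hamQ Q y ω' := by
    intro ω'
    unfold hamQ
    congr 1
    exact Finset.filter_congr fun i hi => by rw [hxy i hi]
  simp only [dA, this]

lemma hamQ_flp (Q : Finset ι) (i : ι) (ω ω' : ι → Bool) :
    hamQ Q (flp i ω) ω' ≤ hamQ Q ω ω' + 1 := by
  unfold hamQ
  refine le_trans (Finset.card_le_card (t := insert i (Q.filter (fun i => ω i ≠ ω' i))) ?_)
    (Finset.card_insert_le _ _)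
  intro k hk
  rw [Finset.mem_filter] at hk
  by_cases h : k = i
  · simp [h]
  · simp only [flp, if_neg h] at hk
    exact Finset.mem_insert_of_mem (Finset.mem_filter.2 hk)

lemma dA_flp (Q : Finset ι) {A : Set (ι → Bool)} (hA : A.Nonempty) (i : ι) (ω : ι → Bool) :
    dA Q A (flp i ω) ≤ dA Q A ω + 1 := by
  obtain ⟨ω', h1, h2⟩ := dA_spec Q hA ω
  exact (dA_le Q _ h1).trans (h2 ▸ hamQ_flp Q i ω ω')

/-- The blowing-up inequality: a set that is not too small is close to a typical point. -/
lemma blowup (Q : Finset ι) (A : Set (ι → Bool)) (τ s : ℝ) (hτ : 0 < τ) (hs : 0 < s)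
    (hA : τ ≤ (coin ι).real A) :
    ∫ ω, (dA Q A ω : ℝ) ∂(coin ι) ≤ s * Q.card / 8 - Real.log τ / s := by
  have hne : A.Nonempty := by
    by_contra h
    rw [not_nonempty_iff_eq_empty] at h
    simp [h] at hA
    linarith
  have hl : ∀ i ω, |(dA Q A ω : ℝ) - dA Q A (flp i ω)| ≤ 1 := by
    intro i ω
    have a1 := dA_flp Q hne i ω
    have a2 := dA_flp Q hne i (flp i ω)
    rw [flp_flp] at a2
    have b1 : (dA Q A (flp i ω) : ℝ) ≤ dA Q A ω + 1 := by exact_mod_cast a1
    have b2 : (dA Q A ω : ℝ) ≤ dA Q A (flp i ω) + 1 := by exact_mod_cast a2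
    rw [abs_le]; constructor <;> linarith
  have h1 := mcd s Q _ (dA_dep Q A) hl
  have hed : DependsOn (fun ω => Real.exp (-s * (dA Q A ω : ℝ))) (Q : Set ι) :=
    fun x y h => by have := dA_dep Q A h; simp only at this; simp only [this]
  have h2 := mul_meas_ge_le_integral_of_nonneg (μ := coin ι)
    (f := fun ω => Real.exp (-s * (dA Q A ω : ℝ)))
    (Filter.Eventually.of_forall fun ω => (Real.exp_pos _).le) (integrable_dep _ _ _ hed) 1
  have h3 : (coin ι).real A ≤ (coin ι).real {ω | 1 ≤ Real.exp (-s * (dA Q A ω : ℝ))} := by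
    refine measureReal_mono fun ω hω => ?_
    have : dA Q A ω = 0 := by
      have := dA_le Q ω hω
      simpa [hamQ] using this
    simp [this]
  have h4 : τ ≤ Real.exp (s ^ 2 * Q.card / 8 - s * ∫ ω, (dA Q A ω : ℝ) ∂(coin ι)) := by linarith
  have h5 := (Real.log_le_iff_le_exp hτ).2 h4
  rw [le_sub_iff_add_le, ← mul_le_mul_iff_right₀ hs, mul_add, mul_div_cancel₀ _ hs.ne']
  nlinarith

end Coin

end Pool.Agent.P.MP_afd974_lc
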