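import Pool.Agent.P.MP_afd974_lc.State

set_option autoImplicit false
set_option linter.unusedSectionVars false

open MeasureTheory Set Function
open scoped ENNReal Pointwise

namespace Pool.Agent.P.MP_afd974_lc

variable {Γ : Type*} [Group Γ] [DecidableEq Γ] {L : Type*} [Fintype L] [Nonempty L]
  [MeasurableSpace L] [DiscreteMeasurableSpace L]

variable (K T D : Finset Γ) (Th : Finset Γ → (Γ → L) → (Γ → L) → (Γ → L))
  (ν : Measure (Γ → L)) [IsProbabilityMeasure ν] (G : (Γ → L) → L) (l : L)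

/-- New disagreement probability plus half the indicator that the guess has changed. -/
noncomputable def cost (J : Γ → Bool) (a : Γ → L) : ℝ :=
  ν.real {ξ | G (modc K T D Th a J ξ) ≠ newf K T a G l J} + 1 / 2 * ind (newf K T a G l J ≠ l)

/-- Error profile of the coupling. -/
noncomputable def eprof (B : Finset Γ) (z : Γ) : ℝ := ∫ a, ν.real {ζ | Th B a ζ z ≠ a z} ∂ν

lemma eprof_nonneg (B : Finset Γ) (z : Γ) : 0 ≤ eprof Th ν B z :=
  integral_nonneg fun _ => measureReal_nonneg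

lemma cost_nonneg (J : Γ → Bool) (a : Γ → L) : 0 ≤ cost K T D Th ν G l J a := by
  unfold cost
  have := ind_nonneg (newf K T a G l J ≠ l)
  positivity

lemma cost_le (J : Γ → Bool) (a : Γ → L) : cost K T D Th ν G l J a ≤ 3 / 2 := by
  unfold cost
  have := ind_le_one (newf K T a G l J ≠ l)
  have : ν.real {ξ | G (modc K T D Th a J ξ) ≠ newf K T a G l J} ≤ 1 := measureReal_le_one
  linarith

variable {K T D Th G}

lemma cost_dep (hK1 : (1 : Γ) ∈ K) (hKi : ∀ k ∈ K, k⁻¹ ∈ K) (hG : DependsOn G (D : Set Γ))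
    (h1 : ∀ B ζ, DependsOn (fun a => Th B a ζ) ((D * (K * T) : Finset Γ) : Set Γ))
    (J : Γ → Bool) :
    DependsOn (cost K T D Th ν G l J) ((D * (K * T) : Finset Γ) : Set Γ) := by
  intro a a' h
  have e : ∀ B ζ, Th B a ζ = Th B a' ζ := fun B ζ => h1 B ζ h
  unfold cost
  by_cases hc : ∃ t, covd K T J t
  · obtain ⟨t, ht⟩ := hc
    have e2 : G (sh t a) = G (sh t a') :=
      hG fun d hd => h _ (Finset.mem_coe.2 (Finset.mul_mem_mul hd (mem_KT hK1 ht.1)))
    simp only [modc_cov _ _ _ hK1 hKi ht, newf_cov _ hK1 hKi _ _ ht, e, e2]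
  · simp only [modc_not _ _ _ hc, newf_not _ _ _ hc]

lemma cost_int_cov (hK1 : (1 : Γ) ∈ K) (hKi : ∀ k ∈ K, k⁻¹ ∈ K) (hG : DependsOn G (D : Set Γ))
    (hinv : ∀ g : Γ, MeasurePreserving (sh g) ν ν)
    (h1 : ∀ B ζ, DependsOn (fun a => Th B a ζ) ((D * (K * T) : Finset Γ) : Set Γ))
    (h2 : ∀ B a, DependsOn (Th B a) (B : Set Γ))
    {J : Γ → Bool} {t : Γ} (ht : covd K T J t) :
    ∫ a, cost K T D Th ν G l J a ∂ν
      ≤ ∑ d ∈ D, eprof Th ν (D * bdry K T (sh t⁻¹ J)) (d * t) + 1 / 2 * ν.real {ξ | G ξ ≠ l} := by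
  set B := D * bdry K T (sh t⁻¹ J) with hB
  have hms : ∀ a z, MeasurableSet {ζ | Th B a ζ z ≠ a z} := by
    intro a z
    have : Measurable (fun ζ => Th B a ζ z) :=
      measurable_dep _ B (fun x y hxy => by simp only [h2 B a hxy])
    exact this (MeasurableSet.of_discrete (s := {l | l ≠ a z}))
  have hGs : MeasurableSet {ξ | G ξ ≠ l} :=
    measurable_dep _ _ hG (MeasurableSet.of_discrete (s := {b | b ≠ l}))
  have hGt : MeasurableSet {a | G (sh t a) ≠ l} := (hinv t).measurable hGs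
  have i1 : ∀ d ∈ D, Integrable (fun a => ν.real {ζ | Th B a ζ (d * t) ≠ a (d * t)}) ν := by
    intro d hd
    refine integrable_dep _ _ (D * (K * T)) fun x y hxy => ?_
    have e : ∀ ζ, Th B x ζ = Th B y ζ := fun ζ => h1 B ζ hxy
    simp only [e, hxy _ (Finset.mem_coe.2 (Finset.mul_mem_mul hd (mem_KT hK1 ht.1)))]
  have i2 : Integrable (fun a => ∑ d ∈ D, ν.real {ζ | Th B a ζ (d * t) ≠ a (d * t)}) ν :=
    integrable_finsetSum _ i1
  have i3 : Integrable (fun a => 1 / 2 * ind (G (sh t a) ≠ l)) ν :=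
    (integrable_ite_one _ _ hGt).const_mul _
  have i4 : Integrable (fun a => ∑ d ∈ D, ν.real {ζ | Th B a ζ (d * t) ≠ a (d * t)}
      + 1 / 2 * ind (G (sh t a) ≠ l)) ν := i2.add i3
  have key : ∀ a, cost K T D Th ν G l J a ≤ ∑ d ∈ D, ν.real {ζ | Th B a ζ (d * t) ≠ a (d * t)}
      + 1 / 2 * ind (G (sh t a) ≠ l) := by
    intro a
    unfold cost
    simp only [modc_cov _ _ _ hK1 hKi ht, newf_cov _ hK1 hKi _ _ ht, ← hB]
    refine add_le_add ?_ le_rfl
    have hsub : {ξ | G (sh t (Th B a (sh t⁻¹ ξ))) ≠ G (sh t a)}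
        ⊆ ⋃ d ∈ D, sh t⁻¹ ⁻¹' {ζ | Th B a ζ (d * t) ≠ a (d * t)} := by
      intro ξ hξ
      by_contra hn
      simp only [mem_iUnion, mem_preimage, mem_ofPred_eq, not_exists, not_not] at hn
      exact hξ (hG fun d hd => hn d hd)
    refine (measureReal_mono hsub (measure_ne_top _ _)).trans
      ((measureReal_biUnion_finset_le _ _).trans (le_of_eq ?_))
    exact Finset.sum_congr rfl fun d _ =>
      (hinv t⁻¹).measureReal_preimage (hms a _).nullMeasurableSet
  refine (integral_mono (integrable_dep _ _ _ (cost_dep ν l hK1 hKi hG h1 J)) i4 key).trans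
    (le_of_eq ?_)
  rw [integral_add i2 i3, integral_finsetSum _ i1, integral_const_mul, integral_ite_one _ _ hGt]
  congr 2
  exact (hinv t).measureReal_preimage hGs.nullMeasurableSet

lemma cost_int_a (hK1 : (1 : Γ) ∈ K) (hKi : ∀ k ∈ K, k⁻¹ ∈ K) (hG : DependsOn G (D : Set Γ))
    (hinv : ∀ g : Γ, MeasurePreserving (sh g) ν ν)
    (h1 : ∀ B ζ, DependsOn (fun a => Th B a ζ) ((D * (K * T) : Finset Γ) : Set Γ))
    (h2 : ∀ B a, DependsOn (Th B a) (B : Set Γ)) (J : Γ → Bool) :
    ∫ a, cost K T D Th ν G l J a ∂ν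
      ≤ ν.real {ξ | G ξ ≠ l}
        - 1 / 2 * ν.real {ξ | G ξ ≠ l} * ∑ t ∈ T, ind (cov K T (sh t⁻¹ J) t)
        + ∑ t ∈ T, ind (sh t⁻¹ J 1 = true)
            * ∑ d ∈ D, eprof Th ν (D * bdry K T (sh t⁻¹ J)) (d * t) := by
  have n0 : ∀ t ∈ T, 0 ≤ ind (sh t⁻¹ J 1 = true)
      * ∑ d ∈ D, eprof Th ν (D * bdry K T (sh t⁻¹ J)) (d * t) :=
    fun t _ => mul_nonneg (ind_nonneg _) (Finset.sum_nonneg fun _ _ => eprof_nonneg _ _ _ _)
  by_cases hc : ∃ t, covd K T J t
  · obtain ⟨t, ht⟩ := hc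
    have s1 : ∑ t ∈ T, ind (cov K T (sh t⁻¹ J) t) = 1 := by
      rw [Finset.sum_eq_single t, ind_pos ht.2]
      · intro t' ht' hne
        exact ind_neg fun h => hne (covd_unique hK1 hKi ht ⟨ht', h⟩)
      · exact fun h => absurd ht.1 h
    have s2 := Finset.single_le_sum n0 ht.1
    rw [ind_pos ht.2.1, one_mul] at s2
    have := cost_int_cov ν l hK1 hKi hG hinv h1 h2 ht
    rw [s1]
    linarith
  · have s1 : ∑ t ∈ T, ind (cov K T (sh t⁻¹ J) t) = 0 :=
      Finset.sum_eq_zero fun t ht => ind_neg fun h => hc ⟨t, ht, h⟩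
    have s2 := Finset.sum_nonneg n0
    have : ∀ a, cost K T D Th ν G l J a = ν.real {ξ | G ξ ≠ l} := by
      intro a
      unfold cost
      simp only [modc_not _ _ _ hc, newf_not _ _ _ hc]
      rw [ind_neg (by simp)]
      ring
    simp only [this, integral_const, probReal_univ, one_smul, s1]
    linarith

lemma sum_eprof_le (hK1 : (1 : Γ) ∈ K) (ε C : ℝ) (hC : 0 ≤ C)
    (h4 : ∀ B, ∑ z ∈ D * (K * T), eprof Th ν B z ≤ ε * (D * (K * T)).card + C * B.card)
    (B : Finset Γ) :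
    ∑ t ∈ T, ∑ d ∈ D, eprof Th ν (D * B) (d * t)
      ≤ D.card * (ε * (D * (K * T)).card) + D.card * (C * D.card) * B.card := by
  rw [Finset.sum_comm]
  have hc : ((D * B).card : ℝ) ≤ D.card * B.card := by exact_mod_cast Finset.card_mul_le
  calc ∑ d ∈ D, ∑ t ∈ T, eprof Th ν (D * B) (d * t)
      ≤ ∑ _d ∈ D, (ε * (D * (K * T)).card + C * (D.card * B.card)) := by
        refine Finset.sum_le_sum fun d hd => ?_
        rw [← Finset.sum_image (s := T) (g := fun t => d * t)
          (f := fun z => eprof Th ν (D * B) z) (fun a _ b _ h => mul_left_cancel h)]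
        refine (Finset.sum_le_sum_of_subset_of_nonneg ?_
          (fun _ _ _ => eprof_nonneg _ _ _ _)).trans ((h4 _).trans ?_)
        · intro z hz
          obtain ⟨t, ht, rfl⟩ := Finset.mem_image.1 hz
          exact Finset.mul_mem_mul hd (mem_KT hK1 ht)
        · gcongr
    _ = _ := by rw [Finset.sum_const, nsmul_eq_mul]; ring

lemma cost_int_I (hK1 : (1 : Γ) ∈ K) (hKi : ∀ k ∈ K, k⁻¹ ∈ K) (hT : T.Nonempty)
    (hG : DependsOn G (D : Set Γ)) (hinv : ∀ g : Γ, MeasurePreserving (sh g) ν ν)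
    (h1 : ∀ B ζ, DependsOn (fun a => Th B a ζ) ((D * (K * T) : Finset Γ) : Set Γ))
    (h2 : ∀ B a, DependsOn (Th B a) (B : Set Γ)) (ε C δ : ℝ) (hε : 0 ≤ ε) (hC : 0 ≤ C)
    (h4 : ∀ B, ∑ z ∈ D * (K * T), eprof Th ν B z ≤ ε * (D * (K * T)).card + C * B.card)
    (hδ1 : δ ≤ 1) (hδ : (((K * T) \ T).card : ℝ) ≤ δ * T.card)
    (β : Measure Bool) [IsProbabilityMeasure β] (hβ : β.real {true} = 1 / (4 * T.card))
    {Co : Type*} [Finite Co] (j : Γ → Co)
    (hj : InjOn j ((win K T * T⁻¹ : Finset Γ) : Set Γ)) :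
    ∫ I, ∫ a, cost K T D Th ν G l (fun u => I (j u)) a ∂ν
        ∂(Measure.infinitePi (fun _ : Co => β))
      ≤ 15 / 16 * ν.real {ξ | G ξ ≠ l} + (D.card ^ 2 * ε + D.card ^ 2 * C * δ) := by
  have w1 := one_mem_win hK1 hT
  set r := ν.real {ξ | G ξ ≠ l} with hr
  have r0 : 0 ≤ r := measureReal_nonneg
  set PI := Measure.infinitePi (fun _ : Co => β) with hPI
  set PJ := Measure.infinitePi (fun _ : Γ => β) with hPJ
  have hjt : ∀ t ∈ T, InjOn (fun u => j (u * t⁻¹)) (win K T : Set Γ) := by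
    intro t ht u hu v hv h
    have := hj (Finset.mem_coe.2 (Finset.mul_mem_mul hu (Finset.inv_mem_inv ht)))
      (Finset.mem_coe.2 (Finset.mul_mem_mul hv (Finset.inv_mem_inv ht))) h
    exact mul_right_cancel this
  have step1 : ∫ I, ∫ a, cost K T D Th ν G l (fun u => I (j u)) a ∂ν ∂PI
      ≤ ∫ I, (r - 1 / 2 * r * ∑ t ∈ T, ind (cov K T (fun u => I (j (u * t⁻¹))) t)
        + ∑ t ∈ T, ind ((fun u => I (j (u * t⁻¹))) 1 = true)
            * ∑ d ∈ D, eprof Th ν (D * bdry K T (fun u => I (j (u * t⁻¹)))) (d * t)) ∂PI :=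
    integral_mono Integrable.of_finite Integrable.of_finite fun I =>
      cost_int_a ν l hK1 hKi hG hinv h1 h2 (fun u => I (j u))
  refine step1.trans ?_
  rw [integral_add Integrable.of_finite Integrable.of_finite,
    integral_sub Integrable.of_finite Integrable.of_finite, integral_const_mul,
    integral_finsetSum _ fun _ _ => Integrable.of_finite,
    integral_finsetSum _ fun _ _ => Integrable.of_finite]
  simp only [integral_const, probReal_univ, one_smul]
  have Tpos : (0 : ℝ) < T.card := by exact_mod_cast hT.card_pos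
  have KT2 : ((K * T).card : ℝ) ≤ 2 * T.card := by
    have a1 : (K * T).card ≤ ((K * T) \ T).card + T.card := Finset.card_le_card_sdiff_add_card
    have a2 : ((K * T).card : ℝ) ≤ ((K * T) \ T).card + T.card := by exact_mod_cast a1
    nlinarith
  have c1 : 1 / 8 ≤ ∑ t ∈ T, ∫ I, ind (cov K T (fun u => I (j (u * t⁻¹))) t) ∂PI := by
    have : ∀ t ∈ T, 1 / (8 * (T.card : ℝ))
        ≤ ∫ I, ind (cov K T (fun u => I (j (u * t⁻¹))) t) ∂PI := by
      intro t ht
      rw [law_transfer β (win K T) _ (hjt t ht) (fun J => ind (cov K T J t)) (cov_dep w1 t)]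
      refine le_trans ?_ (prob_cov β w1 t)
      rw [hβ]
      have : ((K * T).card : ℝ) * (1 / (4 * T.card)) ^ 2 ≤ 2 * T.card * (1 / (4 * T.card)) ^ 2 := by
        gcongr
      have e : 2 * (T.card : ℝ) * (1 / (4 * T.card)) ^ 2 = 1 / (8 * T.card) := by
        field_simp; norm_num
      have e' : 1 / (4 * (T.card : ℝ)) = 1 / (8 * T.card) + 1 / (8 * T.card) := by
        field_simp; norm_num
      linarith
    have := Finset.sum_le_sum this
    rw [Finset.sum_const, nsmul_eq_mul] at this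
    refine le_trans (le_of_eq ?_) this
    field_simp
  have c2 : ∑ t ∈ T, ∫ I, ind (I (j (1 * t⁻¹)) = true)
      * ∑ d ∈ D, eprof Th ν (D * bdry K T (fun u => I (j (u * t⁻¹)))) (d * t) ∂PI
      ≤ D.card ^ 2 * ε + D.card ^ 2 * C * δ := by
    have e : ∀ t ∈ T, ∫ I, ind (I (j (1 * t⁻¹)) = true)
        * ∑ d ∈ D, eprof Th ν (D * bdry K T (fun u => I (j (u * t⁻¹)))) (d * t) ∂PI
        = ∫ J, ind (J 1 = true) * ∑ d ∈ D, eprof Th ν (D * bdry K T J) (d * t) ∂PJ :=
      fun t ht => law_transfer β (win K T) _ (hjt t ht)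
        (fun J => ind (J 1 = true) * ∑ d ∈ D, eprof Th ν (D * bdry K T J) (d * t))
        (bdry_dep w1 (fun B => ∑ d ∈ D, eprof Th ν (D * B) (d * t)))
    have ii : ∀ t ∈ T, Integrable
        (fun J : Γ → Bool => ind (J 1 = true) * ∑ d ∈ D, eprof Th ν (D * bdry K T J) (d * t)) PJ :=
      fun t _ => integrable_dep _ _ _ (bdry_dep w1 (fun B => ∑ d ∈ D, eprof Th ν (D * B) (d * t)))
    rw [Finset.sum_congr rfl e, ← integral_finsetSum _ ii]
    have i1 : Integrable (fun J : Γ → Bool => ind (J 1 = true)) PJ :=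
      integrable_ite_one _ _ (meas_one 1)
    have i2 : Integrable (fun J : Γ → Bool => ind (J 1 = true) * ((bdry K T J).card : ℝ)) PJ :=
      integrable_dep _ _ _ (bdry_dep w1 (fun B => (B.card : ℝ)))
    have i3 : Integrable (fun J : Γ → Bool =>
        D.card * (ε * (D * (K * T)).card) * ind (J 1 = true)
        + D.card * (C * D.card) * (ind (J 1 = true) * ((bdry K T J).card : ℝ))) PJ :=
      (i1.const_mul _).add (i2.const_mul _)
    refine (integral_mono (integrable_finsetSum _ ii) i3 fun J => ?_).trans ?_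
    · simp only
      rw [← Finset.mul_sum]
      have := mul_le_mul_of_nonneg_left (sum_eprof_le ν hK1 ε C hC h4 (bdry K T J))
        (ind_nonneg (J 1 = true))
      linarith
    · rw [integral_add (i1.const_mul _) (i2.const_mul _), integral_const_mul, integral_const_mul,
        prob_one, hβ]
      have b1 := prob_bdry β w1
      rw [hβ] at b1
      have b2 : 1 / (4 * (T.card : ℝ)) * ((K * T) \ T).card
          + T.card * (((K * T) \ T).card * (1 / (4 * T.card)) ^ 2) ≤ δ := by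
        have d0 : 0 ≤ δ := by
          by_contra hn
          have : δ * T.card < 0 := mul_neg_of_neg_of_pos (not_le.1 hn) Tpos
          have : (0 : ℝ) ≤ ((K * T) \ T).card := by positivity
          linarith
        calc _ ≤ 1 / (4 * (T.card : ℝ)) * (δ * T.card)
            + T.card * ((δ * T.card) * (1 / (4 * T.card)) ^ 2) := by gcongr
          _ = 5 / 16 * δ := by field_simp; ring
          _ ≤ δ := by linarith
      have b3 : ((D * (K * T)).card : ℝ) ≤ D.card * (2 * T.card) := by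
        have : ((D * (K * T)).card : ℝ) ≤ D.card * (K * T).card := by
          exact_mod_cast Finset.card_mul_le
        exact this.trans (by gcongr)
      have b4 : (D.card : ℝ) * (ε * (D * (K * T)).card) * (1 / (4 * T.card)) ≤ D.card ^ 2 * ε := by
        calc _ ≤ (D.card : ℝ) * (ε * (D.card * (2 * T.card))) * (1 / (4 * T.card)) := by gcongr
          _ = 1 / 2 * (D.card ^ 2 * ε) := by field_simp; norm_num
          _ ≤ _ := by
            have : (0 : ℝ) ≤ D.card ^ 2 * ε := by positivity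
            linarith
      have b5 := mul_le_mul_of_nonneg_left (b1.trans b2)
        (show (0 : ℝ) ≤ D.card * (C * D.card) by positivity)
      nlinarith
  have := mul_le_mul_of_nonneg_left c1 r0
  nlinarith

end Pool.Agent.P.MP_afd974_lc
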