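import Pool.Agent.P.MP_afd974_lc.Coin

set_option autoImplicit false
set_option linter.unusedSectionVars false

open MeasureTheory Set Function
open scoped ENNReal symmDiff

namespace Pool.Agent.P.MP_afd974_lc

variable {Γ : Type*} [Group Γ] {L : Type*} [Fintype L] [Nonempty L] [MeasurableSpace L]
  [DiscreteMeasurableSpace L]

/-- The coupling property of a random configuration with law `ν` living in `Z`. -/
def CP (ν : Measure (Γ → L)) (Z : Set (Γ → L)) : Prop :=
  ∀ ε : ℝ, 0 < ε → ∃ C : ℝ, 0 ≤ C ∧ ∀ R B : Finset Γ,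
    ∃ Θ : (Γ → L) → (Γ → L) → (Γ → L),
      (∀ ζ, DependsOn (fun a => Θ a ζ) (R : Set Γ)) ∧ (∀ a, DependsOn (Θ a) (B : Set Γ)) ∧
      (∀ a ζ, ζ ∈ Z → Θ a ζ ∈ Z ∧ ∀ z ∈ B, Θ a ζ z = ζ z) ∧
      ∑ z ∈ R, ∫ a, ν.real {ζ | Θ a ζ z ≠ a z} ∂ν ≤ ε * R.card + C * B.card

/-- The shift on coin sequences. -/
def act (g : Γ) (ω : Γ × ℕ → Bool) : Γ × ℕ → Bool := fun p => ω (p.1 * g, p.2)

lemma mp_act (g : Γ) : MeasurePreserving (act g) (coin (Γ × ℕ)) (coin (Γ × ℕ)) := by
  have hj : Injective (fun p : Γ × ℕ => (p.1 * g, p.2)) := by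
    intro p q h
    simp only [Prod.mk.injEq, mul_left_inj] at h
    exact Prod.ext h.1 h.2
  exact mp_precomp fair _ hj

/-- The configuration read along an orbit. -/
def cfg (Φ : (Γ × ℕ → Bool) → L) (ω : Γ × ℕ → Bool) : Γ → L := fun γ => Φ (act γ ω)

lemma measurable_cfg {Φ : (Γ × ℕ → Bool) → L} (hΦ : Measurable Φ) : Measurable (cfg Φ) :=
  measurable_pi_lambda _ fun γ => hΦ.comp (mp_act γ).measurable

lemma local_approx {ι : Type*} (P : Measure (ι → Bool)) [IsFiniteMeasure P]
    {Φ : (ι → Bool) → L} (hΦ : Measurable Φ) (η : ℝ) (hη : 0 < η) :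
    ∃ (φ : (ι → Bool) → L) (Lc : Finset ι), DependsOn φ (Lc : Set ι) ∧
      P.real {ω | Φ ω ≠ φ ω} ≤ η := by
  classical
  have hd := Measure.MeasureDense.of_generateFrom_isSetAlgebra_finite P
    (isSetAlgebra_measurableCylinders (α := fun _ : ι => Bool))
    generateFrom_measurableCylinders.symm
  have hc : (0 : ℝ) < Fintype.card L := by exact_mod_cast Fintype.card_pos
  have h1 : ∀ l : L, ∃ (s : Finset ι) (S : Set (s → Bool)),
      P ((Φ ⁻¹' {l}) ∆ (cylinder s S)) < ENNReal.ofReal (η / Fintype.card L) := by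
    intro l
    obtain ⟨t, ht, h⟩ := hd.approx (Φ ⁻¹' {l}) (hΦ (MeasurableSet.of_discrete))
      (measure_ne_top _ _) (η / Fintype.card L) (by positivity)
    obtain ⟨s, S, -, rfl⟩ := (mem_measurableCylinders t).1 ht
    exact ⟨s, S, h⟩
  choose s S hS using h1
  let F : (L → Prop) → L := fun p => if h : ∃ l, p l then h.choose else Classical.arbitrary L
  refine ⟨fun ω => F (fun l => ω ∈ cylinder (s l) (S l)), Finset.univ.biUnion s, ?_, ?_⟩
  · intro x y hxy
    have : (fun l => x ∈ cylinder (s l) (S l)) = (fun l => y ∈ cylinder (s l) (S l)) := by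
      funext l
      have : (s l).restrict x = (s l).restrict y := by
        funext i
        exact hxy i (Finset.mem_coe.2 (Finset.mem_biUnion.2 ⟨l, Finset.mem_univ _, i.2⟩))
      simp only [mem_cylinder, this]
    simp only [this]
  · have hsub : {ω | Φ ω ≠ F (fun l => ω ∈ cylinder (s l) (S l))}
        ⊆ ⋃ l ∈ (Finset.univ : Finset L), (Φ ⁻¹' {l}) ∆ (cylinder (s l) (S l)) := by
      intro ω hω
      by_contra hn
      simp only [Finset.mem_univ, iUnion_true, mem_iUnion, not_exists, mem_symmDiff,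
        mem_preimage, mem_singleton_iff, not_or, not_and, not_not] at hn
      apply hω
      have h : ∃ l, ω ∈ cylinder (s l) (S l) := ⟨Φ ω, (hn _).1 rfl⟩
      simp only [F, dif_pos h]
      exact (hn _).2 h.choose_spec
    refine (measureReal_mono hsub (measure_ne_top _ _)).trans
      ((measureReal_biUnion_finset_le _ _).trans ?_)
    calc ∑ l : L, P.real ((Φ ⁻¹' {l}) ∆ (cylinder (s l) (S l)))
        ≤ ∑ _l : L, η / Fintype.card L := by
          refine Finset.sum_le_sum fun l _ => ?_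
          exact ENNReal.toReal_le_of_le_ofReal (by positivity) (hS l).le
      _ = η := by
          rw [Finset.sum_const, Finset.card_univ, nsmul_eq_mul]
          field_simp

open Classical in
/-- Hamming distance on `R`. -/
noncomputable def ham (R : Finset Γ) (a b : Γ → L) : ℕ := (R.filter (fun z => b z ≠ a z)).card

lemma ham_le (R : Finset Γ) (a b : Γ → L) : ham R a b ≤ R.card := by
  classical
  unfold ham; exact Finset.card_filter_le _ _

open Classical in
/-- Real indicator of a proposition. -/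
noncomputable def ind (p : Prop) : ℝ := if p then 1 else 0

lemma ind_pos {p : Prop} (h : p) : ind p = 1 := by simp [ind, h]
lemma ind_neg {p : Prop} (h : ¬ p) : ind p = 0 := by simp [ind, h]
lemma ind_nonneg (p : Prop) : 0 ≤ ind p := by unfold ind; split_ifs <;> norm_num
lemma ind_le_one (p : Prop) : ind p ≤ 1 := by unfold ind; split_ifs <;> norm_num
lemma ind_mono {p q : Prop} (h : p → q) : ind p ≤ ind q := by
  by_cases hp : p
  · rw [ind_pos hp, ind_pos (h hp)]
  · rw [ind_neg hp]; exact ind_nonneg _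

lemma card_filter_eq_sum_ind {α : Type*} (R : Finset α) (p : α → Prop) [DecidablePred p] :
    ((R.filter p).card : ℝ) = ∑ z ∈ R, ind (p z) := by
  rw [Finset.card_filter]
  push_cast
  refine Finset.sum_congr rfl fun z _ => ?_
  by_cases h : p z <;> simp [h, ind]

lemma ham_eq_sum (R : Finset Γ) (a b : Γ → L) :
    (ham R a b : ℝ) = ∑ z ∈ R, ind (b z ≠ a z) := by
  classical
  unfold ham
  convert card_filter_eq_sum_ind R (fun z => b z ≠ a z)

open Classical in
/-- A nearest point of `Z` with a prescribed boundary pattern. -/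
noncomputable def nearest (Z : Set (Γ → L)) (R B : Finset Γ) (p : R → L) (b : B → L) : Γ → L :=
  if h : {ζ | ζ ∈ Z ∧ B.restrict ζ = b}.Nonempty then
    argminOn (fun ζ => ham R (extP R p) ζ) _ h
  else fun _ => Classical.arbitrary L

lemma nearest_spec (Z : Set (Γ → L)) (R B : Finset Γ) (a ζ : Γ → L) (hζ : ζ ∈ Z) :
    nearest Z R B (R.restrict a) (B.restrict ζ) ∈ Z ∧
      B.restrict (nearest Z R B (R.restrict a) (B.restrict ζ)) = B.restrict ζ ∧
      ham R a (nearest Z R B (R.restrict a) (B.restrict ζ)) ≤ ham R a ζ := by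
  have h : {ζ' | ζ' ∈ Z ∧ B.restrict ζ' = B.restrict ζ}.Nonempty := ⟨ζ, hζ, rfl⟩
  have e : ∀ b, ham R (extP R (R.restrict a)) b = ham R a b := by
    intro b
    classical
    unfold ham
    congr 1
    exact Finset.filter_congr fun z hz => by rw [extP_restrict R a z hz]
  unfold nearest
  rw [dif_pos h]
  have h1 := argminOn_mem (fun ζ => ham R (extP R (R.restrict a)) ζ) _ h
  refine ⟨h1.1, h1.2, ?_⟩
  have h2 := argminOn_le (fun ζ => ham R (extP R (R.restrict a)) ζ)
    {ζ' | ζ' ∈ Z ∧ B.restrict ζ' = B.restrict ζ} (a := ζ) ⟨hζ, rfl⟩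
  rw [← e, ← e]
  exact h2

open Classical in
lemma ham_cfg_le (Φ φ : (Γ × ℕ → Bool) → L) (Lc : Finset (Γ × ℕ))
    (hφ : DependsOn φ (Lc : Set (Γ × ℕ))) (R : Finset Γ) (Q : Finset (Γ × ℕ))
    (hQ : ∀ γ ∈ R, ∀ l ∈ Lc, (l.1 * γ, l.2) ∈ Q) (ω ω' : Γ × ℕ → Bool) :
    ham R (cfg Φ ω) (cfg Φ ω') ≤ ham R (cfg φ ω) (cfg Φ ω) + ham R (cfg φ ω') (cfg Φ ω')
      + Lc.card * hamQ Q ω ω' := by
  unfold ham hamQ
  have hsub : R.filter (fun z => cfg Φ ω' z ≠ cfg Φ ω z) ⊆
      (R.filter (fun z => cfg Φ ω z ≠ cfg φ ω z) ∪ R.filter (fun z => cfg Φ ω' z ≠ cfg φ ω' z))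
        ∪ Lc.biUnion (fun l => (Q.filter (fun i => ω i ≠ ω' i)).image (fun i => l.1⁻¹ * i.1)) := by
    intro z hz
    rw [Finset.mem_filter] at hz
    by_contra hn
    simp only [Finset.mem_union, Finset.mem_filter, hz.1, true_and, not_or, not_not,
      Finset.mem_biUnion, Finset.mem_image, not_exists, not_and, and_imp] at hn
    obtain ⟨⟨h1, h2⟩, h3⟩ := hn
    apply hz.2
    rw [h1, h2]
    apply hφ
    intro l hl
    by_contra hne
    exact h3 l hl (l.1 * z, l.2) (hQ z hz.1 l hl) (fun h => hne h.symm) (by simp)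
  refine (Finset.card_le_card hsub).trans ((Finset.card_union_le _ _).trans ?_)
  refine add_le_add (Finset.card_union_le _ _) (Finset.card_biUnion_le.trans ?_)
  calc ∑ l ∈ Lc, ((Q.filter (fun i => ω i ≠ ω' i)).image (fun i => l.1⁻¹ * i.1)).card
      ≤ ∑ _l ∈ Lc, (Q.filter (fun i => ω i ≠ ω' i)).card :=
        Finset.sum_le_sum fun l _ => Finset.card_image_le
    _ = _ := by rw [Finset.sum_const, smul_eq_mul]

lemma ind_eq_indicator {α : Type*} (p : α → Prop) :
    (fun x => ind (p x)) = indicator {x | p x} (fun _ => (1 : ℝ)) := by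
  funext x
  by_cases h : p x <;> simp [ind, indicator, h]

lemma measurable_ind {α : Type*} [MeasurableSpace α] (p : α → Prop)
    (hp : MeasurableSet {x | p x}) : Measurable (fun x => ind (p x)) := by
  rw [ind_eq_indicator]
  exact measurable_const.indicator hp

lemma integral_ite_one {α : Type*} [MeasurableSpace α] (μ : Measure α) (p : α → Prop)
    (hp : MeasurableSet {x | p x}) :
    ∫ x, ind (p x) ∂μ = μ.real {x | p x} := by
  rw [← integral_indicator_one hp, ind_eq_indicator]
  rfl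

lemma integrable_ite_one {α : Type*} [MeasurableSpace α] (μ : Measure α) [IsFiniteMeasure μ]
    (p : α → Prop) (hp : MeasurableSet {x | p x}) :
    Integrable (fun x => ind (p x)) μ := by
  rw [ind_eq_indicator]
  exact (integrable_const _).indicator hp

lemma err_facts {Φ φ : (Γ × ℕ → Bool) → L} (hΦ : Measurable Φ) (hφ : Measurable φ) (η : ℝ)
    (h : (coin (Γ × ℕ)).real {ω | Φ ω ≠ φ ω} ≤ η) (R : Finset Γ) :
    Integrable (fun ω => (ham R (cfg φ ω) (cfg Φ ω) : ℝ)) (coin (Γ × ℕ)) ∧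
      ∫ ω, (ham R (cfg φ ω) (cfg Φ ω) : ℝ) ∂(coin (Γ × ℕ)) ≤ η * R.card := by
  classical
  have hm : MeasurableSet {ω | Φ ω ≠ φ ω} := (measurableSet_eq_fun hΦ hφ).compl
  have hm' : ∀ z : Γ, MeasurableSet {ω | cfg Φ ω z ≠ cfg φ ω z} :=
    fun z => (mp_act z).measurable hm
  simp_rw [ham_eq_sum]
  refine ⟨integrable_finsetSum _ fun z _ => integrable_ite_one _ _ (hm' z), ?_⟩
  rw [integral_finsetSum _ fun z _ => integrable_ite_one _ _ (hm' z)]
  calc ∑ z ∈ R, ∫ ω, ind (cfg Φ ω z ≠ cfg φ ω z) ∂(coin (Γ × ℕ))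
      ≤ ∑ _z ∈ R, η := by
        refine Finset.sum_le_sum fun z _ => ?_
        rw [integral_ite_one _ _ (hm' z)]
        have := (mp_act z).measureReal_preimage hm.nullMeasurableSet
        exact le_trans (le_of_eq this) h
    _ = η * R.card := by rw [Finset.sum_const, nsmul_eq_mul, mul_comm]

theorem cp_of_factor {Φ : (Γ × ℕ → Bool) → L} (hΦ : Measurable Φ) (Z : Set (Γ → L))
    (hZ : ∀ᵐ ω ∂(coin (Γ × ℕ)), cfg Φ ω ∈ Z) : CP ((coin (Γ × ℕ)).map (cfg Φ)) Z := by
  classical
  intro ε hε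
  set P := coin (Γ × ℕ) with hP
  set ν := P.map (cfg Φ) with hν
  have hcm := measurable_cfg hΦ
  have : IsProbabilityMeasure ν := Measure.isProbabilityMeasure_map hcm.aemeasurable
  set κ : ℝ := min (ε / 8) 1 with hκ
  have κ0 : 0 < κ := lt_min (by positivity) one_pos
  have κ1 : κ ≤ 1 := min_le_right _ _
  have κε : κ ≤ ε / 8 := min_le_left _ _
  obtain ⟨φ, Lc, hφd, hφ⟩ := local_approx P hΦ (κ ^ 2) (by positivity)
  have hφm := measurable_dep φ Lc hφd
  set s : ℝ := ε / ((Lc.card : ℝ) ^ 2 + 1) with hs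
  have s0 : 0 < s := by positivity
  have hcL : (1 : ℝ) ≤ Fintype.card L := by exact_mod_cast Fintype.card_pos
  have hlog1 : 0 ≤ Real.log (Fintype.card L) := Real.log_nonneg hcL
  have hlog2 : Real.log κ ≤ 0 := Real.log_nonpos κ0.le κ1
  refine ⟨Lc.card * (Real.log (Fintype.card L) - Real.log κ) / s,
    div_nonneg (mul_nonneg (by positivity) (by linarith)) s0.le, fun R B => ?_⟩
  let Θ : (Γ → L) → (Γ → L) → (Γ → L) :=
    fun a ζ => nearest Z R B (R.restrict a) (B.restrict ζ)
  have d1 : ∀ ζ, DependsOn (fun a => Θ a ζ) (R : Set Γ) := by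
    intro ζ x y h
    have : R.restrict x = R.restrict y := funext fun i => h i i.2
    simp only [Θ, this]
  have d2 : ∀ a, DependsOn (Θ a) (B : Set Γ) := by
    intro a x y h
    have : B.restrict x = B.restrict y := funext fun i => h i i.2
    simp only [Θ, this]
  refine ⟨Θ, d1, d2, fun a ζ hζ => ⟨(nearest_spec Z R B a ζ hζ).1, fun z hz =>
    congrFun (nearest_spec Z R B a ζ hζ).2.1 ⟨z, hz⟩⟩, ?_⟩
  -- rewrite the left side as a double integral of the Hamming distance
  let h : (Γ → L) → (Γ → L) → ℝ := fun a ζ => ham R a (Θ a ζ)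
  have hd1 : ∀ ζ, DependsOn (fun a => h a ζ) (R : Set Γ) := by
    intro ζ x y hxy
    have e := d1 ζ hxy
    simp only at e
    simp only [h, e, ham]
    congr 2
    exact Finset.filter_congr fun z hz => by rw [hxy z hz]
  have hd2 : ∀ a, DependsOn (h a) (B : Set Γ) := fun a x y hxy => by simp only [h, d2 a hxy]
  have hms : ∀ a z, MeasurableSet {ζ | Θ a ζ z ≠ a z} := by
    intro a z
    have : Measurable (fun ζ => Θ a ζ z) :=
      measurable_dep _ B (fun x y hxy => by simp only [d2 a hxy])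
    exact this (MeasurableSet.of_discrete (s := {l | l ≠ a z}))
  have e1 : ∑ z ∈ R, ∫ a, ν.real {ζ | Θ a ζ z ≠ a z} ∂ν = ∫ a, ∫ ζ, h a ζ ∂ν ∂ν := by
    rw [← integral_finsetSum]
    · congr 1
      funext a
      simp only [h, ham_eq_sum]
      rw [integral_finsetSum _ fun z _ => integrable_ite_one _ _ (hms a z)]
      exact Finset.sum_congr rfl fun z _ => (integral_ite_one _ _ (hms a z)).symm
    · intro z hz
      refine integrable_dep _ _ R fun x y hxy => ?_
      have e : ∀ ζ, Θ x ζ = Θ y ζ := fun ζ => d1 ζ hxy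
      simp only [e, hxy z hz]
  have hjm : Measurable (fun p : (Γ → L) × (Γ → L) => h p.1 p.2) :=
    measurable_uncurry_dep h B (fun ζ => measurable_dep _ R (hd1 ζ)) hd2
  have hb : ∀ a ζ, h a ζ ≤ R.card := fun a ζ => by
    simp only [h]; exact_mod_cast ham_le R a _
  have h0 : ∀ a ζ, 0 ≤ h a ζ := fun a ζ => by simp only [h]; positivity
  have hji : Integrable (uncurry h) (ν.prod ν) := by
    refine Integrable.of_bound hjm.aestronglyMeasurable R.card
      (Filter.Eventually.of_forall fun p => ?_)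
    rw [Real.norm_eq_abs]
    exact (abs_of_nonneg (h0 p.1 p.2)).trans_le (hb _ _)
  rw [e1, integral_integral_swap hji]
  let H : (Γ → L) → ℝ := fun ζ => ∫ a, h a ζ ∂ν
  have Hd : DependsOn H (B : Set Γ) := fun x y hxy => by
    have : ∀ a, h a x = h a y := fun a => hd2 a hxy
    simp only [H, this]
  have He : ∀ ζ, H ζ = ∫ ω, h (cfg Φ ω) ζ ∂P := fun ζ =>
    integral_map hcm.aemeasurable (measurable_dep _ R (hd1 ζ)).aestronglyMeasurable
  have Hi : ∀ ζ, Integrable (fun ω => h (cfg Φ ω) ζ) P := fun ζ =>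
    (integrable_map_measure (measurable_dep _ R (hd1 ζ)).aestronglyMeasurable
      hcm.aemeasurable).1 (integrable_dep ν _ R (hd1 ζ))
  change ∫ ζ, H ζ ∂ν ≤ _
  rcases B.eq_empty_or_nonempty with hB | hB
  · -- empty boundary: the sample itself is admissible
    have : ∀ ζ, H ζ = 0 := by
      intro ζ
      rw [He]
      refine integral_eq_zero_of_ae (hZ.mono fun ω hω => ?_)
      have e : Θ (cfg Φ ω) ζ = Θ (cfg Φ ω) (cfg Φ ω) := d2 _ (by simp [hB])
      have := (nearest_spec Z R B (cfg Φ ω) (cfg Φ ω) hω).2.2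
      have z0 : ham R (cfg Φ ω) (cfg Φ ω) = 0 := by simp [ham]
      simp only [h, e, Pi.zero_apply, Nat.cast_eq_zero]
      simp only [Θ]
      omega
    simp only [this, integral_zero, hB, Finset.card_empty, Nat.cast_zero, mul_zero, add_zero]
    positivity
  obtain ⟨ei, ee⟩ := err_facts hΦ hφm (κ ^ 2) hφ R
  let Q : Finset (Γ × ℕ) := (R ×ˢ Lc).image (fun q => (q.2.1 * q.1, q.2.2))
  have hQ : ∀ γ ∈ R, ∀ l ∈ Lc, (l.1 * γ, l.2) ∈ Q := fun γ hγ l hl =>
    Finset.mem_image.2 ⟨(γ, l), Finset.mem_product.2 ⟨hγ, hl⟩, rfl⟩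
  have hQc : (Q.card : ℝ) ≤ R.card * Lc.card := by
    have : Q.card ≤ R.card * Lc.card := Finset.card_image_le.trans (Finset.card_product _ _).le
    exact_mod_cast this
  let Ab : (B → L) → Set (Γ × ℕ → Bool) := fun b =>
    {ω | cfg Φ ω ∈ Z ∧ (ham R (cfg φ ω) (cfg Φ ω) : ℝ) ≤ κ * R.card ∧ B.restrict (cfg Φ ω) = b}
  set τ : ℝ := κ / (Fintype.card L : ℝ) ^ B.card with hτ
  have τ0 : 0 < τ := by positivity
  set M : ℝ := κ ^ 2 * R.card + κ * R.card + Lc.card * (s * Q.card / 8 - Real.log τ / s) with hM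
  have typ : ∀ ζ, τ ≤ P.real (Ab (B.restrict ζ)) → H ζ ≤ M := by
    intro ζ hζ
    have hne : (Ab (B.restrict ζ)).Nonempty := by
      by_contra hn
      rw [not_nonempty_iff_eq_empty] at hn
      simp [hn] at hζ
      linarith
    have bl := blowup Q _ τ s τ0 s0 hζ
    have di := integrable_dep P _ _ (dA_dep Q (Ab (B.restrict ζ)))
    rw [He]
    calc ∫ ω, h (cfg Φ ω) ζ ∂P
        ≤ ∫ ω, ((ham R (cfg φ ω) (cfg Φ ω) : ℝ) + κ * R.card
            + Lc.card * (dA Q (Ab (B.restrict ζ)) ω : ℝ)) ∂P := by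
          refine integral_mono (Hi ζ) ((ei.add (integrable_const _)).add (di.const_mul _))
            fun ω => ?_
          obtain ⟨ω', ⟨a1, a2, a3⟩, a4⟩ := dA_spec Q hne ω
          have b1 := (nearest_spec Z R B (cfg Φ ω) (cfg Φ ω') a1).2.2
          have b2 := ham_cfg_le Φ φ Lc hφd R Q hQ ω ω'
          rw [a3] at b1
          rw [a4] at b2
          have b3 : (ham R (cfg Φ ω) (Θ (cfg Φ ω) ζ) : ℝ) ≤ ham R (cfg φ ω) (cfg Φ ω)
              + ham R (cfg φ ω') (cfg Φ ω') + Lc.card * (dA Q (Ab (B.restrict ζ)) ω : ℝ) := by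
            exact_mod_cast b1.trans b2
          simp only [h]
          linarith
      _ ≤ M := by
          have ei' : Integrable (fun ω => (ham R (cfg φ ω) (cfg Φ ω) : ℝ) + κ * R.card) P :=
            ei.add (integrable_const _)
          rw [integral_add ei' (di.const_mul _),
            integral_add (μ := P) ei (integrable_const _), integral_const_mul (Lc.card : ℝ)]
          simp only [integral_const, probReal_univ, one_smul]
          have := mul_le_mul_of_nonneg_left bl (Nat.cast_nonneg (α := ℝ) Lc.card)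
          linarith
  let At : Set (Γ → L) := {ζ | ¬ τ ≤ P.real (Ab (B.restrict ζ))}
  have Atm : MeasurableSet At := by
    have m1 : Measurable (B.restrict : (Γ → L) → (B → L)) := Finset.measurable_restrict B
    exact m1 (MeasurableSet.of_discrete (s := {b : B → L | ¬ τ ≤ P.real (Ab b)}))
  have M0 : 0 ≤ M := by
    have : Real.log τ ≤ 0 := by
      refine Real.log_nonpos τ0.le ?_
      rw [hτ, div_le_one (by positivity)]
      exact κ1.trans (one_le_pow₀ hcL)
    have : Real.log τ / s ≤ 0 := div_nonpos_of_nonpos_of_nonneg this s0.le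
    have : 0 ≤ s * Q.card / 8 - Real.log τ / s := by
      have : 0 ≤ s * Q.card / 8 := by positivity
      linarith
    positivity
  have Hb : ∀ ζ, H ζ ≤ M + R.card * ind (ζ ∈ At) := by
    intro ζ
    by_cases hz : ζ ∈ At
    · rw [ind_pos hz]
      have : H ζ ≤ ∫ _a, (R.card : ℝ) ∂ν :=
        integral_mono (integrable_dep ν _ R (hd1 ζ)) (integrable_const _) fun a => hb a ζ
      simp only [integral_const, probReal_univ, one_smul] at this
      linarith
    · rw [ind_neg hz]
      have := typ ζ (not_not.1 hz)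
      linarith
  have hAt : R.card * ν.real At ≤ κ * R.card + κ * R.card := by
    have e : ν.real At = P.real (cfg Φ ⁻¹' At) := by
      rw [hν, map_measureReal_apply hcm Atm]
    have hsub : cfg Φ ⁻¹' At ⊆ ({ω | ¬ cfg Φ ω ∈ Z}
        ∪ {ω | κ * R.card ≤ (ham R (cfg φ ω) (cfg Φ ω) : ℝ)})
        ∪ ⋃ b ∈ (Finset.univ.filter (fun b : B → L => ¬ τ ≤ P.real (Ab b))), Ab b := by
      intro ω hω
      by_cases a1 : cfg Φ ω ∈ Z
      · by_cases a2 : (ham R (cfg φ ω) (cfg Φ ω) : ℝ) ≤ κ * R.card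
        · right
          simp only [mem_iUnion]
          exact ⟨B.restrict (cfg Φ ω), Finset.mem_filter.2 ⟨Finset.mem_univ _, hω⟩, a1, a2, rfl⟩
        · left; right
          exact (not_le.1 a2).le
      · left; left; exact a1
    have z1 : P.real {ω | ¬ cfg Φ ω ∈ Z} = 0 := by
      rw [measureReal_def, ae_iff.1 hZ]; simp
    have z2 := mul_meas_ge_le_integral_of_nonneg (μ := P)
      (f := fun ω => (ham R (cfg φ ω) (cfg Φ ω) : ℝ))
      (Filter.Eventually.of_forall fun ω => by positivity) ei (κ * R.card)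
    have z3 : P.real (⋃ b ∈ (Finset.univ.filter (fun b : B → L => ¬ τ ≤ P.real (Ab b))), Ab b)
        ≤ κ := by
      refine (measureReal_biUnion_finset_le _ _).trans ?_
      calc ∑ b ∈ Finset.univ.filter (fun b : B → L => ¬ τ ≤ P.real (Ab b)), P.real (Ab b)
          ≤ ∑ _b ∈ Finset.univ.filter (fun b : B → L => ¬ τ ≤ P.real (Ab b)), τ :=
            Finset.sum_le_sum fun b hb => (not_le.1 (Finset.mem_filter.1 hb).2).le
        _ ≤ ∑ _b : B → L, τ :=
            Finset.sum_le_sum_of_subset_of_nonneg (Finset.filter_subset _ _) fun _ _ _ => τ0.le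
        _ = κ := by
            rw [Finset.sum_const, Finset.card_univ, nsmul_eq_mul, hτ]
            simp only [Fintype.card_pi, Finset.prod_const, Finset.card_univ, Fintype.card_coe]
            push_cast
            field_simp
    have z4 : P.real (cfg Φ ⁻¹' At)
        ≤ P.real {ω | κ * R.card ≤ (ham R (cfg φ ω) (cfg Φ ω) : ℝ)} + κ := by
      refine (measureReal_mono hsub).trans ((measureReal_union_le _ _).trans ?_)
      have := measureReal_union_le (μ := P) {ω | ¬ cfg Φ ω ∈ Z}
        {ω | κ * R.card ≤ (ham R (cfg φ ω) (cfg Φ ω) : ℝ)}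
      linarith
    have z5 : R.card * P.real {ω | κ * R.card ≤ (ham R (cfg φ ω) (cfg Φ ω) : ℝ)}
        ≤ κ * R.card := by
      have : κ * (R.card * P.real {ω | κ * R.card ≤ (ham R (cfg φ ω) (cfg Φ ω) : ℝ)})
          ≤ κ * (κ * R.card) := by nlinarith
      exact le_of_mul_le_mul_left this κ0
    rw [e]
    have := mul_le_mul_of_nonneg_left z4 (Nat.cast_nonneg (α := ℝ) R.card)
    nlinarith
  have fin1 : ∫ ζ, H ζ ∂ν ≤ M + R.card * ν.real At := by
    have i1 := integrable_ite_one ν (fun ζ => ζ ∈ At) Atm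
    have i2 : Integrable (fun ζ => M + R.card * ind (ζ ∈ At)) ν :=
      (integrable_const M).add (i1.const_mul (R.card : ℝ))
    refine (integral_mono (integrable_dep ν _ B Hd) i2 Hb).trans (le_of_eq ?_)
    rw [integral_add (integrable_const M) (i1.const_mul _), integral_const_mul (R.card : ℝ),
      integral_ite_one ν (fun ζ => ζ ∈ At) Atm]
    simp
  have hB1 : (1 : ℝ) ≤ B.card := by exact_mod_cast hB.card_pos
  have hlτ : -Real.log τ ≤ (Real.log (Fintype.card L) - Real.log κ) * B.card := by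
    rw [hτ, Real.log_div κ0.ne' (by positivity), Real.log_pow]
    nlinarith
  have t1 : (Lc.card : ℝ) * (s * Q.card / 8) ≤ ε / 8 * R.card := by
    have a1 : (Lc.card : ℝ) ^ 2 * s ≤ ε := by
      rw [hs, mul_div_assoc', div_le_iff₀ (by positivity)]
      nlinarith
    have a2 : (Lc.card : ℝ) * (s * Q.card) ≤ Lc.card * (s * (R.card * Lc.card)) := by gcongr
    have a3 := mul_le_mul_of_nonneg_right a1 (Nat.cast_nonneg (α := ℝ) R.card)
    nlinarith
  have t2 : (Lc.card : ℝ) * (-Real.log τ / s)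
      ≤ Lc.card * (Real.log (Fintype.card L) - Real.log κ) / s * B.card := by
    have : -Real.log τ / s ≤ (Real.log (Fintype.card L) - Real.log κ) * B.card / s := by gcongr
    calc (Lc.card : ℝ) * (-Real.log τ / s)
        ≤ Lc.card * ((Real.log (Fintype.card L) - Real.log κ) * B.card / s) := by gcongr
      _ = _ := by ring
  have t3 : κ ^ 2 * R.card ≤ κ * R.card := by
    have : κ ^ 2 ≤ κ := by nlinarith
    gcongr
  have t4 : κ * R.card ≤ ε / 8 * R.card := by gcongr
  have t5 : 0 ≤ ε / 8 * R.card := by positivity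
  have t6 : M = κ ^ 2 * R.card + κ * R.card + Lc.card * (s * Q.card / 8)
      + Lc.card * (-Real.log τ / s) := by rw [hM]; ring
  linarith

end Pool.Agent.P.MP_afd974_lc
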