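import Pool.Agent.P.MP_afd974_lc.Step

set_option autoImplicit false
set_option linter.unusedSectionVars false

open MeasureTheory Set Function Filter
open scoped ENNReal Pointwise Topology

namespace Pool.Agent.P.MP_afd974_lc

variable {Γ : Type*} [Group Γ] [DecidableEq Γ] {L : Type*} [Fintype L] [Nonempty L]
  [MeasurableSpace L] [DiscreteMeasurableSpace L]
variable {X : Type*} [MeasurableSpace X] [MulAction Γ X] {S : Finset Γ} {A : Set (S → L)}

lemma ae_eventually_of_summable {α : Type*} [MeasurableSpace α] (μ : Measure α)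
    [IsFiniteMeasure μ] (s : ℕ → Set α) (h : Summable (fun k => μ.real (s k))) :
    ∀ᵐ x ∂μ, ∀ᶠ k in atTop, x ∉ s k := by
  apply ae_eventually_notMem
  have : ∀ k, μ (s k) = ENNReal.ofReal (μ.real (s k)) :=
    fun k => (ofReal_measureReal (measure_ne_top _ _)).symm
  simp_rw [this]
  rw [← ENNReal.ofReal_tsum_of_nonneg (fun _ => measureReal_nonneg) h]
  exact ENNReal.ofReal_ne_top

lemma bad_le (hact : ∀ g : Γ, Measurable (fun x : X => g • x)) (μ : Measure X)
    [IsFiniteMeasure μ] (ν : Measure (Γ → L)) [IsProbabilityMeasure ν]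
    (hinv : ∀ g : Γ, MeasurePreserving (sh g) ν ν) (hZ : ∀ᵐ ξ ∂ν, ξ ∈ Sig S A)
    (σ : St X S A) :
    μ.real {x | (fun s : S => σ.f ((s : Γ) • x)) ∉ A}
      ≤ ∫ y, σ.r ν y ∂(∑ s ∈ S, μ.map (fun x : X => s • x)) := by
  have ri : ∀ (m : Measure X) [IsFiniteMeasure m], Integrable (σ.r ν) m := fun m _ =>
    Integrable.of_bound (σ.measurable_r ν).aestronglyMeasurable 1
      (Eventually.of_forall fun y => by
        rw [Real.norm_eq_abs, abs_of_nonneg (σ.r_nonneg ν y)]; exact σ.r_le_one ν y)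
  have bm : MeasurableSet {x | (fun s : S => σ.f ((s : Γ) • x)) ∉ A} := by
    have m1 : Measurable (fun x : X => fun s : S => σ.f ((s : Γ) • x)) :=
      measurable_pi_lambda _ fun s => σ.mf.comp (hact s)
    exact m1 (MeasurableSet.of_discrete (s := Aᶜ))
  have rs : ∀ s : Γ, Integrable (fun x => σ.r ν (s • x)) μ := fun s =>
    (integrable_map_measure (σ.measurable_r ν).aestronglyMeasurable (hact s).aemeasurable).1
      (ri _)
  rw [integral_finsetSum_measure fun s _ => ri _, ← integral_ite_one μ _ bm,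
    Finset.sum_congr rfl fun s _ =>
      integral_map (hact s).aemeasurable (σ.measurable_r ν).aestronglyMeasurable,
    ← integral_finsetSum _ fun s _ => rs s]
  refine integral_mono (integrable_ite_one μ _ bm) (integrable_finsetSum _ fun s _ => rs s)
    fun x => ?_
  simp only
  by_cases hx : (fun s : S => σ.f ((s : Γ) • x)) ∉ A
  · rw [ind_pos hx]
    have hsub : (univ : Set (Γ → L)) ⊆ {ξ | ¬ ξ ∈ Sig S A}
        ∪ ⋃ s ∈ S, sh s ⁻¹' {ξ | σ.G (s • x) ξ ≠ σ.f (s • x)} := by
      intro ξ _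
      by_cases hξ : ξ ∈ Sig S A
      · right
        by_contra hn
        simp only [mem_iUnion, mem_preimage, mem_ofPred_eq, not_exists, not_not] at hn
        apply hx
        convert σ.valid x ξ hξ using 2 with s
        exact (hn s s.2).symm
      · left; exact hξ
    have z1 : ν.real {ξ | ¬ ξ ∈ Sig S A} = 0 := by
      rw [measureReal_def, ae_iff.1 hZ]; simp
    have a1 := (measureReal_mono (μ := ν) hsub (measure_ne_top _ _)).trans
      (measureReal_union_le _ _)
    rw [z1, zero_add, probReal_univ] at a1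
    refine a1.trans ((measureReal_biUnion_finset_le _ _).trans (le_of_eq ?_))
    exact Finset.sum_congr rfl fun s _ =>
      (hinv s).measureReal_preimage (σ.meas_set _ _).nullMeasurableSet
  · rw [ind_neg hx]
    exact Finset.sum_nonneg fun s _ => σ.r_nonneg ν _

theorem solve [MeasurableSpace.CountablySeparated X]
    (hact : ∀ g : Γ, Measurable (fun x : X => g • x))
    (hfree : ∀ (g : Γ) (x : X), g • x = x → g = 1) (μ : Measure X) [IsFiniteMeasure μ]
    (ν : Measure (Γ → L)) [IsProbabilityMeasure ν]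
    (hinv : ∀ g : Γ, MeasurePreserving (sh g) ν ν) (hcp : CP ν (Sig S A))
    (hZ : ∀ᵐ ξ ∂ν, ξ ∈ Sig S A)
    (K : Finset Γ) (hK1 : (1 : Γ) ∈ K) (hKi : ∀ k ∈ K, k⁻¹ ∈ K)
    (hKS : ∀ s ∈ S, ∀ t ∈ S, s * t⁻¹ ∈ K)
    (hF : ∀ δ : ℝ, 0 < δ → ∃ T : Finset Γ, T.Nonempty ∧ (((K * T) \ T).card : ℝ) ≤ δ * T.card) :
    ∃ f : X → L, Measurable f ∧ ∀ᵐ x ∂μ, (fun s : S => f ((s : Γ) • x)) ∈ A := by
  classical
  set m : Measure X := ∑ s ∈ S, μ.map (fun x : X => s • x) with hm
  have : IsFiniteMeasure m := by rw [hm]; infer_instance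
  let σ0 : St X S A :=
    { D := {1}
      G := fun _ ξ => ξ 1
      f := fun _ => Classical.arbitrary L
      mG := fun _ => measurable_const
      dep := fun _ ξ ξ' h => h 1 (by simp)
      valid := fun _ ξ hξ => by simpa [sh] using hξ 1
      mf := measurable_const }
  choose nxt hnxt using step hact hfree m ν hinv hcp K hK1 hKi hKS hF
  let σ : ℕ → St X S A := fun k =>
    Nat.rec σ0 (fun k τ => nxt τ ((1 / 2 : ℝ) ^ k) (by positivity)) k
  let ρ : ℕ → ℝ := fun k => ∫ y, (σ k).r ν y ∂m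
  let Δ : ℕ → ℝ := fun k => m.real {y | (σ (k + 1)).f y ≠ (σ k).f y}
  have ρ0 : ∀ k, 0 ≤ ρ k := fun k => integral_nonneg fun y => (σ k).r_nonneg ν y
  have Δ0 : ∀ k, 0 ≤ Δ k := fun k => measureReal_nonneg
  have rc : ∀ k, ρ (k + 1) + 1 / 2 * Δ k ≤ 15 / 16 * ρ k + (1 / 2 : ℝ) ^ k :=
    fun k => hnxt (σ k) _ _
  have tel : ∀ N, ∑ k ∈ Finset.range N, (1 / 2 * Δ k + 1 / 16 * ρ k) + ρ N
      + 2 * (1 / 2 : ℝ) ^ N ≤ ρ 0 + 2 := by
    intro N
    induction N with
    | zero => simp
    | succ N ih =>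
      rw [Finset.sum_range_succ, pow_succ]
      linarith [rc N]
  have sm : Summable (fun k => 1 / 2 * Δ k + 1 / 16 * ρ k) := by
    refine summable_of_sum_range_le (c := ρ 0 + 2)
      (fun k => by have := ρ0 k; have := Δ0 k; positivity) fun N => ?_
    have := tel N
    have := ρ0 N
    have : (0 : ℝ) ≤ (1 / 2 : ℝ) ^ N := by positivity
    linarith
  have sΔ : Summable Δ :=
    Summable.of_nonneg_of_le Δ0 (fun k => by have := ρ0 k; linarith) (sm.mul_left 2)
  have sb : Summable (fun k => μ.real {x | (fun s : S => (σ k).f ((s : Γ) • x)) ∉ A}) :=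
    Summable.of_nonneg_of_le (fun _ => measureReal_nonneg) (fun k => by
      have := bad_le hact μ ν hinv hZ (σ k)
      have := Δ0 k
      change _ ≤ ρ k at *
      linarith) (sm.mul_left 16)
  have a1 := ae_eventually_of_summable m _ sΔ
  have a2 := ae_eventually_of_summable μ _ sb
  let F : (L → Prop) → L := fun p => if h : ∃ l, p l then h.choose else Classical.arbitrary L
  let f : X → L := fun x => F (fun l => ∀ᶠ k in atTop, (σ k).f x = l)
  have fm : Measurable f := by
    refine (measurable_of_finite F).comp (measurable_pi_lambda _ fun l => ?_)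
    rw [← measurableSet_setOfPred]
    have : {x | ∀ᶠ k in atTop, (σ k).f x = l} = ⋃ N, ⋂ k, ⋂ (_ : N ≤ k), (σ k).f ⁻¹' {l} := by
      ext x; simp [eventually_atTop]
    rw [this]
    exact MeasurableSet.iUnion fun N => MeasurableSet.iInter fun k => MeasurableSet.iInter fun _ =>
      (σ k).mf MeasurableSet.of_discrete
  have a3 : ∀ᵐ y ∂m, ∀ᶠ k in atTop, (σ k).f y = f y := by
    filter_upwards [a1] with y hy
    obtain ⟨N, hN⟩ := eventually_atTop.1 hy
    have h : ∃ l, ∀ᶠ k in atTop, (σ k).f y = l := by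
      refine ⟨(σ N).f y, eventually_atTop.2 ⟨N, fun k hk => ?_⟩⟩
      induction k, hk using Nat.le_induction with
      | base => rfl
      | succ k hk ih =>
        have := hN k hk
        simp only [mem_ofPred_eq, not_not] at this
        rw [this, ih]
    simp only [f, F, dif_pos h]
    exact h.choose_spec
  have a4 : ∀ s ∈ S, ∀ᵐ x ∂μ, ∀ᶠ k in atTop, (σ k).f (s • x) = f (s • x) := by
    intro s hs
    have hle : μ.map (fun x : X => s • x) ≤ m :=
      Finset.single_le_sum (f := fun s : Γ => μ.map (fun x : X => s • x))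
        (fun _ _ => bot_le) hs
    exact ae_of_ae_map (hact s).aemeasurable (ae_mono hle a3)
  refine ⟨f, fm, ?_⟩
  filter_upwards [a2, (eventually_all_finset S).2 a4] with x h1 h2
  obtain ⟨k, k1, k2⟩ := (h1.and ((eventually_all_finset S).2 h2)).exists
  simp only [mem_ofPred_eq, not_not] at k1
  convert k1 using 2 with s
  exact (k2 s s.2).symm

end Pool.Agent.P.MP_afd974_lc
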