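import Mathlib

/-!
Basic tools: an ordering principle, a variational principle for the Hamming distance,
essential suprema, invariant sigma algebras and density splittings.
-/

open MeasureTheory Set Filter Topology

set_option linter.unusedSectionVars false
set_option warn.classDefReducibility false

namespace Pool.Agent.P.MP_afd974_lc.Sep

/-- The Brezis-Browder ordering principle. -/
theorem brezis {α : Type*} (r : α → α → Prop) (hrefl : ∀ x, r x x)
    (htrans : ∀ x y z, r x y → r y z → r x z) (Φ : α → ℝ) (C : ℝ) (hb : ∀ x, Φ x ≤ C)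
    (mono : ∀ x y, r x y → Φ x ≤ Φ y)
    (chain : ∀ u : ℕ → α, (∀ n, r (u n) (u (n + 1))) → ∃ y, ∀ n, r (u n) y) (x0 : α) :
    ∃ x, ∀ y, r x y → Φ y ≤ Φ x := by
  have step : ∀ (n : ℕ) (x : α), ∃ y, r x y ∧ ∀ z, r x z → Φ z ≤ Φ y + 1 / ((n : ℝ) + 1) := by
    intro n x
    have hne : (Φ '' {z | r x z}).Nonempty := ⟨Φ x, x, hrefl x, rfl⟩
    have hbd : BddAbove (Φ '' {z | r x z}) := ⟨C, by rintro _ ⟨z, _, rfl⟩; exact hb z⟩
    have hpos : (0 : ℝ) < 1 / ((n : ℝ) + 1) := by positivity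
    obtain ⟨_, ⟨y, hy, rfl⟩, hy2⟩ := exists_lt_of_lt_csSup hne
      (show sSup (Φ '' {z | r x z}) - 1 / ((n : ℝ) + 1) < sSup (Φ '' {z | r x z}) by linarith)
    refine ⟨y, hy, fun z hz => ?_⟩
    have := le_csSup hbd ⟨z, hz, rfl⟩
    linarith
  choose nx hnx1 hnx2 using step
  let u : ℕ → α := fun n => Nat.rec x0 (fun k x => nx k x) n
  have hu : ∀ n, u (n + 1) = nx n (u n) := fun n => rfl
  obtain ⟨y, hy⟩ := chain u (fun n => by rw [hu]; exact hnx1 n _)
  refine ⟨y, fun z hz => ?_⟩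
  refine le_of_forall_pos_le_add fun ε hε => ?_
  obtain ⟨n, hn⟩ := exists_nat_one_div_lt hε
  have h1 := hnx2 n (u n) z (htrans _ _ _ (hy n) hz)
  have h2 := mono _ _ (hy (n + 1))
  rw [hu] at h2
  linarith

variable {X : Type*}

theorem real_mono_ae {m0 : MeasurableSpace X} {μ : Measure X} [IsFiniteMeasure μ] {A B : Set X}
    (h : ∀ᵐ x ∂μ, x ∈ A → x ∈ B) : μ.real A ≤ μ.real B :=
  ENNReal.toReal_mono (measure_ne_top _ _) (measure_mono_ae h)

theorem real_congr_ae {m0 : MeasurableSpace X} {μ : Measure X} {A B : Set X}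
    (h : ∀ᵐ x ∂μ, x ∈ A ↔ x ∈ B) : μ.real A = μ.real B :=
  measureReal_congr (h.mono fun _ hx => propext hx)

theorem ae_not_mem_of_real {m0 : MeasurableSpace X} {μ : Measure X} [IsFiniteMeasure μ]
    {A : Set X} (h : μ.real A ≤ 0) : ∀ᵐ x ∂μ, x ∉ A := by
  have : μ.real A = 0 := le_antisymm h measureReal_nonneg
  rw [measureReal_eq_zero_iff] at this
  exact measure_eq_zero_iff_ae_notMem.1 this

theorem real_eq_zero_of_ae {m0 : MeasurableSpace X} {μ : Measure X}
    {A : Set X} (h : ∀ᵐ x ∂μ, x ∉ A) : μ.real A = 0 := by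
  have : μ A = 0 := measure_eq_zero_iff_ae_notMem.2 h
  simp [Measure.real, this]

theorem real_iUnion_le_of_mono {m0 : MeasurableSpace X} {μ : Measure X} [IsFiniteMeasure μ]
    {s : ℕ → Set X} (hs : Monotone s) {c : ℝ} (h : ∀ n, μ.real (s n) ≤ c) :
    μ.real (⋃ n, s n) ≤ c := by
  have h1 := tendsto_measure_iUnion_atTop (μ := μ) hs
  have h2 := (ENNReal.tendsto_toReal (measure_ne_top μ (⋃ n, s n))).comp h1
  exact le_of_tendsto' h2 h

/-- If `A ⊆ B` a.e. and the measures agree then `B ⊆ A` a.e. -/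
theorem ae_rev_of_real_le {m0 : MeasurableSpace X} {μ : Measure X} [IsFiniteMeasure μ]
    {A B : Set X} (hA : MeasurableSet A) (h : ∀ᵐ x ∂μ, x ∈ A → x ∈ B)
    (hle : μ.real B ≤ μ.real A) : ∀ᵐ x ∂μ, x ∈ B → x ∈ A := by
  have h1 : μ.real (B ∩ A) + μ.real (B \ A) = μ.real B := measureReal_inter_add_sdiff hA
  have h2 : μ.real A ≤ μ.real (B ∩ A) := real_mono_ae (h.mono fun x hx hxA => ⟨hx hxA, hxA⟩)
  have h3 := ae_not_mem_of_real (μ := μ) (A := B \ A) (by linarith)
  exact h3.mono fun x hx hB => by_contra fun hA' => hx ⟨hB, hA'⟩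

/-- A variational principle for the Hamming distance. -/
theorem caristi {m m0 : MeasurableSpace X} (ν : @Measure X m0) [IsFiniteMeasure ν]
    {T : Type*} [Countable T] [MeasurableSpace T] [MeasurableSingletonClass T]
    (P : T → Prop) (t0 : T) (ht0 : P t0)
    (Ψ : (X → T) → ℝ) (h0 : ∀ f, 0 ≤ Ψ f)
    (lsc : ∀ f, Measurable[m] f → (∀ x, P (f x)) → ∀ ε > 0, ∃ δ > 0, ∀ g, Measurable[m] g →
      (∀ x, P (g x)) → ν.real {x | g x ≠ f x} < δ → Ψ f ≤ Ψ g + ε) :
    ∃ f, Measurable[m] f ∧ (∀ x, P (f x)) ∧ ∀ g, Measurable[m] g → (∀ x, P (g x)) →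
      ν.real {x | f x ≠ g x} ≤ Ψ f - Ψ g → Ψ f ≤ Ψ g := by
  classical
  let α := {f : X → T // Measurable[m] f ∧ ∀ x, P (f x)}
  let r : α → α → Prop := fun f g => ν.real {x | f.1 x ≠ g.1 x} ≤ Ψ f.1 - Ψ g.1
  have key := brezis r (fun f => by simp [r]) (fun f g h h1 h2 => by
      have : ν.real {x | f.1 x ≠ h.1 x} ≤
          ν.real {x | f.1 x ≠ g.1 x} + ν.real {x | g.1 x ≠ h.1 x} := by
        refine le_trans (measureReal_mono ?_) (measureReal_union_le _ _)
        intro x hx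
        by_contra hc
        simp only [mem_union, mem_ofPred_eq, not_or, not_not] at hc hx
        exact hx (hc.1.trans hc.2)
      simp only [r] at h1 h2 ⊢
      linarith)
    (fun f => - Ψ f.1) 0 (fun f => by simpa using h0 f.1)
    (fun f g h => by
      have : 0 ≤ ν.real {x | f.1 x ≠ g.1 x} := measureReal_nonneg
      simp only [r] at h
      linarith) ?_ ⟨fun _ => t0, measurable_const, fun _ => ht0⟩
  · obtain ⟨f, hf⟩ := key
    refine ⟨f.1, f.2.1, f.2.2, fun g hg hP h => ?_⟩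
    have := hf ⟨g, hg, hP⟩ h
    simpa using this
  intro u hu
  let L : T → Set X := fun t => {x | ∀ᶠ n in atTop, (u n).1 x = t}
  have hL : ∀ t, MeasurableSet[m] (L t) := by
    intro t
    have : L t = ⋃ N : ℕ, ⋂ n : ℕ, ⋂ (_ : N ≤ n), (u n).1 ⁻¹' {t} := by
      ext x; simp [L, eventually_atTop]
    rw [this]
    exact MeasurableSet.iUnion fun N => MeasurableSet.iInter fun n =>
      MeasurableSet.iInter fun _ => (u n).2.1 (measurableSet_singleton t)
  have huniq : ∀ x t t', x ∈ L t → x ∈ L t' → t = t' := by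
    intro x t t' h1 h2
    obtain ⟨n, hn⟩ := (Eventually.and h1 h2).exists
    exact hn.1.symm.trans hn.2
  let f : X → T := fun x => if h : ∃ t, x ∈ L t then h.choose else t0
  have hfL : ∀ x t, x ∈ L t → f x = t := by
    intro x t h
    have h' : ∃ t, x ∈ L t := ⟨t, h⟩
    simp only [f, dif_pos h']
    exact huniq x _ _ h'.choose_spec h
  have hfm : Measurable[m] f := by
    refine @measurable_to_countable' _ _ _ _ m _ fun t => ?_
    have : f ⁻¹' {t} = L t ∪ ({_x | t0 = t} ∩ (⋃ t', L t')ᶜ) := by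
      ext x
      by_cases h : ∃ t, x ∈ L t
      · obtain ⟨t', ht'⟩ := h
        have e := hfL x t' ht'
        simp only [mem_preimage, mem_singleton_iff, mem_union, mem_inter_iff, mem_ofPred_eq,
          mem_compl_iff, mem_iUnion, not_exists]
        constructor
        · intro h1; left; rw [← h1, e]; exact ht'
        · rintro (h1 | h1)
          · exact hfL x t h1
          · exact absurd ht' (h1.2 t')
      · have e : f x = t0 := by simp only [f, dif_neg h]
        push Not at h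
        simp [e, h]
    rw [this]
    exact (hL t).union ((MeasurableSet.const _).inter (MeasurableSet.iUnion hL).compl)
  have hfP : ∀ x, P (f x) := by
    intro x
    by_cases h : ∃ t, x ∈ L t
    · obtain ⟨t, ht⟩ := h
      rw [hfL x t ht]
      obtain ⟨n, hn⟩ := Eventually.exists ht
      rw [← hn]; exact (u n).2.2 x
    · simp only [f, dif_neg h]; exact ht0
  have hanti : Antitone fun n => Ψ (u n).1 := antitone_nat_of_succ_le fun n => by
    have := hu n
    have h2 : 0 ≤ ν.real {x | (u n).1 x ≠ (u (n + 1)).1 x} := measureReal_nonneg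
    simp only [r] at this
    linarith
  have hbdd : BddBelow (range fun n => Ψ (u n).1) := ⟨0, by rintro _ ⟨n, rfl⟩; exact h0 _⟩
  set l := ⨅ n, Ψ (u n).1 with hl
  have hlim : Tendsto (fun n => Ψ (u n).1) atTop (𝓝 l) := tendsto_atTop_ciInf hanti hbdd
  have hle : ∀ n, l ≤ Ψ (u n).1 := fun n => ciInf_le hbdd n
  have hd : ∀ n, ν.real {x | (u n).1 x ≠ f x} ≤ Ψ (u n).1 - l := by
    intro n
    let B : ℕ → Set X := fun N => {x | ∃ k < N, (u (n + k)).1 x ≠ (u (n + k + 1)).1 x}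
    have hB : ∀ N, ν.real (B N) ≤ Ψ (u n).1 - Ψ (u (n + N)).1 := by
      intro N
      induction N with
      | zero => simp [B]
      | succ N ih =>
        have : B (N + 1) ⊆ B N ∪ {x | (u (n + N)).1 x ≠ (u (n + N + 1)).1 x} := by
          rintro x ⟨k, hk, hx⟩
          rcases Nat.lt_succ_iff_lt_or_eq.1 hk with h | h
          · exact Or.inl ⟨k, h, hx⟩
          · subst h; exact Or.inr hx
        have h2 := le_trans (measureReal_mono this) (measureReal_union_le (μ := ν) _ _)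
        have h3 := hu (n + N)
        simp only [r] at h3
        rw [← add_assoc]
        linarith
    have hmono : Monotone B := by
      intro a b hab x hx
      obtain ⟨k, hk, hx⟩ := hx
      exact ⟨k, lt_of_lt_of_le hk hab, hx⟩
    refine le_trans (measureReal_mono ?_) (real_iUnion_le_of_mono hmono fun N => ?_)
    · intro x hx
      by_contra hc
      simp only [mem_iUnion, not_exists, B, mem_ofPred_eq, not_and, not_not] at hc
      have h1 : ∀ k, (u (n + k)).1 x = (u n).1 x := by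
        intro k
        induction k with
        | zero => rfl
        | succ k ih => rw [← add_assoc, ← hc (k + 1) k (Nat.lt_succ_self k), ih]
      refine hx (hfL x _ ?_).symm
      refine eventually_atTop.2 ⟨n, fun b hb => ?_⟩
      obtain ⟨k, rfl⟩ := Nat.exists_eq_add_of_le hb
      exact h1 k
    · have := hB N
      have := hle (n + N)
      linarith
  have hfl : Ψ f ≤ l := by
    refine le_of_forall_pos_le_add fun ε hε => ?_
    obtain ⟨δ, hδ, hδ'⟩ := lsc f hfm hfP (ε / 2) (by linarith)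
    have h1 : ∀ᶠ n in atTop, Ψ (u n).1 < l + min δ (ε / 2) :=
      hlim.eventually (gt_mem_nhds (by have := lt_min hδ (half_pos hε); linarith))
    obtain ⟨n, hn⟩ := h1.exists
    have h2 := hδ' (u n).1 (u n).2.1 (u n).2.2 (by
      have := hd n; have := min_le_left δ (ε / 2); linarith)
    have := min_le_right δ (ε / 2)
    linarith
  refine ⟨⟨f, hfm, hfP⟩, fun n => ?_⟩
  have := hd n
  simp only [r]
  linarith

/-- A maximal member of a family closed under increasing unions. -/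
theorem exists_maximal_set {m0 : MeasurableSpace X} (μ : Measure X) [IsFiniteMeasure μ]
    (P : Set X → Prop) (hP : ∀ A, P A → MeasurableSet A) (h0 : P ∅)
    (hU : ∀ u : ℕ → Set X, Monotone u → (∀ n, P (u n)) → P (⋃ n, u n)) :
    ∃ A, P A ∧ ∀ B, P B → A ⊆ B → ∀ᵐ x ∂μ, x ∈ B → x ∈ A := by
  obtain ⟨A, hA⟩ := brezis (α := {A // P A}) (fun A B => A.1 ⊆ B.1) (fun _ => Subset.rfl)
    (fun _ _ _ => Subset.trans) (fun A => μ.real A.1) (μ.real univ)
    (fun A => measureReal_mono (subset_univ _)) (fun A B h => measureReal_mono h)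
    (fun u hu => ⟨⟨⋃ n, (u n).1, hU _ (monotone_nat_of_le_succ hu) fun n => (u n).2⟩,
      fun n => subset_iUnion (fun n => (u n).1) n⟩) ⟨∅, h0⟩
  exact ⟨A.1, A.2, fun B hB hAB =>
    ae_rev_of_real_le (hP _ A.2) (ae_of_all _ fun x hx => hAB hx) (hA ⟨B, hB⟩ hAB)⟩

/-- Essential suprema of families of sets. -/
theorem exists_essSup_seq {m0 : MeasurableSpace X} (μ : Measure X) [IsFiniteMeasure μ]
    (P : Set X → Prop) (hP : ∀ A, P A → MeasurableSet A) (h0 : P ∅) :
    ∃ u : ℕ → Set X, (∀ n, P (u n)) ∧ ∀ B, P B → ∀ᵐ x ∂μ, x ∈ B → x ∈ ⋃ n, u n := by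
  obtain ⟨A, ⟨u, hu, rfl⟩, hA⟩ := exists_maximal_set μ
    (fun A => ∃ u : ℕ → Set X, (∀ n, P (u n)) ∧ A = ⋃ n, u n)
    (by rintro A ⟨u, hu, rfl⟩; exact MeasurableSet.iUnion fun n => hP _ (hu n))
    ⟨fun _ => ∅, fun _ => h0, by simp⟩
    (by
      intro v _ hv
      choose w hw1 hw2 using hv
      refine ⟨fun n => w n.unpair.1 n.unpair.2, fun n => hw1 _ _, ?_⟩
      rw [iUnion_unpair w]
      exact iUnion_congr hw2)
  refine ⟨u, hu, fun B hB => ?_⟩
  have := hA (B ∪ ⋃ n, u n) ⟨fun n => Nat.casesOn n B u, fun n => by cases n <;> simp [hB, hu], by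
    ext x
    simp only [mem_union, mem_iUnion]
    constructor
    · rintro (h | ⟨n, h⟩)
      · exact ⟨0, h⟩
      · exact ⟨n + 1, h⟩
    · rintro ⟨n, h⟩
      cases n with
      | zero => exact Or.inl h
      | succ n => exact Or.inr ⟨n, h⟩⟩ subset_union_right
  exact this.mono fun x hx h => hx (Or.inl h)

/-- Splitting along the conditional density of a set. -/
theorem dens_split {m m0 : MeasurableSpace X} (hm : m ≤ m0) (μ : @Measure X m0)
    [IsFiniteMeasure μ] (A : Set X) {θ : ℝ} (hθ : 0 ≤ θ) :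
    ∃ Z, MeasurableSet[m] Z ∧
      (∀ Z', MeasurableSet[m] Z' → Z' ⊆ Z → μ.real (Z' ∩ A) ≤ θ * μ.real Z') ∧
      (∀ Z', MeasurableSet[m] Z' → Z' ⊆ Zᶜ → θ * μ.real Z' ≤ μ.real (Z' ∩ A)) := by
  let μ1 : Measure X := μ.restrict A
  let μ2 : Measure X := (Real.toNNReal θ) • μ
  obtain ⟨Z, hZ, h1, h2⟩ := @hahn_decomposition X m (μ2.trim hm) (μ1.trim hm) _ _
  have e1 : ∀ Z', MeasurableSet[m] Z' → (μ1.trim hm Z').toReal = μ.real (Z' ∩ A) := by
    intro Z' hZ'
    rw [trim_measurableSet_eq hm hZ', Measure.restrict_apply (hm _ hZ')]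
    rfl
  have e2 : ∀ Z', MeasurableSet[m] Z' → (μ2.trim hm Z').toReal = θ * μ.real Z' := by
    intro Z' hZ'
    rw [trim_measurableSet_eq hm hZ']
    simp [μ2, Measure.real, hθ]
  refine ⟨Z, hZ, fun Z' hZ' h => ?_, fun Z' hZ' h => ?_⟩
  · rw [← e1 Z' hZ', ← e2 Z' hZ']
    exact ENNReal.toReal_mono (measure_ne_top _ _) (h1 Z' hZ' h)
  · rw [← e1 Z' hZ', ← e2 Z' hZ']
    exact ENNReal.toReal_mono (measure_ne_top _ _) (h2 Z' hZ' h)

section inv

variable [m0 : MeasurableSpace X] {Γ : Type*} [Group Γ] [MulAction Γ X] {T : Type*} [Fintype T]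

/-- The sigma algebra of measurable sets that are almost invariant under the given elements. -/
def invSigma (μ : Measure X) (s : T → Γ) : MeasurableSpace X where
  MeasurableSet' A := MeasurableSet A ∧ ∀ τ, ∀ᵐ x ∂μ, (s τ • x ∈ A ↔ x ∈ A)
  measurableSet_empty := ⟨MeasurableSet.empty, fun _ => by simp⟩
  measurableSet_compl A h := ⟨h.1.compl, fun τ => (h.2 τ).mono fun x hx => not_congr hx⟩
  measurableSet_iUnion f h := ⟨MeasurableSet.iUnion fun i => (h i).1, fun τ => by
    have : ∀ᵐ x ∂μ, ∀ i, (s τ • x ∈ f i ↔ x ∈ f i) := ae_all_iff.2 fun i => (h i).2 τ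
    exact this.mono fun x hx => by simp only [mem_iUnion]; exact exists_congr hx⟩

theorem invSigma_le (μ : Measure X) (s : T → Γ) : invSigma μ s ≤ m0 := fun _ h => h.1

theorem inv_iff {μ : Measure X} {s : T → Γ} {A : Set X} :
    MeasurableSet[invSigma μ s] A ↔ MeasurableSet A ∧ ∀ τ, ∀ᵐ x ∂μ, (s τ • x ∈ A ↔ x ∈ A) :=
  Iff.rfl

/-- Expansion of all sets of conditional density at most one half. -/
def Expand (μ : Measure X) (s : T → Γ) (κ : ℝ) : Prop :=
  ∀ A, MeasurableSet A →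
    (∀ Z, MeasurableSet[invSigma μ s] Z → 2 * μ.real (Z ∩ A) ≤ μ.real Z) →
    κ * μ.real A ≤ ∑ τ, μ.real {x | ¬ (s τ • x ∈ A ↔ x ∈ A)}

theorem real_pre {μ : Measure X} (hμ : ∀ g : Γ, MeasurePreserving (fun x : X => g • x) μ μ)
    (g : Γ) {A : Set X} (hA : MeasurableSet A) : μ.real {x | g • x ∈ A} = μ.real A :=
  (hμ g).measureReal_preimage hA.nullMeasurableSet

theorem ae_pre {μ : Measure X} (hμ : ∀ g : Γ, MeasurePreserving (fun x : X => g • x) μ μ)
    (g : Γ) {p : X → Prop} (h : ∀ᵐ x ∂μ, p x) : ∀ᵐ x ∂μ, p (g • x) :=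
  (hμ g).quasiMeasurePreserving.ae h

theorem meas_pre {μ : Measure X} (hμ : ∀ g : Γ, MeasurePreserving (fun x : X => g • x) μ μ)
    (g : Γ) {A : Set X} (hA : MeasurableSet A) : MeasurableSet {x | g • x ∈ A} :=
  (hμ g).measurable hA

theorem inv_ae_inv {μ : Measure X} (hμ : ∀ g : Γ, MeasurePreserving (fun x : X => g • x) μ μ)
    {s : T → Γ} {A : Set X} (hA : MeasurableSet[invSigma μ s] A) (τ : T) :
    ∀ᵐ x ∂μ, ((s τ)⁻¹ • x ∈ A ↔ x ∈ A) := by
  have := ae_pre hμ (s τ)⁻¹ (hA.2 τ)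
  exact this.mono fun x hx => by rw [smul_inv_smul] at hx; exact hx.symm

/-- The localised form of expansion. -/
theorem Expand.loc {μ : Measure X} [IsFiniteMeasure μ] {s : T → Γ} {κ : ℝ} (h : Expand μ s κ)
    {A Z : Set X} (hA : MeasurableSet A) (hZ : MeasurableSet[invSigma μ s] Z)
    (hd : ∀ Z', MeasurableSet[invSigma μ s] Z' → Z' ⊆ Z → 2 * μ.real (Z' ∩ A) ≤ μ.real Z') :
    κ * μ.real (Z ∩ A) ≤ ∑ τ, μ.real (Z ∩ {x | ¬ (s τ • x ∈ A ↔ x ∈ A)}) := by
  have h1 := h (Z ∩ A) (hZ.1.inter hA) (fun Z' hZ' => by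
    rw [← inter_assoc]
    exact (hd _ (hZ'.inter hZ) inter_subset_right).trans (measureReal_mono inter_subset_left))
  refine h1.trans (Finset.sum_le_sum fun τ _ => real_mono_ae ((hZ.2 τ).mono fun x hx => ?_))
  simp only [mem_inter_iff, mem_ofPred_eq]
  tauto

end inv

end Pool.Agent.P.MP_afd974_lc.Sep
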