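import Pool.Agent.P.MP_afd974_lc.SepBase

/-!
Exit sets, local maximum cuts, recurrence and large atoms.
-/

open MeasureTheory Set Filter Topology

set_option linter.unusedSectionVars false

namespace Pool.Agent.P.MP_afd974_lc.Sep

variable {X : Type*} [m0 : MeasurableSpace X] {Γ : Type*} [Group Γ] [MulAction Γ X]
  {T : Type*} [Fintype T] {μ : Measure X} [IsFiniteMeasure μ]

/-- `E` is the set of points moved out of their component by `g`. -/
def IsExt (μ : Measure X) (ν : T → Γ) (g : Γ) (E : Set X) : Prop :=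
  (∃ u : ℕ → Set X, (∀ n, MeasurableSet[invSigma μ ν] (u n)) ∧
    E = ⋃ n, {x | ¬ (g • x ∈ u n ↔ x ∈ u n)}) ∧
  ∀ A, MeasurableSet[invSigma μ ν] A → ∀ᵐ x ∂μ, x ∉ E → (g • x ∈ A ↔ x ∈ A)

theorem meas_bd (hμ : ∀ g : Γ, MeasurePreserving (fun x : X => g • x) μ μ) (g : Γ) {A : Set X}
    (hA : MeasurableSet A) : MeasurableSet {x | ¬ (g • x ∈ A ↔ x ∈ A)} :=
  (MeasurableSet.iff (meas_pre hμ _ hA) hA).compl

theorem exists_isExt (hμ : ∀ g : Γ, MeasurePreserving (fun x : X => g • x) μ μ) (ν : T → Γ)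
    (g : Γ) : ∃ E, IsExt μ ν g E := by
  obtain ⟨u, hu, h⟩ := exists_essSup_seq μ
    (fun B => ∃ A, MeasurableSet[invSigma μ ν] A ∧ B = {x | ¬ (g • x ∈ A ↔ x ∈ A)})
    (by rintro B ⟨A, hA, rfl⟩; exact meas_bd hμ g hA.1)
    ⟨∅, @MeasurableSet.empty _ (invSigma μ ν), by simp⟩
  choose v hv1 hv2 using hu
  refine ⟨⋃ n, u n, ⟨v, hv1, iUnion_congr hv2⟩, fun A hA => ?_⟩
  exact (h _ ⟨A, hA, rfl⟩).mono fun x hx hE => by_contra fun hc => hE (hx hc)

theorem IsExt.meas (hμ : ∀ g : Γ, MeasurePreserving (fun x : X => g • x) μ μ) {ν : T → Γ}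
    {g : Γ} {E : Set X} (h : IsExt μ ν g E) : MeasurableSet E := by
  obtain ⟨u, hu, rfl⟩ := h.1
  exact MeasurableSet.iUnion fun n => meas_bd hμ g (hu n).1

theorem IsExt.pre (hμ : ∀ g : Γ, MeasurePreserving (fun x : X => g • x) μ μ) {ν : T → Γ}
    {g : Γ} {E : Set X} (h : IsExt μ ν g E) {D : Set X} (hD : MeasurableSet[invSigma μ ν] D) :
    μ.real ({x | g • x ∈ D} ∩ E) = μ.real (D ∩ E) := by
  have h1 := measureReal_inter_add_sdiff (μ := μ) (s := {x | g • x ∈ D}) (h.meas hμ)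
  have h2 := measureReal_inter_add_sdiff (μ := μ) (s := D) (h.meas hμ)
  have h3 : μ.real ({x | g • x ∈ D} \ E) = μ.real (D \ E) :=
    real_congr_ae ((h.2 D hD).mono fun x hx => by
      simp only [Set.mem_sdiff, mem_ofPred_eq]; tauto)
  rw [real_pre hμ g hD.1] at h1
  linarith

theorem IsExt.fn {ν : T → Γ} {g : Γ} {E : Set X} (h : IsExt μ ν g E) {f : X → Bool}
    (hf : Measurable[invSigma μ ν] f) : ∀ᵐ x ∂μ, x ∉ E → f (g • x) = f x :=
  (h.2 (f ⁻¹' {true}) (hf (measurableSet_singleton _))).mono fun x hx hE => by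
    have := hx hE
    simp only [mem_preimage, mem_singleton_iff] at this
    exact Bool.eq_iff_iff.2 this

theorem inv_pre (hμ : ∀ g : Γ, MeasurePreserving (fun x : X => g • x) μ μ) {ν : T → Γ}
    {g : Γ} (hc : ∀ τ, Commute (ν τ) g) {A : Set X} (hA : MeasurableSet[invSigma μ ν] A) :
    MeasurableSet[invSigma μ ν] {x | g • x ∈ A} := by
  refine ⟨meas_pre hμ g hA.1, fun τ => (ae_pre hμ g (hA.2 τ)).mono fun x hx => ?_⟩
  simp only [mem_ofPred_eq]
  rw [← mul_smul, ← (hc τ).eq, mul_smul]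
  exact hx

theorem IsExt.inv (hμ : ∀ g : Γ, MeasurePreserving (fun x : X => g • x) μ μ) {ν : T → Γ}
    {g : Γ} (hc : ∀ τ, Commute (ν τ) g) {E : Set X} (h : IsExt μ ν g E) :
    MeasurableSet[invSigma μ ν] E := by
  obtain ⟨u, hu, rfl⟩ := h.1
  exact MeasurableSet.iUnion fun n => (MeasurableSet.iff (inv_pre hμ hc (hu n)) (hu n)).compl

/-- A set of the invariant sigma algebra that avoids the exit set is invariant. -/
theorem IsExt.fix (hμ : ∀ g : Γ, MeasurePreserving (fun x : X => g • x) μ μ) {ν : T → Γ}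
    {g : Γ} {E : Set X} (h : IsExt μ ν g E) {Z : Set X} (hZ : MeasurableSet[invSigma μ ν] Z)
    (hZE : ∀ᵐ x ∂μ, x ∈ Z → x ∉ E) : ∀ᵐ x ∂μ, (g • x ∈ Z ↔ x ∈ Z) := by
  have h1 : ∀ᵐ x ∂μ, x ∈ Z → x ∈ {x | g • x ∈ Z} := by
    filter_upwards [h.2 Z hZ, hZE] with x a b hx
    exact (a (b hx)).2 hx
  have h2 := ae_rev_of_real_le hZ.1 h1 (real_pre hμ g hZ.1).le
  filter_upwards [h1, h2] with x a b
  exact ⟨b, a⟩

/-- Recurrence: if the square of `a` is conjugate to `a` then they have the same exit sets. -/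
theorem ext_recurrence (hμ : ∀ g : Γ, MeasurePreserving (fun x : X => g • x) μ μ) {ν : T → Γ}
    {a t : Γ} (ha : ∀ τ, Commute (ν τ) a) (ht : ∀ τ, Commute (ν τ) t)
    (hta : t * a = a * a * t) {E1 E2 : Set X} (h1 : IsExt μ ν a E1)
    (h2 : IsExt μ ν (a * a) E2) : ∀ᵐ x ∂μ, x ∈ E1 → x ∈ E2 := by
  have hsub : ∀ᵐ x ∂μ, x ∈ E2 → x ∈ E1 := by
    obtain ⟨u, hu, rfl⟩ := h2.1
    have a1 := h1.2 E1 (h1.inv hμ ha)
    have a2 : ∀ᵐ x ∂μ, ∀ n, x ∉ E1 → (a • x ∈ u n ↔ x ∈ u n) :=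
      ae_all_iff.2 fun n => h1.2 _ (hu n)
    filter_upwards [a1, a2, ae_pre hμ a a2] with x b1 b2 b3 hx
    by_contra hc
    obtain ⟨n, hn⟩ := mem_iUnion.1 hx
    apply hn
    rw [mul_smul, b3 n (fun h => hc ((b1 hc).1 h)), b2 n hc]
  refine ae_rev_of_real_le (h2.meas hμ) hsub ?_
  rw [← real_pre hμ t⁻¹ (h1.meas hμ)]
  obtain ⟨u, hu, rfl⟩ := h1.1
  have a2 : ∀ᵐ x ∂μ, ∀ n, x ∉ E2 →
      ((a * a) • x ∈ {y | t⁻¹ • y ∈ u n} ↔ x ∈ {y | t⁻¹ • y ∈ u n}) :=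
    ae_all_iff.2 fun n => h2.2 _ (inv_pre hμ (fun τ => (ht τ).inv_right) (hu n))
  refine real_mono_ae (a2.mono fun x hx h => ?_)
  by_contra hc
  obtain ⟨n, hn⟩ := mem_iUnion.1 h
  apply hn
  have e : a * t⁻¹ = t⁻¹ * (a * a) := by
    rw [eq_inv_mul_iff_mul_eq, ← mul_assoc, hta, mul_inv_cancel_right]
  rw [← mul_smul, e, mul_smul]
  exact hx n hc

/-- The points at which a labelling changes along `g` or its inverse. -/
def Cut (g : Γ) (f : X → Bool) : Set X := {x | f (g • x) ≠ f x ∨ f (g⁻¹ • x) ≠ f x}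

theorem meas_ne (hμ : ∀ g : Γ, MeasurePreserving (fun x : X => g • x) μ μ) (g : Γ)
    {f : X → Bool} (hf : Measurable f) : MeasurableSet {x | f (g • x) ≠ f x} :=
  (measurableSet_eq_fun (hf.comp (hμ g).measurable) hf).compl

theorem meas_Cut (hμ : ∀ g : Γ, MeasurePreserving (fun x : X => g • x) μ μ) (g : Γ)
    {f : X → Bool} (hf : Measurable f) : MeasurableSet (Cut g f) :=
  (meas_ne hμ g hf).union (meas_ne hμ g⁻¹ hf)

theorem maxcut (hμ : ∀ g : Γ, MeasurePreserving (fun x : X => g • x) μ μ) {ν : T → Γ}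
    {g : Γ} {E : Set X} (h : IsExt μ ν g E) :
    ∃ f : X → Bool, Measurable[invSigma μ ν] f ∧
      ∀ Z, MeasurableSet[invSigma μ ν] Z → μ.real (Z ∩ E) ≤ 8 * μ.real (Z ∩ Cut g f) := by
  classical
  have hE := h.meas hμ
  have hle := invSigma_le μ ν
  have hlip : ∀ f f' : X → Bool, Measurable[invSigma μ ν] f → Measurable[invSigma μ ν] f' →
      μ.real {x | f (g • x) ≠ f x} ≤
        μ.real {x | f' (g • x) ≠ f' x} + 2 * μ.real ({x | f x ≠ f' x} ∩ E) := by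
    intro f f' hf hf'
    have hD : MeasurableSet[invSigma μ ν] {x | f x ≠ f' x} :=
      (@measurableSet_eq_fun _ _ (invSigma μ ν) _ _ _ _ hf hf').compl
    have h1 : μ.real {x | f (g • x) ≠ f x} ≤ μ.real (({x | f' (g • x) ≠ f' x} ∪
        ({x | f x ≠ f' x} ∩ E)) ∪ ({x | g • x ∈ {x | f x ≠ f' x}} ∩ E)) := by
      refine real_mono_ae ((h.fn hf).mono fun x hx hne => ?_)
      have hxE : x ∈ E := by_contra fun hc => hne (hx hc)
      by_contra hc
      simp only [mem_union, mem_inter_iff, mem_ofPred_eq, hxE, and_true, not_or, not_not] at hc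
      exact hne (by rw [hc.2, hc.1.1, hc.1.2])
    have h2 := h.pre hμ hD
    have h3 := measureReal_union_le (μ := μ) ({x | f' (g • x) ≠ f' x} ∪
        ({x | f x ≠ f' x} ∩ E)) ({x | g • x ∈ {x | f x ≠ f' x}} ∩ E)
    have h4 := measureReal_union_le (μ := μ) {x | f' (g • x) ≠ f' x} ({x | f x ≠ f' x} ∩ E)
    linarith
  obtain ⟨f, hf, -, hmin⟩ := caristi (m := invSigma μ ν) (μ.restrict E) (fun _ : Bool => True)
    true trivial (fun f => 2 * (μ.real univ - μ.real {x | f (g • x) ≠ f x}))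
    (fun f => by
      have : μ.real {x | f (g • x) ≠ f x} ≤ μ.real univ := measureReal_mono (subset_univ _)
      linarith)
    (by
      intro f hf _ ε hε
      refine ⟨ε / 4, by positivity, fun f' hf' _ hd => ?_⟩
      rw [measureReal_restrict_apply' hE] at hd
      have := hlip f' f hf' hf
      linarith)
  refine ⟨f, hf, ?_⟩
  have hfm : Measurable f := hf.mono hle le_rfl
  have hC := meas_ne hμ g hfm
  have key : ∀ Z, MeasurableSet[invSigma μ ν] Z →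
      μ.real (Z ∩ {x | g • x ∉ Z}) ≤ 1 / 2 * μ.real (Z ∩ E) + 4 * μ.real (Z ∩ Cut g f) := by
    intro Z hZ
    let f' : X → Bool := fun x => if x ∈ Z then !f x else f x
    have hf' : Measurable[invSigma μ ν] f' :=
      Measurable.ite hZ ((measurable_of_countable (fun b : Bool => !b)).comp hf) hf
    have e : {x | f x ≠ f' x} = Z := by
      ext x; by_cases hx : x ∈ Z <;> simp [f', hx]
    have e' : {x | f' x ≠ f x} = Z := by
      ext x; by_cases hx : x ∈ Z <;> simp [f', hx]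
    have h1 : μ.real {x | f' (g • x) ≠ f' x} - μ.real {x | f (g • x) ≠ f x} ≤
        1 / 2 * μ.real (Z ∩ E) := by
      by_contra hc
      have a1 := hmin f' hf' (fun _ => trivial) (by
        rw [measureReal_restrict_apply' hE, e]; linarith)
      have : 0 ≤ μ.real (Z ∩ E) := measureReal_nonneg
      linarith
    have hB := meas_bd hμ g hZ.1
    set B := {x | ¬ (g • x ∈ Z ↔ x ∈ Z)} with hBdef
    set C := {x | f (g • x) ≠ f x} with hCdef
    have h2 : {x | f' (g • x) ≠ f' x} = (B \ C) ∪ (C \ B) := by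
      ext x
      simp only [hBdef, hCdef, mem_union, Set.mem_sdiff, mem_ofPred_eq, f']
      by_cases a1 : x ∈ Z <;> by_cases a2 : g • x ∈ Z <;> simp [a1, a2]
      all_goals cases f x <;> cases f (g • x) <;> simp
    rw [h2, measureReal_union (disjoint_left.2 fun x a b => b.2 a.1) (hC.diff hB)] at h1
    have h3 := measureReal_inter_add_sdiff (μ := μ) (s := B) hC
    have h4 := measureReal_inter_add_sdiff (μ := μ) (s := C) hB
    rw [inter_comm] at h4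
    have h5 : μ.real (Z ∩ {x | g • x ∉ Z}) ≤ μ.real B :=
      measureReal_mono fun x hx h => hx.2 (h.2 hx.1)
    have h6 : μ.real (B ∩ C) ≤ μ.real (Z ∩ Cut g f) + μ.real {x | g • x ∈ Z ∩ Cut g f} := by
      refine le_trans (measureReal_mono ?_) (measureReal_union_le _ _)
      intro x hx
      by_cases a1 : x ∈ Z
      · exact Or.inl ⟨a1, Or.inl hx.2⟩
      · refine Or.inr ⟨by_contra fun a2 => hx.1 (by simp [a1, a2]), Or.inr ?_⟩
        rw [inv_smul_smul]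
        exact Ne.symm hx.2
    rw [real_pre hμ g (hZ.1.inter (meas_Cut hμ g hfm))] at h6
    linarith
  obtain ⟨u, hu, hEu⟩ := h.1
  have key2 : ∀ r : ℕ, ∀ Z, MeasurableSet[invSigma μ ν] Z →
      μ.real (Z ∩ ({x | ∃ n < r, ¬ (g • x ∈ u n ↔ x ∈ u n)} ∪ {x | g • x ∉ Z})) ≤
        1 / 2 * μ.real (Z ∩ E) + 4 * μ.real (Z ∩ Cut g f) := by
    intro r
    induction r with
    | zero => intro Z hZ; simpa using key Z hZ
    | succ r ih =>
      intro Z hZ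
      have h1 := ih _ (hZ.inter (hu r))
      have h2 := ih _ (hZ.diff (hu r))
      have h3 := measureReal_inter_add_sdiff (μ := μ) (s := Z ∩ E) (hu r).1
      have h4 := measureReal_inter_add_sdiff (μ := μ) (s := Z ∩ Cut g f) (hu r).1
      rw [inter_right_comm, ← sdiff_inter_right_comm] at h3 h4
      refine le_trans (le_trans (measureReal_mono ?_) (measureReal_union_le
        ((Z ∩ u r) ∩ ({x | ∃ n < r, ¬ (g • x ∈ u n ↔ x ∈ u n)} ∪ {x | g • x ∉ Z ∩ u r}))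
        ((Z \ u r) ∩ ({x | ∃ n < r, ¬ (g • x ∈ u n ↔ x ∈ u n)} ∪ {x | g • x ∉ Z \ u r})))) (by
          linarith)
      rintro x ⟨hx, h⟩
      by_cases a1 : x ∈ u r
      · refine Or.inl ⟨⟨hx, a1⟩, ?_⟩
        rcases h with ⟨n, hn, h⟩ | h
        · rcases Nat.lt_succ_iff_lt_or_eq.1 hn with b | b
          · exact Or.inl ⟨n, b, h⟩
          · subst b; exact Or.inr fun c => h (by simp [a1, c.2])
        · exact Or.inr fun c => h c.1
      · refine Or.inr ⟨⟨hx, a1⟩, ?_⟩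
        rcases h with ⟨n, hn, h⟩ | h
        · rcases Nat.lt_succ_iff_lt_or_eq.1 hn with b | b
          · exact Or.inl ⟨n, b, h⟩
          · subst b; exact Or.inr fun c => h (by simp [a1, c.2])
        · exact Or.inr fun c => h c.1
  intro Z hZ
  have h1 : μ.real (⋃ r : ℕ, Z ∩ {x | ∃ n < r, ¬ (g • x ∈ u n ↔ x ∈ u n)}) ≤
      1 / 2 * μ.real (Z ∩ E) + 4 * μ.real (Z ∩ Cut g f) := by
    refine real_iUnion_le_of_mono ?_ fun r => le_trans (measureReal_mono ?_) (key2 r Z hZ)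
    · intro a b hab x hx
      obtain ⟨h1, n, hn, h2⟩ := hx
      exact ⟨h1, n, lt_of_lt_of_le hn hab, h2⟩
    · exact inter_subset_inter_right _ subset_union_left
  have h2 : μ.real (Z ∩ E) ≤ μ.real (⋃ r : ℕ, Z ∩ {x | ∃ n < r, ¬ (g • x ∈ u n ↔ x ∈ u n)}) := by
    refine measureReal_mono ?_
    rintro x ⟨hx, hxE⟩
    rw [hEu] at hxE
    obtain ⟨n, hn⟩ := mem_iUnion.1 hxE
    exact mem_iUnion.2 ⟨n + 1, hx, n, Nat.lt_succ_self n, hn⟩
  linarith

theorem big_atom {T' : Type*} [Fintype T'] (ν : T → Γ) (s : T' → Γ) {X1 : Set X}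
    (hX1 : MeasurableSet[invSigma μ ν] X1)
    (hNM : ∀ Z, MeasurableSet[invSigma μ ν] Z → Z ⊆ X1 → MeasurableSet[invSigma μ s] Z) :
    ∃ A Z, MeasurableSet[invSigma μ s] A ∧ MeasurableSet[invSigma μ ν] Z ∧ Z ⊆ X1 ∧
      (∀ Z', MeasurableSet[invSigma μ ν] Z' → μ.real (Z' ∩ A) ≤ 3 / 4 * μ.real Z') ∧
      (∀ Z', MeasurableSet[invSigma μ ν] Z' → Z' ⊆ Z → μ.real (Z' ∩ A) ≤ 1 / 4 * μ.real Z') ∧
      (∀ Z', MeasurableSet[invSigma μ ν] Z' → Z' ⊆ X1 \ Z → 1 / 4 * μ.real Z' ≤ μ.real (Z' ∩ A)) ∧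
      ∀ B, MeasurableSet[invSigma μ s] B → ∃ Z1, MeasurableSet[invSigma μ ν] Z1 ∧
        ∀ᵐ x ∂μ, x ∈ Z \ A → (x ∈ B ↔ x ∈ Z1) := by
  obtain ⟨A, ⟨hA, hA3⟩, hmax⟩ := exists_maximal_set μ
    (fun A => MeasurableSet[invSigma μ s] A ∧
      ∀ Z', MeasurableSet[invSigma μ ν] Z' → μ.real (Z' ∩ A) ≤ 3 / 4 * μ.real Z')
    (fun A h => h.1.1) ⟨@MeasurableSet.empty _ (invSigma μ s), fun Z' _ => by
      rw [inter_empty, measureReal_empty]; positivity⟩
    (fun u hu h => ⟨MeasurableSet.iUnion fun n => (h n).1, fun Z' hZ' => by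
      rw [inter_iUnion]
      exact real_iUnion_le_of_mono (fun a b hab => inter_subset_inter_right _ (hu hab))
        fun n => (h n).2 Z' hZ'⟩)
  obtain ⟨Z0, hZ0, d1, d2⟩ := dens_split (invSigma_le μ ν) μ A (show (0 : ℝ) ≤ 1 / 4 by norm_num)
  have hZ : MeasurableSet[invSigma μ ν] (Z0 ∩ X1) := hZ0.inter hX1
  have hadd : ∀ B Z1, MeasurableSet[invSigma μ s] B → MeasurableSet[invSigma μ ν] Z1 →
      (∀ Z', MeasurableSet[invSigma μ ν] Z' → Z' ⊆ Z1 → μ.real (Z' ∩ B) ≤ 1 / 2 * μ.real Z') →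
      ∀ᵐ x ∂μ, x ∈ B → x ∈ Z1 → x ∈ Z0 ∩ X1 → x ∈ A := by
    intro B Z1 hB hZ1 hd
    have hY : MeasurableSet[invSigma μ ν] (Z1 ∩ (Z0 ∩ X1)) := hZ1.inter hZ
    have := hmax (A ∪ (B ∩ (Z1 ∩ (Z0 ∩ X1)))) ⟨hA.union (hB.inter (hNM _ hY fun x h => h.2.2)),
      fun Z' hZ' => ?_⟩ subset_union_left
    · exact this.mono fun x hx a b c => hx (Or.inr ⟨a, b, c⟩)
    · have a1 := d1 _ (hZ'.inter hY) fun x h => h.2.2.1
      have a2 := hd _ (hZ'.inter hY) fun x h => h.2.1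
      have a3 := hA3 _ (hZ'.diff hY)
      have a4 := measureReal_inter_add_sdiff (μ := μ) (s := Z') hY.1
      have a5 := measureReal_union_le (μ := μ) (Z' ∩ (Z1 ∩ (Z0 ∩ X1)) ∩ A)
        (Z' ∩ (Z1 ∩ (Z0 ∩ X1)) ∩ B)
      have a6 := measureReal_union_le (μ := μ) ((Z' ∩ (Z1 ∩ (Z0 ∩ X1)) ∩ A) ∪
        (Z' ∩ (Z1 ∩ (Z0 ∩ X1)) ∩ B)) ((Z' \ (Z1 ∩ (Z0 ∩ X1))) ∩ A)
      refine le_trans (measureReal_mono ?_) (a6.trans (by linarith))
      rintro x ⟨hx, h | h⟩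
      · by_cases b : x ∈ Z1 ∩ (Z0 ∩ X1)
        · exact Or.inl (Or.inl ⟨⟨hx, b⟩, h⟩)
        · exact Or.inr ⟨⟨hx, b⟩, h⟩
      · exact Or.inl (Or.inr ⟨⟨hx, h.2⟩, h.1⟩)
  refine ⟨A, Z0 ∩ X1, hA, hZ, inter_subset_right, hA3,
    fun Z' hZ' h => d1 Z' hZ' (h.trans inter_subset_left),
    fun Z' hZ' h => d2 Z' hZ' fun x hx c => (h hx).2 ⟨c, (h hx).1⟩, fun B hB => ?_⟩
  obtain ⟨Z1, hZ1, e1, e2⟩ := dens_split (invSigma_le μ ν) μ B (show (0 : ℝ) ≤ 1 / 2 by norm_num)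
  refine ⟨Z1ᶜ, hZ1.compl, ?_⟩
  have h1 := hadd B Z1 hB hZ1 e1
  have h2 := hadd Bᶜ Z1ᶜ hB.compl hZ1.compl fun Z' hZ' h => by
    have a1 := e2 Z' hZ' h
    have a2 := measureReal_inter_add_sdiff (μ := μ) (s := Z') hB.1
    rw [Set.sdiff_eq] at a2
    linarith
  filter_upwards [h1, h2] with x a b hx
  exact ⟨fun c d => hx.2 (a c d hx.1), fun c => by_contra fun d => hx.2 (b d c hx.1)⟩

end Pool.Agent.P.MP_afd974_lc.Sep
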