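import Pool.Agent.P.MP_afd974_lc.SepGroup

/-!
Encoding of the local rule with a finite window and a finite set of labels.
-/

open MeasureTheory Set

namespace Pool.Agent.P.MP_afd974_lc.Sep

theorem finite_Bd (K : ℤ) : Finite {l : Lab // Bd K l} := by
  have h1 : {v : Fin 3 → ℤ | ∀ τ, |v τ| ≤ K}.Finite :=
    (Set.Finite.pi' fun _ => finite_Icc (-K) K).subset fun v hv τ => abs_le.1 (hv τ)
  have h2 : {l : Lab | Bd K l}.Finite :=
    (finite_univ.prod (finite_univ.prod (finite_univ.prod (finite_univ.prod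
      (h1.prod h1))))).subset fun l hl => ⟨trivial, trivial, trivial, trivial, hl.1, hl.2⟩
  exact h2.to_subtype

theorem exists_window {Γ : Type} [Group Γ] (d : Data Γ) : ∃ S : Finset Γ, 1 ∈ S ∧
    ∀ π π' : Γ → Lab, (∀ g ∈ S, π g = π' g) → Rule d π → Rule d π' := by
  classical
  refine ⟨{1, d.m} ∪ Finset.univ.image d.g ∪ Finset.univ.image (fun i => (d.g i)⁻¹) ∪
    Finset.univ.image d.ν ∪ Finset.univ.image (fun τ => (d.ν τ)⁻¹) ∪
    Finset.univ.image (fun τ => d.a * d.s τ * d.a⁻¹) ∪ Finset.univ.image (fun τ => (d.s τ)⁻¹),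
    by simp, fun π π' h hR => ?_⟩
  have h1 : π 1 = π' 1 := h _ (by simp)
  have h2 : π d.m = π' d.m := h _ (by simp)
  have h3 : ∀ i, π (d.g i) = π' (d.g i) := fun i => h _ (by simp)
  have h4 : ∀ i, π (d.g i)⁻¹ = π' (d.g i)⁻¹ := fun i => h _ (by simp)
  have h5 : ∀ i, π (d.ν i) = π' (d.ν i) := fun i => h _ (by simp)
  have h6 : ∀ i, π (d.ν i)⁻¹ = π' (d.ν i)⁻¹ := fun i => h _ (by simp)
  have h7 : ∀ i, π (d.a * d.s i * d.a⁻¹) = π' (d.a * d.s i * d.a⁻¹) := fun i => h _ (by simp)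
  have h8 : ∀ i, π (d.s i)⁻¹ = π' (d.s i)⁻¹ := fun i => h _ (by simp)
  have h9 : Src d π ↔ Src d π' := by simp only [Src, h1, h3, h4, h5]
  simpa only [Rule, h1, h2, h5, h6, h7, h8, h9] using hR

theorem separation :
  ∃ (Γ : Type) (_ : Group Γ), Group.FG Γ ∧
    ∃ (n : ℕ) (S : Finset Γ) (A : Set (S → Fin n)),
      (∀ (X : Type) [MeasurableSpace X] [StandardBorelSpace X] [MulAction Γ X],
        (∀ g : Γ, Measurable (fun x : X => g • x)) →
        (∀ (g : Γ) (x : X), g • x = x → g = 1) →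
        ∀ μ : MeasureTheory.Measure X, MeasureTheory.IsProbabilityMeasure μ →
        (∀ g : Γ, μ.map (fun x : X => g • x) = μ) →
        ∃ f : X → Fin n, Measurable f ∧
          ∀ᵐ x ∂μ, (fun s : S => f ((s : Γ) • x)) ∈ A) ∧
      ¬ (∀ (X : Type) [MeasurableSpace X] [StandardBorelSpace X] [MulAction Γ X],
        (∀ g : Γ, Measurable (fun x : X => g • x)) →
        (∀ (g : Γ) (x : X), g • x = x → g = 1) →
        ∀ μ : MeasureTheory.Measure X, MeasureTheory.IsProbabilityMeasure μ →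
        ∃ f : X → Fin n, Measurable f ∧
          ∀ᵐ x ∂μ, (fun s : S => f ((s : Γ) • x)) ∈ A) := by
  obtain ⟨K, hK⟩ := pmp_solve
  obtain ⟨S, -, hS⟩ := exists_window data0.data
  haveI := finite_Bd K
  let e := Finite.equivFin {l : Lab // Bd K l}
  refine ⟨Monoid.Coprod G0 ℤˣ, inferInstance, fg_coprod, _, S,
    {ω | ∃ π, Rule data0.data π ∧ ∀ s : S, (e.symm (ω s)).1 = π s}, ?_, ?_⟩
  · intro X _ _ _ hm hfree μ hμ hinv
    obtain ⟨f, hf, hb, hR⟩ := hK data0.data X hfree μ fun g => ⟨hm g, hinv g⟩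
    refine ⟨fun x => e ⟨f x, hb x⟩, (measurable_of_countable e).comp (hf.subtype_mk), ?_⟩
    exact hR.mono fun x hx => ⟨_, hx, fun s => by simp⟩
  · intro h
    obtain ⟨X, _, _, _, hm, hfree, μ, hμ, hno⟩ := data0.no_solution K
    obtain ⟨f, hf, hA⟩ := h X hm hfree μ hμ
    refine hno (fun x => (e.symm (f x)).1)
      ((measurable_of_countable fun i => (e.symm i).1).comp hf) (fun x => (e.symm (f x)).2) ?_
    refine hA.mono fun x hx => ?_
    obtain ⟨π, hπ, he⟩ := hx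
    exact hS π _ (fun g hg => (he ⟨g, hg⟩).symm) hπ

end Pool.Agent.P.MP_afd974_lc.Sep
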