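import Pool.Agent.P.MP_afd974_lc.SepBase

/-!
Bounded measurable integer flows on expanding measure preserving actions.
-/

open MeasureTheory Set Filter Topology

set_option linter.unusedSectionVars false

namespace Pool.Agent.P.MP_afd974_lc.Sep

variable {X : Type*} [MeasurableSpace X] {Γ : Type*} [Group Γ] [MulAction Γ X]
  {T : Type*} [Fintype T] {μ : Measure X} [IsFiniteMeasure μ]

/-- The net outflow of a flow along the edges from `x` to `s τ • x`. -/
def dv (s : T → Γ) (F : X → T → ℤ) (x : X) : ℤ := ∑ τ, (F x τ - F ((s τ)⁻¹ • x) τ)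

theorem integrable_of_bdd {f : X → ℝ} (hf : Measurable f) (C : ℝ) (h : ∀ x, |f x| ≤ C) :
    Integrable f μ :=
  Integrable.of_bound hf.aestronglyMeasurable C (ae_of_all _ fun x => by simpa using h x)

theorem integral_pre (hμ : ∀ g : Γ, MeasurePreserving (fun x : X => g • x) μ μ) (g : Γ)
    {f : X → ℝ} (hf : Measurable f) : ∫ x, f (g • x) ∂μ = ∫ x, f x ∂μ := by
  conv_rhs => rw [← (hμ g).map_eq]
  rw [integral_map (hμ g).measurable.aemeasurable hf.aestronglyMeasurable]

theorem measurable_cast_apply {F : X → T → ℤ} (hF : Measurable F) (τ : T) :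
    Measurable fun x => (F x τ : ℝ) :=
  (measurable_of_countable (fun n : ℤ => (n : ℝ))).comp ((measurable_pi_apply τ).comp hF)

theorem measurable_dv (hμ : ∀ g : Γ, MeasurePreserving (fun x : X => g • x) μ μ) (s : T → Γ)
    {F : X → T → ℤ} (hF : Measurable F) : Measurable (dv s F) := by
  unfold dv
  refine Finset.measurable_sum _ fun τ _ => ?_
  exact ((measurable_pi_apply τ).comp hF).sub
    ((measurable_pi_apply τ).comp (hF.comp (hμ _).measurable))

theorem abs_dv_le (s : T → Γ) {F : X → T → ℤ} {K : ℤ} (hK : ∀ x τ, |F x τ| ≤ K) (x : X) :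
    |dv s F x| ≤ 2 * K * Fintype.card T := by
  unfold dv
  refine (Finset.abs_sum_le_sum_abs _ _).trans ?_
  refine (Finset.sum_le_sum (g := fun _ => 2 * K) fun τ _ => ?_).trans (by simp [mul_comm])
  have := abs_sub (F x τ) (F ((s τ)⁻¹ • x) τ)
  have := hK x τ
  have := hK ((s τ)⁻¹ • x) τ
  linarith

theorem integral_mul_dv (hμ : ∀ g : Γ, MeasurePreserving (fun x : X => g • x) μ μ) (s : T → Γ)
    {F : X → T → ℤ} (hF : Measurable F) {K : ℤ} (hK : ∀ x τ, |F x τ| ≤ K)
    {u : X → ℝ} (hu : Measurable u) {C : ℝ} (hC : ∀ x, |u x| ≤ C) :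
    ∫ x, u x * (dv s F x : ℝ) ∂μ = ∑ τ, ∫ x, (u x - u (s τ • x)) * (F x τ : ℝ) ∂μ := by
  have hKr : ∀ x τ, |(F x τ : ℝ)| ≤ K := fun x τ => by exact_mod_cast hK x τ
  have hb : ∀ x y τ, |u x * (F y τ : ℝ)| ≤ C * K := fun x y τ => by
    rw [abs_mul]
    exact mul_le_mul (hC x) (hKr y τ) (abs_nonneg _) ((abs_nonneg _).trans (hC x))
  have i1 : ∀ τ, Integrable (fun x => u x * (F x τ : ℝ)) μ := fun τ =>
    integrable_of_bdd (hu.mul (measurable_cast_apply hF τ)) _ fun x => hb x x τ
  have i2 : ∀ τ, Integrable (fun x => u x * (F ((s τ)⁻¹ • x) τ : ℝ)) μ := fun τ =>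
    integrable_of_bdd (hu.mul ((measurable_cast_apply hF τ).comp (hμ _).measurable)) _
      fun x => hb x _ τ
  have i3 : ∀ τ, Integrable (fun x => u (s τ • x) * (F x τ : ℝ)) μ := fun τ =>
    integrable_of_bdd ((hu.comp (hμ _).measurable).mul (measurable_cast_apply hF τ)) _
      fun x => hb _ x τ
  have e : ∀ x, u x * (dv s F x : ℝ) =
      ∑ τ, (u x * (F x τ : ℝ) - u x * (F ((s τ)⁻¹ • x) τ : ℝ)) := by
    intro x
    simp only [dv, Int.cast_sum, Int.cast_sub, Finset.mul_sum, mul_sub]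
  simp_rw [e]
  rw [integral_finsetSum (f := fun τ x => u x * (F x τ : ℝ) - u x * (F ((s τ)⁻¹ • x) τ : ℝ)) _
    fun τ _ => (i1 τ).sub (i2 τ)]
  refine Finset.sum_congr rfl fun τ _ => ?_
  simp_rw [sub_mul]
  rw [integral_sub (i1 τ) (i2 τ), integral_sub (i1 τ) (i3 τ)]
  congr 1
  have := integral_pre hμ (s τ) (f := fun x => u x * (F ((s τ)⁻¹ • x) τ : ℝ))
    (hu.mul ((measurable_cast_apply hF τ).comp (hμ _).measurable))
  simp only [inv_smul_smul] at this
  exact this.symm

theorem setIntegral_dv (hμ : ∀ g : Γ, MeasurePreserving (fun x : X => g • x) μ μ) (s : T → Γ)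
    {F : X → T → ℤ} (hF : Measurable F) {K : ℤ} (hK : ∀ x τ, |F x τ| ≤ K)
    {A : Set X} (hA : MeasurableSet A) :
    ∫ x in A, (dv s F x : ℝ) ∂μ =
      ∑ τ, ∫ x, (A.indicator 1 x - A.indicator 1 (s τ • x)) * (F x τ : ℝ) ∂μ := by
  rw [← integral_mul_dv hμ s hF hK (u := A.indicator 1) (measurable_one.indicator hA) (C := 1)
    (fun x => by by_cases h : x ∈ A <;> simp [h]), ← integral_indicator hA]
  refine integral_congr_ae (ae_of_all _ fun x => ?_)
  by_cases h : x ∈ A <;> simp [h]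

theorem setIntegral_dv_inv (hμ : ∀ g : Γ, MeasurePreserving (fun x : X => g • x) μ μ) (s : T → Γ)
    {F : X → T → ℤ} (hF : Measurable F) {K : ℤ} (hK : ∀ x τ, |F x τ| ≤ K)
    {Z : Set X} (hZ : MeasurableSet[invSigma μ s] Z) : ∫ x in Z, (dv s F x : ℝ) ∂μ = 0 := by
  rw [setIntegral_dv hμ s hF hK hZ.1]
  refine Finset.sum_eq_zero fun τ _ => ?_
  refine integral_eq_zero_of_ae ((hZ.2 τ).mono fun x hx => ?_)
  by_cases h : x ∈ Z
  · simp [h, hx.2 h]
  · simp [h, mt hx.1 h]

/-- Points reached from `R` by one step in the residual graph. -/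
def reach (s : T → Γ) (K : ℤ) (F : X → T → ℤ) (R : Set X) : Set X :=
  {y | ∃ τ, ((s τ)⁻¹ • y ∈ R ∧ F ((s τ)⁻¹ • y) τ < K) ∨ (s τ • y ∈ R ∧ -K < F y τ)}

theorem reach_mono (s : T → Γ) (K : ℤ) (F : X → T → ℤ) {R R' : Set X} (h : R ⊆ R') :
    reach s K F R ⊆ reach s K F R' := by
  rintro y ⟨τ, h1 | h1⟩
  · exact ⟨τ, Or.inl ⟨h h1.1, h1.2⟩⟩
  · exact ⟨τ, Or.inr ⟨h h1.1, h1.2⟩⟩

theorem meas_lt {F : X → T → ℤ} (hF : Measurable F) (τ : T) (K : ℤ) :
    MeasurableSet {x | F x τ < K} :=
  ((measurable_pi_apply τ).comp hF) (show MeasurableSet {n : ℤ | n < K} from trivial)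

theorem meas_gt {F : X → T → ℤ} (hF : Measurable F) (τ : T) (K : ℤ) :
    MeasurableSet {x | K < F x τ} :=
  ((measurable_pi_apply τ).comp hF) (show MeasurableSet {n : ℤ | K < n} from trivial)

theorem measurableSet_reach (hμ : ∀ g : Γ, MeasurePreserving (fun x : X => g • x) μ μ)
    (s : T → Γ) (K : ℤ) {F : X → T → ℤ} (hF : Measurable F) {R : Set X} (hR : MeasurableSet R) :
    MeasurableSet (reach s K F R) := by
  have : reach s K F R = ⋃ τ, ({y | (s τ)⁻¹ • y ∈ R ∩ {x | F x τ < K}} ∪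
      ({y | s τ • y ∈ R} ∩ {y | -K < F y τ})) := by
    ext y; simp [reach]
  rw [this]
  exact MeasurableSet.iUnion fun τ => (meas_pre hμ _ (hR.inter (meas_lt hF τ K))).union
    ((meas_pre hμ _ hR).inter (meas_gt hF τ _))

theorem growth (hμ : ∀ g : Γ, MeasurePreserving (fun x : X => g • x) μ μ) (s : T → Γ)
    {F : X → T → ℤ} (hF : Measurable F) {K : ℤ} (hK0 : 0 ≤ K) (hK : ∀ x τ, |F x τ| ≤ K)
    {A : Set X} (hA : MeasurableSet A) :
    K * ∑ τ, μ.real {x | ¬ (s τ • x ∈ A ↔ x ∈ A)} -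
      4 * K * Fintype.card T * μ.real (reach s K F A \ A) ≤ ∫ x in A, (dv s F x : ℝ) ∂μ := by
  rw [setIntegral_dv hμ s hF hK hA]
  set L := reach s K F A \ A with hL
  have hLm : MeasurableSet L := (measurableSet_reach hμ s K hF hA).diff hA
  have hKr : ∀ x τ, |(F x τ : ℝ)| ≤ K := fun x τ => by exact_mod_cast hK x τ
  have hK0r : (0 : ℝ) ≤ K := by exact_mod_cast hK0
  have key : ∀ τ, K * μ.real {x | ¬ (s τ • x ∈ A ↔ x ∈ A)} - 4 * K * μ.real L ≤
      ∫ x, (A.indicator 1 x - A.indicator 1 (s τ • x)) * (F x τ : ℝ) ∂μ := by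
    intro τ
    have hB : MeasurableSet {x | ¬ (s τ • x ∈ A ↔ x ∈ A)} :=
      (MeasurableSet.iff (meas_pre hμ _ hA) hA).compl
    have hL' : MeasurableSet {x | s τ • x ∈ L} := meas_pre hμ _ hLm
    have e : K * μ.real {x | ¬ (s τ • x ∈ A ↔ x ∈ A)} - 4 * K * μ.real L =
        ∫ x, ((K : ℝ) * {x | ¬ (s τ • x ∈ A ↔ x ∈ A)}.indicator (1 : X → ℝ) x -
          2 * K * {x | s τ • x ∈ L}.indicator (1 : X → ℝ) x -
          2 * K * L.indicator (1 : X → ℝ) x) ∂μ := by
      have i1 : ∀ (c : ℝ) {B : Set X}, MeasurableSet B →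
          Integrable (fun x => c * B.indicator (1 : X → ℝ) x) μ := fun c B hB =>
        ((integrable_const (1 : ℝ)).indicator hB).const_mul c
      have i2 : Integrable (fun x => (K : ℝ) * {x | ¬ (s τ • x ∈ A ↔ x ∈ A)}.indicator (1 : X → ℝ) x -
          2 * K * {x | s τ • x ∈ L}.indicator (1 : X → ℝ) x) μ := (i1 _ hB).sub (i1 _ hL')
      rw [integral_sub i2 (i1 _ hLm), integral_sub (i1 _ hB) (i1 _ hL'),
        integral_const_mul, integral_const_mul, integral_const_mul, integral_indicator_one hB,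
        integral_indicator_one hL', integral_indicator_one hLm, real_pre hμ _ hLm]
      ring
    rw [e]
    refine integral_mono ?_ ?_ fun x => ?_
    · exact ((((integrable_const (1 : ℝ)).indicator hB).const_mul _).sub
        (((integrable_const (1 : ℝ)).indicator hL').const_mul _)).sub
        (((integrable_const (1 : ℝ)).indicator hLm).const_mul _)
    · refine integrable_of_bdd (((measurable_one.indicator hA).sub
        ((measurable_one.indicator hA).comp (hμ _).measurable)).mul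
        (measurable_cast_apply hF τ)) K fun x => ?_
      have := hKr x τ
      by_cases h1 : x ∈ A <;> by_cases h2 : s τ • x ∈ A <;> simp [h1, h2, this, hK0r]
    · have h3 := abs_le.1 (hKr x τ)
      have p1 : 0 ≤ {x | s τ • x ∈ L}.indicator (1 : X → ℝ) x :=
        indicator_nonneg (fun _ _ => zero_le_one) _
      have p2 : 0 ≤ L.indicator (1 : X → ℝ) x := indicator_nonneg (fun _ _ => zero_le_one) _
      have q1 := mul_nonneg hK0r p1
      have q2 := mul_nonneg hK0r p2
      by_cases h1 : x ∈ A <;> by_cases h2 : s τ • x ∈ A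
      · simp only [h1, h2, indicator_of_mem, Pi.one_apply, sub_self, zero_mul]
        rw [indicator_of_notMem (by simp [h1, h2])]
        linarith
      · rw [indicator_of_mem (show x ∈ {x | ¬ (s τ • x ∈ A ↔ x ∈ A)} by simp [h1, h2]),
          indicator_of_mem h1, indicator_of_notMem h2]
        by_cases h4 : F x τ < K
        · have : x ∈ {x | s τ • x ∈ L} := ⟨⟨τ, Or.inl (by simpa using ⟨h1, h4⟩)⟩, h2⟩
          rw [indicator_of_mem this]
          simp only [Pi.one_apply]
          linarith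
        · have : (K : ℝ) ≤ F x τ := by exact_mod_cast not_lt.1 h4
          simp only [Pi.one_apply]
          linarith
      · rw [indicator_of_mem (show x ∈ {x | ¬ (s τ • x ∈ A ↔ x ∈ A)} by simp [h1, h2]),
          indicator_of_mem h2, indicator_of_notMem h1]
        by_cases h4 : -K < F x τ
        · have : x ∈ L := ⟨⟨τ, Or.inr ⟨h2, h4⟩⟩, h1⟩
          rw [indicator_of_mem this]
          simp only [Pi.one_apply]
          linarith
        · have : (F x τ : ℝ) ≤ -K := by exact_mod_cast not_lt.1 h4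
          simp only [Pi.one_apply]
          linarith
      · rw [indicator_of_notMem (show x ∉ {x | ¬ (s τ • x ∈ A ↔ x ∈ A)} by simp [h1, h2]),
          indicator_of_notMem h1, indicator_of_notMem h2]
        linarith
  have := Finset.sum_le_sum fun τ (_ : τ ∈ Finset.univ) => key τ
  rw [Finset.sum_sub_distrib, ← Finset.mul_sum, Finset.sum_const, Finset.card_univ,
    nsmul_eq_mul] at this
  linarith

/-- The sets reachable from `S0` in the residual graph. -/
def Rs (s : T → Γ) (K : ℤ) (F : X → T → ℤ) (S0 : Set X) : ℕ → Set X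
  | 0 => ∅
  | j + 1 => S0 ∪ Rs s K F S0 j ∪ reach s K F (Rs s K F S0 j)

theorem Rs_sub (s : T → Γ) (K : ℤ) (F : X → T → ℤ) (S0 : Set X) (j : ℕ) :
    Rs s K F S0 j ⊆ Rs s K F S0 (j + 1) := fun _ h => Or.inl (Or.inr h)

theorem Rs_mono (s : T → Γ) (K : ℤ) (F : X → T → ℤ) (S0 : Set X) : Monotone (Rs s K F S0) :=
  monotone_nat_of_le_succ (Rs_sub s K F S0)

theorem measurableSet_Rs (hμ : ∀ g : Γ, MeasurePreserving (fun x : X => g • x) μ μ)
    (s : T → Γ) (K : ℤ) {F : X → T → ℤ} (hF : Measurable F) {S0 : Set X}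
    (hS : MeasurableSet S0) (j : ℕ) : MeasurableSet (Rs s K F S0 j) := by
  induction j with
  | zero => exact MeasurableSet.empty
  | succ j ih => exact (hS.union ih).union (measurableSet_reach hμ s K hF ih)

theorem exists_pos_of_cover {ι : Type*} [Countable ι] {Y : Set X} (hY : 0 < μ.real Y)
    (V : ι → Set X) (h : Y ⊆ ⋃ i, V i) : ∃ i, 0 < μ.real (Y ∩ V i) := by
  by_contra hc
  push Not at hc
  have : ∀ᵐ x ∂μ, ∀ i, x ∉ Y ∩ V i := ae_all_iff.2 fun i => ae_not_mem_of_real (hc i)
  have h2 : μ.real Y = 0 := real_eq_zero_of_ae (this.mono fun x hx hxY => by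
    obtain ⟨i, hi⟩ := mem_iUnion.1 (h hxY)
    exact hx i ⟨hxY, hi⟩)
  linarith

theorem dv_add_single [DecidableEq T] (s : T → Γ) (F : X → T → ℤ) (τ : T) (e : X → ℤ) (x : X) :
    dv s (fun x τ' => F x τ' + if τ' = τ then e x else 0) x =
      dv s F x + e x - e ((s τ)⁻¹ • x) := by
  unfold dv
  have : ∀ τ', (F x τ' + if τ' = τ then e x else 0) -
      (F ((s τ')⁻¹ • x) τ' + if τ' = τ then e ((s τ')⁻¹ • x) else 0) =
      (F x τ' - F ((s τ')⁻¹ • x) τ') + if τ' = τ then e x - e ((s τ)⁻¹ • x) else 0 := by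
    intro τ'
    by_cases h : τ' = τ
    · subst h; simp; ring
    · simp [h]
  simp only [this, Finset.sum_add_distrib, Finset.sum_ite_eq', Finset.mem_univ, if_true]
  ring

theorem augment (hμ : ∀ g : Γ, MeasurePreserving (fun x : X => g • x) μ μ) (s : T → Γ)
    {F : X → T → ℤ} (hF : Measurable F) {K : ℤ} (hK : ∀ x τ, |F x τ| ≤ K)
    {S0 : Set X} (hS : MeasurableSet S0) (j : ℕ) :
    ∀ Y, MeasurableSet Y → Y ⊆ Rs s K F S0 (j + 1) \ Rs s K F S0 j → 0 < μ.real Y →
      ∃ (Y' Y0 : Set X) (F' : X → T → ℤ), MeasurableSet Y' ∧ MeasurableSet Y0 ∧ Y' ⊆ Y ∧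
        Y0 ⊆ S0 ∧ 0 < μ.real Y' ∧ Measurable F' ∧ (∀ x τ, |F' x τ| ≤ K) ∧
        (∀ x, dv s F' x = dv s F x + Y0.indicator 1 x - Y'.indicator 1 x) ∧
        μ.real {x | F x ≠ F' x} ≤ j * μ.real Y' ∧
        (∀ x τ, F' x τ ≠ F x τ → x ∈ Rs s K F S0 (j + 1) ∧ s τ • x ∈ Rs s K F S0 (j + 1)) := by
  classical
  induction j with
  | zero =>
    intro Y hY hsub hpos
    refine ⟨Y, Y, F, hY, hY, Subset.rfl, fun y hy => ?_, hpos, hF, hK, fun x => by ring,
      by simp, fun x τ h => absurd rfl h⟩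
    rcases (hsub hy).1 with (h | h) | ⟨τ, h | h⟩
    · exact h
    · exact h.elim
    · exact h.1.elim
    · exact h.1.elim
  | succ j ih =>
    intro Y hY hsub hpos
    have hR := measurableSet_Rs hμ s K hF hS
    let V : T × Bool → Set X := fun p => if p.2 then
      {y | (s p.1)⁻¹ • y ∈ Rs s K F S0 (j + 1) ∩ {x | F x p.1 < K}}
      else {y | s p.1 • y ∈ Rs s K F S0 (j + 1)} ∩ {y | -K < F y p.1}
    obtain ⟨⟨τ, b⟩, hb⟩ := exists_pos_of_cover hpos V (by
      intro y hy
      obtain ⟨h1, h2⟩ := hsub hy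
      rcases h1 with (h | h) | ⟨τ, h | h⟩
      · exact absurd (Or.inl (Or.inl h)) h2
      · exact absurd h h2
      · exact mem_iUnion.2 ⟨(τ, true), h⟩
      · exact mem_iUnion.2 ⟨(τ, false), h⟩)
    have hmeasF : ∀ {G : X → T → ℤ} {e : X → ℤ}, Measurable G → Measurable e →
        Measurable fun x τ' => G x τ' + if τ' = τ then e x else 0 := by
      intro G e hG he
      refine measurable_pi_lambda _ fun τ' => ((measurable_pi_apply τ').comp hG).add ?_
      by_cases h : τ' = τ
      · simpa [h] using he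
      · simp [h]
    have hdist : ∀ {G : X → T → ℤ} {e : X → ℤ} {B : Set X}, (∀ x, x ∉ B → e x = 0) →
        μ.real {x | F x ≠ fun τ' => G x τ' + if τ' = τ then e x else 0} ≤
          μ.real {x | F x ≠ G x} + μ.real B := by
      intro G e B hB
      refine le_trans (measureReal_mono ?_) (measureReal_union_le _ _)
      intro x hx
      by_contra hc
      simp only [mem_union, mem_ofPred_eq, not_or, not_not] at hc
      apply hx
      funext τ'
      simp [hB x hc.2, hc.1]
    cases b with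
    | true =>
      have hVm : MeasurableSet (Y ∩ V (τ, true)) :=
        hY.inter (meas_pre hμ _ ((hR _).inter (meas_lt hF τ K)))
      obtain ⟨Y1, Y0, G, m1, m0, s1, s0, p1, mG, bG, dG, cG, sG⟩ :=
        ih {x | s τ • x ∈ Y ∩ V (τ, true)} (meas_pre hμ _ hVm) (by
          rintro x ⟨h1, h2⟩
          simp only [V, if_true, mem_ofPred_eq, inv_smul_smul] at h2
          refine ⟨h2.1, fun h3 => (hsub h1).2 (Or.inr ⟨τ, Or.inl ?_⟩)⟩
          simpa using ⟨h3, h2.2⟩) (by rwa [real_pre hμ _ hVm])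
      refine ⟨{y | (s τ)⁻¹ • y ∈ Y1}, Y0,
        fun x τ' => G x τ' + if τ' = τ then Y1.indicator 1 x else 0,
        meas_pre hμ _ m1, m0, fun y hy => by simpa using (s1 hy).1, s0,
        by rwa [real_pre hμ _ m1], hmeasF mG (measurable_one.indicator m1), ?_, ?_, ?_, ?_⟩
      · intro x τ'
        by_cases h : τ' = τ ∧ x ∈ Y1
        · obtain ⟨rfl, h⟩ := h
          obtain ⟨h1, h2⟩ := s1 h
          simp only [V, if_true, mem_ofPred_eq, inv_smul_smul] at h2
          have e : G x τ' = F x τ' := by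
            by_contra hc
            exact (hsub h1).2 (sG x τ' hc).2
          have h3 : F x τ' < K := h2.2
          have := abs_le.1 (hK x τ')
          simp only [if_true, indicator_of_mem h, Pi.one_apply, e]
          rw [abs_le]; constructor <;> omega
        · have : (if τ' = τ then Y1.indicator (1 : X → ℤ) x else 0) = 0 := by
            by_cases h1 : τ' = τ
            · simp [h1, indicator_of_notMem (fun h2 => h ⟨h1, h2⟩)]
            · simp [h1]
          simp only [this, add_zero]; exact bG x τ'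
      · intro x
        rw [dv_add_single, dG]
        have : {y | (s τ)⁻¹ • y ∈ Y1}.indicator (1 : X → ℤ) x = Y1.indicator 1 ((s τ)⁻¹ • x) := by
          by_cases h : (s τ)⁻¹ • x ∈ Y1 <;> simp [indicator, h]
        rw [this]; ring
      · refine (hdist (B := Y1) fun x hx => indicator_of_notMem hx _).trans ?_
        rw [real_pre hμ _ m1]
        push_cast; linarith
      · intro x τ' h
        by_cases h1 : G x τ' = F x τ'
        · have h2 : τ' = τ ∧ x ∈ Y1 := by
            by_contra hc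
            apply h
            by_cases h3 : τ' = τ
            · subst h3
              simp [indicator_of_notMem (fun h2 => hc ⟨rfl, h2⟩), h1]
            · simp [h3, h1]
          obtain ⟨rfl, h2⟩ := h2
          obtain ⟨h3, h4⟩ := s1 h2
          simp only [V, if_true, mem_ofPred_eq, inv_smul_smul] at h4
          exact ⟨Rs_sub _ _ _ _ _ h4.1, (hsub h3).1⟩
        · exact ⟨Rs_sub _ _ _ _ _ (sG x τ' h1).1, Rs_sub _ _ _ _ _ (sG x τ' h1).2⟩
    | false =>
      have hVm : MeasurableSet (Y ∩ V (τ, false)) :=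
        hY.inter ((meas_pre hμ _ (hR _)).inter (meas_gt hF τ _))
      obtain ⟨Y1, Y0, G, m1, m0, s1, s0, p1, mG, bG, dG, cG, sG⟩ :=
        ih {x | (s τ)⁻¹ • x ∈ Y ∩ V (τ, false)} (meas_pre hμ _ hVm) (by
          rintro x ⟨h1, h2⟩
          simp only [V, Bool.false_eq_true, if_false, mem_inter_iff, mem_ofPred_eq,
            smul_inv_smul] at h2
          refine ⟨h2.1, fun h3 => (hsub h1).2 (Or.inr ⟨τ, Or.inr ?_⟩)⟩
          simpa using ⟨h3, h2.2⟩) (by rwa [real_pre hμ _ hVm])
      have m2 : MeasurableSet {y | s τ • y ∈ Y1} := meas_pre hμ _ m1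
      have s2 : ∀ y ∈ {y | s τ • y ∈ Y1}, y ∈ Y ∧ s τ • y ∈ Rs s K F S0 (j + 1) ∧ -K < F y τ := by
        intro y hy
        obtain ⟨h1, h2⟩ := s1 hy
        simp only [V, Bool.false_eq_true, if_false, mem_inter_iff, mem_ofPred_eq,
            smul_inv_smul, inv_smul_smul] at h1 h2
        exact ⟨h1, h2⟩
      refine ⟨{y | s τ • y ∈ Y1}, Y0,
        fun x τ' => G x τ' + if τ' = τ then - {y | s τ • y ∈ Y1}.indicator 1 x else 0,
        m2, m0, fun y hy => (s2 y hy).1, s0,
        by rwa [real_pre hμ _ m1], hmeasF mG (measurable_one.indicator m2).neg, ?_, ?_, ?_, ?_⟩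
      · intro x τ'
        by_cases h : τ' = τ ∧ x ∈ {y | s τ • y ∈ Y1}
        · obtain ⟨rfl, h⟩ := h
          obtain ⟨h1, h2, h3⟩ := s2 x h
          have e : G x τ' = F x τ' := by
            by_contra hc
            exact (hsub h1).2 (sG x τ' hc).1
          have := abs_le.1 (hK x τ')
          simp only [if_true, indicator_of_mem h, Pi.one_apply, e]
          rw [abs_le]; constructor <;> omega
        · have : (if τ' = τ then - {y | s τ • y ∈ Y1}.indicator (1 : X → ℤ) x else 0) = 0 := by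
            by_cases h1 : τ' = τ
            · simp [h1, indicator_of_notMem (fun h2 => h ⟨h1, h2⟩)]
            · simp [h1]
          simp only [this, add_zero]; exact bG x τ'
      · intro x
        rw [dv_add_single, dG]
        have : {y | s τ • y ∈ Y1}.indicator (1 : X → ℤ) ((s τ)⁻¹ • x) = Y1.indicator 1 x := by
          by_cases h : x ∈ Y1 <;> simp [indicator, h]
        rw [this]; ring
      · refine (hdist (B := {y | s τ • y ∈ Y1}) fun x hx => by
          rw [indicator_of_notMem hx, neg_zero]).trans ?_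
        rw [real_pre hμ _ m1]
        push_cast; linarith
      · intro x τ' h
        by_cases h1 : G x τ' = F x τ'
        · have h2 : τ' = τ ∧ x ∈ {y | s τ • y ∈ Y1} := by
            by_contra hc
            apply h
            by_cases h3 : τ' = τ
            · subst h3
              simp [indicator_of_notMem (fun h2 => hc ⟨rfl, h2⟩), h1]
            · simp [h3, h1]
          obtain ⟨rfl, h2⟩ := h2
          obtain ⟨h3, h4, _⟩ := s2 x h2
          exact ⟨(hsub h3).1, Rs_sub _ _ _ _ _ h4⟩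
        · exact ⟨Rs_sub _ _ _ _ _ (sG x τ' h1).1, Rs_sub _ _ _ _ _ (sG x τ' h1).2⟩

end Pool.Agent.P.MP_afd974_lc.Sep
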