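import Pool.Agent.P.MP_afd974_lc.SepFlow

/-!
Existence of bounded measurable integer flows with prescribed upper bound on the outflow.
-/

open MeasureTheory Set Filter Topology

set_option linter.unusedSectionVars false

namespace Pool.Agent.P.MP_afd974_lc.Sep

variable {X : Type*} [MeasurableSpace X] {Γ : Type*} [Group Γ] [MulAction Γ X]
  {T : Type*} [Fintype T] {μ : Measure X} [IsFiniteMeasure μ]

theorem measurable_cast {f : X → ℤ} (hf : Measurable f) : Measurable fun x => (f x : ℝ) :=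
  (measurable_of_countable (fun n : ℤ => (n : ℝ))).comp hf

theorem setIntegral_le_ind {g : X → ℝ} (hg : Measurable g) {C : ℝ} (hC : ∀ x, |g x| ≤ C)
    {Z A B : Set X} (hZ : MeasurableSet Z) (hA : MeasurableSet A) (hB : MeasurableSet B)
    {a b : ℝ} (h : ∀ᵐ x ∂μ, x ∈ Z → g x ≤ a * A.indicator 1 x - b * B.indicator 1 x) :
    ∫ x in Z, g x ∂μ ≤ a * μ.real (Z ∩ A) - b * μ.real (Z ∩ B) := by
  have i1 : ∀ (c : ℝ) {B : Set X}, MeasurableSet B →
      Integrable (fun x => c * B.indicator (1 : X → ℝ) x) (μ.restrict Z) := fun c B hB =>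
    ((integrable_const (1 : ℝ)).indicator hB).const_mul c
  have e : a * μ.real (Z ∩ A) - b * μ.real (Z ∩ B) =
      ∫ x in Z, (a * A.indicator (1 : X → ℝ) x - b * B.indicator (1 : X → ℝ) x) ∂μ := by
    rw [integral_sub (i1 _ hA) (i1 _ hB), integral_const_mul, integral_const_mul,
      integral_indicator_one hA, integral_indicator_one hB, measureReal_restrict_apply hA,
      measureReal_restrict_apply hB, inter_comm A, inter_comm B]
  rw [e]
  exact integral_mono_ae (integrable_of_bdd hg C hC) ((i1 _ hA).sub (i1 _ hB))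
    ((ae_restrict_iff' hZ).2 h)

theorem short_path (hμ : ∀ g : Γ, MeasurePreserving (fun x : X => g • x) μ μ) (s : T → Γ)
    {κ : ℝ} (hκ : 0 < κ) (hE : Expand μ s κ) {K R : ℤ} (hK0 : 0 < K)
    (hKR : 2 * (R : ℝ) ≤ K * κ) {φ : X → ℤ} (hφ : Measurable φ) (hφR : ∀ x, |φ x| ≤ R)
    (hpos : ∀ Z, MeasurableSet[invSigma μ s] Z → 0 ≤ ∫ x in Z, (φ x : ℝ) ∂μ)
    {F : X → T → ℤ} (hF : Measurable F) (hK : ∀ x τ, |F x τ| ≤ K)
    {θ : ℝ} (hθ : 0 < θ) (hθ' : θ * μ.real univ < μ.real {x | φ x < dv s F x}) (k : ℕ)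
    (hk : (R : ℝ) + 2 * K * Fintype.card T + 1 <
      (1 + κ / (8 * (Fintype.card T + 1))) ^ k * θ) :
    0 < μ.real (Rs s K F {x | dv s F x < φ x} (2 * k + 1) ∩ {x | φ x < dv s F x}) := by
  set N : ℝ := ((Fintype.card T : ℕ) : ℝ) with hN
  have hN0 : 0 ≤ N := Nat.cast_nonneg _
  set c : ℝ := κ / (8 * (N + 1)) with hc
  have hc0 : 0 < c := by positivity
  set Sur := {x | dv s F x < φ x} with hSur
  set Def := {x | φ x < dv s F x} with hDef
  have hdvm := measurable_dv hμ s hF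
  have hSm : MeasurableSet Sur := measurableSet_lt hdvm hφ
  have hDm : MeasurableSet Def := measurableSet_lt hφ hdvm
  set Rj := Rs s K F Sur with hRj
  have hRm : ∀ j, MeasurableSet (Rj j) := measurableSet_Rs hμ s K hF hSm
  have hRmono : Monotone Rj := Rs_mono s K F Sur
  have hK0r : (0 : ℝ) < K := by exact_mod_cast hK0
  have hφr : ∀ x, |(φ x : ℝ)| ≤ R := fun x => by exact_mod_cast hφR x
  have hdr : ∀ x, |(dv s F x : ℝ)| ≤ 2 * K * N := fun x => by
    have := abs_dv_le s hK x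
    rw [hN]; exact_mod_cast this
  set R' : ℝ := R + 2 * K * N + 1 with hR'
  by_contra hcon
  have hnull : ∀ᵐ x ∂μ, x ∉ Rj (2 * k + 1) ∩ Def := ae_not_mem_of_real (not_lt.1 hcon)
  by_cases hX : μ.real univ = 0
  · have : μ.real Def ≤ μ.real univ := measureReal_mono (subset_univ _)
    rw [hX] at hθ' this
    linarith
  have hR0 : (0 : ℝ) ≤ R := by
    by_contra hR
    apply hX
    refine real_eq_zero_of_ae (ae_of_all _ fun x _ => hR ((abs_nonneg _).trans (hφr x)))
  have hR'1 : 1 ≤ R' := by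
    have : 0 ≤ 2 * K * N := by positivity
    linarith
  obtain ⟨Z0, hZ0, hd1, hd2⟩ := dens_split (invSigma_le μ s) μ Def hθ.le
  have hZ : MeasurableSet[invSigma μ s] Z0ᶜ := hZ0.compl
  have hZpos : 0 < μ.real Z0ᶜ := by
    by_contra h
    have h1 := hd1 Z0 hZ0 Subset.rfl
    have h2 : μ.real Def ≤ μ.real (Z0 ∩ Def) + μ.real Z0ᶜ := by
      refine le_trans (measureReal_mono ?_) (measureReal_union_le _ _)
      intro x hx
      by_cases h3 : x ∈ Z0
      · exact Or.inl ⟨h3, hx⟩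
      · exact Or.inr h3
    have h3 : μ.real Z0 ≤ μ.real univ := measureReal_mono (subset_univ _)
    have h4 := mul_le_mul_of_nonneg_left h3 hθ.le
    linarith
  have hsur : ∀ Z', MeasurableSet[invSigma μ s] Z' → Z' ⊆ Z0ᶜ →
      θ * μ.real Z' ≤ R' * μ.real (Z' ∩ Sur) := by
    intro Z' hZ' hsub
    have h1 := hpos Z' hZ'
    have h2 := setIntegral_dv_inv hμ s hF hK hZ'
    have h3 : ∫ x in Z', ((φ x : ℝ) - dv s F x) ∂μ ≤
        R' * μ.real (Z' ∩ Sur) - 1 * μ.real (Z' ∩ Def) := by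
      refine setIntegral_le_ind (g := fun x => (φ x : ℝ) - dv s F x)
        ((measurable_cast hφ).sub (measurable_cast hdvm)) (C := R')
        (fun x => ?_) hZ'.1 hSm hDm (ae_of_all _ fun x _ => ?_)
      · have := abs_sub (φ x : ℝ) (dv s F x)
        have := hφr x; have := hdr x; linarith
      · have a1 := abs_le.1 (hφr x)
        have a2 := abs_le.1 (hdr x)
        rcases lt_trichotomy (dv s F x) (φ x) with h | h | h
        · rw [indicator_of_mem (show x ∈ Sur from h),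
            indicator_of_notMem (show x ∉ Def from not_lt.2 h.le)]
          simp only [Pi.one_apply]; linarith
        · rw [indicator_of_notMem (show x ∉ Sur from not_lt.2 h.ge),
            indicator_of_notMem (show x ∉ Def from not_lt.2 h.le), h]
          simp
        · rw [indicator_of_notMem (show x ∉ Sur from not_lt.2 h.le),
            indicator_of_mem (show x ∈ Def from h)]
          have : (φ x : ℝ) + 1 ≤ dv s F x := by exact_mod_cast h
          simp only [Pi.one_apply]; linarith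
    rw [integral_sub (integrable_of_bdd (measurable_cast hφ) _ hφr)
      (integrable_of_bdd (measurable_cast hdvm) _ hdr)] at h3
    have h4 := hd2 Z' hZ' hsub
    linarith
  have hstep : ∀ Z', MeasurableSet[invSigma μ s] Z' → ∀ j,
      K * ∑ τ, μ.real (Z' ∩ {x | ¬ (s τ • x ∈ Rj j ↔ x ∈ Rj j)}) -
        4 * K * N * μ.real (Z' ∩ (Rj (j + 1) \ Rj j)) ≤ ∫ x in Z' ∩ Rj j, (dv s F x : ℝ) ∂μ := by
    intro Z' hZ' j
    have h1 := growth hμ s hF hK0.le hK (hZ'.1.inter (hRm j))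
    have h2 : ∑ τ, μ.real (Z' ∩ {x | ¬ (s τ • x ∈ Rj j ↔ x ∈ Rj j)}) =
        ∑ τ, μ.real {x | ¬ (s τ • x ∈ Z' ∩ Rj j ↔ x ∈ Z' ∩ Rj j)} := by
      refine Finset.sum_congr rfl fun τ _ => real_congr_ae ((hZ'.2 τ).mono fun x hx => ?_)
      simp only [mem_inter_iff, mem_ofPred_eq]
      tauto
    have h3 : μ.real (reach s K F (Z' ∩ Rj j) \ (Z' ∩ Rj j)) ≤
        μ.real (Z' ∩ (Rj (j + 1) \ Rj j)) := by
      have a1 : ∀ᵐ x ∂μ, ∀ τ, (s τ • x ∈ Z' ↔ x ∈ Z') := ae_all_iff.2 hZ'.2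
      have a2 : ∀ᵐ x ∂μ, ∀ τ, ((s τ)⁻¹ • x ∈ Z' ↔ x ∈ Z') :=
        ae_all_iff.2 (inv_ae_inv hμ hZ')
      refine real_mono_ae ?_
      filter_upwards [a1, a2] with x b1 b2 hx
      have hxZ : x ∈ Z' := by
        obtain ⟨τ, h | h⟩ := hx.1
        · exact (b2 τ).1 h.1.1
        · exact (b1 τ).1 h.1.1
      exact ⟨hxZ, Or.inr (reach_mono s K F inter_subset_right hx.1), fun h => hx.2 ⟨hxZ, h⟩⟩
    rw [h2]
    have h4 : 0 ≤ 4 * K * N := by positivity
    have := mul_le_mul_of_nonneg_left h3 h4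
    linarith
  have harith : ∀ a S L : ℝ, 0 ≤ a → 0 ≤ L → κ * a ≤ S → K * S - 4 * K * N * L ≤ R * a →
      c * a ≤ L := by
    intro a S L ha hL h1 h2
    have h3 := mul_le_mul_of_nonneg_left h1 hK0r.le
    have h4 := mul_le_mul_of_nonneg_right hKR ha
    have h5 : K * (κ * a) ≤ K * (8 * (N + 1) * L) := by nlinarith
    have h6 := le_of_mul_le_mul_left h5 hK0r
    rw [hc, div_mul_eq_mul_div, div_le_iff₀ (by positivity)]
    linarith
  have hsplit : ∀ Z' : Set X, MeasurableSet Z' → ∀ j, μ.real (Z' ∩ Rj (j + 1)) =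
      μ.real (Z' ∩ Rj j) + μ.real (Z' ∩ (Rj (j + 1) \ Rj j)) := by
    intro Z' hZ' j
    rw [← measureReal_inter_add_sdiff (s := Z' ∩ Rj (j + 1)) (hRm j)]
    congr 2
    · ext x; simp only [mem_inter_iff]
      exact ⟨fun h => ⟨h.1.1, h.2⟩, fun h => ⟨⟨h.1, hRmono (Nat.le_succ j) h.2⟩, h.2⟩⟩
    · ext x; simp only [mem_inter_iff, Set.mem_sdiff]; tauto
  have ph1 : ∀ Z', MeasurableSet[invSigma μ s] Z' → ∀ j, j ≤ 2 * k + 1 →
      (∀ Z'', MeasurableSet[invSigma μ s] Z'' → Z'' ⊆ Z' →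
        2 * μ.real (Z'' ∩ Rj j) ≤ μ.real Z'') →
      (1 + c) * μ.real (Z' ∩ Rj j) ≤ μ.real (Z' ∩ Rj (j + 1)) := by
    intro Z' hZ' j hj hd
    have h1 := hE.loc (hRm j) hZ' hd
    have h2 := hstep Z' hZ' j
    have h3 : ∫ x in Z' ∩ Rj j, (dv s F x : ℝ) ∂μ ≤
        R * μ.real ((Z' ∩ Rj j) ∩ univ) - 0 * μ.real ((Z' ∩ Rj j) ∩ univ) := by
      refine setIntegral_le_ind (measurable_cast hdvm) hdr (hZ'.1.inter (hRm j))
        MeasurableSet.univ MeasurableSet.univ (hnull.mono fun x hx hx' => ?_)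
      have a1 : x ∉ Def := fun h => hx ⟨hRmono hj hx'.2, h⟩
      have a2 : (dv s F x : ℝ) ≤ φ x := by exact_mod_cast not_lt.1 a1
      have a3 := abs_le.1 (hφr x)
      simp only [indicator_univ, Pi.one_apply]; linarith
    rw [inter_univ] at h3
    have h4 := harith _ _ _ measureReal_nonneg measureReal_nonneg h1 (by linarith)
    rw [hsplit Z' hZ'.1 j]
    linarith
  have ph2 : ∀ Z', MeasurableSet[invSigma μ s] Z' → ∀ j, 1 ≤ j →
      (∀ Z'', MeasurableSet[invSigma μ s] Z'' → Z'' ⊆ Z' →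
        2 * μ.real (Z'' ∩ (Rj j)ᶜ) ≤ μ.real Z'') →
      (1 + c) * μ.real (Z' ∩ (Rj (j + 1))ᶜ) ≤ μ.real (Z' ∩ (Rj j)ᶜ) := by
    intro Z' hZ' j hj hd
    have h1 := hE.loc (hRm j).compl hZ' hd
    have e1 : ∑ τ, μ.real (Z' ∩ {x | ¬ (s τ • x ∈ (Rj j)ᶜ ↔ x ∈ (Rj j)ᶜ)}) =
        ∑ τ, μ.real (Z' ∩ {x | ¬ (s τ • x ∈ Rj j ↔ x ∈ Rj j)}) := by
      refine Finset.sum_congr rfl fun τ _ => ?_
      congr 2
      ext x; simp only [mem_compl_iff, mem_ofPred_eq]; tauto
    rw [e1] at h1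
    have h2 := hstep Z' hZ' j
    have h3 : ∫ x in Z' \ Rj j, (- dv s F x : ℝ) ∂μ ≤
        R * μ.real ((Z' \ Rj j) ∩ univ) - 0 * μ.real ((Z' \ Rj j) ∩ univ) := by
      refine setIntegral_le_ind (g := fun x => (- dv s F x : ℝ))
        (measurable_cast hdvm).neg (C := 2 * K * N)
        (fun x => by rw [abs_neg]; exact hdr x) (hZ'.1.diff (hRm j))
        MeasurableSet.univ MeasurableSet.univ (ae_of_all _ fun x hx' => ?_)
      have a1 : x ∉ Sur := fun h => hx'.2 (hRmono hj (Or.inl (Or.inl h)))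
      have a2 : (φ x : ℝ) ≤ dv s F x := by exact_mod_cast not_lt.1 a1
      have a3 := abs_le.1 (hφr x)
      simp only [indicator_univ, Pi.one_apply]; linarith
    rw [inter_univ, integral_neg] at h3
    have h5 := integral_inter_add_sdiff (μ := μ) (s := Z') (f := fun x => (dv s F x : ℝ)) (hRm j)
      (integrable_of_bdd (measurable_cast hdvm) _ hdr).integrableOn
    rw [setIntegral_dv_inv hμ s hF hK hZ'] at h5
    have h4 := harith (μ.real (Z' ∩ (Rj j)ᶜ)) _ (μ.real (Z' ∩ (Rj (j + 1) \ Rj j)))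
      measureReal_nonneg measureReal_nonneg h1 (by rw [← Set.sdiff_eq]; linarith)
    have h6 := hsplit Z' hZ'.1 j
    have h7 := measureReal_inter_add_sdiff (μ := μ) (s := Z') (hRm j)
    have h8 := measureReal_inter_add_sdiff (μ := μ) (s := Z') (hRm (j + 1))
    rw [Set.sdiff_eq] at h7 h8
    have h9 : μ.real (Z' ∩ (Rj (j + 1))ᶜ) ≤ μ.real (Z' ∩ (Rj j)ᶜ) :=
      measureReal_mono (inter_subset_inter_right _ (compl_subset_compl.2
        (hRmono (Nat.le_succ j))))
    have := mul_le_mul_of_nonneg_left h9 hc0.le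
    linarith
  obtain ⟨Z2, hZ2, he1, he2⟩ := dens_split (invSigma_le μ s) μ (Rj (k + 1))
    (show (0 : ℝ) ≤ 1 / 2 by norm_num)
  have hZa : μ.real (Z0ᶜ ∩ Z2) ≤ 0 := by
    have hZ' : MeasurableSet[invSigma μ s] (Z0ᶜ ∩ Z2) := hZ.inter hZ2
    have h1 : ∀ i, i ≤ k → (1 + c) ^ i * μ.real (Z0ᶜ ∩ Z2 ∩ Rj 1) ≤
        μ.real (Z0ᶜ ∩ Z2 ∩ Rj (i + 1)) := by
      intro i
      induction i with
      | zero => intro _; simp
      | succ i ih =>
        intro hi
        have a1 := ih (by omega)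
        have a2 := ph1 _ hZ' (i + 1) (by omega) (fun Z'' hZ'' hsub => by
          have b1 := he1 Z'' hZ'' (hsub.trans inter_subset_right)
          have b2 : μ.real (Z'' ∩ Rj (i + 1)) ≤ μ.real (Z'' ∩ Rj (k + 1)) :=
            measureReal_mono (inter_subset_inter_right _ (hRmono (by omega)))
          linarith)
        have a3 := mul_le_mul_of_nonneg_left a1 (show 0 ≤ 1 + c by linarith)
        rw [pow_succ]
        linarith
    have h2 := h1 k le_rfl
    have h3 := hsur _ hZ' inter_subset_left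
    have h4 : μ.real (Z0ᶜ ∩ Z2 ∩ Sur) ≤ μ.real (Z0ᶜ ∩ Z2 ∩ Rj 1) :=
      measureReal_mono (inter_subset_inter_right _ fun x h => Or.inl (Or.inl h))
    have h5 : μ.real (Z0ᶜ ∩ Z2 ∩ Rj (k + 1)) ≤ μ.real (Z0ᶜ ∩ Z2) :=
      measureReal_mono inter_subset_left
    have h6 : 0 < (1 + c) ^ k := by positivity
    by_contra hlt
    push Not at hlt
    have h7 := mul_lt_mul_of_pos_right hk hlt
    have h8 := mul_le_mul_of_nonneg_left h3 h6.le
    have h9 := mul_le_mul_of_nonneg_left h4 (show 0 ≤ R' * (1 + c) ^ k by positivity)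
    have h10 := mul_le_mul_of_nonneg_left (h2.trans h5) (show 0 ≤ R' by linarith)
    nlinarith
  have hZb : 0 < μ.real (Z0ᶜ ∩ Z2ᶜ) := by
    have := measureReal_inter_add_sdiff (μ := μ) (s := Z0ᶜ) hZ2.1
    rw [Set.sdiff_eq] at this
    linarith
  have hZ' : MeasurableSet[invSigma μ s] (Z0ᶜ ∩ Z2ᶜ) := hZ.inter hZ2.compl
  have h1 : ∀ i, i ≤ k → (1 + c) ^ i * μ.real (Z0ᶜ ∩ Z2ᶜ ∩ (Rj (k + 1 + i))ᶜ) ≤
      μ.real (Z0ᶜ ∩ Z2ᶜ) := by
    intro i
    induction i with
    | zero => intro _; simpa using measureReal_mono inter_subset_left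
    | succ i ih =>
      intro hi
      have a1 := ih (by omega)
      have a2 := ph2 _ hZ' (k + 1 + i) (by omega) (fun Z'' hZ'' hsub => by
        have b1 := he2 Z'' hZ'' (hsub.trans inter_subset_right)
        have b2 : μ.real (Z'' ∩ (Rj (k + 1 + i))ᶜ) ≤ μ.real (Z'' ∩ (Rj (k + 1))ᶜ) :=
          measureReal_mono (inter_subset_inter_right _ (compl_subset_compl.2 (hRmono (by omega))))
        have b3 := measureReal_inter_add_sdiff (μ := μ) (s := Z'') (hRm (k + 1))
        rw [Set.sdiff_eq] at b3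
        linarith)
      have a3 := mul_le_mul_of_nonneg_left a2 (show 0 ≤ (1 + c) ^ i by positivity)
      rw [pow_succ, ← add_assoc]
      linarith
  have h2 := h1 k le_rfl
  have h3 := hd2 _ hZ' inter_subset_left
  have h4 : μ.real (Z0ᶜ ∩ Z2ᶜ ∩ Def) ≤ μ.real (Z0ᶜ ∩ Z2ᶜ ∩ (Rj (k + 1 + k))ᶜ) := by
    refine real_mono_ae (hnull.mono fun x hx h => ⟨h.1, fun h' => hx ⟨?_, h.2⟩⟩)
    exact hRmono (by omega) h'
  have h6 : 0 < (1 + c) ^ k := by positivity
  have h7 := mul_lt_mul_of_pos_right hk hZb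
  have h8 := mul_le_mul_of_nonneg_left (h3.trans h4) h6.le
  nlinarith

theorem exists_layer {D : Set X} (R : ℕ → Set X) (h0 : R 0 = ∅) (n : ℕ)
    (h : 0 < μ.real (R n ∩ D)) : ∃ j < n, 0 < μ.real ((R (j + 1) \ R j) ∩ D) := by
  induction n with
  | zero => simp [h0] at h
  | succ n ih =>
    by_cases h1 : 0 < μ.real (R n ∩ D)
    · obtain ⟨j, hj, h2⟩ := ih h1
      exact ⟨j, by omega, h2⟩
    · refine ⟨n, by omega, ?_⟩
      have : μ.real (R (n + 1) ∩ D) ≤ μ.real (R n ∩ D) + μ.real ((R (n + 1) \ R n) ∩ D) := by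
        refine le_trans (measureReal_mono ?_) (measureReal_union_le _ _)
        intro x hx
        by_cases h2 : x ∈ R n
        · exact Or.inl ⟨h2, hx.2⟩
        · exact Or.inr ⟨⟨hx.1, h2⟩, hx.2⟩
      linarith

theorem length_choice {c R' : ℝ} (hc : 0 < c) (hR : 1 ≤ R') : ∃ C > 0, ∀ p : ℝ, 0 < p → p ≤ R' →
    ∃ k : ℕ, R' < (1 + c) ^ k * (p / (2 * R')) ∧ (2 * k + 1 : ℝ) * (2 * √p) ≤ C := by
  refine ⟨16 * R' / c + 10 * √R', by positivity, fun p hp hpR => ?_⟩
  have hs : 0 < √p := Real.sqrt_pos.2 hp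
  have hs2 : √p * √p = p := Real.mul_self_sqrt hp.le
  have hsR : √p ≤ √R' := Real.sqrt_le_sqrt hpR
  set k' := ⌈2 * R' / (c * √p)⌉₊ with hk'
  have h1 : 2 * R' / (c * √p) ≤ k' := Nat.le_ceil _
  have h2 : (k' : ℝ) < 2 * R' / (c * √p) + 1 := Nat.ceil_lt_add_one (by positivity)
  refine ⟨2 * k', ?_, ?_⟩
  · have h3 : 1 + (k' : ℝ) * c ≤ (1 + c) ^ k' := one_add_mul_le_pow (by linarith) k'
    have h4 : 2 * R' / √p ≤ k' * c := by
      rw [div_le_iff₀ (by positivity)] at h1
      rw [div_le_iff₀ hs]; linarith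
    have h5 : 2 * R' / √p ≤ (1 + c) ^ k' := by linarith
    have h6 : (2 * R' / √p) ^ 2 ≤ ((1 + c) ^ k') ^ 2 := pow_le_pow_left₀ (by positivity) h5 2
    rw [mul_comm 2 k', pow_mul]
    have h7 : (2 * R' / √p) ^ 2 * (p / (2 * R')) = 2 * R' := by
      rw [div_pow, Real.sq_sqrt hp.le]; field_simp
    have h8 := mul_le_mul_of_nonneg_right h6 (show 0 ≤ p / (2 * R') by positivity)
    linarith
  · push_cast
    have h3 : (k' : ℝ) * √p ≤ 2 * R' / c + √p := by
      have := mul_le_mul_of_nonneg_right h2.le hs.le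
      have e : (2 * R' / (c * √p) + 1) * √p = 2 * R' / c + √p := by field_simp
      linarith
    have e : 16 * R' / c = 8 * (2 * R' / c) := by ring
    nlinarith

/-- The total excess of a flow. -/
noncomputable def excess (μ : Measure X) (s : T → Γ) (φ : X → ℤ) (F : X → T → ℤ) : ℝ :=
  ∫ x, ((max (dv s F x - φ x) 0 : ℤ) : ℝ) ∂μ

theorem flow_exists {κ : ℝ} (hκ : 0 < κ) (R : ℤ) (hR0 : 0 ≤ R) :
    ∃ K : ℤ, 0 < K ∧ ∀ {X : Type} [MeasurableSpace X] {Γ : Type} [Group Γ] [MulAction Γ X]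
      {T : Type} [Fintype T] {μ : Measure X} [IsProbabilityMeasure μ]
      (_ : ∀ g : Γ, MeasurePreserving (fun x : X => g • x) μ μ) (s : T → Γ) (_ : Expand μ s κ)
      {φ : X → ℤ} (_ : Measurable φ) (_ : ∀ x, |φ x| ≤ R)
      (_ : ∀ Z, MeasurableSet[invSigma μ s] Z → 0 ≤ ∫ x in Z, (φ x : ℝ) ∂μ),
      ∃ F : X → T → ℤ, Measurable F ∧ (∀ x τ, |F x τ| ≤ K) ∧ ∀ᵐ x ∂μ, dv s F x ≤ φ x := by
  obtain ⟨K0, hK0⟩ := exists_nat_gt (2 * (R : ℝ) / κ)
  have hR0r : (0 : ℝ) ≤ R := by exact_mod_cast hR0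
  have hKpos : 0 < K0 := by
    have : (0 : ℝ) ≤ 2 * R / κ := by positivity
    exact_mod_cast this.trans_lt hK0
  refine ⟨K0, by exact_mod_cast hKpos, ?_⟩
  intro X _ Γ _ _ T _ μ _ hμ s hE φ hφ hφR hpos
  set K : ℤ := ((K0 : ℕ) : ℤ) with hKdef
  have hK0' : (0 : ℤ) < K := by rw [hKdef]; exact_mod_cast hKpos
  have hK0r : (0 : ℝ) < K := by exact_mod_cast hK0'
  have hKR : 2 * (R : ℝ) ≤ K * κ := by
    rw [div_lt_iff₀ hκ] at hK0
    rw [hKdef]; push_cast; linarith
  set N : ℝ := ((Fintype.card T : ℕ) : ℝ) with hN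
  have hN0 : 0 ≤ N := Nat.cast_nonneg _
  set R' : ℝ := R + 2 * K * N + 1 with hR'
  have hKN : 0 ≤ 2 * K * N := by positivity
  have hR'1 : 1 ≤ R' := by linarith
  obtain ⟨C, hC, hlen⟩ := length_choice (c := κ / (8 * (N + 1))) (by positivity) hR'1
  have hφr : ∀ x, |(φ x : ℝ)| ≤ R := fun x => by exact_mod_cast hφR x
  have hdr : ∀ {F : X → T → ℤ}, (∀ x τ, |F x τ| ≤ K) → ∀ x, |(dv s F x : ℝ)| ≤ 2 * K * N :=
    fun hK x => by
      have := abs_dv_le s hK x
      rw [hN]; exact_mod_cast this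
  have hem : ∀ {F : X → T → ℤ}, Measurable F →
      Measurable fun x => ((max (dv s F x - φ x) 0 : ℤ) : ℝ) := fun hF =>
    measurable_cast (((measurable_dv hμ s hF).sub hφ).max measurable_const)
  have he0 : ∀ (F : X → T → ℤ) x, (0 : ℝ) ≤ ((max (dv s F x - φ x) 0 : ℤ) : ℝ) := fun F x => by
    exact_mod_cast le_max_right _ _
  have heb : ∀ {F : X → T → ℤ}, (∀ x τ, |F x τ| ≤ K) → ∀ x,
      |((max (dv s F x - φ x) 0 : ℤ) : ℝ)| ≤ R' := fun {F} hK x => by
    rw [abs_of_nonneg (he0 F x)]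
    have a1 := abs_le.1 (hφr x)
    have a2 := abs_le.1 (hdr hK x)
    push_cast
    exact max_le (by linarith) (by linarith)
  have hei : ∀ {F : X → T → ℤ}, Measurable F → (∀ x τ, |F x τ| ≤ K) →
      Integrable (fun x => ((max (dv s F x - φ x) 0 : ℤ) : ℝ)) μ := fun hF hK =>
    integrable_of_bdd (hem hF) _ (heb hK)
  have hex0 : ∀ F : X → T → ℤ, 0 ≤ excess μ s φ F := fun F => integral_nonneg (he0 F)
  have hlip : ∀ {F G : X → T → ℤ}, Measurable F → (∀ x τ, |F x τ| ≤ K) → Measurable G →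
      (∀ x τ, |G x τ| ≤ K) →
      excess μ s φ F ≤ excess μ s φ G + R' * (N + 1) * μ.real {x | G x ≠ F x} := by
    intro F G hF hFK hG hGK
    have hB : MeasurableSet {x | G x ≠ F x} := (measurableSet_eq_fun hG hF).compl
    set B' := {x | G x ≠ F x} ∪ ⋃ τ, {x | (s τ)⁻¹ • x ∈ {x | G x ≠ F x}} with hB'
    have hB'm : MeasurableSet B' := hB.union (MeasurableSet.iUnion fun τ => meas_pre hμ _ hB)
    have h1 : μ.real B' ≤ (N + 1) * μ.real {x | G x ≠ F x} := by
      refine (measureReal_union_le _ _).trans ?_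
      have := measureReal_iUnion_fintype_le (μ := μ)
        (fun τ => {x | (s τ)⁻¹ • x ∈ {x | G x ≠ F x}})
      simp only [real_pre hμ _ hB, Finset.sum_const, Finset.card_univ, nsmul_eq_mul] at this
      rw [← hN] at this
      linarith
    have h2 : ∫ x in univ, (((max (dv s F x - φ x) 0 : ℤ) : ℝ) -
        ((max (dv s G x - φ x) 0 : ℤ) : ℝ)) ∂μ ≤
        R' * μ.real (univ ∩ B') - 0 * μ.real (univ ∩ B') := by
      refine setIntegral_le_ind (g := fun x => ((max (dv s F x - φ x) 0 : ℤ) : ℝ) -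
        ((max (dv s G x - φ x) 0 : ℤ) : ℝ)) ((hem hF).sub (hem hG)) (C := R' + R')
        (fun x => (abs_sub _ _).trans (add_le_add (heb hFK x) (heb hGK x))) MeasurableSet.univ
        hB'm hB'm (ae_of_all _ fun x _ => ?_)
      by_cases hx : x ∈ B'
      · have a1 := abs_le.1 (heb hFK x)
        have a2 := he0 G x
        rw [indicator_of_mem hx]
        simp only [Pi.one_apply]; linarith
      · have e : dv s F x = dv s G x := by
          simp only [hB', mem_union, mem_ofPred_eq, mem_iUnion, not_or, not_not, not_exists] at hx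
          unfold dv
          exact Finset.sum_congr rfl fun τ _ => by rw [hx.1, hx.2 τ]
        rw [indicator_of_notMem hx, e]
        simp
    rw [Measure.restrict_univ, univ_inter, integral_sub (hei hF hFK) (hei hG hGK)] at h2
    have := mul_le_mul_of_nonneg_left h1 (show 0 ≤ R' by linarith)
    unfold excess
    linarith
  obtain ⟨F, hF, hFK, hmin⟩ := caristi (m := inferInstance) μ (fun v : T → ℤ => ∀ τ, |v τ| ≤ K) 0
    (fun _ => by simpa using hK0'.le) (fun F => C * √(excess μ s φ F))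
    (fun F => by positivity) (by
      intro F hF hFK ε hε
      refine ⟨(ε / C) ^ 2 / (R' * (N + 1)), by positivity, fun G hG hGK hd => ?_⟩
      have h1 := hlip hF hFK hG hGK
      rw [lt_div_iff₀ (by positivity)] at hd
      have h2 : √(excess μ s φ F) ≤ √(excess μ s φ G) + ε / C := by
        rw [Real.sqrt_le_iff]
        refine ⟨by positivity, ?_⟩
        have a1 := Real.sq_sqrt (hex0 G)
        have a2 : 0 ≤ √(excess μ s φ G) * (ε / C) := by positivity
        nlinarith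
      have h3 := mul_le_mul_of_nonneg_left h2 hC.le
      have e : C * (ε / C) = ε := by field_simp
      linarith)
  refine ⟨F, hF, hFK, ?_⟩
  have hzero : excess μ s φ F = 0 := by
    by_contra hne
    have hp : 0 < excess μ s φ F := lt_of_le_of_ne (hex0 F) (Ne.symm hne)
    set p := excess μ s φ F with hpdef
    have hdvm := measurable_dv hμ s hF
    have hDm : MeasurableSet {x | φ x < dv s F x} := measurableSet_lt hφ hdvm
    have hSm : MeasurableSet {x | dv s F x < φ x} := measurableSet_lt hdvm hφ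
    have h1 : p ≤ R' * μ.real {x | φ x < dv s F x} := by
      have := setIntegral_le_ind (μ := μ) (hem hF) (heb hFK) MeasurableSet.univ hDm hDm
        (a := R') (b := 0) (ae_of_all _ fun x _ => by
          by_cases hx : x ∈ {x | φ x < dv s F x}
          · rw [indicator_of_mem hx]
            have := abs_le.1 (heb hFK x)
            simp only [Pi.one_apply]; linarith
          · rw [indicator_of_notMem hx, max_eq_right (by simpa using hx)]
            simp)
      rw [Measure.restrict_univ, univ_inter] at this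
      rw [hpdef, excess]; linarith
    have h2 : μ.real {x | φ x < dv s F x} ≤ 1 := measureReal_le_one
    obtain ⟨k, hk1, hk2⟩ := hlen p hp (by nlinarith)
    have h3 := short_path hμ s hκ hE hK0' hKR hφ hφR hpos hF hFK (θ := p / (2 * R'))
      (by positivity) (by
        rw [probReal_univ, mul_one, div_lt_iff₀ (by positivity)]
        linarith) k hk1
    obtain ⟨j, hj, h4⟩ := exists_layer _ rfl _ h3
    obtain ⟨Y', Y0, G, m1, m0, s1, s0, p1, mG, bG, dG, cG, -⟩ := augment hμ s hF hFK hSm j _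
      (((measurableSet_Rs hμ s K hF hSm (j + 1)).diff (measurableSet_Rs hμ s K hF hSm j)).inter
        hDm) inter_subset_left h4
    have h5 : excess μ s φ G = p - μ.real Y' := by
      rw [hpdef, excess, excess, ← integral_indicator_one m1,
        ← integral_sub (g := Y'.indicator 1) (hei hF hFK)
          ((integrable_const (1 : ℝ)).indicator m1)]
      refine integral_congr_ae (ae_of_all _ fun x => ?_)
      simp only [dG x]
      by_cases a1 : x ∈ Y'
      · have b1 : φ x < dv s F x := (s1 a1).2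
        have b2 : x ∉ Y0 := fun h => absurd (s0 h) (not_lt.2 b1.le)
        rw [indicator_of_mem a1, indicator_of_mem a1, indicator_of_notMem b2,
          max_eq_left (by simp only [Pi.one_apply]; omega), max_eq_left (by omega)]
        simp only [Pi.one_apply]; push_cast; ring
      · rw [indicator_of_notMem a1, indicator_of_notMem a1]
        by_cases a2 : x ∈ Y0
        · have b1 : dv s F x < φ x := s0 a2
          rw [indicator_of_mem a2, max_eq_right (by simp only [Pi.one_apply]; omega),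
            max_eq_right (by omega)]
          simp
        · rw [indicator_of_notMem a2]; simp
    have h6 := hex0 G
    have hs : 0 < √p := Real.sqrt_pos.2 hp
    have hs2 : √p * √p = p := Real.mul_self_sqrt hp.le
    have hq2 : √(p - μ.real Y') * √(p - μ.real Y') = p - μ.real Y' :=
      Real.mul_self_sqrt (by linarith)
    have hq0 : 0 ≤ √(p - μ.real Y') := Real.sqrt_nonneg _
    have hlt : √(p - μ.real Y') < √p := Real.sqrt_lt_sqrt (by linarith) (by linarith)
    have h7 := hmin G mG bG (by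
      rw [h5]
      have a1 : (j : ℝ) ≤ 2 * k + 1 := by exact_mod_cast hj.le
      have a2 : μ.real Y' ≤ 2 * √p * (√p - √(p - μ.real Y')) := by nlinarith
      have a3 := mul_le_mul_of_nonneg_right hk2 (sub_nonneg.2 hlt.le)
      have a4 := mul_le_mul_of_nonneg_right a1 p1.le
      have a5 := mul_le_mul_of_nonneg_left a2 (show (0 : ℝ) ≤ 2 * k + 1 by positivity)
      linarith)
    rw [h5] at h7
    have := mul_lt_mul_of_pos_left hlt hC
    linarith
  rw [excess, integral_eq_zero_iff_of_nonneg (he0 F) (hei hF hFK)] at hzero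
  refine hzero.mono fun x hx => ?_
  have : (max (dv s F x - φ x) 0 : ℤ) = 0 := by
    simp only [Pi.zero_apply] at hx
    exact_mod_cast hx
  have := le_max_left (dv s F x - φ x) 0
  omega

end Pool.Agent.P.MP_afd974_lc.Sep
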