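import Pool.Agent.P.MP_afd974_lc.SepBase
import Pool.Agent.P.MP_55663b_lc.Gap

/-!
Uniform expansion for actions of groups generated by three elements of order five that pairwise
generate Heisenberg groups.
-/

open MeasureTheory Set Filter Topology
open scoped RealInnerProductSpace

set_option linter.unusedSectionVars false

namespace Pool.Agent.P.MP_afd974_lc.Sep

open Pool.Agent.P.MP_55663b_lc

/-- Three elements of order dividing five that pairwise generate Heisenberg groups. -/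
def Heis {G : Type*} [Group G] (s : Fin 3 → G) : Prop :=
  ∃ a b c : G, s 0 ^ 5 = 1 ∧ s 1 ^ 5 = 1 ∧ s 2 ^ 5 = 1 ∧ a ^ 5 = 1 ∧ b ^ 5 = 1 ∧ c ^ 5 = 1 ∧
    s 0 * s 1 = s 1 * s 0 * a ∧ Commute (s 0) a ∧ Commute (s 1) a ∧
    s 1 * s 2 = s 2 * s 1 * b ∧ Commute (s 1) b ∧ Commute (s 2) b ∧
    s 2 * s 0 = s 0 * s 2 * c ∧ Commute (s 2) c ∧ Commute (s 0) c

theorem Heis.map {G H : Type*} [Group G] [Group H] {s : Fin 3 → G} (h : Heis s) (f : G →* H) :
    Heis fun i => f (s i) := by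
  obtain ⟨a, b, c, h1, h2, h3, h4, h5, h6, h7, h8, h9, h10, h11, h12, h13, h14, h15⟩ := h
  refine ⟨f a, f b, f c, ?_, ?_, ?_, ?_, ?_, ?_, ?_, h8.map f, h9.map f, ?_, h11.map f,
    h12.map f, ?_, h14.map f, h15.map f⟩ <;>
  simp only [← map_pow, ← map_mul, map_one, *]

section rep

variable {G : Type*} [Group G] {E : Type*} [NormedAddCommGroup E] [InnerProductSpace ℝ E]
  {ρ : G →* Module.End ℝ E} (hρ : ∀ g u v, ⟪ρ g u, ρ g v⟫ = ⟪u, v⟫)
include hρ

theorem norm_rho (g : G) (u : E) : ‖ρ g u‖ = ‖u‖ := by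
  have := hρ g u u
  rw [real_inner_self_eq_norm_sq, real_inner_self_eq_norm_sq] at this
  exact (sq_eq_sq₀ (norm_nonneg _) (norm_nonneg _)).1 this

theorem norm_sub_pow (g : G) (u : E) (n : ℕ) : ‖u - ρ (g ^ n) u‖ ≤ n * ‖u - ρ g u‖ := by
  induction n with
  | zero => simp
  | succ n ih =>
    have e : u - ρ (g ^ (n + 1)) u = (u - ρ g u) + ρ g (u - ρ (g ^ n) u) := by
      rw [pow_succ', map_mul, Module.End.mul_apply, map_sub]; abel
    rw [e]
    refine (norm_add_le _ _).trans ?_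
    rw [norm_rho hρ]; push_cast; linarith

theorem norm_sub_avg (g : G) (u : E) : ‖u - avg ρ g u‖ ≤ 2 * ‖u - ρ g u‖ := by
  have e : u - avg ρ g u = (1 / 5 : ℝ) • ∑ i ∈ Finset.range 5, (u - ρ (g ^ i) u) := by
    unfold avg
    rw [Finset.sum_sub_distrib, smul_sub, Finset.sum_const, Finset.card_range,
      LinearMap.smul_apply, LinearMap.sum_apply, ← Nat.cast_smul_eq_nsmul ℝ, smul_smul]
    norm_num
  rw [e, norm_smul]
  have h := (norm_sum_le _ _).trans (Finset.sum_le_sum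
    fun i (_ : i ∈ Finset.range 5) => norm_sub_pow hρ g u i)
  simp only [Finset.sum_range_succ, Finset.sum_range_zero] at h ⊢
  norm_num at h ⊢
  linarith

theorem norm_sub_rho {g : G} (hg : g ^ 5 = 1) (u : E) : ‖u - ρ g u‖ ≤ 2 * ‖u - avg ρ g u‖ := by
  have e : u - ρ g u = (u - avg ρ g u) - ρ g (u - avg ρ g u) := by
    rw [map_sub, fixed_avg hg]; abel
  rw [e]
  refine (norm_sub_le _ _).trans ?_
  rw [norm_rho hρ]; linarith

theorem kaz [CompleteSpace E] {s : Fin 3 → G} (h : Heis s) (v : E) :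
    ∃ w, (∀ i, ρ (s i) w = w) ∧ ‖v - w‖ ^ 2 ≤ 40000 * ∑ i, ‖v - ρ (s i) v‖ ^ 2 := by
  obtain ⟨a, b, c, hx, hy, hz, ha, hb, hc, hxy, hxa, hya, hyz, hyb, hzb, hzx, hzc, hxc⟩ := h
  set x := s 0
  set y := s 1
  set z := s 2
  let D : Module.End ℝ E := (1 - avg ρ x) + (1 - avg ρ y) + (1 - avg ρ z)
  have hD : ∀ u, D u = (u - avg ρ x u) + (u - avg ρ y u) + (u - avg ρ z u) := fun u => by
    simp [D]
  have hQ : ∀ {g : G}, g ^ 5 = 1 → ∀ u w : E,
      ⟪u - avg ρ g u, w⟫ = ⟪u - avg ρ g u, w - avg ρ g w⟫ := by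
    intro g hg u w
    rw [inner_sub_right, ← avg_symm hρ hg, map_sub, avg_avg hg]
    simp
  have hform : ∀ u w : E, ⟪D u, w⟫ = ⟪u - avg ρ x u, w - avg ρ x w⟫ +
      ⟪u - avg ρ y u, w - avg ρ y w⟫ + ⟪u - avg ρ z u, w - avg ρ z w⟫ := by
    intro u w
    rw [hD, inner_add_left, inner_add_left, ← hQ hx, ← hQ hy, ← hQ hz]
  have hsym : ∀ u w : E, ⟪D u, w⟫ = ⟪D w, u⟫ := by
    intro u w
    rw [hform, hform, real_inner_comm (u - avg ρ x u), real_inner_comm (u - avg ρ y u),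
      real_inner_comm (u - avg ρ z u)]
  have hlow : ∀ u : E, 1 / 10 * ⟪D u, u⟫ ≤ ⟪D u, D u⟫ := by
    intro u
    have p1 := pair_ineq hρ hx hy ha hxy hxa hya u
    have p2 := pair_ineq hρ hy hz hb hyz hyb hzb u
    have p3 := pair_ineq hρ hz hx hc hzx hzc hxc u
    rw [hform u u, hD]
    set q1 := u - avg ρ x u
    set q2 := u - avg ρ y u
    set q3 := u - avg ρ z u
    simp only [inner_add_left, inner_add_right, real_inner_comm q1 q2, real_inner_comm q2 q3,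
      real_inner_comm q3 q1]
    linarith
  have hup : ∀ u : E, ⟪D u, D u⟫ ≤ 3 * ⟪D u, u⟫ := by
    intro u
    rw [hform u u, hD]
    set q1 := u - avg ρ x u
    set q2 := u - avg ρ y u
    set q3 := u - avg ρ z u
    have s1 : 0 ≤ ⟪q1 - q2, q1 - q2⟫ := real_inner_self_nonneg
    have s2 : 0 ≤ ⟪q2 - q3, q2 - q3⟫ := real_inner_self_nonneg
    have s3 : 0 ≤ ⟪q3 - q1, q3 - q1⟫ := real_inner_self_nonneg
    simp only [inner_add_left, inner_add_right, inner_sub_left, inner_sub_right,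
      real_inner_comm q1 q2, real_inner_comm q2 q3, real_inner_comm q3 q1] at s1 s2 s3 ⊢
    linarith
  have hone : ∀ {g : G}, g ^ 5 = 1 → ∀ u : E, ⟪u - avg ρ g u, u - avg ρ g u⟫ ≤ ⟪u, u⟫ := by
    intro g hg u
    have h1 := hQ hg u u
    have h2 : 0 ≤ ⟪avg ρ g u, avg ρ g u⟫ := real_inner_self_nonneg
    have h3 : ⟪avg ρ g u, avg ρ g u⟫ = ⟪avg ρ g u, u⟫ := by
      rw [avg_symm hρ hg, avg_avg hg, real_inner_comm]
    rw [← h1, inner_sub_left]; linarith
  have hup2 : ∀ u : E, ⟪D u, u⟫ ≤ 3 * ⟪u, u⟫ := by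
    intro u
    rw [hform]
    linarith [hone hx u, hone hy u, hone hz u]
  have hq : ∀ u : E, ⟪D u, u⟫ =
      ‖u - avg ρ x u‖ ^ 2 + ‖u - avg ρ y u‖ ^ 2 + ‖u - avg ρ z u‖ ^ 2 := by
    intro u
    rw [hform, real_inner_self_eq_norm_sq, real_inner_self_eq_norm_sq,
      real_inner_self_eq_norm_sq]
  have hq0 : ∀ u : E, 0 ≤ ⟪D u, u⟫ := fun u => by rw [hq]; positivity
  have hstep : ∀ u : E, ⟪D (u - (1 / 3 : ℝ) • D u), u - (1 / 3 : ℝ) • D u⟫ ≤
      (99 / 100) ^ 2 * ⟪D u, u⟫ := by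
    intro u
    have h1 := hlow u
    have h2 := hup2 (D u)
    have h3 := hsym (D u) u
    have h4 := hq0 u
    simp only [map_sub, map_smul, inner_sub_left, inner_sub_right, inner_smul_left,
      inner_smul_right, conj_trivial, h3]
    linarith
  let u : ℕ → E := fun n => Nat.rec v (fun _ w => w - (1 / 3 : ℝ) • D w) n
  have hu : ∀ n, u (n + 1) = u n - (1 / 3 : ℝ) • D (u n) := fun n => rfl
  set Q := √⟪D v, v⟫ with hQdef
  have hQ0 : 0 ≤ Q := Real.sqrt_nonneg _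
  have hQ2 : Q ^ 2 = ⟪D v, v⟫ := Real.sq_sqrt (hq0 v)
  have hqn : ∀ n, ⟪D (u n), u n⟫ ≤ (Q * (99 / 100) ^ n) ^ 2 := by
    intro n
    induction n with
    | zero => simp [hQ2, u]
    | succ n ih =>
      rw [hu]
      refine (hstep _).trans ?_
      have : (Q * (99 / 100) ^ (n + 1)) ^ 2 = (99 / 100) ^ 2 * (Q * (99 / 100) ^ n) ^ 2 := by ring
      rw [this]
      exact mul_le_mul_of_nonneg_left ih (by positivity)
  have hdist : ∀ n, dist (u n) (u (n + 1)) ≤ Q * (99 / 100) ^ n := by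
    intro n
    rw [hu, dist_eq_norm, sub_sub_cancel, norm_smul]
    have h1 := hup (u n)
    rw [real_inner_self_eq_norm_sq] at h1
    have h2 := hqn n
    have h3 : 0 ≤ Q * (99 / 100) ^ n := by positivity
    have h4 : ‖D (u n)‖ ≤ 3 * (Q * (99 / 100) ^ n) :=
      (sq_le_sq₀ (norm_nonneg _) (by positivity)).1 (by nlinarith)
    norm_num
    linarith
  obtain ⟨w, hw⟩ := cauchySeq_tendsto_of_complete
    (cauchySeq_of_le_geometric _ _ (by norm_num) hdist)
  have hfix : ∀ {g : G}, g ^ 5 = 1 → (∀ v, ‖v - avg ρ g v‖ ^ 2 ≤ ⟪D v, v⟫) → ρ g w = w := by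
    intro g hg hle
    have h1 : ∀ n, ‖w - ρ g w‖ ≤ 2 * ‖w - u n‖ + 2 * (Q * (99 / 100) ^ n) := by
      intro n
      have e : w - ρ g w = (w - u n) + (u n - ρ g (u n)) - ρ g (w - u n) := by
        rw [map_sub]; abel
      have h2 := norm_sub_rho hρ hg (u n)
      have h3 : ‖u n - avg ρ g (u n)‖ ≤ Q * (99 / 100) ^ n :=
        (sq_le_sq₀ (norm_nonneg _) (by positivity)).1 ((hle _).trans (hqn n))
      rw [e]
      refine (norm_sub_le _ _).trans ?_
      rw [norm_rho hρ]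
      linarith [norm_add_le (w - u n) (u n - ρ g (u n))]
    have h2 : Tendsto (fun n => 2 * ‖w - u n‖ + 2 * (Q * (99 / 100 : ℝ) ^ n)) atTop
        (𝓝 (2 * ‖w - w‖ + 2 * (Q * 0))) :=
      ((tendsto_const_nhds.sub hw).norm.const_mul 2).add
        (((tendsto_pow_atTop_nhds_zero_of_lt_one (by norm_num) (by norm_num)).const_mul
          Q).const_mul 2)
    have h3 := ge_of_tendsto' h2 h1
    simp only [sub_self, norm_zero, mul_zero, add_zero, norm_le_zero_iff] at h3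
    exact (sub_eq_zero.1 h3).symm
  refine ⟨w, fun i => ?_, ?_⟩
  · have f1 := hfix hx fun v => by
      rw [hq]; linarith [sq_nonneg ‖v - avg ρ y v‖, sq_nonneg ‖v - avg ρ z v‖]
    have f2 := hfix hy fun v => by
      rw [hq]; linarith [sq_nonneg ‖v - avg ρ x v‖, sq_nonneg ‖v - avg ρ z v‖]
    have f3 := hfix hz fun v => by
      rw [hq]; linarith [sq_nonneg ‖v - avg ρ x v‖, sq_nonneg ‖v - avg ρ y v‖]
    fin_cases i
    · exact f1
    · exact f2
    · exact f3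
  · have h1 := dist_le_of_le_geometric_of_tendsto₀ _ _ (by norm_num) hdist hw
    rw [dist_eq_norm] at h1
    have h2 : ‖v - w‖ ≤ 100 * Q := by
      have : u 0 = v := rfl
      rw [this] at h1
      norm_num at h1
      linarith
    have h3 : ‖v - w‖ ^ 2 ≤ (100 * Q) ^ 2 := pow_le_pow_left₀ (norm_nonneg _) h2 2
    have h4 := hq v
    have a1 := pow_le_pow_left₀ (norm_nonneg _) (norm_sub_avg hρ x v) 2
    have a2 := pow_le_pow_left₀ (norm_nonneg _) (norm_sub_avg hρ y v) 2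
    have a3 := pow_le_pow_left₀ (norm_nonneg _) (norm_sub_avg hρ z v) 2
    rw [Fin.sum_univ_three]
    nlinarith

end rep

variable {X : Type*} [m0 : MeasurableSpace X] {Γ : Type*} [Group Γ] [MulAction Γ X]
  {μ : Measure X} [IsFiniteMeasure μ]

/-- The Koopman representation. -/
noncomputable def koop (hμ : ∀ g : Γ, MeasurePreserving (fun x : X => g • x) μ μ) :
    Γ →* Module.End ℝ (Lp ℝ 2 μ) where
  toFun g := Lp.compMeasurePreservingₗ ℝ (fun x : X => g⁻¹ • x) (hμ g⁻¹)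
  map_one' := by
    ext f
    filter_upwards [Lp.coeFn_compMeasurePreserving f (hμ 1⁻¹)] with x hx
    simpa using hx
  map_mul' g h := by
    ext f
    filter_upwards [Lp.coeFn_compMeasurePreserving f (hμ (g * h)⁻¹),
      Lp.coeFn_compMeasurePreserving (Lp.compMeasurePreserving _ (hμ h⁻¹) f) (hμ g⁻¹),
      ae_pre hμ g⁻¹ (Lp.coeFn_compMeasurePreserving f (hμ h⁻¹))] with x h1 h2 h3
    refine h1.trans (Eq.trans ?_ h2.symm)
    simp only [Function.comp_apply] at h3 ⊢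
    rw [h3, mul_inv_rev, mul_smul]

theorem koop_ae (hμ : ∀ g : Γ, MeasurePreserving (fun x : X => g • x) μ μ) (g : Γ)
    (f : Lp ℝ 2 μ) : ∀ᵐ x ∂μ, koop hμ g f x = f (g⁻¹ • x) :=
  Lp.coeFn_compMeasurePreserving f (hμ g⁻¹)

theorem koop_inner (hμ : ∀ g : Γ, MeasurePreserving (fun x : X => g • x) μ μ) (g : Γ)
    (u v : Lp ℝ 2 μ) : ⟪koop hμ g u, koop hμ g v⟫ = ⟪u, v⟫ :=
  (Lp.compMeasurePreservingₗᵢ ℝ (fun x : X => g⁻¹ • x) (hμ g⁻¹)).inner_map_map u v

theorem norm_sq_Lp (f : Lp ℝ 2 μ) : ‖f‖ ^ 2 = ∫ x, f x ^ 2 ∂μ := by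
  rw [← real_inner_self_eq_norm_sq, L2.inner_def]
  simp [sq]

theorem expand_of_heis (hμ : ∀ g : Γ, MeasurePreserving (fun x : X => g • x) μ μ)
    {s : Fin 3 → Γ} (h : Heis s) : Expand μ s (1 / 160000) := by
  intro A hA hd
  let f : Lp ℝ 2 μ := indicatorConstLp 2 hA (measure_ne_top μ A) (1 : ℝ)
  have hf : ∀ᵐ x ∂μ, f x = A.indicator 1 x := indicatorConstLp_coeFn
  obtain ⟨w, hw, hle⟩ := kaz (koop_inner hμ) h f
  have e1 : ∀ i, ‖f - koop hμ (s i) f‖ ^ 2 = μ.real {x | ¬ (s i • x ∈ A ↔ x ∈ A)} := by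
    intro i
    have hB : MeasurableSet {x | ¬ (s i • x ∈ A ↔ x ∈ A)} :=
      (MeasurableSet.iff (meas_pre hμ _ hA) hA).compl
    rw [norm_sq_Lp, ← real_pre hμ (s i)⁻¹ hB, ← integral_indicator_one (meas_pre hμ _ hB)]
    refine integral_congr_ae ?_
    filter_upwards [Lp.coeFn_sub f (koop hμ (s i) f), koop_ae hμ (s i) f, hf,
      ae_pre hμ (s i)⁻¹ hf] with x h1 h2 h3 h4
    rw [h1, Pi.sub_apply, h2, h3, h4]
    by_cases a1 : x ∈ A <;> by_cases a2 : (s i)⁻¹ • x ∈ A <;> simp [indicator, a1, a2]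
  simp only [e1] at hle
  let g : X → ℝ := (Lp.aestronglyMeasurable w).mk w
  have hg : Measurable g := (Lp.aestronglyMeasurable w).stronglyMeasurable_mk.measurable
  have hgw : ∀ᵐ x ∂μ, w x = g x := (Lp.aestronglyMeasurable w).ae_eq_mk
  have hZ : MeasurableSet[invSigma μ s] {x | 1 / 2 < g x} := by
    refine ⟨measurableSet_lt measurable_const hg, fun i => ?_⟩
    have h1 := koop_ae hμ (s i) w
    rw [hw i] at h1
    filter_upwards [ae_pre hμ (s i) h1, hgw, ae_pre hμ (s i) hgw] with x a1 a2 a3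
    rw [inv_smul_smul] at a1
    show 1 / 2 < g (s i • x) ↔ 1 / 2 < g x
    rw [← a3, a1, a2]
  set Z := {x | 1 / 2 < g x} with hZdef
  have h1 := hd Z hZ
  have h2 : 1 / 4 * μ.real ((A \ Z) ∪ (Z \ A)) ≤ ‖f - w‖ ^ 2 := by
    have hB : MeasurableSet ((A \ Z) ∪ (Z \ A)) := (hA.diff hZ.1).union (hZ.1.diff hA)
    rw [norm_sq_Lp, ← integral_indicator_one hB, ← integral_const_mul]
    refine integral_mono_ae (((integrable_const (1 : ℝ)).indicator hB).const_mul _)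
      (Lp.memLp (f - w)).integrable_sq ?_
    filter_upwards [Lp.coeFn_sub f w, hf, hgw] with x a1 a2 a3
    rw [a1, Pi.sub_apply, a2, a3]
    by_cases b1 : x ∈ A <;> by_cases b2 : x ∈ Z
    · rw [indicator_of_notMem (by simp [b1, b2]), mul_zero]; exact sq_nonneg _
    · rw [indicator_of_mem (by simp [b1, b2]), indicator_of_mem b1]
      have : g x ≤ 1 / 2 := not_lt.1 b2
      simp only [Pi.one_apply]; nlinarith
    · rw [indicator_of_mem (by simp [b1, b2]), indicator_of_notMem b1]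
      have : 1 / 2 < g x := b2
      simp only [Pi.one_apply]; nlinarith
    · rw [indicator_of_notMem (by simp [b1, b2]), mul_zero]; exact sq_nonneg _
  rw [measureReal_union (disjoint_left.2 fun x a b => b.2 a.1) (hZ.1.diff hA)] at h2
  have h3 := measureReal_inter_add_sdiff (μ := μ) (s := A) hZ.1
  have h4 := measureReal_inter_add_sdiff (μ := μ) (s := Z) hA
  rw [inter_comm] at h3
  linarith

end Pool.Agent.P.MP_afd974_lc.Sep
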