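import Pool.Agent.P.MP_afd974_lc.SepFlow2
import Pool.Agent.P.MP_afd974_lc.SepKaz
import Pool.Agent.P.MP_afd974_lc.SepCut

/-!
The local labelling problem and its solution on measure preserving actions.
-/

open MeasureTheory Set Filter Topology

set_option linter.unusedSectionVars false

namespace Pool.Agent.P.MP_afd974_lc.Sep

/-- The group elements and relations that are used. -/
structure Data (Γ : Type) [Group Γ] where
  ν : Fin 3 → Γ
  s : Fin 3 → Γ
  a : Γ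
  t : Γ
  m : Γ
  hν : Heis ν
  hs : Heis s
  ca : ∀ τ, Commute (ν τ) a
  ct : ∀ τ, Commute (ν τ) t
  cs : ∀ τ σ, Commute (ν τ) (s σ)
  hta : t * a = a * a * t
  hm : m * m = 1
  hm1 : m ≠ 1

/-- Labels. -/
abbrev Lab : Type := (Fin 5 → Bool) × Bool × Bool × Bool × (Fin 3 → ℤ) × (Fin 3 → ℤ)

/-- Bounded labels. -/
def Bd (K : ℤ) (l : Lab) : Prop := (∀ τ, |l.2.2.2.2.1 τ| ≤ K) ∧ ∀ τ, |l.2.2.2.2.2 τ| ≤ K

variable {Γ : Type} [Group Γ]

/-- The elements along which cuts are recorded. -/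
def Data.g (d : Data Γ) : Fin 5 → Γ := ![d.a * d.a, d.m, d.s 0, d.s 1, d.s 2]

/-- Sources. -/
def Src (d : Data Γ) (π : Γ → Lab) : Prop :=
  (∃ i, (π (d.g i)).1 i ≠ (π 1).1 i ∨ (π (d.g i)⁻¹).1 i ≠ (π 1).1 i) ∨
    ∃ τ, (π (d.ν τ)).2.1 ≠ (π 1).2.1

open Classical in
/-- The local rule. -/
def Rule (d : Data Γ) (π : Γ → Lab) : Prop :=
  (∀ i τ, (π (d.ν τ)).1 i = (π 1).1 i) ∧
  (∀ τ, (π (d.a * d.s τ * d.a⁻¹)).2.1 = (π 1).2.1) ∧
  (∑ τ, ((π 1).2.2.2.2.1 τ - (π (d.ν τ)⁻¹).2.2.2.2.1 τ) ≤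
    (if Src d π then 3000000 else 0) - (if (π 1).2.2.1 = true then 1 else 0)) ∧
  (π d.m).2.2.2.1 ≠ (π 1).2.2.2.1 ∧
  ((π 1).2.2.1 = false → ∑ τ, ((π 1).2.2.2.2.2 τ - (π (d.s τ)⁻¹).2.2.2.2.2 τ) ≤
    if (π 1).2.2.2.1 = true then 1 else -1)

variable {X : Type} [m0 : MeasurableSpace X] [MulAction Γ X] {μ : Measure X}
  [IsProbabilityMeasure μ]

theorem ae_inv_fn {T : Type*} [Fintype T] {ν : T → Γ} {f : X → Bool}
    (hf : Measurable[invSigma μ ν] f) (τ : T) : ∀ᵐ x ∂μ, f (ν τ • x) = f x :=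
  ((hf (measurableSet_singleton true)).2 τ).mono fun x hx => by
    simp only [mem_preimage, mem_singleton_iff] at hx
    exact Bool.eq_iff_iff.2 hx

/-- The structure that is found on a measure preserving action. -/
theorem pmp_structure (d : Data Γ) (hμ : ∀ g : Γ, MeasurePreserving (fun x : X => g • x) μ μ) :
    ∃ (c : Fin 5 → X → Bool) (A' Good : Set X), (∀ i, Measurable[invSigma μ d.ν] (c i)) ∧
      MeasurableSet A' ∧ MeasurableSet Good ∧
      (∀ τ, ∀ᵐ x ∂μ, ((d.a * d.s τ * d.a⁻¹) • x ∈ A' ↔ x ∈ A')) ∧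
      (∀ Z, MeasurableSet[invSigma μ d.ν] Z → μ.real (Z ∩ Goodᶜ) ≤ 3000000 * μ.real (Z ∩
        ((⋃ i, Cut (d.g i) (c i)) ∪ ⋃ τ, {x | ¬ (d.ν τ • x ∈ A' ↔ x ∈ A')}))) ∧
      ∀ B, MeasurableSet[invSigma μ d.s] B → ∀ᵐ x ∂μ, (d.m • x ∈ B ∩ Good ↔ x ∈ B ∩ Good) := by
  choose E hE using fun i => exists_isExt hμ d.ν (d.g i)
  choose c hc hcut using fun i => maxcut hμ (hE i)
  obtain ⟨Ea, hEa⟩ := exists_isExt hμ d.ν d.a
  have hrec := ext_recurrence hμ d.ca d.ct d.hta hEa (hE 0)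
  have hX1 : MeasurableSet[invSigma μ d.ν] (E 0 ∪ E 2 ∪ E 3 ∪ E 4)ᶜ :=
    (((((hE 0).inv hμ fun τ => (d.ca τ).mul_right (d.ca τ)).union
      ((hE 2).inv hμ fun τ => d.cs τ 0)).union ((hE 3).inv hμ fun τ => d.cs τ 1)).union
      ((hE 4).inv hμ fun τ => d.cs τ 2)).compl
  set X1 := (E 0 ∪ E 2 ∪ E 3 ∪ E 4)ᶜ with hX1def
  have hNM : ∀ Z, MeasurableSet[invSigma μ d.ν] Z → Z ⊆ X1 → MeasurableSet[invSigma μ d.s] Z := by
    intro Z hZ hsub
    refine ⟨hZ.1, fun τ => ?_⟩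
    fin_cases τ
    · exact (hE 2).fix hμ hZ (ae_of_all _ fun x hx h => hsub hx (Or.inl (Or.inl (Or.inr h))))
    · exact (hE 3).fix hμ hZ (ae_of_all _ fun x hx h => hsub hx (Or.inl (Or.inr h)))
    · exact (hE 4).fix hμ hZ (ae_of_all _ fun x hx h => hsub hx (Or.inr h))
  obtain ⟨A, Z, hA, hZ, hZX, d3, d1, d2, hatom⟩ := big_atom d.ν d.s hX1 hNM
  set A' := {x | d.a⁻¹ • x ∈ A} with hA'def
  have hA' : MeasurableSet A' := meas_pre hμ _ hA.1
  have hAA : ∀ Z', MeasurableSet[invSigma μ d.ν] Z' → Z' ⊆ X1 →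
      μ.real (Z' ∩ A') = μ.real (Z' ∩ A) := by
    intro Z' hZ' hsub
    have h1 := hEa.fix hμ hZ' (hrec.mono fun x hx h h' =>
      hsub h (Or.inl (Or.inl (Or.inl (hx h')))))
    rw [← real_pre hμ d.a (hZ'.1.inter hA')]
    refine real_congr_ae (h1.mono fun x hx => ?_)
    simp only [hA'def, mem_inter_iff, mem_ofPred_eq, inv_smul_smul, hx]
  have hmm : ∀ x : X, d.m • d.m • x = x := fun x => by rw [← mul_smul, d.hm, one_smul]
  have hEm : ∀ x, d.m • x ∈ E 1 ↔ x ∈ E 1 := by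
    obtain ⟨u, -, hu⟩ := (hE 1).1
    intro x
    rw [hu]
    simp only [mem_iUnion, mem_ofPred_eq]
    refine exists_congr fun n => ?_
    have : d.g 1 = d.m := rfl
    rw [this, hmm]
    tauto
  have hZA : MeasurableSet (Z \ A) := hZ.1.diff hA.1
  set Good := ((Z \ A) ∩ {x | d.m • x ∈ Z \ A}) \ E 1 with hGood
  set S := (⋃ i, Cut (d.g i) (c i)) ∪ ⋃ τ, {x | ¬ (d.ν τ • x ∈ A' ↔ x ∈ A')} with hS
  have hEx := expand_of_heis hμ d.hν
  have hb1 : ∀ Z', MeasurableSet[invSigma μ d.ν] Z' →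
      (∀ Z'', MeasurableSet[invSigma μ d.ν] Z'' → Z'' ⊆ Z' → 2 * μ.real (Z'' ∩ A') ≤ μ.real Z'') →
      μ.real (Z' ∩ A') ≤ 480000 * μ.real (Z' ∩ S) := by
    intro Z' hZ' hd
    have h1 := hEx.loc hA' hZ' hd
    have h2 : ∀ τ, μ.real (Z' ∩ {x | ¬ (d.ν τ • x ∈ A' ↔ x ∈ A')}) ≤ μ.real (Z' ∩ S) := fun τ =>
      measureReal_mono (inter_subset_inter_right _ fun x hx => Or.inr (mem_iUnion.2 ⟨τ, hx⟩))
    rw [Fin.sum_univ_three] at h1
    linarith [h2 0, h2 1, h2 2]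
  have hb2 : ∀ Z', MeasurableSet[invSigma μ d.ν] Z' →
      (∀ Z'', MeasurableSet[invSigma μ d.ν] Z'' → Z'' ⊆ Z' → 2 * μ.real (Z'' ∩ A'ᶜ) ≤ μ.real Z'') →
      μ.real (Z' ∩ A'ᶜ) ≤ 480000 * μ.real (Z' ∩ S) := by
    intro Z' hZ' hd
    have h1 := hEx.loc hA'.compl hZ' hd
    have h2 : ∀ τ, μ.real (Z' ∩ {x | ¬ (d.ν τ • x ∈ A'ᶜ ↔ x ∈ A'ᶜ)}) ≤ μ.real (Z' ∩ S) := fun τ =>
      measureReal_mono (inter_subset_inter_right _ fun x hx => Or.inr (mem_iUnion.2 ⟨τ, by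
        simp only [mem_ofPred_eq, mem_compl_iff] at hx ⊢; tauto⟩))
    rw [Fin.sum_univ_three] at h1
    linarith [h2 0, h2 1, h2 2]
  refine ⟨c, A', Good, hc, hA', (hZA.inter (meas_pre hμ _ hZA)).diff ((hE 1).meas hμ),
    fun τ => ?_, fun Z' hZ' => ?_, fun B hB => ?_⟩
  · refine (ae_pre hμ d.a⁻¹ (hA.2 τ)).mono fun x hx => ?_
    simp only [hA'def, mem_ofPred_eq, mul_smul, inv_smul_smul]
    exact hx
  · have p1 : μ.real (Z' ∩ ⋃ i, E i) ≤ 40 * μ.real (Z' ∩ S) := by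
      rw [inter_iUnion]
      refine (measureReal_iUnion_fintype_le _).trans ?_
      have : ∀ i, μ.real (Z' ∩ E i) ≤ 8 * μ.real (Z' ∩ S) := fun i =>
        (hcut i Z' hZ').trans (mul_le_mul_of_nonneg_left (measureReal_mono
          (inter_subset_inter_right _ fun x hx => Or.inl (mem_iUnion.2 ⟨i, hx⟩))) (by norm_num))
      refine (Finset.sum_le_sum fun i _ => this i).trans ?_
      simp only [Finset.sum_const, Finset.card_univ, Fintype.card_fin, nsmul_eq_mul]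
      push_cast; linarith
    have p2 : μ.real (Z' ∩ (X1 \ Z)) ≤ 1920000 * μ.real (Z' ∩ S) := by
      obtain ⟨Z3, hZ3, e1, e2⟩ := dens_split (invSigma_le μ d.ν) μ A'
        (show (0 : ℝ) ≤ 1 / 2 by norm_num)
      have hY : MeasurableSet[invSigma μ d.ν] (Z' ∩ (X1 \ Z)) := hZ'.inter (hX1.diff hZ)
      have a1 := hb1 _ (hY.inter hZ3) fun Z'' hZ'' h => by
        linarith [e1 Z'' hZ'' (h.trans inter_subset_right)]
      have a2 := hb2 _ (hY.diff hZ3) fun Z'' hZ'' h => by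
        have b1 := e2 Z'' hZ'' fun x hx => (h hx).2
        have b2 := measureReal_inter_add_sdiff (μ := μ) (s := Z'') hA'
        rw [Set.sdiff_eq] at b2
        linarith
      have a3 := d2 _ (hY.inter hZ3) fun x hx => hx.1.2
      have a4 := d3 _ (hY.diff hZ3)
      rw [← hAA _ (hY.inter hZ3) fun x hx => hx.1.2.1] at a3
      rw [← hAA _ (hY.diff hZ3) fun x hx => hx.1.2.1] at a4
      have a5 := measureReal_inter_add_sdiff (μ := μ) (s := (Z' ∩ (X1 \ Z)) \ Z3) hA'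
      rw [Set.sdiff_eq _ A'] at a5
      have a6 := measureReal_inter_add_sdiff (μ := μ) (s := Z' ∩ (X1 \ Z)) hZ3.1
      have a7 := measureReal_inter_add_sdiff (μ := μ) (s := Z' ∩ (X1 \ Z) ∩ S) hZ3.1
      rw [inter_right_comm, ← sdiff_inter_right_comm] at a7
      have a8 : μ.real (Z' ∩ (X1 \ Z) ∩ S) ≤ μ.real (Z' ∩ S) :=
        measureReal_mono fun x hx => ⟨hx.1.1, hx.2⟩
      linarith
    have p3 : μ.real (Z' ∩ Z ∩ A) ≤ 480000 * μ.real (Z' ∩ S) := by
      have a1 := hb1 _ (hZ'.inter hZ) fun Z'' hZ'' h => by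
        have b1 := d1 Z'' hZ'' (h.trans inter_subset_right)
        rw [hAA Z'' hZ'' (h.trans (inter_subset_right.trans hZX))]
        have : 0 ≤ μ.real Z'' := measureReal_nonneg
        linarith
      rw [hAA _ (hZ'.inter hZ) (inter_subset_right.trans hZX)] at a1
      have a8 : μ.real (Z' ∩ Z ∩ S) ≤ μ.real (Z' ∩ S) :=
        measureReal_mono fun x hx => ⟨hx.1.1, hx.2⟩
      linarith
    have p4 : μ.real (Z' ∩ Goodᶜ) ≤ μ.real ((((Z' ∩ ⋃ i, E i) ∪ (Z' ∩ (X1 \ Z))) ∪ (Z' ∩ Z ∩ A)) ∪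
        {x | d.m • x ∈ Z' ∩ Z ∩ A}) := by
      refine real_mono_ae (((hE 1).2 _ (hZ'.inter hZ)).mono fun x hx h => ?_)
      by_cases b1 : x ∈ ⋃ i, E i
      · exact Or.inl (Or.inl (Or.inl ⟨h.1, b1⟩))
      simp only [mem_iUnion, not_exists] at b1
      have b2 : x ∈ X1 := by
        simp only [hX1def, mem_compl_iff, mem_union, b1, or_self, not_false_eq_true]
      by_cases b3 : x ∈ Z
      · by_cases b4 : x ∈ A
        · exact Or.inl (Or.inr ⟨⟨h.1, b3⟩, b4⟩)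
        · have b5 : d.m • x ∈ Z' ∩ Z := (hx (b1 1)).2 ⟨h.1, b3⟩
          refine Or.inr ⟨b5, by_contra fun b6 => h.2 ⟨⟨⟨b3, b4⟩, b5.2, b6⟩, b1 1⟩⟩
      · exact Or.inl (Or.inl (Or.inr ⟨h.1, b2, b3⟩))
    have p5 := measureReal_union_le (μ := μ)
      (((Z' ∩ ⋃ i, E i) ∪ (Z' ∩ (X1 \ Z))) ∪ (Z' ∩ Z ∩ A)) {x | d.m • x ∈ Z' ∩ Z ∩ A}
    have p6 := measureReal_union_le (μ := μ) ((Z' ∩ ⋃ i, E i) ∪ (Z' ∩ (X1 \ Z))) (Z' ∩ Z ∩ A)
    have p7 := measureReal_union_le (μ := μ) (Z' ∩ ⋃ i, E i) (Z' ∩ (X1 \ Z))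
    rw [real_pre hμ _ ((hZ'.1.inter hZ.1).inter hA.1)] at p5
    have : 0 ≤ μ.real (Z' ∩ S) := measureReal_nonneg
    linarith
  · obtain ⟨Z1, hZ1, h1⟩ := hatom B hB
    have hG : ∀ x, d.m • x ∈ Good ↔ x ∈ Good := by
      intro x
      simp only [hGood, Set.mem_sdiff, mem_inter_iff, mem_ofPred_eq, hmm, hEm]
      tauto
    filter_upwards [h1, ae_pre hμ d.m h1, (hE 1).2 Z1 hZ1] with x a b c
    simp only [mem_inter_iff, hG]
    refine and_congr_left fun h => ?_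
    rw [a h.1.1, b h.1.2]
    exact c h.2

theorem pmp_solve : ∃ K : ℤ, ∀ {Γ : Type} [Group Γ] (d : Data Γ) (X : Type) [MeasurableSpace X]
    [StandardBorelSpace X] [MulAction Γ X], (∀ (g : Γ) (x : X), g • x = x → g = 1) →
    ∀ (μ : Measure X) [IsProbabilityMeasure μ],
    (∀ g : Γ, MeasurePreserving (fun x : X => g • x) μ μ) →
    ∃ f : X → Lab, Measurable f ∧ (∀ x, Bd K (f x)) ∧ ∀ᵐ x ∂μ, Rule d fun g => f (g • x) := by
  classical
  obtain ⟨K, -, hflow⟩ := flow_exists (κ := 1 / 160000) (by norm_num) 3000000 (by norm_num)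
  refine ⟨K, ?_⟩
  intro Γ _ d X _ _ _ hfree μ _ hμ
  obtain ⟨c, A', Good, hc, hA', hG, hinv, hpay, hbal⟩ := pmp_structure d hμ
  have hcm : ∀ i, Measurable (c i) := fun i => (hc i).mono (invSigma_le μ d.ν) le_rfl
  set S := (⋃ i, Cut (d.g i) (c i)) ∪ ⋃ τ, {x | ¬ (d.ν τ • x ∈ A' ↔ x ∈ A')} with hS
  have hSm : MeasurableSet S := (MeasurableSet.iUnion fun i => meas_Cut hμ _ (hcm i)).union
    (MeasurableSet.iUnion fun τ => meas_bd hμ _ hA')
  let φ : X → ℤ := fun x => (if x ∈ S then 3000000 else 0) - (if x ∈ Goodᶜ then 1 else 0)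
  have hφ : Measurable φ := (Measurable.ite hSm measurable_const measurable_const).sub
    (Measurable.ite hG.compl measurable_const measurable_const)
  have hφR : ∀ x, |φ x| ≤ 3000000 := fun x => by
    simp only [φ]; split_ifs <;> norm_num
  obtain ⟨F, hF, hFK, hFd⟩ := hflow hμ d.ν (expand_of_heis hμ d.hν) hφ hφR (fun Z hZ => by
    have h1 := setIntegral_le_ind (μ := μ) (g := fun x => - (φ x : ℝ)) (measurable_cast hφ).neg
      (C := 3000000) (fun x => by rw [abs_neg]; exact_mod_cast hφR x) hZ.1 hG.compl hSm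
      (a := 1) (b := 3000000) (ae_of_all _ fun x _ => by
        simp only [φ, indicator]; split_ifs <;> norm_num)
    rw [integral_neg] at h1
    linarith [hpay Z hZ])
  have he := measurableEmbedding_embeddingReal X
  have hmm : ∀ x : X, d.m • d.m • x = x := fun x => by rw [← mul_smul, d.hm, one_smul]
  let W : X → Bool := fun x => decide (embeddingReal X x < embeddingReal X (d.m • x))
  have hWs : MeasurableSet {x | embeddingReal X x < embeddingReal X (d.m • x)} :=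
    measurableSet_lt he.measurable (he.measurable.comp (hμ _).measurable)
  have hW : Measurable W := by
    refine measurable_to_bool ?_
    convert hWs using 1
    ext x; simp [W]
  have hWm : ∀ x, W (d.m • x) = !W x := by
    intro x
    have h1 : embeddingReal X x ≠ embeddingReal X (d.m • x) := fun h =>
      d.hm1 (hfree _ _ (he.injective h).symm)
    simp only [W, hmm]
    rcases lt_or_gt_of_ne h1 with h | h
    · simp [h, not_lt.2 h.le]
    · simp [h, not_lt.2 h.le]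
  let ψ : X → ℤ := fun x => if x ∈ Good then (if W x = true then 1 else -1) else 0
  have hψ : Measurable ψ := Measurable.ite hG (Measurable.ite (hW (measurableSet_singleton true))
    measurable_const measurable_const) measurable_const
  have hψR : ∀ x, |ψ x| ≤ 3000000 := fun x => by
    simp only [ψ]; split_ifs <;> norm_num
  obtain ⟨Φ, hΦ, hΦK, hΦd⟩ := hflow hμ d.s (expand_of_heis hμ d.hs) hψ hψR (fun B hB => by
    rw [← integral_indicator hB.1]
    have h1 := integral_pre hμ d.m ((measurable_cast hψ).indicator hB.1)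
    have h2 : ∫ x, B.indicator (fun x => (ψ x : ℝ)) (d.m • x) ∂μ =
        ∫ x, - B.indicator (fun x => (ψ x : ℝ)) x ∂μ := by
      refine integral_congr_ae ((hbal B hB).mono fun x hx => ?_)
      simp only [indicator, ψ, hWm]
      by_cases a : x ∈ B ∩ Good
      · have b := hx.2 a
        rw [if_pos b.1, if_pos b.2, if_pos a.1, if_pos a.2]
        cases W x <;> simp
      · have b := mt hx.1 a
        simp only [mem_inter_iff, not_and] at a b
        by_cases a1 : x ∈ B <;> by_cases b1 : d.m • x ∈ B <;> simp [a1, b1, a, b]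
    rw [integral_neg] at h2
    linarith)
  have hdec : ∀ {B : Set X} [DecidablePred (· ∈ B)], MeasurableSet B →
      Measurable fun x => decide (x ∈ B) := by
    intro B _ hB
    refine measurable_to_bool ?_
    convert hB using 1
    ext x; simp
  refine ⟨fun x => (fun i => c i x, decide (x ∈ A'), decide (x ∈ Goodᶜ), W x, F x, Φ x),
    (measurable_pi_lambda _ hcm).prodMk ((hdec hA').prodMk ((hdec hG.compl).prodMk
      (hW.prodMk (hF.prodMk hΦ)))), fun x => ⟨hFK x, hΦK x⟩, ?_⟩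
  have a1 : ∀ᵐ x ∂μ, ∀ i τ, c i (d.ν τ • x) = c i x :=
    ae_all_iff.2 fun i => ae_all_iff.2 fun τ => ae_inv_fn (hc i) τ
  filter_upwards [a1, ae_all_iff.2 hinv, hFd, hΦd] with x b1 b2 b3 b4
  refine ⟨?_, ?_, ?_, ?_, ?_⟩
  · simpa using b1
  · intro τ; simp only [one_smul, b2 τ]
  · have e : Src d (fun g => (fun i => c i (g • x), decide (g • x ∈ A'), decide (g • x ∈ Goodᶜ),
        W (g • x), F (g • x), Φ (g • x))) ↔ x ∈ S := by
      simp [Src, hS, Cut]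
    simp only [e, one_smul, decide_eq_true_eq]
    exact b3
  · simp [hWm]
  · intro h
    simp only [one_smul, decide_eq_false_iff_not, mem_compl_iff, not_not] at h ⊢
    have : ψ x = if W x = true then 1 else -1 := if_pos h
    rw [← this]
    exact b4

end Pool.Agent.P.MP_afd974_lc.Sep
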