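import Pool.Agent.P.MP_afd974_lc.SepInv
import Pool.Agent.P.MP_afd974_lc.SepPmp

/-!
The flux obstruction and the soundness of the certificates.
-/

open MeasureTheory Set Filter Topology ProbabilityTheory

set_option linter.unusedSectionVars false

namespace Pool.Agent.P.MP_afd974_lc.Sep

theorem exists_setup {κ : Type} [Countable κ] (j0 : κ) (e : κ → κ) (he : ∀ i, e (e i) = i)
    (hj : e j0 = j0) : ∃ c : Setup κ, c.j0 = j0 ∧ c.e = e ∧
      ∀ B ∈ alg (ℕ × κ), ∃ k, 1 ≤ k ∧ c.B k = B := by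
  classical
  obtain ⟨f, hf⟩ := (alg_countable (ι := ℕ × κ)).exists_eq_range
    ⟨∅, isSetAlgebra_generateSetAlgebra.empty_mem⟩
  have hfa : ∀ n, f n ∈ alg (ℕ × κ) := fun n => hf ▸ mem_range_self n
  refine ⟨⟨j0, e, he, hj, fun k => if Dep {i | i.1 < k} (f k.unpair.1) then f k.unpair.1 else ∅,
    fun k => ?_, fun k => ?_⟩, rfl, rfl, fun B hB => ?_⟩
  · split_ifs
    · exact alg_meas (hfa _)
    · exact MeasurableSet.empty
  · split_ifs with h
    · exact h
    · exact fun _ _ _ h => h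
  · obtain ⟨L, hL⟩ := alg_dep hB
    obtain ⟨k, hk⟩ := exists_level L
    rw [hf] at hB
    obtain ⟨n, rfl⟩ := hB
    have h1 := Nat.right_le_pair n (k + 1)
    refine ⟨Nat.pair n (k + 1), by omega, ?_⟩
    simp only [Nat.unpair_pair]
    exact if_pos (hL.mono fun i hi => by have := hk i hi; simp only [mem_ofPred_eq]; omega)

theorem integral_comp_mp {X : Type*} [MeasurableSpace X] {μ : Measure X} {T : X → X}
    (hT : MeasurePreserving T μ μ) {f : X → ℝ} (hf : Measurable f) :
    ∫ x, f (T x) ∂μ = ∫ x, f x ∂μ := by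
  conv_rhs => rw [← hT.map_eq]
  rw [integral_map hT.measurable.aemeasurable hf.aestronglyMeasurable]

/-- The clamped level. -/
def lev (k : ℕ) (v : ℤ) : ℝ := ((max 0 (min v (nn k)) : ℤ) : ℝ)

theorem lev_nonneg (k : ℕ) (v : ℤ) : 0 ≤ lev k v := by
  unfold lev; exact_mod_cast le_max_left _ _

theorem abs_lev_le (k : ℕ) (v : ℤ) : |lev k v| ≤ nn k := by
  rw [abs_of_nonneg (lev_nonneg k v)]
  unfold lev
  exact_mod_cast max_le (Int.natCast_nonneg _) (min_le_right _ _)

theorem lev_of_inR {k : ℕ} {v : ℤ} (h : inR k v) : lev k v = v := by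
  unfold lev
  rw [min_eq_left h.2, max_eq_right h.1]

theorem flux {κ : Type} [Countable κ] (c : Setup κ)
    (hB : ∀ B ∈ alg (ℕ × κ), ∃ k, 1 ≤ k ∧ c.B k = B) (live : Set κ)
    (hl : ∀ i, c.e i ∈ live ↔ i ∈ live) (hj : c.j0 ∈ live) {W : (ℕ × κ → ℤ) → Bool}
    (hW : Measurable W) (hWm : ∀ᵐ x ∂mu live, W (minf c x) ≠ W x)
    (hpos : ∀ k, 0 ≤ ∫ x, lev k (x (k, c.j0)) * (if W x = true then 1 else -1) ∂mu live) :
    False := by
  have hWs : MeasurableSet {x | W x = true} := hW (measurableSet_singleton true)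
  obtain ⟨B, hBa, hBW⟩ := alg_dense (mu live) hWs (show (0 : ℝ) < 1 / 8 by norm_num)
  obtain ⟨k, hk, rfl⟩ := hB B hBa
  have hmp := mp_minf c live hl
  set D := {x | ¬ (x ∈ {x | W x = true} ↔ x ∈ c.B k)} with hD
  have hDm : MeasurableSet D := (MeasurableSet.iff hWs (c.hBm k)).compl
  set φ : (ℕ × κ → ℤ) → ℝ := fun x => if W x = true then 1 else -1 with hφ
  have hφm : Measurable φ := Measurable.ite hWs measurable_const measurable_const
  have hφb : ∀ x, |φ x| ≤ 1 := fun x => by simp only [hφ]; split_ifs <;> simp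
  set u : (ℕ × κ → ℤ) → ℝ := fun x => lev k (x (k, c.j0)) with hu
  have hum : Measurable u := (measurable_of_countable (lev k)).comp (measurable_pi_apply _)
  have hb : ∀ x y, |u x * φ y| ≤ nn k * 1 := fun x y => by
    rw [abs_mul]
    exact mul_le_mul (abs_lev_le _ _) (hφb y) (abs_nonneg _) (Nat.cast_nonneg _)
  have h1 : ∫ x, u (minf c x) * φ (minf c x) ∂mu live = ∫ x, u x * φ x ∂mu live :=
    integral_comp_mp hmp (hum.mul hφm)
  have h2 : ∫ x, u (minf c x) * φ (minf c x) ∂mu live = ∫ x, - (u (minf c x) * φ x) ∂mu live := by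
    refine integral_congr_ae (hWm.mono fun x hx => ?_)
    simp only [hφ]
    cases h : W x <;> simp_all
  have hin : ∀ᵐ x ∂mu live, inR k (x (k, c.j0)) := by
    have a1 : ∀ᵐ v ∂PP live (k, c.j0), inR k v := by
      unfold PP; rw [if_pos hj]; exact unif_ae _
    exact (measurePreserving_eval_infinitePi (PP live) (k, c.j0)).quasiMeasurePreserving.ae a1
  have hBad : MeasurableSet (Late c k ∪ D ∪ minf c ⁻¹' D) :=
    ((meas_Late c k).union hDm).union (hmp.measurable hDm)
  have h3 : ∫ x in univ, (u x * φ x - u (minf c x) * φ x) ∂mu live ≤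
      2 * (mu live).real (univ ∩ (Late c k ∪ D ∪ minf c ⁻¹' D)) -
        1 * (mu live).real (univ ∩ univ) := by
    refine setIntegral_le_ind (g := fun x => u x * φ x - u (minf c x) * φ x)
      ((hum.mul hφm).sub ((hum.comp hmp.measurable).mul hφm)) (C := nn k * 1 + nn k * 1)
      (fun x => (abs_sub _ _).trans (add_le_add (hb _ _) (hb _ _))) MeasurableSet.univ hBad
      MeasurableSet.univ ?_
    filter_upwards [hin, hmp.quasiMeasurePreserving.ae hin, hWm] with x a1 a2 a3 _
    simp only [indicator_univ, Pi.one_apply, hu, lev_of_inR a1, lev_of_inR a2]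
    by_cases b1 : x ∈ Late c k
    · rw [minf_late c b1 le_rfl, 
        indicator_of_mem (show x ∈ Late c k ∪ D ∪ minf c ⁻¹' D from Or.inl (Or.inl b1))]
      simp only [Pi.one_apply]; linarith
    · rw [minf_j0 c b1 a1]
      push_cast
      by_cases b2 : x ∈ Late c k ∪ D ∪ minf c ⁻¹' D
      · rw [indicator_of_mem b2]
        have b3 : |(ph (c.B k) (minf c) x : ℝ)| ≤ 1 := by exact_mod_cast abs_ph_le _ _ _
        have b4 : |(ph (c.B k) (minf c) x : ℝ) * φ x| ≤ 1 * 1 := by
          rw [abs_mul]; exact mul_le_mul b3 (hφb x) (abs_nonneg _) zero_le_one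
        have := abs_le.1 b4
        simp only [Pi.one_apply]; linarith
      · rw [indicator_of_notMem b2]
        simp only [hD, mem_union, mem_preimage, mem_ofPred_eq, not_or, not_not] at b2
        have b3 : (ph (c.B k) (minf c) x : ℝ) * φ x = 1 := by
          unfold ph
          simp only [hφ]
          cases h : W x
          · have c1 : x ∉ c.B k := fun h' => by simpa [h] using b2.1.2.2 h'
            have c2 : minf c x ∈ c.B k := b2.2.1 (by simpa [h] using a3)
            simp [c1, c2]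
          · have c1 : x ∈ c.B k := b2.1.2.1 h
            have c2 : minf c x ∉ c.B k := fun h' => a3 (by rw [b2.2.2 h', h])
            simp [c1, c2]
        linarith
  rw [Measure.restrict_univ, univ_inter, univ_inter, probReal_univ,
    integral_sub (f := fun x => u x * φ x) (g := fun x => u (minf c x) * φ x)
      (integrable_of_bdd (hum.mul hφm) _ fun x => hb x x)
      (integrable_of_bdd ((hum.comp hmp.measurable).mul hφm) _ fun x => hb _ x)] at h3
  rw [integral_neg] at h2
  have h4 := measureReal_union_le (μ := mu live) (Late c k ∪ D) (minf c ⁻¹' D)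
  have h5 := measureReal_union_le (μ := mu live) (Late c k) D
  rw [hmp.measureReal_preimage hDm.nullMeasurableSet] at h4
  have h6 := Late_le c live k
  have h7 : (1 : ℝ) / 2 / 2 ^ k ≤ 1 / 2 / 2 ^ 1 :=
    div_le_div_of_nonneg_left (by norm_num) (by positivity) (pow_le_pow_right₀ (by norm_num) hk)
  have h8 : 0 ≤ ∫ x, u x * φ x ∂mu live := hpos k
  linarith

theorem const_of_erg {X : Type} [MeasurableSpace X] {μ : Measure X} {f : X → Bool}
    (h : (∀ᵐ x ∂μ, x ∈ f ⁻¹' {true}) ∨ ∀ᵐ x ∂μ, x ∉ f ⁻¹' {true}) : ∃ b, ∀ᵐ x ∂μ, f x = b := by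
  rcases h with h | h
  · exact ⟨true, h⟩
  · exact ⟨false, h.mono fun x hx => by simpa using hx⟩

theorem sound {Γ : Type} [Group Γ] (d : Data Γ) {X : Type} [MeasurableSpace X] [MulAction Γ X]
    {μ : Measure X} [IsProbabilityMeasure μ] (H : Subgroup Γ)
    (hμ : ∀ g ∈ H, MeasurePreserving (fun x : X => g • x) μ μ)
    (hν : ∀ τ, d.ν τ ∈ H) (hs : ∀ τ, d.s τ ∈ H) (hg : ∀ i, d.g i ∈ H)
    (e1 : ∀ A, MeasurableSet A → (∀ τ, ∀ᵐ x ∂μ, (d.ν τ • x ∈ A ↔ x ∈ A)) →
      (∀ᵐ x ∂μ, x ∈ A) ∨ ∀ᵐ x ∂μ, x ∉ A)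
    (e2 : ∀ A, MeasurableSet A → (∀ τ, ∀ᵐ x ∂μ, ((d.a * d.s τ * d.a⁻¹) • x ∈ A ↔ x ∈ A)) →
      (∀ᵐ x ∂μ, x ∈ A) ∨ ∀ᵐ x ∂μ, x ∉ A)
    {K : ℤ} {f : X → Lab} (hf : Measurable f) (hK : ∀ x, Bd K (f x))
    (hR : ∀ᵐ x ∂μ, Rule d fun g => f (g • x)) :
    (∀ᵐ x ∂μ, (f (d.m • x)).2.2.2.1 ≠ (f x).2.2.2.1) ∧
    ∀ (u : X → ℝ) (C : ℝ), Measurable u → (∀ x, 0 ≤ u x) → (∀ x, |u x| ≤ C) →
      (∀ τ x, u (d.s τ • x) = u x) →
      0 ≤ ∫ x, u x * (if (f x).2.2.2.1 = true then 1 else -1) ∂μ := by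
  have hμ' : ∀ g : H, MeasurePreserving (fun x : X => g • x) μ μ := fun g => hμ g g.2
  have hc : ∀ i, ∃ b, ∀ᵐ x ∂μ, (f x).1 i = b := fun i =>
    const_of_erg (e1 _ (((measurable_pi_apply i).comp hf.fst) (measurableSet_singleton true))
      fun τ => hR.mono fun x hx => by
        have := hx.1 i τ
        simp only [one_smul] at this
        simp only [mem_preimage, this])
  have hl : ∃ b, ∀ᵐ x ∂μ, (f x).2.1 = b :=
    const_of_erg (e2 _ (hf.snd.fst (measurableSet_singleton true))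
      fun τ => hR.mono fun x hx => by
        have := hx.2.1 τ
        simp only [one_smul] at this
        simp only [mem_preimage, this])
  choose b hb using hc
  obtain ⟨b', hb'⟩ := hl
  have hns : ∀ᵐ x ∂μ, ¬ Src d fun g => f (g • x) := by
    have a1 : ∀ᵐ x ∂μ, ∀ i, (f (d.g i • x)).1 i = b i :=
      ae_all_iff.2 fun i => (hμ _ (hg i)).quasiMeasurePreserving.ae (hb i)
    have a2 : ∀ᵐ x ∂μ, ∀ i, (f ((d.g i)⁻¹ • x)).1 i = b i :=
      ae_all_iff.2 fun i => (hμ _ (H.inv_mem (hg i))).quasiMeasurePreserving.ae (hb i)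
    have a3 : ∀ᵐ x ∂μ, ∀ τ, (f (d.ν τ • x)).2.1 = b' :=
      ae_all_iff.2 fun τ => (hμ _ (hν τ)).quasiMeasurePreserving.ae hb'
    filter_upwards [a1, a2, a3, ae_all_iff.2 hb, hb'] with x c1 c2 c3 c4 c5
    simp [Src, c1, c2, c3, c4, c5]
  have hF : Measurable fun x => (f x).2.2.2.2.1 := hf.snd.snd.snd.snd.fst
  have hΦ : Measurable fun x => (f x).2.2.2.2.2 := hf.snd.snd.snd.snd.snd
  have hDm : MeasurableSet {x | (f x).2.2.1 = true} :=
    hf.snd.snd.fst (measurableSet_singleton true)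
  let ν' : Fin 3 → H := fun τ => ⟨d.ν τ, hν τ⟩
  let s' : Fin 3 → H := fun τ => ⟨d.s τ, hs τ⟩
  have hD : ∀ᵐ x ∂μ, x ∉ {x | (f x).2.2.1 = true} := by
    have h1 := setIntegral_dv_inv hμ' ν' hF (fun x => (hK x).1)
      (@MeasurableSet.univ _ (invSigma μ ν'))
    have h2 := setIntegral_le_ind (μ := μ) (measurable_cast (measurable_dv hμ' ν' hF))
      (C := 2 * K * Fintype.card (Fin 3))
      (fun x => by exact_mod_cast abs_dv_le ν' (fun x => (hK x).1) x) MeasurableSet.univ hDm hDm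
      (a := 0) (b := 1) (by
        filter_upwards [hR, hns] with x a1 a2 _
        have a3 := a1.2.2.1
        rw [if_neg a2] at a3
        simp only [one_smul] at a3
        have a4 : dv ν' (fun x => (f x).2.2.2.2.1) x ≤
            0 - (if (f x).2.2.1 = true then 1 else 0) := a3
        by_cases h : (f x).2.2.1 = true
        · rw [if_pos h] at a4
          rw [indicator_of_mem (show x ∈ {x | (f x).2.2.1 = true} from h)]
          simp only [Pi.one_apply]
          exact_mod_cast a4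
        · rw [if_neg h] at a4
          rw [indicator_of_notMem (show x ∉ {x | (f x).2.2.1 = true} from h)]
          exact_mod_cast a4)
    rw [h1, univ_inter] at h2
    exact ae_not_mem_of_real (by linarith)
  refine ⟨hR.mono fun x hx => by simpa using hx.2.2.2.1, fun u C hu h0 hC hinv => ?_⟩
  have h1 := integral_mul_dv hμ' s' hΦ (fun x => (hK x).2) hu hC
  have h2 : ∀ τ x, u (s' τ • x) = u x := hinv
  simp only [h2, sub_self, zero_mul, integral_zero, Finset.sum_const_zero] at h1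
  rw [← h1]
  refine integral_mono_ae (integrable_of_bdd (hu.mul (measurable_cast (measurable_dv hμ' s' hΦ)))
    (C * (2 * K * Fintype.card (Fin 3))) fun x => ?_)
    (integrable_of_bdd (hu.mul (Measurable.ite (hf.snd.snd.snd.fst (measurableSet_singleton true))
      measurable_const measurable_const)) (C * 1) fun x => ?_) ?_
  · rw [abs_mul]
    exact mul_le_mul (hC x) (by exact_mod_cast abs_dv_le s' (fun x => (hK x).2) x) (abs_nonneg _)
      ((abs_nonneg _).trans (hC x))
  · rw [abs_mul]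
    exact mul_le_mul (hC x) (by split_ifs <;> simp) (abs_nonneg _) ((abs_nonneg _).trans (hC x))
  · filter_upwards [hR, hD] with x a1 a2
    have a3 := a1.2.2.2.2
    simp only [one_smul] at a3
    have a4 : dv s' (fun x => (f x).2.2.2.2.2) x ≤ if (f x).2.2.2.1 = true then 1 else -1 :=
      a3 (by simpa using a2)
    refine mul_le_mul_of_nonneg_left ?_ (h0 x)
    exact_mod_cast a4

end Pool.Agent.P.MP_afd974_lc.Sep
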