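import Pool.Agent.P.MP_afd974_lc.SepTest
import Pool.Agent.P.MP_55663b_lc.Groups

/-!
The concrete group.
-/

open Set Polynomial

set_option linter.unusedSectionVars false

namespace Pool.Agent.P.MP_afd974_lc.Sep

open Pool.Agent.P.MP_55663b_lc

theorem Heis.of_injective {G H : Type*} [Group G] [Group H] {s : Fin 3 → G} (f : G →* H)
    (hf : Function.Injective f) (h : Heis fun i => f (s i)) : Heis s := by
  obtain ⟨a, b, c, h1, h2, h3, h4, h5, h6, h7, h8, h9, h10, h11, h12, h13, h14, h15⟩ := h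
  have ea : f ((s 1 * s 0)⁻¹ * (s 0 * s 1)) = a := by
    simp only [map_mul, map_inv] at h7 ⊢; rw [h7]; group
  have eb : f ((s 2 * s 1)⁻¹ * (s 1 * s 2)) = b := by
    simp only [map_mul, map_inv] at h10 ⊢; rw [h10]; group
  have ec : f ((s 0 * s 2)⁻¹ * (s 2 * s 0)) = c := by
    simp only [map_mul, map_inv] at h13 ⊢; rw [h13]; group
  have p : ∀ g : G, f g ^ 5 = 1 → g ^ 5 = 1 := fun g hg => hf (by rw [map_pow, hg, map_one])
  have q : ∀ g g' : G, Commute (f g) (f g') → Commute g g' := fun g g' hg =>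
    hf (by rw [map_mul, map_mul, hg.eq])
  exact ⟨(s 1 * s 0)⁻¹ * (s 0 * s 1), (s 2 * s 1)⁻¹ * (s 1 * s 2), (s 0 * s 2)⁻¹ * (s 2 * s 0),
    p _ h1, p _ h2, p _ h3, p _ (ea ▸ h4), p _ (eb ▸ h5), p _ (ec ▸ h6), by group,
    q _ _ (ea ▸ h8), q _ _ (ea ▸ h9), by group, q _ _ (eb ▸ h11), q _ _ (eb ▸ h12), by group,
    q _ _ (ec ▸ h14), q _ _ (ec ▸ h15)⟩

/-- The coefficient ring. -/
abbrev RR : Type := Polynomial (ZMod 5)

/-- The ambient permutation group. -/
abbrev KK : Type := Equiv.Perm (RR × RR × RR)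

/-- The three generators. -/
noncomputable def xx : Fin 3 → KK := ![e12 1, e23 1, e31 X]

theorem heis_xx : Heis xx := by
  have h5 : (5 : RR) = 0 := by
    have := CharP.cast_eq_zero RR 5
    exact_mod_cast this
  have p5 : ∀ g : KK, g ^ 5 = g * (g * (g * (g * g))) := fun g => by
    simp only [pow_succ, pow_zero, one_mul, mul_assoc]
  refine ⟨e13 (1 * 1), e21 (1 * X), e32 (X * 1), ?_, ?_, ?_, ?_, ?_, ?_, c123 _ _, ?_, ?_,
    c231 _ _, ?_, ?_, c312 _ _, ?_, ?_⟩
  · rw [p5]
    ext1 v; refine Prod.ext ?_ (Prod.ext ?_ ?_) <;> simp [xx, e12]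
    linear_combination v.2.1 * h5
  · rw [p5]
    ext1 v; refine Prod.ext ?_ (Prod.ext ?_ ?_) <;> simp [xx, e23]
    linear_combination v.2.2 * h5
  · rw [p5]
    ext1 v; refine Prod.ext ?_ (Prod.ext ?_ ?_) <;> simp [xx, e31]
    linear_combination X * v.1 * h5
  · rw [p5]
    ext1 v; refine Prod.ext ?_ (Prod.ext ?_ ?_) <;> simp [e13]
    linear_combination v.2.2 * h5
  · rw [p5]
    ext1 v; refine Prod.ext ?_ (Prod.ext ?_ ?_) <;> simp [e21]
    linear_combination X * v.1 * h5
  · rw [p5]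
    ext1 v; refine Prod.ext ?_ (Prod.ext ?_ ?_) <;> simp [e32]
    linear_combination X * v.2.1 * h5
  · ext1 v; refine Prod.ext ?_ (Prod.ext ?_ ?_) <;> simp [xx, e12, e13]; ring
  · ext1 v; refine Prod.ext ?_ (Prod.ext ?_ ?_) <;> simp [xx, e23, e13]
  · ext1 v; refine Prod.ext ?_ (Prod.ext ?_ ?_) <;> simp [xx, e23, e21]; ring
  · ext1 v; refine Prod.ext ?_ (Prod.ext ?_ ?_) <;> simp [xx, e31, e21]
  · ext1 v; refine Prod.ext ?_ (Prod.ext ?_ ?_) <;> simp [xx, e31, e32]; ring
  · ext1 v; refine Prod.ext ?_ (Prod.ext ?_ ?_) <;> simp [xx, e12, e32]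

theorem inf_xx : (Subgroup.closure (range xx) : Set KK).Infinite := by
  set H := Subgroup.closure (range xx)
  have mx : e12 (1 : RR) ∈ H := Subgroup.subset_closure ⟨0, rfl⟩
  have my : e23 (1 : RR) ∈ H := Subgroup.subset_closure ⟨1, rfl⟩
  have mz : e31 (X : RR) ∈ H := Subgroup.subset_closure ⟨2, rfl⟩
  have hcomm : ∀ {p q r : KK}, p * q = q * p * r → p ∈ H → q ∈ H → r ∈ H := by
    intro p q r h hp hq
    have : r = (q * p)⁻¹ * (p * q) := by rw [h]; group
    rw [this]
    exact H.mul_mem (H.inv_mem (H.mul_mem hq hp)) (H.mul_mem hp hq)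
  have mc := hcomm (c312 (X : RR) 1) mz mx
  have hpow : ∀ j : ℕ, e12 ((X : RR) ^ j) ∈ H := by
    intro j
    induction j with
    | zero => simpa using mx
    | succ j ih =>
      have h1 := hcomm (c123 _ 1) ih my
      have h2 := hcomm (c132 _ _) h1 mc
      simpa [pow_succ] using h2
  refine infinite_of_injective_forall_mem (f := fun j : ℕ => e12 ((X : RR) ^ j)) ?_ hpow
  intro i j h
  have h1 := congrArg (fun g : KK => (g (0, 1, 0)).1) h
  simp only [e12, Equiv.coe_fn_mk, mul_one, zero_add] at h1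
  haveI : Fact (Nat.Prime 5) := ⟨by norm_num⟩
  have h2 := congrArg natDegree h1
  simpa using h2

/-- The wreath product. -/
abbrev Wr : Type := (ℚ → KK) ⋊[mulAutArrow] Equiv.Perm ℚ

theorem arrow_apply (β : Equiv.Perm ℚ) (f : ℚ → KK) (q : ℚ) :
    (mulAutArrow β : MulAut (ℚ → KK)) f q = f (β⁻¹ q) := rfl

/-- The ambient group. -/
abbrev GG : Type := KK × Wr

/-- The copy of the group at a rational position. -/
noncomputable def ιq (q : ℚ) : KK →* GG :=
  (MonoidHom.inr KK Wr).comp (SemidirectProduct.inl.comp (MonoidHom.mulSingle (fun _ => KK) q))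

theorem ιq_apply (q : ℚ) (k : KK) : ιq q k = (1, SemidirectProduct.inl (Pi.mulSingle q k)) := rfl

theorem ιq_inj (q : ℚ) : Function.Injective (ιq q) := by
  intro k k' h
  have := congrArg (fun g : GG => g.2.left q) h
  simpa [ιq_apply] using this

/-- Translation by one. -/
def aa : GG := (1, SemidirectProduct.inr (Equiv.addRight 1))

/-- Multiplication by two. -/
def tt : GG := (1, SemidirectProduct.inr (Equiv.mulLeft₀ 2 two_ne_zero))

theorem aa_conj (k : KK) : aa * ιq 0 k * aa⁻¹ = ιq 1 k := by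
  refine Prod.ext (by simp [aa, ιq_apply]) ?_
  simp only [aa, ιq_apply, Prod.snd_mul, Prod.snd_inv, ← map_inv, ← SemidirectProduct.inl_aut]
  congr 1
  funext q
  rw [arrow_apply]
  by_cases h : q = 1
  · subst h; simp
  · have : q + -1 ≠ 0 := fun e => h (by linarith)
    simp [h, this]

/-- Even integers. -/
def Ev (q : ℚ) : Prop := ∃ n : ℤ, q = 2 * n

/-- Permutations preserving the even integers. -/
def PEv : Subgroup (Equiv.Perm ℚ) where
  carrier := {β | ∀ q, Ev (β q) ↔ Ev q}
  one_mem' := fun _ => Iff.rfl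
  mul_mem' := fun {a b} ha hb q => (ha (b q)).trans (hb q)
  inv_mem' := fun {a} ha q => by
    have := ha (a⁻¹ q)
    rw [Equiv.Perm.coe_inv, Equiv.apply_symm_apply] at this
    exact this.symm

/-- The generating set. -/
def gens : Set GG := range (fun τ => MonoidHom.inl KK Wr (xx τ)) ∪ range (fun τ => ιq 0 (xx τ)) ∪
  {aa, tt}

instance : Finite gens := (((finite_range _).union (finite_range _)).union (toFinite _)).to_subtype

/-- The group. -/
abbrev G0 : Type := Subgroup.closure gens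

instance : Countable G0 := by
  obtain ⟨α, _, φ, hφ⟩ := Group.fg_iff_exists_freeGroup_hom_surjective_finite.1
    (inferInstance : Group.FG G0)
  exact hφ.countable

theorem clos_facts (ι : KK →* GG) (hι : Function.Injective ι) (s : Fin 3 → G0)
    (hs : ∀ τ, (s τ).1 = ι (xx τ)) :
    (Subgroup.closure (range s) : Set G0).Infinite ∧
      ∀ g ∈ Subgroup.closure (range s), ∃ k, g.1 = ι k := by
  have e : (Subgroup.closure (range s)).map (Subgroup.closure gens).subtype =
      (Subgroup.closure (range xx)).map ι := by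
    rw [MonoidHom.map_closure, MonoidHom.map_closure, ← range_comp, ← range_comp]
    congr 2
    exact funext hs
  constructor
  · refine Infinite.of_image (Subgroup.closure gens).subtype ?_
    rw [← Subgroup.coe_map, e, Subgroup.coe_map]
    exact inf_xx.image hι.injOn
  · intro g hg
    have : g.1 ∈ (Subgroup.closure (range xx)).map ι := e ▸ Subgroup.mem_map_of_mem _ hg
    obtain ⟨k, -, hk⟩ := this
    exact ⟨k, hk.symm⟩

/-- The data for the concrete group. -/
noncomputable def data0 : Data0 G0 where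
  ν τ := ⟨MonoidHom.inl KK Wr (xx τ), Subgroup.subset_closure (Or.inl (Or.inl ⟨τ, rfl⟩))⟩
  s τ := ⟨ιq 0 (xx τ), Subgroup.subset_closure (Or.inl (Or.inr ⟨τ, rfl⟩))⟩
  a := ⟨aa, Subgroup.subset_closure (Or.inr (Or.inl rfl))⟩
  t := ⟨tt, Subgroup.subset_closure (Or.inr (Or.inr rfl))⟩
  hν := Heis.of_injective (Subgroup.closure gens).subtype Subtype.val_injective
    (heis_xx.map (MonoidHom.inl KK Wr))
  hs := Heis.of_injective (Subgroup.closure gens).subtype Subtype.val_injective
    (heis_xx.map (ιq 0))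
  ca τ := Subtype.ext (by simp [aa])
  ct τ := Subtype.ext (by simp [tt])
  cs τ σ := Subtype.ext (by simp [ιq_apply])
  hta := Subtype.ext (by
    refine Prod.ext (by simp [aa, tt]) ?_
    simp only [aa, tt, Subgroup.coe_mul, Prod.snd_mul, ← map_mul]
    congr 1
    ext q
    simp
    ring)
  M := (ιq 0).range.comap (Subgroup.closure gens).subtype
  H := PEv.comap ((SemidirectProduct.rightHom.comp (MonoidHom.snd KK Wr)).comp
    (Subgroup.closure gens).subtype)
  sM τ := ⟨xx τ, rfl⟩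
  νH τ := fun _ => Iff.rfl
  sH τ := fun _ => Iff.rfl
  aH := by
    intro q
    show Ev (q + 1 + 1) ↔ Ev q
    constructor
    · rintro ⟨n, hn⟩; exact ⟨n - 1, by push_cast; linarith⟩
    · rintro ⟨n, hn⟩; exact ⟨n + 1, by push_cast; linarith⟩
  s'H τ := by
    intro q
    show Ev (q + -1 + 1) ↔ Ev q
    simp
  free1 g hg h _ hM := by
    obtain ⟨k, hk⟩ := (clos_facts (MonoidHom.inl KK Wr) (fun _ _ e => (Prod.mk.inj e).1) _
      fun τ => rfl).2 g hg
    obtain ⟨k', hk'⟩ := hM
    have h1 := congrArg Prod.fst hk'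
    simp only [ιq_apply, Subgroup.coe_subtype, Subgroup.coe_mul, Subgroup.coe_inv, hk,
      Prod.fst_mul, Prod.fst_inv, MonoidHom.inl_apply] at h1
    have h2 : k = 1 := by
      have := h1.symm
      rwa [mul_assoc, inv_mul_eq_one, eq_comm, mul_eq_right] at this
    exact Subtype.ext (by rw [hk, h2, map_one]; rfl)
  free2 g hg h hh hM := by
    obtain ⟨k, hk⟩ := (clos_facts (ιq 1) (ιq_inj 1) _ fun τ => aa_conj _).2 g hg
    obtain ⟨k', hk'⟩ := hM
    have h0 : h.1 * ιq 0 k' = ιq 1 k * h.1 := by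
      rw [hk', ← hk]; simp [mul_assoc]
    have h1 := congrArg (fun g : GG => g.2.left 1) h0
    have hne : (h.1.2.right)⁻¹ 1 ≠ 0 := by
      intro e
      have := hh ((h.1.2.right)⁻¹ 1)
      have h3 : Ev (h.1.2.right ((h.1.2.right)⁻¹ 1)) := this.2 (by rw [e]; exact ⟨0, by simp⟩)
      rw [Equiv.Perm.coe_inv, Equiv.apply_symm_apply] at h3
      obtain ⟨n, hn⟩ := h3
      have : (1 : ℤ) = 2 * n := by exact_mod_cast hn
      omega
    have h2 : k = 1 := by
      simp only [ιq_apply, Prod.snd_mul, SemidirectProduct.mul_left, SemidirectProduct.left_inl,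
        Pi.mul_apply, arrow_apply, SemidirectProduct.right_inl, inv_one, Equiv.Perm.coe_one, id,
        Pi.mulSingle_eq_same, Pi.mulSingle_eq_of_ne hne, mul_one] at h1
      exact mul_eq_right.1 h1.symm
    exact Subtype.ext (by rw [hk, h2, map_one]; rfl)
  inf1 := (clos_facts (MonoidHom.inl KK Wr) (fun _ _ e => (Prod.mk.inj e).1) _ fun τ => rfl).1
  inf2 := (clos_facts (ιq 1) (ιq_inj 1) _ fun τ => aa_conj _).1

theorem fg_coprod : Group.FG (Monoid.Coprod G0 ℤˣ) := by
  obtain ⟨S, hS, hfin⟩ := Group.fg_iff.1 (inferInstance : Group.FG G0)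
  refine Group.fg_iff.2 ⟨Monoid.Coprod.inl '' S ∪ range Monoid.Coprod.inr, ?_,
    (hfin.image _).union (finite_range _)⟩
  rw [Subgroup.closure_union, ← MonoidHom.map_closure, hS, ← MonoidHom.range_eq_map,
    ← MonoidHom.coe_range, Subgroup.closure_eq, Monoid.Coprod.range_inl_sup_range_inr]

end Pool.Agent.P.MP_afd974_lc.Sep
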