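import Pool.Agent.P.MP_afd974_lc.SepProd

/-!
Construction of a measure preserving involution that shifts levels.
-/

open MeasureTheory Set Filter Topology ProbabilityTheory

set_option linter.unusedSectionVars false

namespace Pool.Agent.P.MP_afd974_lc.Sep

/-- The number of levels at a stage. -/
def nn (k : ℕ) : ℕ := 2 ^ (k + 3)

/-- Admissible levels. -/
def inR (k : ℕ) (l : ℤ) : Prop := 0 ≤ l ∧ l ≤ nn k

open Classical in
/-- The one dimensional marginals. -/
noncomputable def PP {κ : Type} (live : Set κ) (i : ℕ × κ) : Measure ℤ :=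
  if i.2 ∈ live then unif (nn i.1) else Measure.dirac (-1)

instance {κ : Type} (live : Set κ) (i : ℕ × κ) : IsProbabilityMeasure (PP live i) := by
  unfold PP; split_ifs <;> infer_instance

/-- The product measure. -/
noncomputable def mu {κ : Type} (live : Set κ) : Measure (ℕ × κ → ℤ) :=
  Measure.infinitePi (PP live)

instance {κ : Type} (live : Set κ) : IsProbabilityMeasure (mu live) := by
  unfold mu; infer_instance

/-- The data of the construction. -/
structure Setup (κ : Type) where
  j0 : κ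
  e : κ → κ
  he : ∀ i, e (e i) = i
  hj : e j0 = j0
  B : ℕ → Set (ℕ × κ → ℤ)
  hBm : ∀ k, MeasurableSet (B k)
  hBd : ∀ k, Dep {i | i.1 < k} (B k)

variable {κ : Type} [Countable κ] (c : Setup κ)

/-- The antisymmetric cocycle. -/
noncomputable def ph (B : Set (ℕ × κ → ℤ)) (T : (ℕ × κ → ℤ) → ℕ × κ → ℤ) (x : ℕ × κ → ℤ) : ℤ :=
  B.indicator 1 x - B.indicator 1 (T x)

/-- Freezing. -/
def fz (k : ℕ) (T : (ℕ × κ → ℤ) → ℕ × κ → ℤ) (x : ℕ × κ → ℤ) : Prop :=
  inR k (x (k, c.j0)) ∧ ¬ inR k (x (k, c.j0) + ph (c.B k) T x)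

open Classical in
/-- The new level. -/
noncomputable def nl (k : ℕ) (T : (ℕ × κ → ℤ) → ℕ × κ → ℤ) (x : ℕ × κ → ℤ) : ℤ :=
  if inR k (x (k, c.j0)) then x (k, c.j0) + ph (c.B k) T x else x (k, c.j0)

open Classical in
/-- One step of the construction. -/
noncomputable def step (k : ℕ) (T : (ℕ × κ → ℤ) → ℕ × κ → ℤ) (x : ℕ × κ → ℤ) : ℕ × κ → ℤ :=
  if fz c k T x then x else fun i =>
    if i = (k, c.j0) then nl c k T x else if i.1 = k then x (k, c.e i.2) else T x i

/-- The approximating involutions. -/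
noncomputable def mm : ℕ → (ℕ × κ → ℤ) → ℕ × κ → ℤ
  | 0 => id
  | k + 1 => step c k (mm k)

/-- The properties of the approximating involutions. -/
structure GoodT (k : ℕ) (T : (ℕ × κ → ℤ) → ℕ × κ → ℤ) : Prop where
  meas : Measurable T
  high : ∀ x i, k ≤ i.1 → T x i = x i
  dep : ∀ x y, (∀ i, i.1 < k → x i = y i) → ∀ i, i.1 < k → T x i = T y i
  inv : ∀ x, T (T x) = x
  mp : ∀ live : Set κ, (∀ i, c.e i ∈ live ↔ i ∈ live) → MeasurePreserving T (mu live) (mu live)

theorem ind_congr {B : Set (ℕ × κ → ℤ)} {x y : ℕ × κ → ℤ} (h : x ∈ B ↔ y ∈ B) :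
    B.indicator (1 : (ℕ × κ → ℤ) → ℤ) x = B.indicator 1 y := by
  by_cases hx : x ∈ B
  · simp [hx, h.1 hx]
  · simp [hx, mt h.2 hx]

theorem abs_ph_le (B : Set (ℕ × κ → ℤ)) (T : (ℕ × κ → ℤ) → ℕ × κ → ℤ) (x : ℕ × κ → ℤ) :
    |ph B T x| ≤ 1 := by
  unfold ph
  by_cases h1 : x ∈ B <;> by_cases h2 : T x ∈ B <;> simp [h1, h2]

variable {c}

theorem GoodT.ph_congr {k : ℕ} {T : (ℕ × κ → ℤ) → ℕ × κ → ℤ} (h : GoodT c k T)
    {x y : ℕ × κ → ℤ} (hxy : ∀ i, i.1 < k → x i = y i) : ph (c.B k) T x = ph (c.B k) T y := by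
  unfold ph
  rw [ind_congr ((c.hBd k).iff hxy), ind_congr ((c.hBd k).iff (h.dep x y hxy))]

theorem GoodT.ph_neg {k : ℕ} {T : (ℕ × κ → ℤ) → ℕ × κ → ℤ} (h : GoodT c k T)
    {x y : ℕ × κ → ℤ} (hxy : ∀ i, i.1 < k → y i = T x i) :
    ph (c.B k) T y = - ph (c.B k) T x := by
  rw [h.ph_congr hxy]
  unfold ph
  rw [h.inv]; ring

theorem GoodT.meas_ph {k : ℕ} {T : (ℕ × κ → ℤ) → ℕ × κ → ℤ} (h : GoodT c k T) :
    Measurable (ph (c.B k) T) :=
  (measurable_one.indicator (c.hBm k)).sub ((measurable_one.indicator (c.hBm k)).comp h.meas)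

theorem GoodT.meas_fz {k : ℕ} {T : (ℕ × κ → ℤ) → ℕ × κ → ℤ} (h : GoodT c k T) :
    MeasurableSet {x | fz c k T x} :=
  ((measurable_pi_apply (k, c.j0)).prodMk h.meas_ph)
    (Set.to_countable {p : ℤ × ℤ | inR k p.1 ∧ ¬ inR k (p.1 + p.2)}).measurableSet

theorem GoodT.meas_nl {k : ℕ} {T : (ℕ × κ → ℤ) → ℕ × κ → ℤ} (h : GoodT c k T) :
    Measurable (nl c k T) := by
  classical
  exact (measurable_of_countable fun p : ℤ × ℤ => if inR k p.1 then p.1 + p.2 else p.1).comp
    ((measurable_pi_apply (k, c.j0)).prodMk h.meas_ph)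

theorem step_fz {k : ℕ} {T : (ℕ × κ → ℤ) → ℕ × κ → ℤ} {x : ℕ × κ → ℤ} (h : fz c k T x) :
    step c k T x = x := if_pos h

theorem step_ne {k : ℕ} {T : (ℕ × κ → ℤ) → ℕ × κ → ℤ} {x : ℕ × κ → ℤ} (h : ¬ fz c k T x)
    {i : ℕ × κ} (hi : i.1 ≠ k) : step c k T x i = T x i := by
  have : i ≠ (k, c.j0) := fun e => hi (by rw [e])
  simp only [step, if_neg h, if_neg this, if_neg hi]

theorem step_j0 {k : ℕ} {T : (ℕ × κ → ℤ) → ℕ × κ → ℤ} {x : ℕ × κ → ℤ} (h : ¬ fz c k T x) :
    step c k T x (k, c.j0) = nl c k T x := by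
  simp only [step, if_neg h, if_true]

theorem step_e {k : ℕ} {T : (ℕ × κ → ℤ) → ℕ × κ → ℤ} {x : ℕ × κ → ℤ} (h : ¬ fz c k T x)
    {j : κ} (hj : j ≠ c.j0) : step c k T x (k, j) = x (k, c.e j) := by
  have : (k, j) ≠ (k, c.j0) := fun e => hj (Prod.mk.inj e).2
  simp only [step, if_neg h, if_neg this, if_true]

theorem GoodT.fz_congr {k : ℕ} {T : (ℕ × κ → ℤ) → ℕ × κ → ℤ} (h : GoodT c k T)
    {x y : ℕ × κ → ℤ} (hxy : ∀ i, i.1 < k + 1 → x i = y i) : fz c k T x ↔ fz c k T y := by
  unfold fz
  rw [h.ph_congr fun i hi => hxy i (by omega), hxy (k, c.j0) (Nat.lt_succ_self k)]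

theorem GoodT.not_fz_step {k : ℕ} {T : (ℕ × κ → ℤ) → ℕ × κ → ℤ} (h : GoodT c k T)
    {x : ℕ × κ → ℤ} (hx : ¬ fz c k T x) :
    ¬ fz c k T (step c k T x) ∧ nl c k T (step c k T x) = x (k, c.j0) := by
  have e1 : ph (c.B k) T (step c k T x) = - ph (c.B k) T x :=
    h.ph_neg fun i hi => step_ne hx (by omega)
  unfold fz nl
  rw [e1, step_j0 hx]
  unfold fz at hx
  unfold nl
  by_cases h1 : inR k (x (k, c.j0))
  · have h2 : inR k (x (k, c.j0) + ph (c.B k) T x) := by_contra fun h2 => hx ⟨h1, h2⟩
    simp [h1, h2]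
  · simp [h1]

theorem GoodT.step {k : ℕ} {T : (ℕ × κ → ℤ) → ℕ × κ → ℤ} (h : GoodT c k T) :
    GoodT c (k + 1) (step c k T) := by
  classical
  have hej : ∀ j, j ≠ c.j0 → c.e j ≠ c.j0 := fun j hj e => hj (by rw [← c.he j, e, c.hj])
  have hmeas : Measurable (Sep.step c k T) := by
    refine Measurable.ite h.meas_fz measurable_id (measurable_pi_lambda _ fun i => ?_)
    by_cases h1 : i = (k, c.j0)
    · simpa [h1] using h.meas_nl
    · by_cases h2 : i.1 = k
      · simpa [h1, h2] using measurable_pi_apply _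
      · simp only [if_neg h1, if_neg h2]
        exact (measurable_pi_apply i).comp h.meas
  have hinv : ∀ x, Sep.step c k T (Sep.step c k T x) = x := by
    intro x
    by_cases hx : fz c k T x
    · rw [step_fz hx, step_fz hx]
    · obtain ⟨h1, h2⟩ := h.not_fz_step hx
      funext i
      obtain ⟨a, j⟩ := i
      rcases lt_trichotomy a k with ha | ha | ha
      · rw [step_ne h1 (by simp; omega), h.dep _ (T x) (fun i hi => step_ne hx (by omega)) _ ha,
          h.inv]
      · subst ha
        by_cases hj : j = c.j0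
        · rw [hj, step_j0 h1, h2]
        · rw [step_e h1 hj, step_e hx (hej j hj), c.he]
      · rw [step_ne h1 (by simp; omega), h.high _ _ ha.le, step_ne hx (by simp; omega),
          h.high _ _ ha.le]
  refine ⟨hmeas, fun x i hi => ?_, fun x y hxy i hi => ?_, hinv, fun live hl => ?_⟩
  · by_cases hx : fz c k T x
    · rw [step_fz hx]
    · rw [step_ne hx (by omega), h.high _ _ (by omega)]
  · by_cases hx : fz c k T x
    · rw [step_fz hx, step_fz ((h.fz_congr hxy).1 hx), hxy i hi]
    · have hy := mt (h.fz_congr hxy).2 hx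
      obtain ⟨a, j⟩ := i
      rcases Nat.lt_succ_iff_lt_or_eq.1 hi with ha | ha
      · rw [step_ne hx ha.ne, step_ne hy ha.ne]
        exact h.dep x y (fun i hi => hxy i (by omega)) _ ha
      · simp only at ha
        subst ha
        by_cases hj : j = c.j0
        · rw [hj, step_j0 hx, step_j0 hy]
          unfold nl
          rw [h.ph_congr fun i hi => hxy i (by omega), hxy (a, c.j0) (Nat.lt_succ_self a)]
        · rw [step_e hx hj, step_e hy hj, hxy _ (Nat.lt_succ_self a)]
  · refine mp_of_pieces (ι := Bool × ℤ × ℤ) hmeas hinv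
      (p := fun x => (decide (fz c k T x), x (k, c.j0), nl c k T x)) ?_ ?_
    · refine Measurable.prodMk ?_ ((measurable_pi_apply _).prodMk h.meas_nl)
      refine measurable_to_bool ?_
      convert h.meas_fz using 1
      ext x; simp
    · rintro ⟨b, l, l'⟩ ⟨x0, hx0⟩
      simp only [Prod.mk.injEq] at hx0
      cases b with
      | true =>
        refine ⟨id, MeasurePreserving.id _, fun x hx => ?_⟩
        simp only [Prod.mk.injEq, decide_eq_true_eq] at hx
        exact step_fz hx.1
      | false =>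
        have hPP : PP live (k, c.j0) {l} = PP live (k, c.j0) {l'} := by
          obtain ⟨a1, a2, a3⟩ := hx0
          simp only [decide_eq_false_iff_not] at a1
          unfold nl at a3
          unfold fz at a1
          rw [a2] at a1 a3
          by_cases h1 : inR k l
          · have h2 : inR k l' := by
              rw [if_pos h1] at a3
              rw [← a3]
              exact by_contra fun h2 => a1 ⟨h1, h2⟩
            unfold PP
            split_ifs
            · rw [unif_single, unif_single, if_pos (show 0 ≤ l ∧ l ≤ nn k from h1),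
                if_pos (show 0 ≤ l' ∧ l' ≤ nn k from h2)]
            · have b1 : (-1 : ℤ) ≠ l := by have := h1.1; omega
              have b2 : (-1 : ℤ) ≠ l' := by have := h2.1; omega
              simp [b1, b2]
          · rw [if_neg h1] at a3; rw [a3]
        let f : ℕ × κ → ℤ → ℤ := fun i v => if i = (k, c.j0) then Equiv.swap l l' v else v
        have m1 : MeasurePreserving (fun (x : ℕ × κ → ℤ) i => f i (x i)) (mu live) (mu live) := by
          refine ⟨measurable_pi_lambda _ fun i =>
            (measurable_of_countable (f i)).comp (measurable_pi_apply i), ?_⟩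
          unfold mu
          rw [Measure.infinitePi_map_pi _ fun i => measurable_of_countable (f i)]
          congr 1
          funext i
          by_cases hi : i = (k, c.j0)
          · subst hi
            have : f (k, c.j0) = Equiv.swap l l' := by funext v; simp [f]
            rw [this, swap_mp _ hPP]
          · have : f i = id := by funext v; simp [f, hi]
            rw [this, Measure.map_id]
        let β : ℕ × κ → ℕ × κ := fun i => if i.1 = k then (i.1, c.e i.2) else i
        have hβ : Function.Injective β := by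
          refine Function.LeftInverse.injective (g := β) fun i => ?_
          by_cases hi : i.1 = k
          · simp only [β, if_pos hi, c.he]
          · simp [β, hi]
        have m2 : MeasurePreserving (fun (x : ℕ × κ → ℤ) i => x (β i)) (mu live) (mu live) := by
          have := mp_reindex (PP live) hβ
          have e : (fun i => PP live (β i)) = PP live := by
            funext i
            by_cases hi : i.1 = k
            · simp only [β, if_pos hi, PP, hl]
            · simp only [β, if_neg hi]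
          rw [e] at this
          exact this
        refine ⟨_, (h.mp live hl).comp (m2.comp m1), fun x hx => ?_⟩
        simp only [Prod.mk.injEq, decide_eq_false_iff_not] at hx
        obtain ⟨a1, a2, a3⟩ := hx
        funext i
        obtain ⟨a, j⟩ := i
        simp only [Function.comp_apply]
        rcases lt_trichotomy a k with ha | ha | ha
        · rw [step_ne a1 ha.ne]
          refine h.dep _ _ (fun i hi => ?_) _ ha
          have : i ≠ (k, c.j0) := fun e => by rw [e] at hi; exact lt_irrefl _ hi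
          simp [β, hi.ne, f, this]
        · subst ha
          rw [h.high _ _ le_rfl]
          by_cases hj : j = c.j0
          · rw [hj, step_j0 a1, a3]
            simp [β, f, c.hj, a2]
          · rw [step_e a1 hj]
            simp [β, f, hej j hj]
        · rw [step_ne a1 ha.ne', h.high _ _ ha.le, h.high _ _ ha.le]
          simp [β, f, ha.ne']

variable (c)

theorem good_mm (k : ℕ) : GoodT c k (mm c k) := by
  induction k with
  | zero =>
    exact ⟨measurable_id, fun _ _ _ => rfl, fun _ _ _ _ hi => absurd hi (Nat.not_lt_zero _),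
      fun _ => rfl, fun _ _ => MeasurePreserving.id _⟩
  | succ k ih => exact ih.step

/-- Freezing at a stage. -/
def Fr (k : ℕ) (x : ℕ × κ → ℤ) : Prop := fz c k (mm c k) x

/-- Freezing at some late stage. -/
def Late (k : ℕ) : Set (ℕ × κ → ℤ) := {x | ∃ K, k ≤ K ∧ Fr c K x}

open Classical in
/-- The limit involution. -/
noncomputable def minf (x : ℕ × κ → ℤ) : ℕ × κ → ℤ := fun i =>
  if x ∈ Late c i.1 then x i else mm c (i.1 + 1) x i

theorem meas_Late (k : ℕ) : MeasurableSet (Late c k) := by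
  have : Late c k = ⋃ K, ⋃ (_ : k ≤ K), {x | fz c K (mm c K) x} := by
    ext x; simp [Late, Fr]
  rw [this]
  exact MeasurableSet.iUnion fun K => MeasurableSet.iUnion fun _ => (good_mm c K).meas_fz

theorem meas_minf : Measurable (minf c) := by
  classical
  exact measurable_pi_lambda _ fun i => Measurable.ite (meas_Late c _) (measurable_pi_apply i)
    ((measurable_pi_apply i).comp (good_mm c (i.1 + 1)).meas)

theorem minf_late {k : ℕ} {x : ℕ × κ → ℤ} (h : x ∈ Late c k) {i : ℕ × κ} (hi : i.1 ≤ k) :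
    minf c x i = x i := by
  obtain ⟨K, hK, h⟩ := h
  exact if_pos ⟨K, hi.trans hK, h⟩

theorem minf_not_late {k : ℕ} {x : ℕ × κ → ℤ} (h : x ∉ Late c k) {i : ℕ × κ} (hi : i.1 < k) :
    minf c x i = mm c k x i := by
  induction k with
  | zero => exact absurd hi (Nat.not_lt_zero _)
  | succ k ih =>
    by_cases hf : Fr c k x
    · rw [minf_late c ⟨k, le_rfl, hf⟩ (by omega)]
      exact (congrFun (step_fz hf) i).symm
    · have h' : x ∉ Late c k := by
        rintro ⟨K, hK, hx⟩
        rcases hK.eq_or_lt with e | e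
        · exact hf (e ▸ hx)
        · exact h ⟨K, e, hx⟩
      rcases Nat.lt_succ_iff_lt_or_eq.1 hi with ha | ha
      · rw [ih h' ha]
        exact (step_ne hf ha.ne).symm
      · subst ha
        exact if_neg h'

theorem Late_anti {k k' : ℕ} (h : k ≤ k') : Late c k' ⊆ Late c k :=
  fun _ ⟨K, hK, hx⟩ => ⟨K, h.trans hK, hx⟩

theorem Fr_minf (K : ℕ) (x : ℕ × κ → ℤ) : Fr c K (minf c x) ↔ Fr c K x := by
  by_cases h : x ∈ Late c K
  · exact (good_mm c K).fz_congr fun i hi => minf_late c h (by omega)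
  · have h1 : ¬ Fr c K x := fun hf => h ⟨K, le_rfl, hf⟩
    have h2 : x ∉ Late c (K + 1) := fun hl => h (Late_anti c (Nat.le_succ K) hl)
    have h3 := ((good_mm c K).not_fz_step h1).1
    have h4 : Fr c K (minf c x) ↔ Fr c K (mm c (K + 1) x) :=
      (good_mm c K).fz_congr fun i hi => minf_not_late c h2 hi
    exact ⟨fun a => absurd (h4.1 a) h3, fun a => absurd a h1⟩

theorem minf_minf (x : ℕ × κ → ℤ) : minf c (minf c x) = x := by
  funext i
  have hl : ∀ k, minf c x ∈ Late c k ↔ x ∈ Late c k := fun k => by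
    simp only [Late, mem_ofPred_eq, Fr_minf]
  by_cases h : x ∈ Late c i.1
  · rw [minf_late c ((hl _).2 h) le_rfl, minf_late c h le_rfl]
  · have h2 : x ∉ Late c (i.1 + 1) := fun hl => h (Late_anti c (Nat.le_succ _) hl)
    rw [minf_not_late c (mt (hl _).1 h2) (Nat.lt_succ_self _),
      (good_mm c _).dep _ (mm c (i.1 + 1) x) (fun j hj => minf_not_late c h2 hj) i
        (Nat.lt_succ_self _), (good_mm c _).inv]

theorem Fr_le (live : Set κ) (K : ℕ) : (mu live).real {x | Fr c K x} ≤ 1 / 2 / 2 ^ (K + 1) := by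
  have h1 : {x | Fr c K x} ⊆ (fun x : ℕ × κ → ℤ => x (K, c.j0)) ⁻¹' ({0} ∪ {(nn K : ℤ)}) := by
    intro x hx
    obtain ⟨a, b⟩ := hx
    have := abs_le.1 (abs_ph_le (c.B K) (mm c K) x)
    unfold inR at a b
    simp only [mem_preimage, mem_union, mem_singleton_iff]
    omega
  refine (measureReal_mono h1).trans ?_
  have h2 := (measurePreserving_eval_infinitePi (PP live) (K, c.j0)).measureReal_preimage
    (s := {0} ∪ {(nn K : ℤ)}) (Set.to_countable _).measurableSet.nullMeasurableSet
  refine (le_of_eq h2).trans ((measureReal_union_le _ _).trans ?_)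
  have h3 : ∀ v : ℤ, 0 ≤ v → (PP live (K, c.j0)).real {v} ≤ 1 / 2 / 2 ^ (K + 2) := by
    intro v hv
    unfold PP
    split_ifs
    · refine (unif_single_le _ _).trans ?_
      rw [nn, div_div]
      refine one_div_le_one_div_of_le (by positivity) ?_
      push_cast
      rw [pow_succ 2 (K + 2)]; linarith
    · have : (-1 : ℤ) ≠ v := by omega
      simp only [Measure.real, Measure.dirac_apply, indicator_of_notMem (mt mem_singleton_iff.1 this),
        ENNReal.toReal_zero]
      positivity
  have a1 := h3 0 le_rfl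
  have a2 := h3 (nn K) (Int.natCast_nonneg _)
  have e : (1 : ℝ) / 2 / 2 ^ (K + 1) = 1 / 2 / 2 ^ (K + 2) + 1 / 2 / 2 ^ (K + 2) := by
    field_simp; ring
  linarith

theorem Late_le (live : Set κ) (k : ℕ) : (mu live).real (Late c k) ≤ 1 / 2 / 2 ^ k := by
  have h1 : Late c k ⊆ ⋃ N : ℕ, {x | ∃ j < N, Fr c (k + j) x} := by
    rintro x ⟨K, hK, hx⟩
    obtain ⟨j, rfl⟩ := Nat.exists_eq_add_of_le hK
    exact mem_iUnion.2 ⟨j + 1, j, Nat.lt_succ_self j, hx⟩
  refine (measureReal_mono h1).trans (real_iUnion_le_of_mono ?_ fun N => ?_)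
  · intro a b hab x hx
    obtain ⟨j, hj, hx⟩ := hx
    exact ⟨j, lt_of_lt_of_le hj hab, hx⟩
  · have : (mu live).real {x | ∃ j < N, Fr c (k + j) x} ≤ 1 / 2 / 2 ^ k - 1 / 2 / 2 ^ (k + N) := by
      induction N with
      | zero => simp
      | succ N ih =>
        have h2 : {x | ∃ j < N + 1, Fr c (k + j) x} ⊆
            {x | ∃ j < N, Fr c (k + j) x} ∪ {x | Fr c (k + N) x} := by
          rintro x ⟨j, hj, hx⟩
          rcases Nat.lt_succ_iff_lt_or_eq.1 hj with h | h
          · exact Or.inl ⟨j, h, hx⟩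
          · subst h; exact Or.inr hx
        have h3 := (measureReal_mono h2).trans (measureReal_union_le (μ := mu live) _ _)
        have h4 := Fr_le c live (k + N)
        have e : (1 : ℝ) / 2 / 2 ^ (k + N) =
            1 / 2 / 2 ^ (k + N + 1) + 1 / 2 / 2 ^ (k + N + 1) := by
          field_simp; ring
        rw [← add_assoc]
        linarith
    have h5 : (0 : ℝ) ≤ 1 / 2 / 2 ^ (k + N) := by positivity
    linarith

theorem exists_level (L : Finset (ℕ × κ)) : ∃ k, ∀ i ∈ L, i.1 < k :=
  ⟨L.sup Prod.fst + 1, fun _ hi => Nat.lt_succ_of_le (Finset.le_sup (f := Prod.fst) hi)⟩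

theorem mp_minf (live : Set κ) (hl : ∀ i, c.e i ∈ live ↔ i ∈ live) :
    MeasurePreserving (minf c) (mu live) (mu live) := by
  have key : ∀ B ∈ alg (ℕ × κ), (mu live).real (minf c ⁻¹' B) ≤ (mu live).real B := by
    intro B hB
    obtain ⟨L, hL⟩ := alg_dep hB
    obtain ⟨k, hk⟩ := exists_level L
    have h1 : ∀ N, (mu live).real (minf c ⁻¹' B) ≤ (mu live).real B + 1 / 2 / 2 ^ (k + N) := by
      intro N
      have h2 : minf c ⁻¹' B ⊆ mm c (k + N) ⁻¹' B ∪ Late c (k + N) := by
        intro x hx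
        by_cases h : x ∈ Late c (k + N)
        · exact Or.inr h
        · exact Or.inl (hL _ _ (fun i hi => minf_not_late c h
            (lt_of_lt_of_le (hk i hi) (Nat.le_add_right _ _))) hx)
      have h3 := (measureReal_mono h2).trans (measureReal_union_le (μ := mu live) _ _)
      rw [((good_mm c _).mp live hl).measureReal_preimage (alg_meas hB).nullMeasurableSet] at h3
      linarith [Late_le c live (k + N)]
    refine le_of_forall_pos_le_add fun ε hε => ?_
    obtain ⟨N, hN⟩ := exists_pow_lt_of_lt_one hε (show (1 / 2 : ℝ) < 1 by norm_num)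
    have h4 : (1 : ℝ) / 2 / 2 ^ (k + N) ≤ (1 / 2) ^ N := by
      rw [one_div_pow, div_div]
      refine one_div_le_one_div_of_le (by positivity) ?_
      rw [pow_add]
      have : (1 : ℝ) ≤ 2 ^ k := one_le_pow₀ (by norm_num)
      have : (0 : ℝ) < 2 ^ N := by positivity
      nlinarith
    linarith [h1 N]
  refine ⟨meas_minf c, ?_⟩
  haveI : IsProbabilityMeasure ((mu live).map (minf c)) :=
    Measure.isProbabilityMeasure_map (meas_minf c).aemeasurable
  refine ext_alg fun B hB => ?_
  rw [Measure.map_apply (meas_minf c) (alg_meas hB)]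
  have h1 := key B hB
  have h2 := key Bᶜ (isSetAlgebra_generateSetAlgebra.compl_mem hB)
  have h3 := measureReal_add_measureReal_compl (μ := mu live) (alg_meas hB)
  have h4 := measureReal_add_measureReal_compl (μ := mu live) (meas_minf c (alg_meas hB))
  rw [← preimage_compl] at h4
  exact (measureReal_eq_measureReal_iff).1 (by linarith)

theorem minf_e {k : ℕ} {x : ℕ × κ → ℤ} (h : x ∉ Late c k) {j : κ} (hj : j ≠ c.j0) :
    minf c x (k, j) = x (k, c.e j) := by
  rw [minf_not_late c (fun hl => h (Late_anti c (Nat.le_succ k) hl)) (Nat.lt_succ_self k)]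
  exact step_e (fun hf => h ⟨k, le_rfl, hf⟩) hj

theorem minf_j0 {k : ℕ} {x : ℕ × κ → ℤ} (h : x ∉ Late c k) (hx : inR k (x (k, c.j0))) :
    minf c x (k, c.j0) = x (k, c.j0) + ph (c.B k) (minf c) x := by
  rw [minf_not_late c (fun hl => h (Late_anti c (Nat.le_succ k) hl)) (Nat.lt_succ_self k)]
  refine (step_j0 (fun hf => h ⟨k, le_rfl, hf⟩)).trans ?_
  unfold nl ph
  rw [if_pos hx, ind_congr ((c.hBd k).iff (x := mm c k x) (y := minf c x)
    fun i hi => (minf_not_late c h hi).symm)]

end Pool.Agent.P.MP_afd974_lc.Sep
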