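import Pool.Agent.P.MP_afd974_lc.SepBase

/-!
Tools for product spaces: cylinder algebra, ergodicity, piecewise measure preserving involutions.
-/

open MeasureTheory Set Filter Topology ProbabilityTheory

set_option linter.unusedSectionVars false

namespace Pool.Agent.P.MP_afd974_lc.Sep

section piece

variable {X : Type*} [MeasurableSpace X] {μ : Measure X}

theorem mp_of_pieces {ι : Type*} [Countable ι] [MeasurableSpace ι] [MeasurableSingletonClass ι]
    {T : X → X} (hT : Measurable T) (hinv : ∀ x, T (T x) = x) {p : X → ι} (hp : Measurable p)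
    (h : ∀ i, (∃ x, p x = i) → ∃ S : X → X, MeasurePreserving S μ μ ∧ ∀ x, p x = i → T x = S x) :
    MeasurePreserving T μ μ := by
  have hsum : ∀ {q : X → ι}, Measurable q → ∀ {A : Set X}, MeasurableSet A →
      μ A = ∑' i, μ (A ∩ q ⁻¹' {i}) := by
    intro q hq A hA
    rw [← measure_iUnion]
    · congr 1; ext x; simp
    · intro i j hij
      exact disjoint_left.2 fun x a b => hij ((mem_singleton_iff.1 a.2).symm.trans b.2)
    · exact fun i => hA.inter (hq (measurableSet_singleton i))
  have hle : ∀ {A : Set X}, MeasurableSet A → μ (T ⁻¹' A) ≤ μ A := by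
    intro A hA
    rw [hsum hp (hT hA), hsum (hp.comp hT) hA]
    refine ENNReal.tsum_le_tsum fun i => ?_
    by_cases hi : ∃ x, p x = i
    · obtain ⟨S, hS, hST⟩ := h i hi
      rw [← hS.measure_preimage
        (hA.inter ((hp.comp hT) (measurableSet_singleton i))).nullMeasurableSet]
      refine measure_mono fun x hx => ?_
      have e : T x = S x := hST x hx.2
      simp only [mem_preimage, mem_inter_iff, Function.comp_apply, ← e, hinv]
      exact hx
    · have : T ⁻¹' A ∩ p ⁻¹' {i} = ∅ := eq_empty_of_forall_notMem fun x hx => hi ⟨x, hx.2⟩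
      rw [this, measure_empty]; exact zero_le
  refine ⟨hT, Measure.ext fun A hA => ?_⟩
  rw [Measure.map_apply hT hA]
  refine le_antisymm (hle hA) ?_
  have := hle (hT hA)
  rwa [← preimage_comp, show T ∘ T = id from funext hinv, preimage_id] at this

end piece

section prod

variable {ι : Type} [Countable ι]

/-- Membership in `B` depends only on the coordinates in `L`. -/
def Dep (L : Set ι) (B : Set (ι → ℤ)) : Prop :=
  ∀ x y : ι → ℤ, (∀ i ∈ L, x i = y i) → x ∈ B → y ∈ B

theorem Dep.iff {L : Set ι} {B : Set (ι → ℤ)} (h : Dep L B) {x y : ι → ℤ}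
    (hxy : ∀ i ∈ L, x i = y i) : x ∈ B ↔ y ∈ B :=
  ⟨h x y hxy, h y x fun i hi => (hxy i hi).symm⟩

theorem Dep.mono {L L' : Set ι} {B : Set (ι → ℤ)} (h : Dep L B) (hL : L ⊆ L') : Dep L' B :=
  fun x y hxy => h x y fun i hi => hxy i (hL hi)

/-- The countable algebra of cylinder sets. -/
def alg (ι : Type) : Set (Set (ι → ℤ)) :=
  generateSetAlgebra (range fun p : ι × ℤ => {x : ι → ℤ | x p.1 = p.2})

theorem alg_countable : (alg ι).Countable := countable_generateSetAlgebra (countable_range _)

theorem alg_gen : (MeasurableSpace.pi : MeasurableSpace (ι → ℤ)) =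
    MeasurableSpace.generateFrom (alg ι) := by
  rw [alg, generateFrom_generateSetAlgebra_eq]
  apply le_antisymm
  · refine iSup_le fun i => ?_
    rw [← measurable_iff_comap_le]
    refine @measurable_to_countable' _ _ _ _ (MeasurableSpace.generateFrom _) _ fun v => ?_
    exact MeasurableSpace.measurableSet_generateFrom ⟨(i, v), rfl⟩
  · refine MeasurableSpace.generateFrom_le ?_
    rintro _ ⟨p, rfl⟩
    exact measurableSet_eq_fun (measurable_pi_apply p.1) measurable_const

theorem alg_meas {B : Set (ι → ℤ)} (h : B ∈ alg ι) : MeasurableSet B := by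
  rw [alg_gen]; exact MeasurableSpace.measurableSet_generateFrom h

theorem alg_dep {B : Set (ι → ℤ)} (h : B ∈ alg ι) : ∃ L : Finset ι, Dep (L : Set ι) B := by
  classical
  induction h with
  | base s hs =>
    obtain ⟨p, rfl⟩ := hs
    exact ⟨{p.1}, fun x y hxy hx => by
      simp only [mem_ofPred_eq] at hx ⊢; rw [← hxy p.1 (by simp), hx]⟩
  | empty => exact ⟨∅, fun _ _ _ h => h⟩
  | compl s _ ih =>
    obtain ⟨L, hL⟩ := ih
    exact ⟨L, fun x y hxy hx hy => hx ((hL.iff hxy).2 hy)⟩
  | union s t _ _ ih1 ih2 =>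
    obtain ⟨L, hL⟩ := ih1
    obtain ⟨L', hL'⟩ := ih2
    refine ⟨L ∪ L', fun x y hxy hx => ?_⟩
    rcases hx with hx | hx
    · exact Or.inl (hL x y (fun i hi => hxy i (by simp [Finset.mem_coe.1 hi])) hx)
    · exact Or.inr (hL' x y (fun i hi => hxy i (by simp [Finset.mem_coe.1 hi])) hx)

theorem alg_dense (μ : Measure (ι → ℤ)) [IsFiniteMeasure μ] {W : Set (ι → ℤ)}
    (hW : MeasurableSet W) {ε : ℝ} (hε : 0 < ε) :
    ∃ B ∈ alg ι, μ.real {x | ¬ (x ∈ W ↔ x ∈ B)} < ε := by
  obtain ⟨B, hB, h⟩ := (Measure.MeasureDense.of_generateFrom_isSetAlgebra_finite μ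
    isSetAlgebra_generateSetAlgebra alg_gen).approx W hW (measure_ne_top _ _) ε hε
  refine ⟨B, hB, ?_⟩
  have e : {x | ¬ (x ∈ W ↔ x ∈ B)} = symmDiff W B := by
    ext x; simp only [mem_ofPred_eq, mem_symmDiff]; tauto
  rw [e]
  exact ENNReal.toReal_lt_of_lt_ofReal h

theorem ext_alg {μ ν : Measure (ι → ℤ)} [IsProbabilityMeasure μ] [IsProbabilityMeasure ν]
    (h : ∀ B ∈ alg ι, μ B = ν B) : μ = ν :=
  ext_of_generate_finite (alg ι) alg_gen
    (fun _ hs _ ht _ => isSetAlgebra_generateSetAlgebra.inter_mem hs ht) h (by simp)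

theorem dep_indep (P : ι → Measure ℤ) [∀ i, IsProbabilityMeasure (P i)] {L L' : Finset ι}
    (hd : Disjoint L L') {B B' : Set (ι → ℤ)} (hB : Dep (L : Set ι) B)
    (hB' : Dep (L' : Set ι) B') :
    (Measure.infinitePi P).real (B ∩ B') =
      (Measure.infinitePi P).real B * (Measure.infinitePi P).real B' := by
  have h := (iIndepFun_infinitePi (P := P) (X := fun _ ω => ω)
    (fun _ => measurable_id)).indepFun_finset L L' hd (fun i => measurable_pi_apply i)
  have e : ∀ {L : Finset ι} {B : Set (ι → ℤ)}, Dep (L : Set ι) B →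
      B = (fun (a : ι → ℤ) (i : L) => a i) ⁻¹' ((fun (a : ι → ℤ) (i : L) => a i) '' B) := by
    intro L B hB
    ext x
    refine ⟨fun hx => ⟨x, hx, rfl⟩, ?_⟩
    rintro ⟨y, hy, hxy⟩
    exact hB y x (fun i hi => congrFun hxy ⟨i, hi⟩) hy
  have := h.measure_inter_preimage_eq_mul ((fun (a : ι → ℤ) (i : L) => a i) '' B)
    ((fun (a : ι → ℤ) (i : L') => a i) '' B') (Set.to_countable _).measurableSet
    (Set.to_countable _).measurableSet
  rw [← e hB, ← e hB'] at this
  simp only [Measure.real, this, ENNReal.toReal_mul]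

theorem mp_reindex (P : ι → Measure ℤ) [∀ i, IsProbabilityMeasure (P i)] {β : ι → ι}
    (hβ : Function.Injective β) :
    MeasurePreserving (fun (x : ι → ℤ) i => x (β i)) (Measure.infinitePi P)
      (Measure.infinitePi fun i => P (β i)) :=
  ⟨by fun_prop, Measure.map_infinitePi_infinitePi_of_inj hβ⟩

/-- Ergodicity of generalised shifts with deterministic coordinates. -/
theorem ergodic_shift (P : ι → Measure ℤ) [∀ i, IsProbabilityMeasure (P i)] (Lv : Set ι)
    (hdead : ∀ i, i ∉ Lv → P i = Measure.dirac (-1)) {G : Type} (β : G → ι → ι)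
    (hβ : ∀ g, Function.Injective (β g)) (hP : ∀ g i, P (β g i) = P i)
    (hsep : ∀ L : Finset ι, ∃ g, ∀ i ∈ L, i ∈ Lv → β g i ∉ L)
    {A : Set (ι → ℤ)} (hA : MeasurableSet A)
    (hinv : ∀ g, ∀ᵐ x ∂Measure.infinitePi P, ((fun i => x (β g i)) ∈ A ↔ x ∈ A)) :
    (∀ᵐ x ∂Measure.infinitePi P, x ∈ A) ∨ ∀ᵐ x ∂Measure.infinitePi P, x ∉ A := by
  classical
  set μ := Measure.infinitePi P with hμ
  have hmp : ∀ g, MeasurePreserving (fun (x : ι → ℤ) i => x (β g i)) μ μ := fun g => by
    have := mp_reindex P (hβ g)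
    simp only [hP] at this
    exact this
  have hr : ∀ᵐ x ∂μ, (fun i => if i ∈ Lv then x i else -1) = x := by
    have : ∀ᵐ x ∂μ, ∀ i, i ∉ Lv → x i = -1 := by
      refine ae_all_iff.2 fun i => ?_
      by_cases hi : i ∈ Lv
      · simp [hi]
      · have h1 : ∀ᵐ v ∂P i, v = -1 := by rw [hdead i hi]; simp
        exact ((measurePreserving_eval_infinitePi P i).quasiMeasurePreserving.ae h1).mono
          fun x hx _ => hx
    refine this.mono fun x hx => funext fun i => ?_
    by_cases hi : i ∈ Lv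
    · simp [hi]
    · simp [hi, hx i hi]
  have key : ∀ ε > 0, μ.real A ≤ μ.real A * μ.real A + 5 * ε := by
    intro ε hε
    obtain ⟨B, hB, hAB⟩ := alg_dense μ hA (lt_min hε one_pos)
    obtain ⟨L, hL⟩ := alg_dep hB
    obtain ⟨g, hg⟩ := hsep L
    let B1 : Set (ι → ℤ) := {x | (fun i => if i ∈ Lv then x i else -1) ∈ B}
    have hB1 : Dep (L.filter (· ∈ Lv) : Finset ι) B1 := fun x y hxy hx =>
      hL _ _ (fun i hi => by
        by_cases h : i ∈ Lv
        · simp only [h, if_true]; exact hxy i (by simp [Finset.mem_coe.1 hi, h])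
        · simp [h]) hx
    have hB1m : MeasurableSet B1 := by
      refine (measurable_pi_lambda _ fun i => ?_ : Measurable fun (x : ι → ℤ) i =>
        if i ∈ Lv then x i else -1) (alg_meas hB)
      by_cases h : i ∈ Lv
      · simpa [h] using measurable_pi_apply i
      · simp [h]
    let B2 : Set (ι → ℤ) := {x | (fun i => x (β g i)) ∈ B1}
    have hB2 : Dep ((L.filter (· ∈ Lv)).image (β g) : Finset ι) B2 := fun x y hxy hx =>
      hB1 _ _ (fun i hi => hxy _ (by
        simp only [Finset.coe_image]; exact mem_image_of_mem _ hi)) hx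
    have h1 := dep_indep P (L := L.filter (· ∈ Lv)) (L' := (L.filter (· ∈ Lv)).image (β g))
      (Finset.disjoint_left.2 fun i hi hi' => by
        obtain ⟨j, hj, rfl⟩ := Finset.mem_image.1 hi'
        exact hg j (Finset.mem_filter.1 hj).1 (Finset.mem_filter.1 hj).2
          (Finset.mem_filter.1 hi).1) hB1 hB2
    rw [← hμ] at h1
    have h2 : μ.real B2 = μ.real B1 := (hmp g).measureReal_preimage hB1m.nullMeasurableSet
    set D := {x | ¬ (x ∈ A ↔ x ∈ B1)} with hD
    have hDm : MeasurableSet D := (MeasurableSet.iff hA hB1m).compl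
    have h3 : μ.real D < min ε 1 := by
      refine lt_of_eq_of_lt (real_congr_ae (hr.mono fun x hx => ?_)) hAB
      simp only [hD, B1, mem_ofPred_eq, hx]
    have h4 : μ.real {x | (fun i => x (β g i)) ∈ D} = μ.real D :=
      (hmp g).measureReal_preimage hDm.nullMeasurableSet
    have h5 : μ.real A ≤ μ.real (((B1 ∩ B2) ∪ D) ∪ {x | (fun i => x (β g i)) ∈ D}) := by
      refine real_mono_ae ((hinv g).mono fun x hx hxA => ?_)
      by_contra hc
      simp only [mem_union, not_or, hD, mem_ofPred_eq, not_not, mem_inter_iff] at hc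
      exact hc.1.1 ⟨hc.1.2.1 hxA, hc.2.1 (hx.2 hxA)⟩
    have h6 := measureReal_union_le (μ := μ) ((B1 ∩ B2) ∪ D) {x | (fun i => x (β g i)) ∈ D}
    have h7 := measureReal_union_le (μ := μ) (B1 ∩ B2) D
    have h8 : μ.real B1 ≤ μ.real A + μ.real D := by
      refine le_trans (measureReal_mono fun x hx => ?_) (measureReal_union_le _ _)
      by_cases h : x ∈ A
      · exact Or.inl h
      · exact Or.inr fun h' => h (h'.2 hx)
    have h9 : μ.real A ≤ 1 := measureReal_le_one
    have h10 : 0 ≤ μ.real B1 := measureReal_nonneg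
    have h11 : 0 ≤ μ.real D := measureReal_nonneg
    have h12 : 0 ≤ μ.real A := measureReal_nonneg
    have h13 := min_le_left ε 1
    have h14 := min_le_right ε 1
    have h15 := mul_le_mul h8 h8 h10 (by linarith)
    rw [h2] at h1
    nlinarith
  have h1 : μ.real A ≤ μ.real A * μ.real A :=
    le_of_forall_pos_le_add fun ε hε => by linarith [key (ε / 5) (by linarith)]
  by_cases h0 : μ.real A ≤ 0
  · exact Or.inr (ae_not_mem_of_real h0)
  · left
    have h2 : 1 ≤ μ.real A := by
      push Not at h0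
      nlinarith
    have h3 := measureReal_add_measureReal_compl (μ := μ) hA
    rw [probReal_univ] at h3
    exact (ae_not_mem_of_real (A := Aᶜ) (by linarith)).mono fun x hx => not_not.1 hx

end prod

/-- The uniform measure on the integers from `0` to `n`. -/
noncomputable def unif (n : ℕ) : Measure ℤ := uniformOn (Finset.Icc (0 : ℤ) n : Set ℤ)

instance (n : ℕ) : IsProbabilityMeasure (unif n) :=
  isProbabilityMeasure_uniformOn (Finset.finite_toSet _) ⟨0, by simp⟩

theorem unif_single (n : ℕ) (v : ℤ) :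
    unif n {v} = if 0 ≤ v ∧ v ≤ n then 1 / ((n : ENNReal) + 1) else 0 := by
  rw [unif, ← Finset.coe_singleton, uniformOn_apply_finset]
  have : (Finset.Icc (0 : ℤ) n).card = n + 1 := by simp
  rw [this]
  by_cases h : 0 ≤ v ∧ v ≤ n
  · rw [if_pos h, Finset.inter_singleton_of_mem (Finset.mem_Icc.2 h)]; simp
  · rw [if_neg h, Finset.inter_singleton_of_notMem (fun c => h (Finset.mem_Icc.1 c))]; simp

theorem unif_single_le (n : ℕ) (v : ℤ) : (unif n).real {v} ≤ 1 / ((n : ℝ) + 1) := by
  rw [Measure.real, unif_single]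
  split_ifs
  · rw [ENNReal.toReal_div, ENNReal.toReal_add (by simp) (by simp)]; simp
  · simp only [ENNReal.toReal_zero]; positivity

theorem unif_ae (n : ℕ) : ∀ᵐ (v : ℤ) ∂unif n, 0 ≤ v ∧ v ≤ (n : ℤ) := by
  rw [ae_iff_of_countable]
  intro v hv
  by_contra h
  rw [unif_single, if_neg h] at hv
  exact hv rfl

theorem swap_mp (ν : Measure ℤ) {l l' : ℤ} (h : ν {l} = ν {l'}) : ν.map (Equiv.swap l l') = ν := by
  refine Measure.ext_of_singleton fun v => ?_
  rw [Measure.map_apply (measurable_of_countable _) (measurableSet_singleton v)]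
  have : Equiv.swap l l' ⁻¹' {v} = {Equiv.swap l l' v} := by
    ext w; simp [Equiv.swap_apply_eq_iff]
  rw [this, Equiv.swap_apply_def]
  split_ifs with h1 h2
  · rw [h1, h]
  · rw [h2, h]
  · rfl

theorem diag_le (n : ℕ) : ((unif n).prod (unif n)).real {p | p.1 = p.2} ≤ 1 / ((n : ℝ) + 1) := by
  have hm : MeasurableSet {p : ℤ × ℤ | p.1 = p.2} := (Set.to_countable _).measurableSet
  have h1 : (unif n).prod (unif n) {p | p.1 = p.2} ≤ 1 / ((n : ENNReal) + 1) := by
    rw [Measure.prod_apply hm]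
    refine le_trans (lintegral_mono (g := fun _ => 1 / ((n : ENNReal) + 1)) fun v => ?_) (by simp)
    have : Prod.mk v ⁻¹' {p : ℤ × ℤ | p.1 = p.2} = {v} := by ext w; simp [eq_comm]
    simp only [this, unif_single]
    split_ifs
    · exact le_rfl
    · exact zero_le
  have h2 := ENNReal.toReal_mono (by simp) h1
  rw [ENNReal.toReal_div, ENNReal.toReal_add (by simp) (by simp)] at h2
  simpa [Measure.real] using h2

end Pool.Agent.P.MP_afd974_lc.Sep
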