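import Pool.Agent.P.MP_afd974_lc.SepFlux

/-!
The test action on which the local problem has no measurable solution.
-/

open MeasureTheory Set Filter Topology ProbabilityTheory Monoid

set_option linter.unusedSectionVars false

namespace Pool.Agent.P.MP_afd974_lc.Sep

theorem restrict_free {Γ : Type} [Group Γ] [Countable Γ] {Ω : Type} [MeasurableSpace Ω]
    [StandardBorelSpace Ω] [MulAction Γ Ω] (hm : ∀ g : Γ, Measurable fun x : Ω => g • x)
    (μ : Measure Ω) [IsProbabilityMeasure μ] (hfree : ∀ᵐ x ∂μ, ∀ g : Γ, g • x = x → g = 1)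
    {L : Type} [MeasurableSpace L] (P : L → Prop) (R : (Γ → L) → Prop)
    (h : ∀ f : Ω → L, Measurable f → (∀ x, P (f x)) → ¬ ∀ᵐ x ∂μ, R fun g => f (g • x)) :
    ∃ (X : Type) (_ : MeasurableSpace X) (_ : StandardBorelSpace X) (_ : MulAction Γ X),
      (∀ g : Γ, Measurable fun x : X => g • x) ∧ (∀ (g : Γ) (x : X), g • x = x → g = 1) ∧
      ∃ ν : Measure X, IsProbabilityMeasure ν ∧
        ∀ f : X → L, Measurable f → (∀ x, P (f x)) → ¬ ∀ᵐ x ∂ν, R fun g => f (g • x) := by
  classical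
  let F : Set Ω := {x | ∀ g : Γ, g • x = x → g = 1}
  have hF : MeasurableSet F := by
    have : F = ⋂ g : Γ, ⋂ (_ : g ≠ 1), {x : Ω | g • x = x}ᶜ := by
      ext x
      simp only [F, mem_ofPred_eq, mem_iInter, mem_compl_iff]
      exact forall_congr' fun g =>
        ⟨fun h h1 h2 => h1 (h h2), fun h h2 => by_contra fun h1 => h h1 h2⟩
    rw [this]
    exact MeasurableSet.iInter fun g => MeasurableSet.iInter fun _ =>
      (measurableSet_eq_fun (hm g) measurable_id).compl
  have hinv : ∀ (g : Γ) x, x ∈ F → g • x ∈ F := by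
    intro g x hx k hk
    have h1 : (g⁻¹ * k * g) • x = x := by rw [mul_smul, mul_smul, hk, inv_smul_smul]
    have h2 := hx _ h1
    rw [mul_assoc, inv_mul_eq_one] at h2
    simpa using h2.symm
  let act : MulAction Γ F :=
    { smul := fun g x => ⟨g • x.1, hinv g x.1 x.2⟩
      one_smul := fun x => Subtype.ext (one_smul Γ x.1)
      mul_smul := fun g h x => Subtype.ext (mul_smul g h x.1) }
  have emb := MeasurableEmbedding.subtype_coe hF
  have hmap : (μ.comap (Subtype.val : F → Ω)).map Subtype.val = μ := by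
    rw [emb.map_comap, Subtype.range_coe]
    exact Measure.restrict_eq_self_of_ae_mem hfree
  refine ⟨F, inferInstance, hF.standardBorel, act,
    fun g => ((hm g).comp measurable_subtype_coe).subtype_mk,
    fun g x hx => x.2 g (congrArg Subtype.val hx), μ.comap Subtype.val, ⟨?_⟩,
    fun f hf hP hR => ?_⟩
  · have := congrArg (fun m : Measure Ω => m univ) hmap
    simp only [measure_univ] at this
    rwa [emb.map_apply, preimage_univ] at this
  · obtain ⟨x0, hx0⟩ := hfree.exists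
    refine h (fun x => if hx : x ∈ F then f ⟨x, hx⟩ else f ⟨x0, hx0⟩)
      (Measurable.dite hf measurable_const hF) (fun x => by split_ifs <;> exact hP _) ?_
    rw [← hmap, emb.ae_map_iff]
    filter_upwards [hR] with x hx
    convert hx using 2 with g
    exact dif_pos (hinv g x.1 x.2)

/-- The data in the group before the involution is added. -/
structure Data0 (G : Type) [Group G] where
  ν : Fin 3 → G
  s : Fin 3 → G
  a : G
  t : G
  hν : Heis ν
  hs : Heis s
  ca : ∀ τ, Commute (ν τ) a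
  ct : ∀ τ, Commute (ν τ) t
  cs : ∀ τ σ, Commute (ν τ) (s σ)
  hta : t * a = a * a * t
  M : Subgroup G
  H : Subgroup G
  sM : ∀ τ, s τ ∈ M
  νH : ∀ τ, ν τ ∈ H
  sH : ∀ τ, s τ ∈ H
  aH : a * a ∈ H
  s'H : ∀ τ, a * s τ * a⁻¹ ∈ H
  free1 : ∀ g ∈ Subgroup.closure (range ν), ∀ h ∈ H, h⁻¹ * g * h ∈ M → g = 1
  free2 : ∀ g ∈ Subgroup.closure (range fun τ => a * s τ * a⁻¹), ∀ h ∈ H, h⁻¹ * g * h ∈ M → g = 1
  inf1 : (Subgroup.closure (range ν) : Set G).Infinite
  inf2 : (Subgroup.closure (range fun τ => a * s τ * a⁻¹) : Set G).Infinite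

variable {G : Type} [Group G] (d : Data0 G)

/-- The data in the free product with the group of order two. -/
def Data0.data : Data (Coprod G ℤˣ) where
  ν τ := Coprod.inl (d.ν τ)
  s τ := Coprod.inl (d.s τ)
  a := Coprod.inl d.a
  t := Coprod.inl d.t
  m := Coprod.inr (-1)
  hν := d.hν.map _
  hs := d.hs.map _
  ca τ := (d.ca τ).map _
  ct τ := (d.ct τ).map _
  cs τ σ := (d.cs τ σ).map _
  hta := by simp only [← map_mul, d.hta]
  hm := by rw [← map_mul]; simp
  hm1 h := by
    have := Coprod.inr_injective (h.trans (map_one _).symm)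
    exact absurd this (by decide)

/-- The index set. -/
abbrev Data0.κ : Type := Coprod G ℤˣ ⊕ (G ⧸ d.M)

/-- The action on the index set. -/
def Data0.β (γ : G) : d.κ → d.κ := Sum.map (fun g => Coprod.inl γ * g) (fun j => γ • j)

theorem Data0.β_mul (γ γ' : G) (i : d.κ) : d.β (γ * γ') i = d.β γ (d.β γ' i) := by
  cases i <;> simp [Data0.β, mul_assoc, mul_smul]

theorem Data0.β_one (i : d.κ) : d.β 1 i = i := by
  cases i <;> simp [Data0.β]

/-- The shift. -/
def Data0.sh (γ : G) (x : ℕ × d.κ → ℤ) : ℕ × d.κ → ℤ := fun i => x (i.1, d.β γ⁻¹ i.2)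

/-- The shift as a homomorphism. -/
def Data0.φ0 : G →* Equiv.Perm (ℕ × d.κ → ℤ) where
  toFun γ :=
    { toFun := d.sh γ
      invFun := d.sh γ⁻¹
      left_inv := fun x => by funext i; simp [Data0.sh, ← d.β_mul, d.β_one]
      right_inv := fun x => by funext i; simp [Data0.sh, ← d.β_mul, d.β_one] }
  map_one' := by ext x i; simp [Data0.sh, d.β_one]
  map_mul' γ γ' := by ext x i; simp [Data0.sh, d.β_mul]

/-- Live indices. -/
def Data0.live (σ : Set (G ⧸ d.M)) : Set d.κ := {i | Sum.elim (fun _ => True) (fun j => j ∈ σ) i}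

/-- Translates of sets of cosets. -/
def Data0.tr (γ : G) (σ : Set (G ⧸ d.M)) : Set (G ⧸ d.M) := {j | γ⁻¹ • j ∈ σ}

/-- The base orbit. -/
def Data0.Jo : Set (G ⧸ d.M) := {j | ∃ h ∈ d.H, j = (h : G ⧸ d.M)}

theorem Data0.tr_Jo {γ : G} (hγ : γ ∈ d.H) : d.tr γ d.Jo = d.Jo := by
  ext j
  constructor
  · rintro ⟨h, hh, e⟩
    refine ⟨γ * h, d.H.mul_mem hγ hh, ?_⟩
    rw [inv_smul_eq_iff] at e
    rw [e]; rfl
  · rintro ⟨h, hh, rfl⟩
    exact ⟨γ⁻¹ * h, d.H.mul_mem (d.H.inv_mem hγ) hh, rfl⟩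

theorem Data0.β_inj (γ : G) : Function.Injective fun i : ℕ × d.κ => (i.1, d.β γ i.2) := by
  refine Function.LeftInverse.injective (g := fun i : ℕ × d.κ => (i.1, d.β γ⁻¹ i.2)) fun i => ?_
  simp [← d.β_mul, d.β_one]

theorem Data0.PP_β (γ : G) (σ : Set (G ⧸ d.M)) (i : ℕ × d.κ) :
    PP (d.live σ) (i.1, d.β γ⁻¹ i.2) = PP (d.live (d.tr γ σ)) i := by
  have : d.β γ⁻¹ i.2 ∈ d.live σ ↔ i.2 ∈ d.live (d.tr γ σ) := by
    cases i.2 <;> simp [Data0.β, Data0.live, Data0.tr]
  classical
  unfold PP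
  exact if_congr this rfl rfl

variable [Countable G]

instance : Countable (Coprod G ℤˣ) :=
  (Coprod.mk_surjective (M := G) (N := ℤˣ)).countable

instance : Countable (G ⧸ d.M) := (QuotientGroup.mk_surjective (s := d.M)).countable

theorem Data0.mp_sh (γ : G) (σ : Set (G ⧸ d.M)) :
    MeasurePreserving (d.sh γ) (mu (d.live σ)) (mu (d.live (d.tr γ σ))) := by
  have := mp_reindex (PP (d.live σ)) (d.β_inj γ⁻¹)
  simp only [d.PP_β] at this
  exact this

/-- The involution as a homomorphism. -/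
noncomputable def φ1 {κ : Type} [Countable κ] (c : Setup κ) : ℤˣ →* Equiv.Perm (ℕ × κ → ℤ) where
  toFun u := if u = 1 then 1 else Function.Involutive.toPerm (minf c) (minf_minf c)
  map_one' := if_pos rfl
  map_mul' u v := by
    rcases Int.units_eq_one_or u with rfl | rfl <;> rcases Int.units_eq_one_or v with rfl | rfl
    · simp
    · simp
    · simp
    · have : (-1 : ℤˣ) ≠ 1 := by decide
      ext x i
      simp [this, minf_minf]

theorem Data0.erg (s : Fin 3 → G) (hs : ∀ τ, s τ ∈ d.H)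
    (free : ∀ g ∈ Subgroup.closure (range s), ∀ h ∈ d.H, h⁻¹ * g * h ∈ d.M → g = 1)
    (inf : (Subgroup.closure (range s) : Set G).Infinite) {A : Set (ℕ × d.κ → ℤ)}
    (hA : MeasurableSet A) (hinv : ∀ τ, ∀ᵐ x ∂mu (d.live d.Jo), (d.sh (s τ) x ∈ A ↔ x ∈ A)) :
    (∀ᵐ x ∂mu (d.live d.Jo), x ∈ A) ∨ ∀ᵐ x ∂mu (d.live d.Jo), x ∉ A := by
  classical
  have hle : Subgroup.closure (range s) ≤ d.H := (Subgroup.closure_le _).2 (range_subset_iff.2 hs)
  have hmp : ∀ g ∈ d.H, MeasurePreserving (d.sh g) (mu (d.live d.Jo)) (mu (d.live d.Jo)) := by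
    intro g hg
    have := d.mp_sh g d.Jo
    rwa [d.tr_Jo hg] at this
  have hmul : ∀ g h x, d.sh (g * h) x = d.sh g (d.sh h x) := fun g h x =>
    congrFun (congrArg DFunLike.coe (d.φ0.map_mul g h)) x
  have hone : ∀ x, d.sh 1 x = x := fun x => congrFun (congrArg DFunLike.coe d.φ0.map_one) x
  have hall : ∀ g ∈ Subgroup.closure (range s),
      ∀ᵐ x ∂mu (d.live d.Jo), (d.sh g x ∈ A ↔ x ∈ A) := by
    intro g hg
    induction hg using Subgroup.closure_induction with
    | mem g hg => obtain ⟨τ, rfl⟩ := hg; exact hinv τ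
    | one => simp [hone]
    | mul g h _ hh ih1 ih2 =>
      filter_upwards [ih2, (hmp h (hle hh)).quasiMeasurePreserving.ae ih1] with x a b
      rw [hmul, b, a]
    | inv g hg ih =>
      filter_upwards [(hmp g⁻¹ (d.H.inv_mem (hle hg))).quasiMeasurePreserving.ae ih] with x a
      rw [← hmul, mul_inv_cancel, hone] at a
      exact a.symm
  refine ergodic_shift (PP (d.live d.Jo)) {i | i.2 ∈ d.live d.Jo} (fun i hi => if_neg hi)
    (G := Subgroup.closure (range s)) (fun g i => (i.1, d.β g.1⁻¹ i.2)) (fun g => d.β_inj _)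
    (fun g i => by rw [d.PP_β, d.tr_Jo (hle g.2)]) (fun L => ?_) hA (fun g => hall g.1 g.2)
  have hfree : ∀ g ∈ Subgroup.closure (range s), ∀ i ∈ d.live d.Jo, d.β g i = i → g = 1 := by
    intro g hg i hi e
    cases i with
    | inl w =>
      simp only [Data0.β, Sum.map_inl, Sum.inl.injEq, mul_eq_right] at e
      exact Coprod.inl_injective (e.trans (map_one _).symm)
    | inr j =>
      obtain ⟨h, hh, rfl⟩ := hi
      simp only [Data0.β, Sum.map_inr, Sum.inr.injEq] at e
      refine free g hg h hh ?_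
      have := QuotientGroup.eq.1 (e.symm.trans (MulAction.Quotient.smul_mk d.M g h))
      simpa [mul_assoc] using this
  have hfin : ∀ i ∈ d.live d.Jo, ∀ i', {g : G | g ∈ Subgroup.closure (range s) ∧
      d.β g⁻¹ i = i'}.Finite := by
    intro i hi i'
    refine Set.Subsingleton.finite fun g hg g' hg' => ?_
    have : g * g'⁻¹ = 1 := hfree _ (Subgroup.mul_mem _ hg.1 (Subgroup.inv_mem _ hg'.1)) i hi (by
      rw [d.β_mul, hg'.2, ← hg.2, ← d.β_mul, mul_inv_cancel, d.β_one])
    exact mul_inv_eq_one.1 this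
  have hfin2 : (⋃ i ∈ L.filter (fun i => i.2 ∈ d.live d.Jo), ⋃ i' ∈ L,
      {g : G | g ∈ Subgroup.closure (range s) ∧ d.β g⁻¹ i.2 = i'.2}).Finite :=
    Set.Finite.biUnion (Finset.finite_toSet _) fun i hi =>
      Set.Finite.biUnion (Finset.finite_toSet _) fun i' _ =>
        hfin _ (Finset.mem_filter.1 hi).2 _
  obtain ⟨g, hg, hg'⟩ := inf.exists_notMem_finite hfin2
  refine ⟨⟨g, hg⟩, fun i hi hl h => hg' ?_⟩
  simp only [mem_iUnion]
  exact ⟨i, Finset.mem_filter.2 ⟨hi, hl⟩, _, h, hg, rfl⟩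

theorem Data0.no_solution (K : ℤ) : ∃ (X : Type) (_ : MeasurableSpace X) (_ : StandardBorelSpace X)
    (_ : MulAction (Coprod G ℤˣ) X), (∀ g : Coprod G ℤˣ, Measurable fun x : X => g • x) ∧
      (∀ (g : Coprod G ℤˣ) (x : X), g • x = x → g = 1) ∧
      ∃ ν : Measure X, IsProbabilityMeasure ν ∧ ∀ f : X → Lab, Measurable f →
        (∀ x, Bd K (f x)) → ¬ ∀ᵐ x ∂ν, Rule d.data fun g => f (g • x) := by
  classical
  have hmm : (Coprod.inr (-1) : Coprod G ℤˣ) * Coprod.inr (-1) = 1 := d.data.hm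
  obtain ⟨c, hj, he, hB⟩ := exists_setup (κ := d.κ) (Sum.inr ((1 : G) : G ⧸ d.M))
    (Sum.map (fun g => Coprod.inr (-1) * g) id)
    (fun i => by cases i <;> simp [← mul_assoc, hmm]) rfl
  have hl : ∀ σ i, c.e i ∈ d.live σ ↔ i ∈ d.live σ := fun σ i => by
    rw [he]; cases i <;> simp [Data0.live]
  let A : Coprod G ℤˣ →* Equiv.Perm (ℕ × d.κ → ℤ) := Coprod.lift d.φ0 (φ1 c)
  letI act : MulAction (Coprod G ℤˣ) (ℕ × d.κ → ℤ) := MulAction.compHom _ A
  have hinl : ∀ (γ : G) (x : ℕ × d.κ → ℤ), (Coprod.inl γ : Coprod G ℤˣ) • x = d.sh γ x :=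
    fun γ x => rfl
  have hinr : ∀ x : ℕ × d.κ → ℤ, (Coprod.inr (-1) : Coprod G ℤˣ) • x = minf c x := by
    intro x
    have : (-1 : ℤˣ) ≠ 1 := by decide
    show (φ1 c (-1)) x = _
    simp [φ1, this]
  have Q : ∀ w : Coprod G ℤˣ, ∃ L : ℕ, ∀ σ,
      MeasurePreserving (fun x : ℕ × d.κ → ℤ => w • x) (mu (d.live σ))
        (mu (d.live (d.tr (Coprod.fst w) σ))) ∧
      ∀ k, ∃ E, MeasurableSet E ∧ (mu (d.live σ)).real E ≤ L * (1 / 2 / 2 ^ k) ∧
        ∀ x, x ∉ E → ∀ g, (w • x) (k, Sum.inl g) = x (k, Sum.inl (w⁻¹ * g)) := by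
    intro w
    induction w using Coprod.induction_on with
    | inl γ =>
      refine ⟨0, fun σ => ⟨d.mp_sh γ σ, fun k => ⟨∅, MeasurableSet.empty, by simp,
        fun x _ g => ?_⟩⟩⟩
      rw [hinl, ← map_inv]; rfl
    | inr u =>
      have htr : ∀ σ, d.tr (Coprod.fst (Coprod.inr u : Coprod G ℤˣ)) σ = σ := fun σ => by
        ext j; simp [Data0.tr]
      rcases Int.units_eq_one_or u with rfl | rfl
      · refine ⟨0, fun σ => ⟨?_, fun k => ⟨∅, MeasurableSet.empty, by simp, fun x _ g => ?_⟩⟩⟩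
        · rw [htr]
          simp only [map_one, one_smul]
          exact MeasurePreserving.id _
        · simp
      · refine ⟨1, fun σ => ⟨?_, fun k => ⟨Late c k, meas_Late c k, by
          simpa using Late_le c _ k, fun x hx g => ?_⟩⟩⟩
        · rw [htr]; simpa only [hinr] using mp_minf c _ (hl σ)
        · rw [hinr, minf_e c hx (by rw [hj]; simp), he, inv_eq_of_mul_eq_one_right hmm]
          rfl
    | mul v w ih1 ih2 =>
      obtain ⟨L1, h1⟩ := ih1
      obtain ⟨L2, h2⟩ := ih2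
      refine ⟨L1 + L2, fun σ => ⟨?_, fun k => ?_⟩⟩
      · have := (h1 _).1.comp (h2 σ).1
        have e : d.tr (Coprod.fst v) (d.tr (Coprod.fst w) σ) = d.tr (Coprod.fst (v * w)) σ := by
          ext j; simp [Data0.tr, mul_smul]
        rw [e] at this
        simp only [mul_smul]
        exact this
      · obtain ⟨E1, m1, b1, c1⟩ := (h1 (d.tr (Coprod.fst w) σ)).2 k
        obtain ⟨E2, m2, b2, c2⟩ := (h2 σ).2 k
        refine ⟨(fun x => w • x) ⁻¹' E1 ∪ E2, ((h2 σ).1.measurable m1).union m2, ?_,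
          fun x hx g => ?_⟩
        · refine (measureReal_union_le _ _).trans ?_
          rw [(h2 σ).1.measureReal_preimage m1.nullMeasurableSet]
          push_cast; linarith
        · simp only [mem_union, mem_preimage, not_or] at hx
          rw [mul_smul, c1 _ hx.1, c2 _ hx.2, mul_inv_rev, mul_assoc]
  choose L hQ using Q
  have hfree : ∀ᵐ x ∂mu (d.live d.Jo), ∀ g : Coprod G ℤˣ, g • x = x → g = 1 := by
    refine ae_all_iff.2 fun w => ?_
    by_cases hw : w = 1
    · exact ae_of_all _ fun _ _ => hw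
    have key : ∀ k, (mu (d.live d.Jo)).real {x | w • x = x} ≤ (L w + 1) * (1 / 2) ^ k := by
      intro k
      obtain ⟨E, -, b, e⟩ := (hQ w d.Jo).2 k
      have hne : ((k, Sum.inl 1) : ℕ × d.κ) ≠ (k, Sum.inl w⁻¹) := by
        simpa [eq_comm] using hw
      have h1 : {x : ℕ × d.κ → ℤ | w • x = x} ⊆ E ∪ (fun x : ℕ × d.κ → ℤ =>
          (x (k, Sum.inl 1), x (k, Sum.inl w⁻¹))) ⁻¹' {p | p.1 = p.2} := by
        intro x hx
        by_cases h : x ∈ E
        · exact Or.inl h
        · have := e x h 1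
          rw [show w • x = x from hx, mul_one] at this
          exact Or.inr this
      have h2 := (measureReal_mono h1).trans (measureReal_union_le (μ := mu (d.live d.Jo)) _ _)
      have h3 : MeasurePreserving (fun x : ℕ × d.κ → ℤ => (x (k, Sum.inl 1), x (k, Sum.inl w⁻¹)))
          (mu (d.live d.Jo)) ((unif (nn k)).prod (unif (nn k))) := by
        refine ⟨by fun_prop, ?_⟩
        unfold mu
        rw [Measure.infinitePi_map_eval_prod hne]
        simp [PP, Data0.live]
      rw [h3.measureReal_preimage (Set.to_countable _).measurableSet.nullMeasurableSet] at h2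
      have h4 := diag_le (nn k)
      have h5 : 1 / ((nn k : ℝ) + 1) ≤ (1 / 2) ^ k := by
        rw [one_div_pow, nn]
        refine one_div_le_one_div_of_le (by positivity) ?_
        push_cast
        rw [pow_add]
        have : (0 : ℝ) < 2 ^ k := by positivity
        linarith
      have h6 : (1 : ℝ) / 2 / 2 ^ k ≤ (1 / 2) ^ k := by
        rw [one_div_pow]
        exact div_le_div_of_nonneg_right (by norm_num) (by positivity)
      have h7 := mul_le_mul_of_nonneg_left h6 (Nat.cast_nonneg (α := ℝ) (L w))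
      linarith
    have h0 : (mu (d.live d.Jo)).real {x | w • x = x} ≤ 0 := by
      have := (tendsto_pow_atTop_nhds_zero_of_lt_one (show (0 : ℝ) ≤ 1 / 2 by norm_num)
        (by norm_num)).const_mul ((L w : ℝ) + 1)
      rw [mul_zero] at this
      exact ge_of_tendsto' this key
    exact (ae_not_mem_of_real h0).mono fun x hx h => absurd h hx
  refine restrict_free (fun w => (hQ w d.Jo).1.measurable) (mu (d.live d.Jo)) hfree (Bd K)
    (Rule d.data) fun f hf hK hR => ?_
  obtain ⟨h1, h2⟩ := sound d.data (d.H.comap Coprod.fst) (fun w hw => by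
      have := (hQ w d.Jo).1
      rwa [d.tr_Jo hw] at this)
    d.νH d.sH (fun i => by
      fin_cases i
      · exact d.aH
      · exact d.H.one_mem
      · exact d.sH 0
      · exact d.sH 1
      · exact d.sH 2)
    (fun B hB h => d.erg d.ν d.νH d.free1 d.inf1 hB h)
    (fun B hB h => d.erg _ d.s'H d.free2 d.inf2 hB (fun τ => by
      have := h τ
      simp only [Data0.data, ← map_inv, ← map_mul, hinl] at this
      exact this)) hf hK hR
  refine flux c hB (d.live d.Jo) (hl _) (by rw [hj]; exact ⟨1, d.H.one_mem, rfl⟩)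
    (W := fun x => (f x).2.2.2.1) hf.snd.snd.snd.fst (h1.mono fun x hx => by
      rw [← hinr]; exact hx) fun k => ?_
  refine h2 _ (nn k) ((measurable_of_countable (lev k)).comp (measurable_pi_apply _))
    (fun x => lev_nonneg _ _) (fun x => abs_lev_le _ _) fun τ x => ?_
  have : d.β (d.s τ)⁻¹ c.j0 = c.j0 := by
    rw [hj]
    simp only [Data0.β, Sum.map_inr, Sum.inr.injEq]
    rw [MulAction.Quotient.smul_mk, QuotientGroup.eq]
    simpa using d.sM τ
  show lev k (x (k, d.β (d.s τ)⁻¹ c.j0)) = _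
  rw [this]

end Pool.Agent.P.MP_afd974_lc.Sep
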