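import Pool.Agent.P.MP_afd974_lc.Tiles

set_option autoImplicit false
set_option linter.unusedSectionVars false

open MeasureTheory Set Function
open scoped ENNReal Pointwise

namespace Pool.Agent.P.MP_afd974_lc

variable {Γ : Type*} [Group Γ] [DecidableEq Γ] {L : Type*} [Fintype L] [Nonempty L]
  [MeasurableSpace L] [DiscreteMeasurableSpace L]

/-- The subshift of finite type of the labelling problem. -/
def Sig (S : Finset Γ) (A : Set (S → L)) : Set (Γ → L) :=
  {ξ | ∀ g : Γ, (fun s : S => ξ (s * g)) ∈ A}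

lemma sh_mem_Sig {S : Finset Γ} {A : Set (S → L)} {ξ : Γ → L} (h : ξ ∈ Sig S A) (g : Γ) :
    sh g ξ ∈ Sig S A := by
  intro g'
  simpa [sh, mul_assoc] using h (g' * g)

/-- A randomised solution `G` of finite range together with a deterministic guess `f`. -/
structure St (X : Type*) [MeasurableSpace X] [MulAction Γ X] (S : Finset Γ)
    (A : Set (S → L)) where
  D : Finset Γ
  G : X → (Γ → L) → L
  f : X → L
  mG : ∀ ξ, Measurable (fun x => G x ξ)
  dep : ∀ x, DependsOn (G x) (D : Set Γ)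
  valid : ∀ x, ∀ ξ ∈ Sig S A, (fun s : S => G ((s : Γ) • x) (sh (s : Γ) ξ)) ∈ A
  mf : Measurable f

variable {X : Type*} [MeasurableSpace X] [MulAction Γ X] {S : Finset Γ} {A : Set (S → L)}

/-- Probability that the randomised solution differs from the guess. -/
noncomputable def St.r (σ : St X S A) (ν : Measure (Γ → L)) (y : X) : ℝ :=
  ν.real {ξ | σ.G y ξ ≠ σ.f y}

lemma St.meas_set (σ : St X S A) (y : X) (l : L) : MeasurableSet {ξ | σ.G y ξ ≠ l} :=
  measurable_dep _ _ (σ.dep y) (MeasurableSet.of_discrete (s := {b | b ≠ l}))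

lemma St.r_nonneg (σ : St X S A) (ν : Measure (Γ → L)) (y : X) : 0 ≤ σ.r ν y :=
  measureReal_nonneg

lemma St.r_le_one (σ : St X S A) (ν : Measure (Γ → L)) [IsProbabilityMeasure ν] (y : X) :
    σ.r ν y ≤ 1 := measureReal_le_one

lemma St.measurable_r (σ : St X S A) (ν : Measure (Γ → L)) [IsProbabilityMeasure ν] :
    Measurable (σ.r ν) := by
  have m1 := measurable_uncurry_dep σ.G σ.D σ.mG σ.dep
  have m2 : MeasurableSet {p : X × (Γ → L) | σ.G p.1 p.2 ≠ σ.f p.1} :=
    (measurableSet_eq_fun m1 (σ.mf.comp measurable_fst)).compl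
  exact (measurable_measure_prodMk_left (ν := ν) m2).ennreal_toReal

section New

variable (K T D : Finset Γ) (Th : Finset Γ → (Γ → L) → (Γ → L) → (Γ → L)) (a : Γ → L)

open Classical in
/-- Refill the tile that covers the origin, if there is one. -/
noncomputable def modc (J : Γ → Bool) (ξ : Γ → L) : Γ → L :=
  if h : ∃ t, covd K T J t then
    sh h.choose (Th (D * bdry K T (sh h.choose⁻¹ J)) a (sh h.choose⁻¹ ξ))
  else ξ

open Classical in
/-- The new guess. -/
noncomputable def newf (G : (Γ → L) → L) (l : L) (J : Γ → Bool) : L :=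
  if h : ∃ t, covd K T J t then G (sh h.choose a) else l

variable {K T}

lemma modc_cov (hK1 : (1 : Γ) ∈ K) (hKi : ∀ k ∈ K, k⁻¹ ∈ K) {J : Γ → Bool} {t : Γ}
    (h : covd K T J t) (ξ : Γ → L) :
    modc K T D Th a J ξ = sh t (Th (D * bdry K T (sh t⁻¹ J)) a (sh t⁻¹ ξ)) := by
  have h' : ∃ t, covd K T J t := ⟨t, h⟩
  unfold modc
  rw [dif_pos h', covd_unique hK1 hKi h h'.choose_spec]

lemma modc_not {J : Γ → Bool} (h : ¬ ∃ t, covd K T J t) (ξ : Γ → L) :
    modc K T D Th a J ξ = ξ := by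
  unfold modc
  rw [dif_neg h]

lemma newf_cov (hK1 : (1 : Γ) ∈ K) (hKi : ∀ k ∈ K, k⁻¹ ∈ K) (G : (Γ → L) → L) (l : L)
    {J : Γ → Bool} {t : Γ} (h : covd K T J t) : newf K T a G l J = G (sh t a) := by
  have h' : ∃ t, covd K T J t := ⟨t, h⟩
  unfold newf
  rw [dif_pos h', covd_unique hK1 hKi h h'.choose_spec]

lemma newf_not (G : (Γ → L) → L) (l : L) {J : Γ → Bool} (h : ¬ ∃ t, covd K T J t) :
    newf K T a G l J = l := by
  unfold newf
  rw [dif_neg h]

lemma sh_agree {J J' : Γ → Bool} (h : ∀ u ∈ win K T * T⁻¹, J u = J' u) {t : Γ} (ht : t ∈ T) :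
    ∀ u ∈ win K T, sh t⁻¹ J u = sh t⁻¹ J' u :=
  fun _ hu => h _ (Finset.mul_mem_mul hu (Finset.inv_mem_inv ht))

lemma covd_congr (h1 : (1 : Γ) ∈ win K T) {J J' : Γ → Bool}
    (h : ∀ u ∈ win K T * T⁻¹, J u = J' u) (t : Γ) : covd K T J t ↔ covd K T J' t :=
  and_congr_right fun ht => cov_congr h1 (sh_agree h ht) t

lemma modc_depJ (hK1 : (1 : Γ) ∈ K) (hKi : ∀ k ∈ K, k⁻¹ ∈ K) (hT : T.Nonempty) (ξ : Γ → L) :
    DependsOn (fun J => modc K T D Th a J ξ) ((win K T * T⁻¹ : Finset Γ) : Set Γ) := by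
  intro J J' h
  have h1 := one_mem_win hK1 hT
  by_cases hc : ∃ t, covd K T J t
  · obtain ⟨t, ht⟩ := hc
    simp only
    rw [modc_cov D Th a hK1 hKi ht, modc_cov D Th a hK1 hKi ((covd_congr h1 h t).1 ht),
      bdry_congr (sh_agree h ht.1)]
  · simp only
    rw [modc_not D Th a hc, modc_not D Th a (fun ⟨t, ht⟩ => hc ⟨t, (covd_congr h1 h t).2 ht⟩)]

lemma newf_depJ (hK1 : (1 : Γ) ∈ K) (hKi : ∀ k ∈ K, k⁻¹ ∈ K) (hT : T.Nonempty)
    (G : (Γ → L) → L) (l : L) :
    DependsOn (newf K T a G l) ((win K T * T⁻¹ : Finset Γ) : Set Γ) := by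
  intro J J' h
  have h1 := one_mem_win hK1 hT
  by_cases hc : ∃ t, covd K T J t
  · obtain ⟨t, ht⟩ := hc
    rw [newf_cov a hK1 hKi G l ht, newf_cov a hK1 hKi G l ((covd_congr h1 h t).1 ht)]
  · rw [newf_not a G l hc, newf_not a G l (fun ⟨t, ht⟩ => hc ⟨t, (covd_congr h1 h t).2 ht⟩)]

/-- The selected points seen from `y`. -/
def Jx (Γ : Type*) [Group Γ] {X : Type*} [MulAction Γ X] (c : X → Bool) (y : X) : Γ → Bool :=
  fun u => c (u • y)

lemma Jx_smul (c : X → Bool) (g : Γ) (y : X) : Jx Γ c (g • y) = sh g (Jx Γ c y) := by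
  funext u; simp [Jx, sh, mul_smul]

lemma measurable_Jx (hact : ∀ g : Γ, Measurable (fun x : X => g • x)) {c : X → Bool}
    (hc : Measurable c) : Measurable (Jx Γ c) :=
  measurable_pi_lambda _ fun u => hc.comp (hact u)

/-- The state after refilling the tiles centred at the selected points. -/
noncomputable def newSt (σ : St X S A) (hK1 : (1 : Γ) ∈ K) (hKi : ∀ k ∈ K, k⁻¹ ∈ K)
    (hKS : ∀ s ∈ S, ∀ t ∈ S, s * t⁻¹ ∈ K) (hT : T.Nonempty)
    (h2 : ∀ B a, DependsOn (Th B a) (B : Set Γ))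
    (h3 : ∀ B a ζ, ζ ∈ Sig S A → Th B a ζ ∈ Sig S A ∧ ∀ z ∈ B, Th B a ζ z = ζ z)
    (hact : ∀ g : Γ, Measurable (fun x : X => g • x)) (c : X → Bool) (hc : Measurable c) :
    St X S A where
  D := σ.D ∪ (σ.D * (K * T)) * T⁻¹
  G := fun y ξ => σ.G y (modc K T σ.D Th a (Jx Γ c y) ξ)
  f := fun y => newf K T a (σ.G y) (σ.f y) (Jx Γ c y)
  mG := by
    intro ξ
    have := measurable_uncurry_dep (fun y J => σ.G y (modc K T σ.D Th a J ξ)) (win K T * T⁻¹)
      (fun J => σ.mG _) (fun y J J' h => by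
        have := modc_depJ σ.D Th a hK1 hKi hT ξ h
        simp only at this
        simp only [this])
    exact this.comp (measurable_id.prodMk (measurable_Jx hact hc))
  dep := by
    intro y ξ ξ' h
    by_cases hc : ∃ t, covd K T (Jx Γ c y) t
    · obtain ⟨t, ht⟩ := hc
      simp only
      rw [modc_cov _ Th a hK1 hKi ht, modc_cov _ Th a hK1 hKi ht]
      congr 2
      apply h2
      intro z hz
      refine h _ (Finset.mem_coe.2 (Finset.mem_union_right _ ?_))
      exact Finset.mul_mem_mul (Finset.mul_subset_mul_left (bdry_subset hK1 _) hz)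
        (Finset.inv_mem_inv ht.1)
    · simp only
      rw [modc_not _ Th a hc, modc_not _ Th a hc]
      exact σ.dep y fun z hz => h z (Finset.mem_coe.2 (Finset.mem_union_left _ hz))
  valid := by
    intro x ξ hξ
    by_cases hc : ∃ s₀ ∈ S, ∃ t₀, covd K T (Jx Γ c (s₀ • x)) t₀
    · obtain ⟨s₀, hs₀, t₀, h₀⟩ := hc
      set g : Γ := t₀⁻¹ * s₀ with hg
      set J : Γ → Bool := sh g (Jx Γ c x) with hJ
      have c₀ : cov K T J t₀ := by
        have := h₀.2
        rwa [Jx_smul, sh_sh] at this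
      set ζ' := Th (σ.D * bdry K T J) a (sh g ξ) with hζ'
      obtain ⟨m1, m2⟩ := h3 (σ.D * bdry K T J) a (sh g ξ) (sh_mem_Sig hξ g)
      have v := σ.valid x (sh g⁻¹ ζ') (sh_mem_Sig m1 g⁻¹)
      convert v using 2 with s
      have hk := hKS s s.2 s₀ hs₀
      have e1 : (s : Γ) = (s * s₀⁻¹ * t₀) * g := by rw [hg]; group
      have e2 : Jx Γ c ((s : Γ) • x) = sh (s * s₀⁻¹ * t₀) J := by
        rw [Jx_smul, hJ, sh_sh, ← e1]
      have e3 : (s : Γ) * g⁻¹ = s * s₀⁻¹ * t₀ := by rw [hg]; group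
      have e4 : (s * s₀⁻¹ * t₀)⁻¹ * (s : Γ) = g := by rw [hg]; group
      rw [e2, sh_sh (s : Γ) g⁻¹, e3]
      by_cases hs : ∃ t, covd K T (sh (s * s₀⁻¹ * t₀) J) t
      · obtain ⟨t, ht⟩ := hs
        have := cov_close hKi hk h₀.1 c₀ ht
        subst this
        rw [modc_cov _ Th a hK1 hKi ht, sh_sh _ _ J, sh_sh _ _ ξ, inv_mul_cancel, sh_one, e4]
      · rw [modc_not _ Th a hs]
        have hb := mem_bdry hKi hk h₀.1 c₀ (fun h => hs ⟨_, h⟩)
        apply σ.dep
        intro d hd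
        have := m2 _ (Finset.mul_mem_mul hd hb)
        simp only [sh] at this ⊢
        rw [hζ', this]
        congr 1
        rw [hg]; group
    · have v := σ.valid x ξ hξ
      convert v using 2 with s
      rw [modc_not _ Th a (fun ⟨t, ht⟩ => hc ⟨s, s.2, t, ht⟩)]
  mf := by
    have := measurable_uncurry_dep (fun y J => newf K T a (σ.G y) (σ.f y) J) (win K T * T⁻¹)
      (fun J => by
        by_cases hc : ∃ t, covd K T J t
        · obtain ⟨t, ht⟩ := hc
          simp only [newf_cov a hK1 hKi _ _ ht]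
          exact σ.mG _
        · simp only [newf_not a _ _ hc]
          exact σ.mf)
      (fun y => newf_depJ a hK1 hKi hT _ _)
    exact this.comp (measurable_id.prodMk (measurable_Jx hact hc))

end New

end Pool.Agent.P.MP_afd974_lc
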