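import Pool.Agent.P.MP_afd974_lc.Cost

set_option autoImplicit false
set_option linter.unusedSectionVars false

open MeasureTheory Set Function Filter
open scoped ENNReal Pointwise Topology

namespace Pool.Agent.P.MP_afd974_lc

variable {Γ : Type*} [Group Γ] [DecidableEq Γ] {L : Type*} [Fintype L] [Nonempty L]
  [MeasurableSpace L] [DiscreteMeasurableSpace L]
variable {X : Type*} [MeasurableSpace X] [MulAction Γ X] {S : Finset Γ} {A : Set (S → L)}

lemma exists_colouring [MeasurableSpace.CountablySeparated X]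
    (hact : ∀ g : Γ, Measurable (fun x : X => g • x))
    (hfree : ∀ (g : Γ) (x : X), g • x = x → g = 1) (m : Measure X) [IsFiniteMeasure m]
    (V : Finset Γ) (ε : ℝ) (hε : 0 < ε) :
    ∃ (N : ℕ) (κ : X → (Fin N → Bool)) (Y : Set X), Measurable κ ∧ MeasurableSet Y ∧
      m.real Y ≤ ε ∧ ∀ y, y ∉ Y → InjOn (fun u : Γ => κ (u • y)) (V : Set Γ) := by
  obtain ⟨e, em, ei⟩ := MeasurableSpace.measurable_injection_nat_bool_of_countablySeparated X
  let Y : ℕ → Set X := fun N =>
    ⋃ u ∈ V, ⋃ v ∈ V, ⋃ (_ : u ≠ v), ⋂ i ∈ Finset.range N, {y | e (u • y) i = e (v • y) i}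
  have Ym : ∀ N, MeasurableSet (Y N) := by
    intro N
    refine Finset.measurableSet_biUnion _ fun u _ => Finset.measurableSet_biUnion _ fun v _ =>
      MeasurableSet.iUnion fun _ => Finset.measurableSet_biInter _ fun i _ => ?_
    exact measurableSet_eq_fun ((measurable_pi_apply i).comp (em.comp (hact u)))
      ((measurable_pi_apply i).comp (em.comp (hact v)))
  have Ya : Antitone Y := by
    intro M N hMN y hy
    simp only [Y, mem_iUnion, mem_iInter, Finset.mem_range, mem_ofPred_eq] at hy ⊢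
    obtain ⟨u, hu, v, hv, huv, h⟩ := hy
    exact ⟨u, hu, v, hv, huv, fun i hi => h i (lt_of_lt_of_le hi hMN)⟩
  have Ye : ⋂ N, Y N = ∅ := by
    rw [eq_empty_iff_forall_notMem]
    intro y hy
    have h1 : ∀ u ∈ V, ∀ v ∈ V, ∀ᶠ N in atTop,
        u ≠ v → ∃ i < N, e (u • y) i ≠ e (v • y) i := by
      intro u _ v _
      by_cases huv : u = v
      · exact Eventually.of_forall fun N h => absurd huv h
      · have : e (u • y) ≠ e (v • y) := by
          intro h
          have h2 := ei h
          apply huv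
          have : (v⁻¹ * u) • y = y := by rw [mul_smul, h2, inv_smul_smul]
          have := hfree _ _ this
          rw [inv_mul_eq_one] at this
          exact this.symm
        obtain ⟨i, hi⟩ := Function.ne_iff.1 this
        filter_upwards [eventually_gt_atTop i] with N hN _ using ⟨i, hN, hi⟩
    have h2 : ∀ᶠ N in atTop, ∀ u ∈ V, ∀ v ∈ V, u ≠ v → ∃ i < N, e (u • y) i ≠ e (v • y) i :=
      (eventually_all_finset V).2 fun u hu => (eventually_all_finset V).2 fun v hv => h1 u hu v hv
    obtain ⟨N, hN⟩ := h2.exists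
    have := mem_iInter.1 hy N
    simp only [Y, mem_iUnion, mem_iInter, Finset.mem_range, mem_ofPred_eq] at this
    obtain ⟨u, hu, v, hv, huv, h⟩ := this
    obtain ⟨i, hi, hne⟩ := hN u hu v hv huv
    exact hne (h i hi)
  have t := tendsto_measure_iInter_atTop (μ := m) (fun N => (Ym N).nullMeasurableSet) Ya
    ⟨0, measure_ne_top _ _⟩
  rw [Ye, measure_empty] at t
  have := (t.eventually (gt_mem_nhds (ENNReal.ofReal_pos.2 hε))).exists
  obtain ⟨N, hN⟩ := this
  refine ⟨N, fun x i => e x i, Y N, measurable_pi_lambda _ fun i =>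
    (measurable_pi_apply (i : ℕ)).comp em, Ym N, ENNReal.toReal_le_of_le_ofReal hε.le hN.le, ?_⟩
  intro y hy u hu v hv h
  by_contra huv
  apply hy
  simp only [Y, mem_iUnion, mem_iInter, Finset.mem_range, mem_ofPred_eq]
  exact ⟨u, hu, v, hv, huv, fun i hi => congrFun h ⟨i, hi⟩⟩

theorem step [MeasurableSpace.CountablySeparated X]
    (hact : ∀ g : Γ, Measurable (fun x : X => g • x))
    (hfree : ∀ (g : Γ) (x : X), g • x = x → g = 1) (m : Measure X) [IsFiniteMeasure m]
    (ν : Measure (Γ → L)) [IsProbabilityMeasure ν]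
    (hinv : ∀ g : Γ, MeasurePreserving (sh g) ν ν) (hcp : CP ν (Sig S A))
    (K : Finset Γ) (hK1 : (1 : Γ) ∈ K) (hKi : ∀ k ∈ K, k⁻¹ ∈ K)
    (hKS : ∀ s ∈ S, ∀ t ∈ S, s * t⁻¹ ∈ K)
    (hF : ∀ δ : ℝ, 0 < δ → ∃ T : Finset Γ, T.Nonempty ∧ (((K * T) \ T).card : ℝ) ≤ δ * T.card)
    (σ : St X S A) (ε : ℝ) (hε : 0 < ε) :
    ∃ σ' : St X S A, ∫ y, σ'.r ν y ∂m + 1 / 2 * m.real {y | σ'.f y ≠ σ.f y}
      ≤ 15 / 16 * ∫ y, σ.r ν y ∂m + ε := by
  set D := σ.D with hD
  set mX := m.real univ with hmX
  have mX0 : 0 ≤ mX := measureReal_nonneg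
  set η : ℝ := ε / (3 * (mX + 1)) with hη
  have η0 : 0 < η := by positivity
  obtain ⟨C, C0, hC⟩ := hcp (η / (D.card ^ 2 + 1)) (by positivity)
  set δ : ℝ := min 1 (η / (D.card ^ 2 * C + 1)) with hδ
  have δ0 : 0 < δ := lt_min one_pos (by positivity)
  obtain ⟨T, hT, hTδ⟩ := hF δ δ0
  choose Th h1 h2 h3 h4 using hC (D * (K * T))
  obtain ⟨N, κ, Y, κm, Ym, Yε, hY⟩ :=
    exists_colouring hact hfree m (win K T * T⁻¹) (ε / 6) (by positivity)
  have T1 : (1 : ℝ) ≤ T.card := by exact_mod_cast hT.card_pos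
  obtain ⟨β, hβp, hβ⟩ := exists_bern (1 / (4 * T.card)) (by positivity)
    (by rw [div_le_one (by positivity)]; linarith)
  set PI := Measure.infinitePi (fun _ : Fin N → Bool => β) with hPI
  have cm : ∀ I : (Fin N → Bool) → Bool, Measurable (fun x => I (κ x)) :=
    fun I => (measurable_of_finite I).comp κm
  let ns : ((Fin N → Bool) → Bool) → (Γ → L) → St X S A := fun I a =>
    newSt Th a σ hK1 hKi hKS hT h2 h3 hact (fun x => I (κ x)) (cm I)
  let c : ((Fin N → Bool) → Bool) → X → (Γ → L) → ℝ := fun I y a =>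
    cost K T D Th ν (σ.G y) (σ.f y) (fun u => I (κ (u • y))) a
  have ce : ∀ I y a, c I y a = (ns I a).r ν y + 1 / 2 * ind ((ns I a).f y ≠ σ.f y) :=
    fun I y a => rfl
  have fm : ∀ I a, MeasurableSet {y | (ns I a).f y ≠ σ.f y} :=
    fun I a => (measurableSet_eq_fun (ns I a).mf σ.mf).compl
  have cmeas : ∀ I a, Measurable (fun y => c I y a) := by
    intro I a
    simp only [ce]
    exact ((ns I a).measurable_r ν).add ((measurable_ind _ (fm I a)).const_mul _)
  have cdep : ∀ I y, DependsOn (c I y) ((D * (K * T) : Finset Γ) : Set Γ) :=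
    fun I y => cost_dep ν _ hK1 hKi (σ.dep y) h1 _
  have cj : ∀ I, Measurable (fun p : X × (Γ → L) => c I p.1 p.2) :=
    fun I => measurable_uncurry_dep (c I) _ (cmeas I) (cdep I)
  have cb : ∀ I y a, ‖c I y a‖ ≤ 3 / 2 := fun I y a => by
    rw [Real.norm_eq_abs, abs_of_nonneg (cost_nonneg _ _ _ _ _ _ _ _ _)]
    exact cost_le _ _ _ _ _ _ _ _ _
  have ci : ∀ I, Integrable (uncurry (c I)) (m.prod ν) := fun I =>
    Integrable.of_bound (cj I).aestronglyMeasurable (3 / 2)
      (Eventually.of_forall fun p => cb I p.1 p.2)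
  have ri : ∀ τ : St X S A, Integrable (τ.r ν) m := fun τ =>
    Integrable.of_bound (τ.measurable_r ν).aestronglyMeasurable 1
      (Eventually.of_forall fun y => by
        rw [Real.norm_eq_abs, abs_of_nonneg (τ.r_nonneg ν y)]; exact τ.r_le_one ν y)
  let g : ((Fin N → Bool) → Bool) → X → ℝ := fun I y => ∫ a, c I y a ∂ν
  have gm : ∀ I, Measurable (g I) := fun I =>
    ((cj I).stronglyMeasurable.integral_prod_right' (ν := ν)).measurable
  have gb : ∀ I y, ‖g I y‖ ≤ 3 / 2 := fun I y => by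
    have := norm_integral_le_of_norm_le_const (μ := ν) (f := fun a => c I y a) (C := 3 / 2)
      (Eventually.of_forall fun a => cb I y a)
    simpa using this
  have gj : Measurable (fun p : ((Fin N → Bool) → Bool) × X => g p.1 p.2) :=
    measurable_from_prod_countable_right gm
  have gi : Integrable (uncurry g) (PI.prod m) :=
    Integrable.of_bound gj.aestronglyMeasurable (3 / 2) (Eventually.of_forall fun p => gb p.1 p.2)
  have pt : ∀ y, ∫ I, g I y ∂PI ≤ 15 / 16 * σ.r ν y + 2 * η + 3 / 2 * ind (y ∈ Y) := by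
    intro y
    by_cases hy : y ∈ Y
    · rw [ind_pos hy]
      have := norm_integral_le_of_norm_le_const (μ := PI) (f := fun I => g I y) (C := 3 / 2)
        (Eventually.of_forall fun I => gb I y)
      simp only [probReal_univ, mul_one, Real.norm_eq_abs] at this
      have := le_abs_self (∫ I, g I y ∂PI)
      have := σ.r_nonneg ν y
      linarith
    · rw [ind_neg hy]
      have := cost_int_I ν (σ.f y) hK1 hKi hT (σ.dep y) hinv h1 h2 _ C δ (by positivity) C0 h4
        (min_le_left _ _) hTδ β hβ (fun u => κ (u • y)) (hY y hy)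
      have a1 : (D.card : ℝ) ^ 2 * (η / (D.card ^ 2 + 1)) ≤ η := by
        rw [mul_div_assoc', div_le_iff₀ (by positivity)]
        nlinarith
      have a2 : (D.card : ℝ) ^ 2 * C * δ ≤ η := by
        have b1 : (D.card : ℝ) ^ 2 * C * δ ≤ D.card ^ 2 * C * (η / (D.card ^ 2 * C + 1)) :=
          mul_le_mul_of_nonneg_left (min_le_right _ _) (by positivity)
        refine b1.trans ?_
        rw [mul_div_assoc', div_le_iff₀ (by positivity)]
        nlinarith
      change ∫ I, g I y ∂PI ≤ 15 / 16 * σ.r ν y + _ at this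
      linarith
  have iY := integrable_ite_one m (fun y => y ∈ Y) Ym
  have i1 : Integrable (fun y => 15 / 16 * σ.r ν y + 2 * η) m :=
    ((ri σ).const_mul _).add (integrable_const _)
  have i2 : Integrable (fun y => 15 / 16 * σ.r ν y + 2 * η + 3 / 2 * ind (y ∈ Y)) m :=
    i1.add (iY.const_mul _)
  have tot : ∫ I, ∫ y, g I y ∂m ∂PI ≤ 15 / 16 * ∫ y, σ.r ν y ∂m + ε := by
    rw [integral_integral_swap gi]
    refine (integral_mono gi.integral_prod_right i2 pt).trans ?_
    rw [integral_add i1 (iY.const_mul _), integral_add ((ri σ).const_mul _) (integrable_const _),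
      integral_const_mul (15 / 16 : ℝ), integral_const_mul (3 / 2 : ℝ),
      integral_ite_one m (fun y => y ∈ Y) Ym,
      integral_const, smul_eq_mul, ← hmX]
    have a1 : mX * (2 * η) ≤ 2 / 3 * ε := by
      have : mX * η ≤ ε / 3 := by
        rw [hη, mul_div_assoc', div_le_div_iff₀ (by positivity) (by positivity)]
        nlinarith
      linarith
    have a2 : m.real {y | y ∈ Y} ≤ ε / 6 := Yε
    linarith
  obtain ⟨I, hI⟩ := exists_le_integral (μ := PI) (f := fun I => ∫ y, g I y ∂m)
    Integrable.of_finite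
  have sw : ∫ y, g I y ∂m = ∫ a, ∫ y, c I y a ∂m ∂ν := integral_integral_swap (ci I)
  obtain ⟨a, ha⟩ := exists_le_integral (μ := ν) (f := fun a => ∫ y, c I y a ∂m)
    (ci I).integral_prod_right
  refine ⟨ns I a, ?_⟩
  have e : ∫ y, c I y a ∂m
      = ∫ y, (ns I a).r ν y ∂m + 1 / 2 * m.real {y | (ns I a).f y ≠ σ.f y} := by
    simp only [ce]
    rw [integral_add (ri _) ((integrable_ite_one m _ (fm I a)).const_mul _), integral_const_mul,
      integral_ite_one m _ (fm I a)]
  rw [← e]
  linarith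

end Pool.Agent.P.MP_afd974_lc
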