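import Pool.Agent.P.MP_afd974_lc.Coupling

set_option autoImplicit false
set_option linter.unusedSectionVars false

open MeasureTheory Set Function
open scoped ENNReal Pointwise

namespace Pool.Agent.P.MP_afd974_lc

variable {Γ : Type*} [Group Γ] [DecidableEq Γ]

/-- Right shift of a configuration. -/
def sh {L : Type*} (g : Γ) (ξ : Γ → L) : Γ → L := fun γ => ξ (γ * g)

lemma sh_sh {L : Type*} (g h : Γ) (ξ : Γ → L) : sh g (sh h ξ) = sh (g * h) ξ := by
  funext γ; simp [sh, mul_assoc]

@[simp] lemma sh_one {L : Type*} (ξ : Γ → L) : sh (1 : Γ) ξ = ξ := by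
  funext γ; simp [sh]

/-- The window of possibly conflicting centres. -/
def win (K T : Finset Γ) : Finset Γ := (K * T)⁻¹ * T

/-- The centre is selected and no other selected tile comes close to position `t`. -/
def cov (K T : Finset Γ) (J : Γ → Bool) (t : Γ) : Prop :=
  J 1 = true ∧ ∀ u ∈ win K T, u ≠ 1 → J u = true → t * u⁻¹ ∉ K * T

open Classical in
/-- A set containing the outer boundary of the piece of the tile that is kept. -/
noncomputable def bdry (K T : Finset Γ) (J : Γ → Bool) : Finset Γ :=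
  ((K * T) \ T) ∪ T.filter (fun z => ∃ u ∈ win K T, J u = true ∧ z * u⁻¹ ∈ (K * T) \ T)

/-- The origin is covered, at position `t` of a tile. -/
def covd (K T : Finset Γ) (J : Γ → Bool) (t : Γ) : Prop := t ∈ T ∧ cov K T (sh t⁻¹ J) t

variable {K T : Finset Γ}

lemma mem_win {w t : Γ} (hw : w ∈ K * T) (ht : t ∈ T) : w⁻¹ * t ∈ win K T :=
  Finset.mul_mem_mul (Finset.inv_mem_inv hw) ht

lemma mem_KT (hK1 : (1 : Γ) ∈ K) {t : Γ} (ht : t ∈ T) : t ∈ K * T := by
  simpa using Finset.mul_mem_mul hK1 ht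

lemma one_mem_win (hK1 : (1 : Γ) ∈ K) (hT : T.Nonempty) : (1 : Γ) ∈ win K T := by
  obtain ⟨t, ht⟩ := hT
  simpa using mem_win (mem_KT hK1 ht) ht

lemma cov_congr (h1 : (1 : Γ) ∈ win K T) {J J' : Γ → Bool} (h : ∀ u ∈ win K T, J u = J' u)
    (t : Γ) : cov K T J t ↔ cov K T J' t := by
  unfold cov
  rw [h 1 h1]
  refine and_congr Iff.rfl (forall₂_congr fun u hu => ?_)
  rw [h u hu]

lemma bdry_congr {J J' : Γ → Bool} (h : ∀ u ∈ win K T, J u = J' u) :
    bdry K T J = bdry K T J' := by
  classical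
  unfold bdry
  congr 1
  refine Finset.filter_congr fun z _ => exists_congr fun u => and_congr_right fun hu => ?_
  rw [h u hu]

lemma bdry_subset (hK1 : (1 : Γ) ∈ K) (J : Γ → Bool) : bdry K T J ⊆ K * T := by
  classical
  intro z hz
  unfold bdry at hz
  rcases Finset.mem_union.1 hz with h | h
  · exact (Finset.mem_sdiff.1 h).1
  · exact mem_KT hK1 (Finset.mem_filter.1 h).1

/-- Two kept positions that are `K`-close belong to the same tile. -/
lemma cov_close (hKi : ∀ k ∈ K, k⁻¹ ∈ K) {J : Γ → Bool} {t₀ t k : Γ} (hk : k ∈ K)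
    (h₀ : t₀ ∈ T) (c₀ : cov K T J t₀) (c : covd K T (sh (k * t₀) J) t) : t = k * t₀ := by
  by_contra hne
  have hw : k⁻¹ * t ∈ K * T := Finset.mul_mem_mul (hKi k hk) c.1
  have hu : (k⁻¹ * t)⁻¹ * t₀ ∈ win K T := mem_win hw h₀
  refine c₀.2 _ hu ?_ ?_ ?_
  · intro h
    apply hne
    have : t⁻¹ * (k * t₀) = 1 := by rw [← h]; group
    rw [inv_mul_eq_one] at this
    exact this
  · have := c.2.1
    simp only [sh, one_mul] at this
    rw [← this]
    congr 1
    group
  · have : t₀ * ((k⁻¹ * t)⁻¹ * t₀)⁻¹ = t₀ * t₀⁻¹ * (k⁻¹ * t) := by group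
    rw [this]
    simpa using hw

lemma covd_unique (hK1 : (1 : Γ) ∈ K) (hKi : ∀ k ∈ K, k⁻¹ ∈ K) {J : Γ → Bool} {t t' : Γ}
    (h : covd K T J t) (h' : covd K T J t') : t' = t := by
  have := cov_close hKi (J := sh t⁻¹ J) (t := t') hK1 h.1 h.2 (by simpa [sh_sh] using h')
  simpa using this

/-- A position `K`-close to a kept position is kept or lies in the boundary set. -/
lemma mem_bdry (hKi : ∀ k ∈ K, k⁻¹ ∈ K) {J : Γ → Bool} {t₀ k : Γ} (hk : k ∈ K)
    (h₀ : t₀ ∈ T) (c₀ : cov K T J t₀) (c : ¬ covd K T (sh (k * t₀) J) (k * t₀)) :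
    k * t₀ ∈ bdry K T J := by
  classical
  unfold bdry
  by_cases hz : k * t₀ ∈ T
  · refine Finset.mem_union_right _ (Finset.mem_filter.2 ⟨hz, ?_⟩)
    by_contra hn
    apply c
    refine ⟨hz, ?_⟩
    rw [sh_sh, inv_mul_cancel, sh_one]
    refine ⟨c₀.1, fun u hu hu1 hJ hm => hn ⟨u, hu, hJ, Finset.mem_sdiff.2 ⟨hm, fun hT => ?_⟩⟩⟩
    refine c₀.2 u hu hu1 hJ ?_
    have := Finset.mul_mem_mul (hKi k hk) hT
    simpa [mul_assoc] using this
  · exact Finset.mem_union_left _ (Finset.mem_sdiff.2 ⟨Finset.mul_mem_mul hk h₀, hz⟩)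

section Prob

variable (β : Measure Bool) [IsProbabilityMeasure β]

lemma meas_one (u : Γ) : MeasurableSet {J : Γ → Bool | J u = true} := by
  have m : Measurable (fun J : Γ → Bool => J u) := measurable_pi_apply u
  exact m (MeasurableSet.of_discrete (s := ({true} : Set Bool)))

lemma prob_one (u : Γ) :
    ∫ J, ind (J u = true) ∂(Measure.infinitePi (fun _ : Γ => β)) = β.real {true} := by
  rw [integral_ite_one _ _ (meas_one u)]
  have := (measurePreserving_eval_infinitePi (fun _ : Γ => β) u).measureReal_preimage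
    (s := {true}) MeasurableSet.of_discrete.nullMeasurableSet
  exact this

lemma meas_two (u v : Γ) : MeasurableSet {J : Γ → Bool | J u = true ∧ J v = true} :=
  (meas_one u).inter (meas_one v)

lemma prob_two {u v : Γ} (h : u ≠ v) :
    ∫ J, ind (J u = true ∧ J v = true) ∂(Measure.infinitePi (fun _ : Γ => β))
      = β.real {true} ^ 2 := by
  rw [integral_ite_one _ _ (meas_two u v)]
  have e : {J : Γ → Bool | J u = true ∧ J v = true}
      = Set.pi (({u, v} : Finset Γ) : Set Γ) (fun _ => {true}) := by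
    ext J; simp
  rw [e, measureReal_def, Measure.infinitePi_pi _ (fun _ _ => MeasurableSet.of_discrete),
    Finset.prod_const, Finset.card_pair h, ENNReal.toReal_pow, measureReal_def]

lemma cov_dep (h1 : (1 : Γ) ∈ win K T) (t : Γ) :
    DependsOn (fun J => ind (cov K T J t)) (win K T : Set Γ) := by
  intro J J' h
  simp only [cov_congr h1 h t]

lemma prob_cov (h1 : (1 : Γ) ∈ win K T) (t : Γ) :
    β.real {true} - (K * T).card * β.real {true} ^ 2
      ≤ ∫ J, ind (cov K T J t) ∂(Measure.infinitePi (fun _ : Γ => β)) := by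
  have i1 : Integrable (fun J : Γ → Bool => ind (J 1 = true))
      (Measure.infinitePi (fun _ : Γ => β)) :=
    integrable_ite_one _ _ (meas_one 1)
  have i2 : ∀ w : Γ, Integrable (fun J : Γ → Bool => ind (J 1 = true ∧ J (w⁻¹ * t) = true))
      (Measure.infinitePi (fun _ : Γ => β)) := fun w => integrable_ite_one _ _ (meas_two _ _)
  have i3 : Integrable (fun J : Γ → Bool =>
      ∑ w ∈ (K * T).erase t, ind (J 1 = true ∧ J (w⁻¹ * t) = true))
      (Measure.infinitePi (fun _ : Γ => β)) := integrable_finsetSum _ fun w _ => i2 w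
  have key : ∀ J : Γ → Bool, ind (J 1 = true)
      - ∑ w ∈ (K * T).erase t, ind (J 1 = true ∧ J (w⁻¹ * t) = true) ≤ ind (cov K T J t) := by
    intro J
    have s0 : 0 ≤ ∑ w ∈ (K * T).erase t, ind (J 1 = true ∧ J (w⁻¹ * t) = true) :=
      Finset.sum_nonneg fun _ _ => ind_nonneg _
    by_cases hc : cov K T J t
    · rw [ind_pos hc]; linarith [ind_le_one (J 1 = true)]
    · rw [ind_neg hc]
      by_cases hJ : J 1 = true
      · unfold cov at hc
        simp only [hJ, true_and, not_forall, not_not] at hc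
        obtain ⟨u, -, hu1, hJu, hm⟩ := hc
        have hw : t * u⁻¹ ∈ (K * T).erase t := by
          refine Finset.mem_erase.2 ⟨fun h => hu1 ?_, hm⟩
          simpa using h
        have := Finset.single_le_sum
          (f := fun w => ind (J 1 = true ∧ J (w⁻¹ * t) = true)) (fun _ _ => ind_nonneg _) hw
        rw [ind_pos ⟨hJ, by simpa using hJu⟩] at this
        linarith [ind_le_one (J 1 = true)]
      · rw [ind_neg hJ]; linarith
  refine le_trans ?_ (integral_mono (i1.sub i3) (integrable_dep _ _ _ (cov_dep h1 t)) key)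
  simp only [Pi.sub_apply]
  rw [integral_sub i1 i3, integral_finsetSum _ fun w _ => i2 w, prob_one]
  have : ∑ w ∈ (K * T).erase t, ∫ J, ind (J 1 = true ∧ J (w⁻¹ * t) = true)
      ∂(Measure.infinitePi (fun _ : Γ => β)) ≤ (K * T).card * β.real {true} ^ 2 := by
    rw [Finset.sum_congr rfl fun w hw => prob_two β (u := 1) (v := w⁻¹ * t) (fun h =>
      (Finset.mem_erase.1 hw).1 (by rw [eq_comm, inv_mul_eq_one] at h; exact h)),
      Finset.sum_const, nsmul_eq_mul]
    have : (((K * T).erase t).card : ℝ) ≤ (K * T).card := by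
      exact_mod_cast Finset.card_erase_le
    gcongr
  linarith

lemma bdry_dep (h1 : (1 : Γ) ∈ win K T) (F : Finset Γ → ℝ) :
    DependsOn (fun J : Γ → Bool => ind (J 1 = true) * F (bdry K T J)) (win K T : Set Γ) := by
  intro J J' h
  simp only [bdry_congr h, h 1 h1]

lemma prob_bdry (h1 : (1 : Γ) ∈ win K T) :
    ∫ J, ind (J 1 = true) * ((bdry K T J).card : ℝ) ∂(Measure.infinitePi (fun _ : Γ => β))
      ≤ β.real {true} * ((K * T) \ T).card
        + T.card * (((K * T) \ T).card * β.real {true} ^ 2) := by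
  classical
  have i1 : Integrable (fun J : Γ → Bool => ind (J 1 = true))
      (Measure.infinitePi (fun _ : Γ => β)) :=
    integrable_ite_one _ _ (meas_one 1)
  have i2 : ∀ z w : Γ, Integrable (fun J : Γ → Bool => ind (J 1 = true ∧ J (w⁻¹ * z) = true))
      (Measure.infinitePi (fun _ : Γ => β)) := fun z w => integrable_ite_one _ _ (meas_two _ _)
  have i3 : ∀ z : Γ, Integrable (fun J : Γ → Bool =>
      ∑ w ∈ (K * T) \ T, ind (J 1 = true ∧ J (w⁻¹ * z) = true))
      (Measure.infinitePi (fun _ : Γ => β)) := fun z => integrable_finsetSum _ fun w _ => i2 z w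
  have i4 : Integrable (fun J : Γ → Bool =>
      ∑ z ∈ T, ∑ w ∈ (K * T) \ T, ind (J 1 = true ∧ J (w⁻¹ * z) = true))
      (Measure.infinitePi (fun _ : Γ => β)) := integrable_finsetSum _ fun z _ => i3 z
  have i5 : Integrable (fun J : Γ → Bool => ind (J 1 = true) * (((K * T) \ T).card : ℝ)
      + ∑ z ∈ T, ∑ w ∈ (K * T) \ T, ind (J 1 = true ∧ J (w⁻¹ * z) = true))
      (Measure.infinitePi (fun _ : Γ => β)) := (i1.mul_const _).add i4
  have key : ∀ J : Γ → Bool, ind (J 1 = true) * ((bdry K T J).card : ℝ)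
      ≤ ind (J 1 = true) * (((K * T) \ T).card : ℝ)
        + ∑ z ∈ T, ∑ w ∈ (K * T) \ T, ind (J 1 = true ∧ J (w⁻¹ * z) = true) := by
    intro J
    by_cases hJ : J 1 = true
    · rw [ind_pos hJ, one_mul, one_mul]
      unfold bdry
      have a1 := Finset.card_union_le ((K * T) \ T)
        (T.filter (fun z => ∃ u ∈ win K T, J u = true ∧ z * u⁻¹ ∈ (K * T) \ T))
      have a2 : ((((K * T) \ T) ∪ T.filter
          (fun z => ∃ u ∈ win K T, J u = true ∧ z * u⁻¹ ∈ (K * T) \ T)).card : ℝ)
          ≤ ((K * T) \ T).card + ((T.filter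
            (fun z => ∃ u ∈ win K T, J u = true ∧ z * u⁻¹ ∈ (K * T) \ T)).card : ℝ) := by
        exact_mod_cast a1
      refine a2.trans (add_le_add le_rfl ?_)
      rw [card_filter_eq_sum_ind]
      refine Finset.sum_le_sum fun z _ => ?_
      by_cases hz : ∃ u ∈ win K T, J u = true ∧ z * u⁻¹ ∈ (K * T) \ T
      · rw [ind_pos hz]
        obtain ⟨u, -, hJu, hm⟩ := hz
        have := Finset.single_le_sum
          (f := fun w => ind (J 1 = true ∧ J (w⁻¹ * z) = true)) (fun _ _ => ind_nonneg _) hm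
        rwa [ind_pos ⟨hJ, by simpa using hJu⟩] at this
      · rw [ind_neg hz]
        exact Finset.sum_nonneg fun _ _ => ind_nonneg _
    · rw [ind_neg hJ, zero_mul, zero_mul, zero_add]
      exact Finset.sum_nonneg fun _ _ => Finset.sum_nonneg fun _ _ => ind_nonneg _
  refine (integral_mono (integrable_dep _ _ _ (bdry_dep h1 (fun B => (B.card : ℝ)))) i5 key).trans
    (le_of_eq ?_)
  rw [integral_add (i1.mul_const _) i4, integral_mul_const, prob_one,
    integral_finsetSum _ fun z _ => i3 z]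
  congr 1
  rw [Finset.sum_congr rfl (g := fun _ => ((K * T) \ T).card * β.real {true} ^ 2),
    Finset.sum_const, nsmul_eq_mul]
  intro z hz
  rw [integral_finsetSum _ fun w _ => i2 z w,
    Finset.sum_congr rfl fun w hw => prob_two β (u := 1) (v := w⁻¹ * z) (fun h =>
      (Finset.mem_sdiff.1 hw).2 (by rw [eq_comm, inv_mul_eq_one] at h; exact h ▸ hz)),
    Finset.sum_const, nsmul_eq_mul]

/-- A pattern read through an injective colouring is an independent sample. -/
lemma law_transfer {C : Type*} (U : Finset Γ) (j : Γ → C) (hj : InjOn j (U : Set Γ))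
    (F : (Γ → Bool) → ℝ) (hF : DependsOn F (U : Set Γ)) :
    ∫ I, F (fun u => I (j u)) ∂(Measure.infinitePi (fun _ : C => β))
      = ∫ J, F J ∂(Measure.infinitePi (fun _ : Γ => β)) := by
  have m1 := mp_precomp β (fun u : U => j u) (fun a b h => Subtype.ext (hj a.2 b.2 h))
  have m2 := mp_precomp β (fun u : U => (u : Γ)) Subtype.val_injective
  have hm : AEStronglyMeasurable (fun p : U → Bool => F (extP U p))
      (Measure.infinitePi (fun _ : U => β)) := (measurable_of_finite _).aestronglyMeasurable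
  have e1 := integral_map m1.measurable.aemeasurable (m1.map_eq.symm ▸ hm)
  have e2 := integral_map m2.measurable.aemeasurable (m2.map_eq.symm ▸ hm)
  rw [m1.map_eq] at e1
  rw [m2.map_eq] at e2
  have a1 : ∀ I : C → Bool, F (fun u => I (j u)) = F (extP U (fun k : U => I (j k))) :=
    fun I => hF fun z hz => by simp [extP, Finset.mem_coe.1 hz]
  have a2 : ∀ J : Γ → Bool, F J = F (extP U (fun k : U => J k)) :=
    fun J => hF fun z hz => by simp [extP, Finset.mem_coe.1 hz]
  calc _ = ∫ I, F (extP U (fun k : U => I (j k))) ∂(Measure.infinitePi (fun _ : C => β)) := by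
        simp_rw [← a1]
    _ = _ := by
        rw [← e1, e2]
        simp_rw [← a2]

end Prob

lemma exists_bern (p : ℝ) (h0 : 0 ≤ p) (h1 : p ≤ 1) :
    ∃ β : Measure Bool, IsProbabilityMeasure β ∧ β.real {true} = p := by
  refine ⟨ENNReal.ofReal p • Measure.dirac true + ENNReal.ofReal (1 - p) • Measure.dirac false,
    ⟨?_⟩, ?_⟩
  · simp only [Measure.add_apply, Measure.smul_apply, measure_univ, smul_eq_mul, mul_one]
    rw [← ENNReal.ofReal_add h0 (by linarith)]
    simp
  · simp [measureReal_def, h0]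

end Pool.Agent.P.MP_afd974_lc
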